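import Pool.Agent.Work.MP_849ab0_ag.G.ApiI
import Pool.Agent.Work.MP_849ab0_ag.G.QBasic

-- merged part: Pool.Agent.Work.MP_849ab0_ag.G.C.Fix
section
-- merged part: Pool.Agent.Work.MP_849ab0_ag.G.C.Act
section
/-!
Task C-Act. The actions are continuous; their restriction to the torus is diagonal.
Plan: first the calculus of hat (hat_mul, hat_add, hat_conj, hat_one, hat_inv for unitary g), then
mat_aN (entries outside the allowed colours vanish because g preserves the colouring) and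
blkAt_aE (outside the box both sides are 1 or 0, use g * g^H = 1); one/mul follow from these two
formulas by reading entries (y p is an entry of mat y, Q z is an entry of blkAt Q).
nsq of En P k is the sum over j i of trace (B j i ^H * B j i).
-/

noncomputable section

set_option linter.unusedSectionVars false
set_option linter.unusedVariables false

namespace Pool.Agent.Work.MP_849ab0_ag.G

open Set Topology Matrix

section

variable {J : Type} [Fintype J] [DecidableEq J]

theorem hat_add (c c' : ℂ) (g g' : Matrix J J ℂ) : hat c g + hat c' g' = hat (c + c') (g + g') := by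
  ext (_ | a) (_ | b) <;> simp [hat]

theorem hat_smul (a c : ℂ) (g : Matrix J J ℂ) : a • hat c g = hat (a * c) (a • g) := by
  ext (_ | a) (_ | b) <;> simp [hat]

theorem hat_conj (c : ℂ) (g : Matrix J J ℂ) : (hat c g)ᴴ = hat (star c) gᴴ := by
  ext (_ | a) (_ | b) <;> simp [hat]

theorem hat_zero : hat 0 (0 : Matrix J J ℂ) = 0 := by
  ext (_ | a) (_ | b) <;> simp [hat]

theorem hat_sum {ι : Type} (s : Finset ι) (c : ι → ℂ) (g : ι → Matrix J J ℂ) :
    ∑ i ∈ s, hat (c i) (g i) = hat (∑ i ∈ s, c i) (∑ i ∈ s, g i) := by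
  induction s using Finset.cons_induction with
  | empty => exact hat_zero.symm
  | cons a s h ih => rw [Finset.sum_cons, Finset.sum_cons, Finset.sum_cons, ih, hat_add]

theorem hat_inv_u {g : Matrix J J ℂ} (h : gᴴ * g = 1) : (hat 1 g)⁻¹ = hat 1 gᴴ :=
  Matrix.inv_eq_left_inv (by rw [hat_mul, h, one_mul, hat_one])

theorem continuous_hat2 {X : Type} [TopologicalSpace X] {c : X → ℂ} {g : X → Matrix J J ℂ}
    (hc : Continuous c) (hg : Continuous g) : Continuous fun x => hat (c x) (g x) := by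
  refine continuous_matrix ?_
  rintro (_ | a) (_ | b)
  exacts [hc, continuous_const, continuous_const, hg.matrix_elem a b]

end

variable {I P E κ : Type} [Fintype I] [DecidableEq I] [Fintype P] [DecidableEq P] [Fintype E]
  [Fintype κ] [DecidableEq κ] (D : Qv I P E κ)

theorem act_blk {k : ℕ} (Q : En P k) (j i : Pos k) :
    blkAt Q j i = Matrix.of fun b a => Q ((b, j), (a, i)) := dif_pos ⟨j.2, i.2⟩

theorem blkAt_mem {k : ℕ} (Q : En P k) (y x : P × Pos k) : blkAt Q y.2 x.2 y.1 x.1 = Q (y, x) := by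
  rw [act_blk]
  rfl

theorem continuous_blkAt (k : ℕ) (j i : ℤ) : Continuous fun Q : En P k => blkAt Q j i := by
  unfold blkAt
  split_ifs
  exacts [continuous_matrix fun b a => continuous_apply _, continuous_const, continuous_const]

theorem act_ext {k : ℕ} {Q Q' : En P k} (h : ∀ j i, blkAt Q j i = blkAt Q' j i) : Q = Q' :=
  funext fun z => by rw [← blkAt_mem Q z.1 z.2, h, blkAt_mem]

theorem act_nsq {k : ℕ} (Q : En P k) :
    (nsq Q : ℂ) = ∑ j : Pos k × Pos k, trace (blkAt Q j.1 j.2 * (blkAt Q j.1 j.2)ᴴ) := by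
  rw [nsq, ← (Equiv.prodProdProdComm P P (Pos k) (Pos k)).sum_comp, Fintype.sum_prod_type_right,
    Complex.ofReal_sum]
  refine Finset.sum_congr rfl fun j _ => ?_
  rw [Fintype.sum_prod_type]
  simp [act_blk, trace, Matrix.mul_apply, Complex.mul_conj, Complex.normSq_eq_norm_sq]

theorem act_star (m : κ → ℤ) (g : κ → Circle) : star (chr m g) = (chr m g)⁻¹ :=
  (Complex.inv_eq_conj ((isChar_chr m).norm g)).symm

theorem act_sub (m m' : κ → ℤ) (g : κ → Circle) :
    chr (m - m') g = chr m g * star (chr m' g) := by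
  rw [sub_eq_add_neg, chr_add, ← neg_one_zsmul, chr_zsmul, _root_.zpow_neg_one, act_star]

theorem act_chr_mul (m : κ → ℤ) (g h : κ → Circle) : chr m (g * h) = chr m g * chr m h :=
  (isChar_chr m).mul g h

theorem act_chr_one (m : κ → ℤ) : chr m 1 = 1 := (isChar_chr m).one

theorem act_chr_ne (m : κ → ℤ) (g : κ → Circle) : chr m g ≠ 0 := (isChar_chr m).ne_zero g

theorem act_diag (g : P → Circle) :
    hat 1 (diagonal fun j => (g j : ℂ)) = diagonal fun o => chr (os o) g := by
  ext (_ | a) (_ | b)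
  · simp [hat, os, chr]
  · simp [hat]
  · simp [hat]
  · simp [hat, os, chr_single, diagonal_apply]

theorem act_cont {C : Type} (c : P → C) : Continuous fun g : Ub c => g.1.1 :=
  continuous_subtype_val.comp continuous_subtype_val

theorem act_l {C : Type} {c : P → C} (g : Ub c) : g.1.1ᴴ * g.1.1 = 1 := g.1.2.1

theorem act_r {C : Type} {c : P → C} (g : Ub c) : g.1.1 * g.1.1ᴴ = 1 := g.1.2.2

theorem act_col {C : Type} {c : P → C} (g : Ub c) {b a : Option P} (h : hat 1 g.1.1 b a ≠ 0) :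
    b.map c = a.map c := by
  rcases b with _ | b <;> rcases a with _ | a
  · rfl
  · exact absurd rfl h
  · exact absurd rfl h
  · exact congrArg some (by_contra fun e => h (g.2 b a e))

theorem ch_add (w w' : WT P κ) (g : (TT P κ).H) : ch (w + w') g = ch w g * ch w' g := by
  simp only [ch, Prod.fst_add, Prod.snd_add, chr_add]
  ring

theorem ch_ne_zero (w : WT P κ) (g : (TT P κ).H) : ch w g ≠ 0 :=
  (isChar_ch w).ne_zero g

theorem ch_zero (g : (TT P κ).H) : ch (0 : WT P κ) g = 1 := by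
  simp [ch, chr]

theorem ch_shT (h : κ → ℤ) (l : P → ℤ) (w : WT P κ) (g : (TT P κ).H) :
    ch w (shT h l g) = ch (shW h l w) g := by
  have e : ∀ s : Finset P, ∏ a ∈ s, (chr h g.2 ^ l a) ^ w.1 a = chr h g.2 ^ ∑ a ∈ s, w.1 a * l a :=
    fun s => by
      induction s using Finset.cons_induction with
      | empty => simp
      | cons a s ha ih => rw [Finset.prod_cons, Finset.sum_cons, ih, zpow_add₀ (act_chr_ne _ _),
          ← _root_.zpow_mul, mul_comm (l a)]
  simp only [ch, shT, shW, chr_add, chr_zsmul, ← e]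
  rw [chr, show chr w.1 g.1 = ∏ j, (g.1 j : ℂ) ^ w.1 j from rfl]
  simp only [Circle.coe_mul, Circle.coe_zpow, coe_chc, mul_zpow, Finset.prod_mul_distrib]
  ring

theorem ch_pmT (σ : Equiv.Perm P) (w : WT P κ) (g : (TT P κ).H) :
    ch w (pmT σ g) = ch (w.1 ∘ σ, w.2) g := by
  refine congrArg (· * chr w.2 g.2) ((Equiv.prod_comp σ _).symm.trans ?_)
  simp only [pmT, chr, Function.comp_apply, Equiv.symm_apply_apply]

instance isHom_shT (h : κ → ℤ) (l : P → ℤ) : IsHom (shT h l) := by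
  refine ⟨fun g g' => Prod.ext (funext fun a => ?_) rfl, Continuous.prodMk (continuous_pi fun a =>
    ((continuous_apply a).comp continuous_fst).mul (Continuous.zpow (continuous_finsetProd _
      fun j _ => ((continuous_apply j).comp continuous_snd).zpow _) _)) continuous_snd⟩
  simp only [shT, chc, Gp.prod_mul_fst, Gp.prod_mul_snd, Pi.mul_apply, mul_zpow,
    Finset.prod_mul_distrib]
  exact mul_mul_mul_comm _ _ _ _

instance isHom_pmT (σ : Equiv.Perm P) : IsHom (pmT (κ := κ) σ) :=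
  ⟨fun g g' => rfl, Continuous.prodMk (continuous_pi fun a =>
    (continuous_apply _).comp continuous_fst) continuous_snd⟩

namespace Qv

instance isHom_p13 : IsHom D.p13 :=
  ⟨fun g g' => rfl, continuous_fst.prodMk (continuous_snd.comp continuous_snd)⟩

instance isHom_thT (l : P → ℤ) : IsHom (D.thT l) :=
  IsHom.prodMk (φ := Prod.fst ∘ D.ic ∘ shT D.h l)
    (IsHom.comp (h := IsHom.fst) (k := IsHom.comp (h := IsHom.inc _ _))) (IsHom.inc _ _)

theorem cmat_apply (y : D.Rep) (p : D.Wt) : D.mat y p.1.1 p.1.2.2 p.1.2.1 = y p :=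
  dif_pos p.2

theorem cmat_cont (e : E) : Continuous fun y : D.Rep => D.mat y e := by
  refine continuous_matrix fun b a => ?_
  simp only [mat, of_apply]
  split_ifs
  exacts [continuous_apply _, continuous_const]

theorem cmat_zero (e : E) : D.mat 0 e = 0 := by
  ext b a
  simp only [mat, of_apply, Matrix.zero_apply]
  split_ifs
  exacts [rfl, rfl]

theorem cmat_add (y y' : D.Rep) (e : E) : D.mat (y + y') e = D.mat y e + D.mat y' e := by
  ext b a
  simp only [mat, of_apply, Matrix.add_apply]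
  split_ifs
  exacts [rfl, (add_zero _).symm]

theorem cmat_smul (c : ℂ) (y : D.Rep) (e : E) : D.mat (c • y) e = c • D.mat y e := by
  ext b a
  simp only [mat, of_apply, Matrix.smul_apply]
  split_ifs
  exacts [rfl, (smul_zero _).symm]

/-- a matrix with the colours of the arrow `e` is a component of a representation -/
theorem cmat_of {M : E → Matrix (Option P) (Option P) ℂ}
    (h : ∀ e b a, M e b a ≠ 0 → a.map D.col = D.src e ∧ b.map D.col = D.tgt e) (e : E) :
    D.mat (fun p => M p.1.1 p.1.2.2 p.1.2.1) e = M e := by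
  ext b a
  simp only [mat, of_apply]
  split_ifs with hc
  exacts [rfl, by_contra fun h' => hc (h e b a (Ne.symm h'))]

theorem act_mext {y y' : D.Rep} (h : ∀ e, D.mat y e = D.mat y' e) : y = y' :=
  funext fun p => by rw [← D.cmat_apply y p, h, cmat_apply]

theorem cmat_aN (g : (KT D.col κ).H) (y : D.Rep) (e : E) : D.mat (D.aN.act g y) e =
    chr (D.t e) g.2 • (hat 1 g.1.1.1 * D.mat y e * (hat 1 g.1.1.1)ᴴ) := by
  refine Eq.trans ?_ (D.cmat_of (M := fun e =>
    chr (D.t e) g.2 • (hat 1 g.1.1.1 * D.mat y e * (hat 1 g.1.1.1)ᴴ)) (fun e b a h => ?_) e)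
  · refine congrArg (D.mat · e) (funext fun p => ?_)
    rw [hat_conj, star_one, ← hat_inv_u (act_l g.1)]
    rfl
  · obtain ⟨a', -, h1⟩ := Finset.exists_ne_zero_of_sum_ne_zero (right_ne_zero_of_mul h)
    obtain ⟨b', -, h2⟩ := Finset.exists_ne_zero_of_sum_ne_zero (left_ne_zero_of_mul h1)
    rw [act_col g.1 (left_ne_zero_of_mul h2),
      act_col g.1 (star_ne_zero.1 (right_ne_zero_of_mul h1))]
    exact by_contra fun hc => right_ne_zero_of_mul h2 (dif_neg hc)

theorem blkAt_aE (k : ℕ) (g : (KT D.col κ).H) (Q : En P k) (j i : ℤ) :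
    blkAt ((D.aE k).act g Q) j i = chr D.h g.2 ^ (j - i) • (g.1.1.1 * blkAt Q j i * g.1.1.1ᴴ) := by
  by_cases h : j ∈ Finset.Ico (-(k : ℤ)) k ∧ i ∈ Finset.Ico (-(k : ℤ)) k
  · exact dif_pos h
  · rw [blkAt, dif_neg h, blkAt, dif_neg h]
    split_ifs with h'
    · rw [h'.1, sub_self, zpow_zero, one_smul, mul_one, act_r]
    · rw [mul_zero, zero_mul, smul_zero]

theorem act_smul (g : (KT D.col κ).H) (c : ℂ) (y : D.Rep) :
    D.aN.act g (c • y) = c • D.aN.act g y := D.act_mext fun e => by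
  rw [cmat_smul, cmat_aN, cmat_aN, cmat_smul, Matrix.mul_smul, Matrix.smul_mul, smul_comm]

instance cOkN : D.aN.Ok := by
  refine ⟨fun y => D.act_mext fun e => ?_, fun g h y => D.act_mext fun e => ?_,
    continuous_pi fun p => ?_⟩
  · rw [cmat_aN, Gp.prod_one_snd, act_chr_one, one_smul,
      show hat 1 (1 : (KT D.col κ).H).1.1.1 = 1 from hat_one, conjTranspose_one, one_mul, mul_one]
  · rw [cmat_aN, cmat_aN, cmat_aN, Gp.prod_mul_snd, act_chr_mul,
      show hat 1 (g * h).1.1.1 = hat 1 g.1.1.1 * hat 1 h.1.1.1 by rw [hat_mul, one_mul]; rfl]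
    simp only [conjTranspose_mul, Matrix.mul_smul, Matrix.smul_mul, smul_smul, mul_assoc]
  · have h1 : Continuous fun z : (KT D.col κ).H × D.Rep => hat 1 z.1.1.1.1 :=
      continuous_hat2 continuous_const ((act_cont _).comp continuous_fst.fst)
    simp only [← D.cmat_apply _ p, cmat_aN]
    exact (((isChar_chr _).cont.comp continuous_fst.snd).smul ((h1.matrix_mul
      ((D.cmat_cont _).comp continuous_snd)).matrix_mul h1.matrix_conjTranspose)).matrix_elem _ _

instance cOkO : D.aO.Ok := by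
  refine ⟨fun s => funext fun m => ?_, fun g h s => funext fun m => ?_, continuous_pi fun m =>
    (((isChar_chr _).cont.comp continuous_fst.snd).pow m).smul
      (D.aN.cont_act continuous_fst ((continuous_apply m).comp continuous_snd))⟩
  · simp only [aO, Gp.prod_one_snd, act_chr_one, one_pow, one_smul, Act.act_one]
  · simp only [aO, Gp.prod_mul_snd, act_chr_mul, mul_pow, Act.act_mul, act_smul, smul_smul]

instance cRepE (k : ℕ) : (D.aE k).Rep := by
  refine
    { one := fun Q => act_ext fun j i => ?_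
      mul := fun g h Q => act_ext fun j i => ?_
      cont := continuous_pi fun z => ?_
      lin := fun g => ⟨fun Q Q' => funext fun z => ?_, fun c Q => funext fun z => ?_⟩
      nsq := fun g Q => Complex.ofReal_injective ?_ }
  · rw [blkAt_aE, Gp.prod_one_snd, act_chr_one, _root_.one_zpow, one_smul,
      show (1 : (KT D.col κ).H).1.1.1 = 1 from rfl, conjTranspose_one, one_mul, mul_one]
  · rw [blkAt_aE, blkAt_aE, blkAt_aE, Gp.prod_mul_snd, act_chr_mul,
      show (g * h).1.1.1 = g.1.1.1 * h.1.1.1 from rfl]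
    simp only [conjTranspose_mul, Matrix.mul_smul, Matrix.smul_mul, smul_smul, mul_assoc, mul_zpow]
  · have h1 : Continuous fun z : (KT D.col κ).H × En P k => z.1.1.1.1 :=
      (act_cont _).comp continuous_fst.fst
    exact (((isChar_chr _).cont.comp continuous_fst.snd).zpow₀ _ fun _ =>
      Or.inl (act_chr_ne _ _)).mul (((h1.matrix_mul ((continuous_blkAt k _ _).comp
        continuous_snd)).matrix_mul h1.matrix_conjTranspose).matrix_elem _ _)
  · have e : blkAt (Q + Q') z.1.2 z.2.2 = blkAt Q z.1.2 z.2.2 + blkAt Q' z.1.2 z.2.2 := by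
      simp only [act_blk]
      rfl
    simp only [aE, e, Pi.add_apply, mul_add, add_mul, Matrix.add_apply]
  · have e : blkAt (c • Q) z.1.2 z.2.2 = c • blkAt Q z.1.2 z.2.2 := by
      simp only [act_blk]
      rfl
    simp only [aE, e, Pi.smul_apply, Matrix.mul_smul, Matrix.smul_mul, Matrix.smul_apply,
      smul_eq_mul, mul_left_comm c]
  · rw [act_nsq, act_nsq]
    refine Finset.sum_congr rfl fun j _ => ?_
    rw [blkAt_aE, conjTranspose_smul, Matrix.mul_smul, Matrix.smul_mul, smul_smul, star_zpow₀,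
      act_star, ← mul_zpow, inv_mul_cancel₀ (act_chr_ne _ _), _root_.one_zpow, one_smul,
      conjTranspose_mul, conjTranspose_mul, conjTranspose_conjTranspose, mul_assoc,
      ← mul_assoc _ g.1.1.1, act_l, one_mul, ← mul_assoc, trace_mul_comm, ← mul_assoc,
      ← mul_assoc, act_l, one_mul]

instance cOkF : D.aF.Ok := by
  refine ⟨fun z => Prod.ext (funext fun x => ?_) (D.aO.act_one _),
    fun g h z => Prod.ext (funext fun x => ?_) (D.aO.act_mul _ _ _),
    Continuous.prodMk (continuous_pi fun x => ?_)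
      (D.aO.cont_act continuous_fst.snd continuous_snd.snd)⟩
  · change chr D.h 1 ^ x • ((1 : Matrix P P ℂ) * z.1 x * 1ᴴ) = _
    rw [act_chr_one, _root_.one_zpow, one_smul, conjTranspose_one, one_mul, mul_one]
  · change chr D.h (g.2.2 * h.2.2) ^ x • (g.2.1.1.1 * h.2.1.1.1 * z.1 x * (g.1.1.1 * h.1.1.1)ᴴ) = _
    simp only [aF, act_chr_mul, conjTranspose_mul, Matrix.mul_smul, Matrix.smul_mul, smul_smul,
      mul_assoc, mul_zpow]
  · exact (((isChar_chr _).cont.comp continuous_fst.snd.snd).zpow₀ _ fun _ =>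
      Or.inl (act_chr_ne _ _)).smul ((((act_cont _).comp continuous_fst.snd.fst).matrix_mul
        ((continuous_apply x).comp continuous_snd.fst)).matrix_mul
          ((act_cont _).comp continuous_fst.fst).matrix_conjTranspose)

theorem aO_zero (g : (KT D.col κ).H) : D.aO.act g 0 = 0 := by
  funext m
  have h := D.act_smul g 0 0
  rw [zero_smul, zero_smul] at h
  exact (congrArg _ h).trans (smul_zero _)

theorem aE_ic (k : ℕ) (g : (TT P κ).H) (Q : En P k) :
    (D.aE k).act (D.ic g) Q = (wr (D.wE k)).act g Q := by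
  funext z
  change chr D.h g.2 ^ _ * ((diagonal fun j => (g.1 j : ℂ)) * blkAt Q z.1.2 z.2.2 *
    (diagonal fun j => (g.1 j : ℂ))ᴴ : Matrix P P ℂ) z.1.1 z.2.1 = _
  rw [wr_act, diagonal_conjTranspose, mul_diagonal, diagonal_mul, blkAt_mem, ch, wE, act_sub,
    chr_zsmul, chr_single, chr_single, Pi.star_apply]
  ring

theorem aO_ic (g : (TT P κ).H) (s : D.NO) (m : ℕ) (p : D.Wt) :
    D.aO.act (D.ic g) s m p = ch (D.wN p m) g * s m p := by
  change chr D.h g.2 ^ m * D.aN.act (D.ic g) (s m) p = _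
  rw [← D.cmat_apply (D.aN.act _ _) p, cmat_aN,
    show hat 1 (D.ic g).1.1.1 = _ from act_diag g.1, Matrix.smul_apply,
    diagonal_conjTranspose, mul_diagonal, diagonal_mul, cmat_apply, ch, wN, act_sub, chr_add,
    chr_zsmul, zpow_natCast, Pi.star_apply, smul_eq_mul, show (D.ic g).2 = g.2 from rfl]
  ring

theorem aF_thT (l : P → ℤ) (g : (TT P κ).H) : D.aF.act (D.thT l g) (tl l, 0) = (tl l, 0) := by
  refine Prod.ext (funext fun x => ?_) (D.aO_zero _)
  change chr D.h g.2 ^ x • ((diagonal fun j => (g.1 j : ℂ)) * tl l x *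
    (diagonal fun j => ((g.1 j * chc D.h g.2 ^ l j : Circle) : ℂ))ᴴ) = tl l x
  rw [tl, diagonal_conjTranspose, diagonal_mul_diagonal, diagonal_mul_diagonal, ← diagonal_smul]
  refine congrArg _ (funext fun a => ?_)
  simp only [Pi.smul_apply, Pi.star_apply, smul_eq_mul]
  split_ifs with h
  · rw [Complex.star_def, ← Circle.coe_inv_eq_conj, Circle.coe_inv, Circle.coe_mul, Circle.coe_zpow,
      coe_chc, h, mul_one, mul_inv, mul_inv_cancel_left₀ (g.1 a).coe_ne_zero,
      mul_inv_cancel₀ (zpow_ne_zero _ (act_chr_ne _ _))]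
  · rw [mul_zero, zero_mul, mul_zero]

end Qv

end Pool.Agent.Work.MP_849ab0_ag.G
end
end

-- merged part: Pool.Agent.Work.MP_849ab0_ag.G.C.Band
section
/-!
Task C-Band. Banded block matrices as operators on all functions ℤ → O → ℂ.
Plan: Band.comp: apply the formula for A to the vector B v; ent of a product is the formula for A
applied to B (single i (single a 1)). A banded operator has ent A j i = 0 for b < |j - i|
(apply the formula to a basis vector), which gives Band.mono.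
-/

noncomputable section

set_option linter.unusedSectionVars false
set_option linter.unusedVariables false

namespace Pool.Agent.Work.MP_849ab0_ag.G

open Set Topology Matrix

variable {O : Type} [Fintype O] [DecidableEq O]

/-- operators on two sided sequences -/
abbrev Opr (O : Type) : Type := Module.End ℂ (ℤ → O → ℂ)

/-- the block `(j, i)` of an operator -/
def ent (A : Opr O) (j i : ℤ) : Matrix O O ℂ :=
  Matrix.of fun b a => A (Pi.single i (Pi.single a 1)) j b

/-- `A` is given by a matrix with band width `b` -/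
def Band (b : ℕ) (A : Opr O) : Prop :=
  ∀ v j, A v j = ∑ x ∈ Finset.Icc (-(b : ℤ)) b, ent A j (j - x) *ᵥ v (j - x)

/-- the operator of a block matrix, cut at band width `b` -/
def mop (b : ℕ) (M : ℤ → ℤ → Matrix O O ℂ) : Opr O where
  toFun v j := ∑ x ∈ Finset.Icc (-(b : ℤ)) b, M j (j - x) *ᵥ v (j - x)
  map_add' u v := by ext j a; simp [mulVec_add, Finset.sum_add_distrib]
  map_smul' c v := by ext j a; simp [mulVec_smul, Finset.mul_sum]

theorem band_sum (b : ℕ) (M : ℤ → ℤ → Matrix O O ℂ) (j i : ℤ) (u : O → ℂ) :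
    ∑ x ∈ Finset.Icc (-(b : ℤ)) b, M j (j - x) *ᵥ (Pi.single i u : ℤ → O → ℂ) (j - x) =
      if |j - i| ≤ b then M j i *ᵥ u else 0 := by
  split_ifs with h
  · rw [Finset.sum_eq_single_of_mem (j - i) (Finset.mem_Icc.2 (abs_le.1 h)) fun x _ hx => by
      rw [Pi.single_eq_of_ne (by omega), mulVec_zero], sub_sub_cancel, Pi.single_eq_same]
  · refine Finset.sum_eq_zero fun x hx => ?_
    rw [Pi.single_eq_of_ne, mulVec_zero]
    rintro rfl
    exact h (by rw [sub_sub_cancel]; exact abs_le.2 (Finset.mem_Icc.1 hx))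

theorem band_fin {M : Type} [AddCommMonoid M] {b : ℕ} {j : ℤ} (f : ℤ → M)
    (h : ∀ y, (b : ℤ) < |j - y| → f y = 0) :
    ∑ x ∈ Finset.Icc (-(b : ℤ)) b, f (j - x) = ∑ᶠ y, f y := by
  rw [finsum_eq_sum_of_support_subset f (s := Finset.Icc (j - b) (j + b)) fun y hy => by
    have := abs_le.1 (not_lt.1 fun e => hy (h y e))
    simp only [Finset.coe_Icc, Set.mem_Icc]
    omega]
  refine Finset.sum_nbij' (j - ·) (j - ·) ?_ ?_ ?_ ?_ ?_ <;> simp only [Finset.mem_Icc] <;>
    intros <;> first | omega | trivial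


theorem ent_mop (b : ℕ) (M : ℤ → ℤ → Matrix O O ℂ) (j i : ℤ) :
    ent (mop b M) j i = if |j - i| ≤ b then M j i else 0 := by
  ext c a
  refine (congrFun (band_sum b M j i (Pi.single a 1)) c).trans ?_
  split_ifs <;> simp

theorem ent_mop' {b : ℕ} {M : ℤ → ℤ → Matrix O O ℂ} (h : ∀ j i, (b : ℤ) < |j - i| → M j i = 0)
    (j i : ℤ) : ent (mop b M) j i = M j i := by
  rw [ent_mop]
  split_ifs with e
  exacts [rfl, (h j i (not_le.1 e)).symm]

theorem band_mop (b : ℕ) (M : ℤ → ℤ → Matrix O O ℂ) : Band b (mop b M) := by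
  intro v j
  show ∑ x ∈ Finset.Icc (-(b : ℤ)) b, M j (j - x) *ᵥ v (j - x) = _
  refine Finset.sum_congr rfl fun x hx => ?_
  rw [ent_mop, sub_sub_cancel, if_pos (abs_le.2 (Finset.mem_Icc.1 hx))]

theorem Band.ent_zero {b : ℕ} {A : Opr O} (h : Band b A) {j i : ℤ} (e : (b : ℤ) < |j - i|) :
    ent A j i = 0 := by
  ext c a
  have := h (Pi.single i (Pi.single a 1)) j
  rw [band_sum b (ent A), if_neg (not_le.2 e)] at this
  exact congrFun this c

theorem band_app {b : ℕ} {A : Opr O} (h : Band b A) (v : ℤ → O → ℂ) (j : ℤ) :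
    A v j = ∑ᶠ y, ent A j y *ᵥ v y := by
  rw [h, band_fin (fun y => ent A j y *ᵥ v y) fun y e => by rw [h.ent_zero e, zero_mulVec]]


theorem Band.mono {b c : ℕ} {A : Opr O} (h : Band b A) (e : b ≤ c) : Band c A := by
  intro v j
  rw [band_app h, band_fin (fun y => ent A j y *ᵥ v y) fun y e' => by
    rw [h.ent_zero (by omega), zero_mulVec]]

theorem Band.ext {b c : ℕ} {A B : Opr O} (h : Band b A) (h' : Band c B)
    (e : ∀ j i, ent A j i = ent B j i) : A = B := by
  refine LinearMap.ext fun v => funext fun j => ?_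
  simp only [band_app h, band_app h', e]

theorem band_ent_mul {b : ℕ} {A : Opr O} (h : Band b A) (B : Opr O) (j i : ℤ) :
    ent (A * B) j i = ∑ x ∈ Finset.Icc (-(b : ℤ)) b, ent A j (j - x) * ent B (j - x) i := by
  ext c a
  refine (congrFun (h (B (Pi.single i (Pi.single a 1))) j) c).trans ?_
  rw [Finset.sum_apply, Matrix.sum_apply]
  rfl


theorem Band.mul {b c : ℕ} {A B : Opr O} (h : Band b A) (h' : Band c B) : Band (b + c) (A * B) := by
  intro v j
  simp only [band_ent_mul h, Matrix.sum_mulVec, ← mulVec_mulVec]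
  rw [Finset.sum_comm, Module.End.mul_apply, h]
  refine Finset.sum_congr rfl fun x hx => ?_
  rw [← Matrix.mulVec_sum, band_app h', band_fin (fun y => ent B (j - x) y *ᵥ v y) fun y e => by
    have := Finset.mem_Icc.1 hx
    rw [h'.ent_zero, zero_mulVec]
    rw [lt_abs] at e ⊢
    omega]

theorem Band.add {b : ℕ} {A B : Opr O} (h : Band b A) (h' : Band b B) : Band b (A + B) := by
  intro v j
  rw [LinearMap.add_apply, Pi.add_apply, h, h', ← Finset.sum_add_distrib]
  exact Finset.sum_congr rfl fun x _ => (add_mulVec _ _ _).symm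

theorem Band.sub {b : ℕ} {A B : Opr O} (h : Band b A) (h' : Band b B) : Band b (A - B) := by
  intro v j
  rw [LinearMap.sub_apply, Pi.sub_apply, h, h', ← Finset.sum_sub_distrib]
  exact Finset.sum_congr rfl fun x _ => (sub_mulVec _ _ _).symm

theorem band_ent_one (j i : ℤ) : ent (1 : Opr O) j i = if j = i then 1 else 0 := by
  ext c a
  split_ifs with h
  · simp [ent, h, Pi.single_apply, Matrix.one_apply]
  · simp [ent, h]


theorem band_one (b : ℕ) : Band b (1 : Opr O) := by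
  intro v j
  rw [Finset.sum_eq_single_of_mem 0 (by simp) fun x _ hx => by
    rw [band_ent_one, if_neg (by omega), zero_mulVec]]
  simp [band_ent_one]

theorem band_zero (b : ℕ) : Band b (0 : Opr O) :=
  fun v j => (Finset.sum_eq_zero fun x _ => zero_mulVec _).symm

theorem ent_one (j i : ℤ) : ent (1 : Opr O) j i = if j = i then 1 else 0 := band_ent_one j i

theorem ent_zero (j i : ℤ) : ent (0 : Opr O) j i = 0 := rfl

theorem ent_add (A B : Opr O) (j i : ℤ) : ent (A + B) j i = ent A j i + ent B j i := rfl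

theorem ent_sub (A B : Opr O) (j i : ℤ) : ent (A - B) j i = ent A j i - ent B j i := rfl

theorem Band.ent_mul {b : ℕ} {A : Opr O} (h : Band b A) (B : Opr O) (j i : ℤ) :
    ent (A * B) j i = ∑ x ∈ Finset.Icc (-(b : ℤ)) b, ent A j (j - x) * ent B (j - x) i :=
  band_ent_mul h B j i

/-- the product as a sum over any finite set that contains the relevant indices -/
theorem Band.ent_mul' {b : ℕ} {A : Opr O} (h : Band b A) (B : Opr O) (j i : ℤ) (s : Finset ℤ)
    (hs : ∀ y, y ∉ s → ent A j y * ent B y i = 0) :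
    ent (A * B) j i = ∑ y ∈ s, ent A j y * ent B y i := by
  rw [h.ent_mul, band_fin (fun y => ent A j y * ent B y i) fun y e => by
    rw [h.ent_zero e, zero_mul]]
  exact finsum_eq_sum_of_support_subset _ fun y hy => by_contra fun e => hy (hs y e)

/-- the Toeplitz operator with symbol `σ` -/
def top (b : ℕ) (σ : ℤ → Matrix O O ℂ) : Opr O := mop b fun j i => σ (j - i)

/-- the blocks of the lattice projection `Q` on `V ⊕ ℂ` -/
def hb {P : Type} [Fintype P] [DecidableEq P] {k : ℕ} (Q : En P k) (j i : ℤ) :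
    Matrix (Option P) (Option P) ℂ := hat (if j = i ∧ 0 ≤ i then 1 else 0) (blkAt Q j i)

/-- its operator -/
def bo {P : Type} [Fintype P] [DecidableEq P] {k : ℕ} (Q : En P k) : Opr (Option P) :=
  mop (2 * k) (hb Q)

variable {P : Type} [Fintype P] [DecidableEq P] {k : ℕ}

theorem band_out (Q : En P k) {j i : ℤ}
    (h : ¬(j ∈ Finset.Ico (-(k : ℤ)) k ∧ i ∈ Finset.Ico (-(k : ℤ)) k)) :
    hb Q j i = if j = i ∧ (k : ℤ) ≤ i then 1 else 0 := by
  rw [hb, blkAt, dif_neg h]
  simp only [Finset.mem_Ico] at h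
  by_cases e : j = i ∧ (k : ℤ) ≤ i
  · rw [if_pos e, if_pos e, if_pos (by omega), hat_one]
  · rw [if_neg e, if_neg e, if_neg (by omega), hat_zero]

theorem band_out0 (Q : En P k) {j i : ℤ}
    (h : ¬(j ∈ Finset.Ico (-(k : ℤ)) k ∧ i ∈ Finset.Ico (-(k : ℤ)) k))
    (e : ¬(j = i ∧ (k : ℤ) ≤ i)) : hb Q j i = 0 := by
  rw [band_out Q h, if_neg e]


theorem ent_bo (Q : En P k) (j i : ℤ) : ent (bo Q) j i = hb Q j i := by
  refine ent_mop' (fun j i e => ?_) j i
  rw [lt_abs] at e
  exact band_out0 Q (by simp only [Finset.mem_Ico]; omega) (by omega)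

theorem hb_out (Q : En P k) {j i : ℤ}
    (h : ¬(j ∈ Finset.Ico (-(k : ℤ)) k ∧ i ∈ Finset.Ico (-(k : ℤ)) k)) :
    hb Q j i = if j = i ∧ (k : ℤ) ≤ i then 1 else 0 := band_out Q h

/-- the finite part of a block matrix -/
def bandC (k : ℕ) (M : ℤ → ℤ → Matrix O O ℂ) : Matrix (O × Pos k) (O × Pos k) ℂ :=
  Matrix.of fun y x => M y.2 x.2 y.1 x.1

theorem bandC_mul (M N : ℤ → ℤ → Matrix O O ℂ) : bandC k M * bandC k N =
    bandC k fun j i => ∑ t ∈ Finset.Ico (-(k : ℤ)) k, M j t * N t i := by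
  ext y x
  simp only [bandC, Matrix.mul_apply, of_apply, Matrix.sum_apply]
  rw [Fintype.sum_prod_type_right,
    ← Finset.sum_coe_sort (Finset.Ico (-(k : ℤ)) k) fun t => ∑ c, M y.2 t y.1 c * N t x.2 c x.1]

theorem bandC_eq {M N : ℤ → ℤ → Matrix O O ℂ} : bandC k M = bandC k N ↔
    ∀ j ∈ Finset.Ico (-(k : ℤ)) k, ∀ i ∈ Finset.Ico (-(k : ℤ)) k, M j i = N j i :=
  ⟨fun h j hj i hi => Matrix.ext fun c a => congrFun (congrFun h (c, ⟨j, hj⟩)) (a, ⟨i, hi⟩),
    fun h => Matrix.ext fun y x => congrFun (congrFun (h _ y.2.2 _ x.2.2) y.1) x.1⟩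

theorem band_ext (Q : En P k) : ext Q = bandC k (hb Q) := by
  ext y x
  simp only [ext, bandC, hb, of_apply, Subtype.ext_iff]

theorem band_bo (Q : En P k) : Band (2 * k) (bo Q) := band_mop _ _


theorem ext_herm_iff (Q : En P k) : (ext Q)ᴴ = ext Q ↔ ∀ j i, (hb Q i j)ᴴ = hb Q j i := by
  rw [band_ext]
  refine (bandC_eq (M := fun j i => (hb Q i j)ᴴ)).trans ⟨fun h j i => ?_, fun h j _ i _ => h j i⟩
  by_cases e : j ∈ Finset.Ico (-(k : ℤ)) k ∧ i ∈ Finset.Ico (-(k : ℤ)) k
  · exact h j e.1 i e.2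
  rw [hb_out Q e, hb_out Q fun e' => e e'.symm]
  by_cases e' : j = i ∧ (k : ℤ) ≤ i
  · rw [if_pos e', if_pos (by omega), conjTranspose_one]
  · rw [if_neg e', if_neg (by omega), conjTranspose_zero]

theorem ext_idem_iff (Q : En P k) : ext Q * ext Q = ext Q ↔ bo Q * bo Q = bo Q := by
  have key : ∀ (j i : ℤ) (s : Finset ℤ), (∀ y, y ∉ s → hb Q j y * hb Q y i = 0) →
      ent (bo Q * bo Q) j i = ∑ y ∈ s, hb Q j y * hb Q y i := fun j i s hs => by
    simpa only [ent_bo] using (band_bo Q).ent_mul' (bo Q) j i s (by simpa only [ent_bo] using hs)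
  have k1 : ∀ j ∈ Finset.Ico (-(k : ℤ)) k, ∀ i, ent (bo Q * bo Q) j i =
      ∑ y ∈ Finset.Ico (-(k : ℤ)) k, hb Q j y * hb Q y i := fun j hj i => key j i _ fun y hy => by
    rw [band_out0 Q (fun e => hy e.2) fun e => hy (e.1 ▸ hj), zero_mul]
  rw [band_ext, bandC_mul, bandC_eq]
  refine ⟨fun h => ((band_bo Q).mul (band_bo Q)).ext (band_bo Q) fun j i => ?_,
    fun h j hj i _ => by rw [← k1 j hj, h, ent_bo]⟩
  rw [ent_bo]
  by_cases hj : j ∈ Finset.Ico (-(k : ℤ)) k
  · by_cases hi : i ∈ Finset.Ico (-(k : ℤ)) k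
    · rw [k1 j hj, h j hj i hi]
    · have e : hb Q j i = 0 := band_out0 Q (fun e => hi e.2) fun e => hi (e.1 ▸ hj)
      rw [key j i {i} fun y hy => by
        rw [band_out0 Q (j := y) (fun e => hi e.2) fun e => hy (Finset.mem_singleton.2 e.1),
          mul_zero], Finset.sum_singleton, e, zero_mul]
  · rw [key j i {j} fun y hy => by
      rw [band_out0 Q (fun e => hj e.1) fun e => hy (Finset.mem_singleton.2 e.1.symm), zero_mul],
      Finset.sum_singleton]
    by_cases e : (k : ℤ) ≤ j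
    · rw [hb_out Q (i := j) fun e => hj e.1, if_pos ⟨rfl, e⟩, one_mul]
    · rw [band_out0 Q (i := i) (fun e => hj e.1) (by omega), mul_zero]

/-- only the coefficients below `2 k` of the power series matter -/
theorem pres_iff (Q : En P k) {s : ℕ → Matrix (Option P) (Option P) ℂ} {b : ℕ} {S : Opr (Option P)}
    (hS : Band b S) (h0 : ∀ j i, j < i → ent S j i = 0)
    (h1 : ∀ (i : ℤ) (m : ℕ), m < 2 * k → ent S (i + m) i = s m) :
    Pres (ext Q) (ser k s) ↔ (1 - bo Q) * S * bo Q = 0 := by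
  have hN : Band (2 * k) (1 - bo Q) := (band_one _).sub (band_bo Q)
  have e1 : 1 - bandC k (hb Q) = bandC k (ent (1 - bo Q)) := by
    ext y x
    simp only [bandC, Matrix.sub_apply, of_apply, ent_sub, ent_one, ent_bo, Matrix.one_apply,
      Prod.ext_iff, Subtype.ext_iff]
    by_cases e : y.2.1 = x.2.1
    · simp [e, Matrix.one_apply]
    · simp [e]
  have e2 : ser k s = bandC k (ent S) := by
    ext y x
    have hy := Finset.mem_Ico.1 y.2.2
    have hx := Finset.mem_Ico.1 x.2.2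
    simp only [ser, bandC, of_apply]
    split_ifs with e
    · rw [← h1 x.2 (y.2.1 - x.2.1).toNat (by omega), Int.toNat_of_nonneg (by omega), add_sub_cancel]
    · rw [h0 _ _ (not_le.1 e), Matrix.zero_apply]
  have n0 : ∀ j y, ¬(j ∈ Finset.Ico (-(k : ℤ)) k ∧ y ∈ Finset.Ico (-(k : ℤ)) k) → -(k : ℤ) ≤ y →
      ent (1 - bo Q) j y = 0 := fun j y h hy => by
    rw [ent_sub, ent_one, ent_bo, hb_out Q h, sub_eq_zero]
    simp only [Finset.mem_Ico] at h
    exact if_congr (by omega) rfl rfl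
  have n1 : ∀ (y i : ℤ) (t : Finset ℤ), (∀ z, z ∉ t → y < z ∨ z < -(k : ℤ)) →
      ent (S * bo Q) y i = ∑ z ∈ t, ent S y z * hb Q z i := fun y i t ht => by
    simpa only [ent_bo] using hS.ent_mul' (bo Q) y i t fun z hz => by
      rcases ht z hz with e | e
      · rw [h0 _ _ e, zero_mul]
      · rw [ent_bo, band_out0 Q (by simp only [Finset.mem_Ico]; omega) (by omega), mul_zero]
  have key : ∀ j i, ent ((1 - bo Q) * (S * bo Q)) j i = ∑ y ∈ Finset.Ico (-(k : ℤ)) k,
      ent (1 - bo Q) j y * ∑ z ∈ Finset.Ico (-(k : ℤ)) k, ent S y z * hb Q z i := fun j i => by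
    rw [hN.ent_mul' _ j i (Finset.Ico (-(k : ℤ)) k) fun y hy => ?_]
    · refine Finset.sum_congr rfl fun y hy => ?_
      rw [n1 y i (Finset.Ico (-(k : ℤ)) k) fun z hz => by
        simp only [Finset.mem_Ico] at hy hz
        omega]
    · by_cases e : -(k : ℤ) ≤ y
      · rw [n0 j y (fun h => hy h.2) e, zero_mul]
      · rw [n1 y i ∅ fun z _ => by omega, Finset.sum_empty, mul_zero]
  rw [Pres, band_ext, e1, e2, mul_assoc, mul_assoc, bandC_mul, bandC_mul]
  refine (bandC_eq (N := 0)).trans ⟨fun h => (hN.mul (hS.mul (band_bo Q))).ext (band_zero 0)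
    fun j i => ?_, fun h j _ i _ => (key j i).symm.trans (by rw [h]; rfl)⟩
  rw [key, ent_zero]
  by_cases hj : j ∈ Finset.Ico (-(k : ℤ)) k
  · by_cases hi : i ∈ Finset.Ico (-(k : ℤ)) k
    · exact h j hj i hi
    · refine Finset.sum_eq_zero fun y _ => ?_
      rw [Finset.sum_eq_zero fun z hz => by
        rw [band_out0 Q (fun e => hi e.2) fun e => hi (e.1 ▸ hz), mul_zero], mul_zero]
  · refine Finset.sum_eq_zero fun y hy => ?_
    rw [n0 j y (fun e => hj e.1) (Finset.mem_Ico.1 hy).1, zero_mul]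

end Pool.Agent.Work.MP_849ab0_ag.G
end
end

-- merged part: Pool.Agent.Work.MP_849ab0_ag.G.C.Cl
section
/-!
Task C-Cl. The lattices and the space of triples are closed, invariant and bounded.
Plan: ext and ser are continuous entrywise, IsPr and Pres are closed conditions. For invariance
write ext (g Q) = u * ext Q * u^H and ser k (mat (g s)) = c • u * ser k (mat s) * u^H with the
unitary colour preserving matrix u y x = if y.2 = x.2 then hbar ^ x.2 * hat 1 g y.1 x.1 else 0;
ser k t changes by the scalar hbar. Entries of a Hermitian idempotent have norm at most one.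
-/

noncomputable section

set_option linter.unusedSectionVars false
set_option linter.unusedVariables false

namespace Pool.Agent.Work.MP_849ab0_ag.G

open Set Topology Matrix

section Gen

variable {J K C X : Type} [Fintype J] [DecidableEq J] [Fintype K] [DecidableEq K]

/-- the direct sum of a matrix on `V` and one on the framing -/
def cl_hb (A : Matrix (J × K) (J × K) ℂ) (B : Matrix K K ℂ) :
    Matrix (Option J × K) (Option J × K) ℂ :=
  Matrix.of fun y x => hat (B y.2 x.2) (Matrix.of fun b a => A (b, y.2) (a, x.2)) y.1 x.1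

theorem cl_hb_mul (A A' : Matrix (J × K) (J × K) ℂ) (B B' : Matrix K K ℂ) :
    cl_hb A B * cl_hb A' B' = cl_hb (A * A') (B * B') := by
  ext ⟨_ | b, j⟩ ⟨_ | a, i⟩ <;>
    simp [cl_hb, hat, mul_apply, Fintype.sum_prod_type, Fintype.sum_option]

theorem cl_hb_sub (A A' : Matrix (J × K) (J × K) ℂ) (B B' : Matrix K K ℂ) :
    cl_hb A B - cl_hb A' B' = cl_hb (A - A') (B - B') := by
  ext ⟨_ | b, j⟩ ⟨_ | a, i⟩ <;> simp [cl_hb, hat]

theorem cl_hb_conj (A : Matrix (J × K) (J × K) ℂ) (B : Matrix K K ℂ) :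
    (cl_hb A B)ᴴ = cl_hb Aᴴ Bᴴ := by
  ext ⟨_ | b, j⟩ ⟨_ | a, i⟩ <;> simp [cl_hb, hat]

theorem cl_hb_one : cl_hb (1 : Matrix (J × K) (J × K) ℂ) (1 : Matrix K K ℂ) = 1 := by
  ext ⟨_ | b, j⟩ ⟨_ | a, i⟩ <;> simp [cl_hb, hat, one_apply]

theorem cl_hb_zero : cl_hb (0 : Matrix (J × K) (J × K) ℂ) (0 : Matrix K K ℂ) = 0 := by
  ext ⟨_ | b, j⟩ ⟨_ | a, i⟩ <;> simp [cl_hb, hat]

theorem cl_hb_inj {A A' : Matrix (J × K) (J × K) ℂ} {B B' : Matrix K K ℂ} :
    cl_hb A B = cl_hb A' B' ↔ A = A' ∧ B = B' := by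
  refine ⟨fun h => ⟨?_, ?_⟩, fun h => by rw [h.1, h.2]⟩
  · ext y x
    exact congrFun (congrFun h (some y.1, y.2)) (some x.1, x.2)
  · ext j i
    exact congrFun (congrFun h (none, j)) (none, i)

theorem cl_pres_hb {A A' : Matrix (J × K) (J × K) ℂ} {B B' : Matrix K K ℂ} :
    Pres (cl_hb A B) (cl_hb A' B') ↔ Pres A A' ∧ Pres B B' := by
  unfold Pres
  rw [← cl_hb_one, cl_hb_sub, cl_hb_mul, cl_hb_mul, ← cl_hb_zero, cl_hb_inj]

theorem cl_isPr_hb {c : J → C} {A : Matrix (J × K) (J × K) ℂ} {B : Matrix K K ℂ} (h1 : Bᴴ = B)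
    (h2 : B * B = B) :
    IsPr (fun x : Option J × K => x.1.map c) (cl_hb A B) ↔ IsPr (fun x : J × K => c x.1) A := by
  unfold IsPr
  rw [cl_hb_conj, cl_hb_mul, cl_hb_inj, cl_hb_inj]
  refine ⟨fun h => ⟨h.1.1, h.2.1.1, fun y x e => h.2.2 (some y.1, y.2) (some x.1, x.2)
    fun e' => e (Option.some_injective _ e')⟩, fun h => ⟨⟨h.1, h1⟩, ⟨h.2.1, h2⟩, ?_⟩⟩
  rintro ⟨_ | b, j⟩ ⟨_ | a, i⟩ e
  · exact (e rfl).elim
  · rfl
  · rfl
  · exact h.2.2 (b, j) (a, i) fun e' => e (congrArg some e')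

theorem cl_closed_isPr [TopologicalSpace X] (c : J → C) {f : X → Matrix J J ℂ}
    (hf : Continuous f) : IsClosed {x | IsPr c (f x)} := by
  refine (isClosed_eq hf.matrix_conjTranspose hf).inter
    ((isClosed_eq (hf.matrix_mul hf) hf).inter ?_)
  change IsClosed {x | ∀ a b, c a ≠ c b → f x a b = 0}
  simp only [Set.ofPred_forall]
  exact isClosed_iInter fun a => isClosed_iInter fun b => isClosed_iInter fun _ =>
    isClosed_eq (hf.matrix_elem a b) continuous_const

theorem cl_closed_pres [TopologicalSpace X] {f g : X → Matrix J J ℂ} (hf : Continuous f)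
    (hg : Continuous g) : IsClosed {x | Pres (f x) (g x)} :=
  isClosed_eq (((continuous_const.sub hf).matrix_mul hg).matrix_mul hf) continuous_const

theorem cl_col_mul {c : J → C} {A B : Matrix J J ℂ} (hA : ∀ a b, c a ≠ c b → A a b = 0)
    (hB : ∀ a b, c a ≠ c b → B a b = 0) (a b : J) (h : c a ≠ c b) : (A * B) a b = 0 := by
  rw [mul_apply]
  refine Finset.sum_eq_zero fun d _ => ?_
  by_cases e : c a = c d
  · rw [hB d b (e ▸ h), mul_zero]
  · rw [hA a d e, zero_mul]

theorem cl_isPr_conj {c : J → C} {U Q : Matrix J J ℂ} (h1 : Uᴴ * U = 1)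
    (hU : ∀ a b, c a ≠ c b → U a b = 0) (h : IsPr c Q) : IsPr c (U * Q * Uᴴ) := by
  refine ⟨?_, ?_, cl_col_mul (cl_col_mul hU h.2.2) fun a b e => ?_⟩
  · rw [conjTranspose_mul, conjTranspose_mul, conjTranspose_conjTranspose, h.1, Matrix.mul_assoc]
  · calc U * Q * Uᴴ * (U * Q * Uᴴ) = U * (Q * (Uᴴ * U) * Q) * Uᴴ := by simp only [Matrix.mul_assoc]
      _ = U * Q * Uᴴ := by rw [h1, Matrix.mul_one, h.2.1]
  · rw [conjTranspose_apply, hU b a e.symm, star_zero]

theorem cl_pres_conj {U Q y : Matrix J J ℂ} (h1 : Uᴴ * U = 1) (c : ℂ) (h : Pres Q y) :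
    Pres (U * Q * Uᴴ) (c • (U * y * Uᴴ)) := by
  have h2 : U * Uᴴ = 1 := mul_eq_one_comm.1 h1
  have h3 : 1 - U * Q * Uᴴ = U * (1 - Q) * Uᴴ := by
    rw [Matrix.mul_sub, Matrix.sub_mul, Matrix.mul_one, h2]
  unfold Pres at h ⊢
  rw [h3, Matrix.mul_smul, Matrix.smul_mul]
  have h4 : U * (1 - Q) * Uᴴ * (U * y * Uᴴ) * (U * Q * Uᴴ) =
      U * ((1 - Q) * (Uᴴ * U) * y * (Uᴴ * U) * Q) * Uᴴ := by simp only [Matrix.mul_assoc]
  rw [h4, h1, Matrix.mul_one, Matrix.mul_one, h, Matrix.mul_zero, Matrix.zero_mul, smul_zero]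

theorem cl_row {Q : Matrix J J ℂ} (h1 : Qᴴ = Q) (h2 : Q * Q = Q) (a : J) :
    ∑ b, ‖Q a b‖ ^ 2 ≤ 1 := by
  have h3 : ((∑ b, ‖Q a b‖ ^ 2 : ℝ) : ℂ) = Q a a := by
    rw [← congrFun (congrFun h2 a) a, mul_apply]
    push_cast
    refine Finset.sum_congr rfl fun b _ => ?_
    rw [← congrFun (congrFun h1 b) a, conjTranspose_apply, Complex.star_def, Complex.mul_conj']
  have h4 : ‖Q a a‖ ^ 2 ≤ ∑ b, ‖Q a b‖ ^ 2 :=
    Finset.single_le_sum (f := fun b => ‖Q a b‖ ^ 2) (fun b _ => sq_nonneg _) (Finset.mem_univ a)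
  rw [← h3, Complex.norm_real, Real.norm_eq_abs, sq_abs] at h4
  nlinarith

theorem cl_bd (U V : K → Matrix J J ℂ) (M : Matrix (J × K) (J × K) ℂ) (y x : J × K) :
    (blockDiagonal U * M * blockDiagonal V) y x =
      (U y.2 * (Matrix.of fun b a => M (b, y.2) (a, x.2)) * V x.2) y.1 x.1 := by
  simp [mul_apply, blockDiagonal_apply, Fintype.sum_prod_type]

theorem cl_trace {c : J → C} {g : Matrix J J ℂ} (h1 : gᴴ * g = 1)
    (hg : ∀ a b, c a ≠ c b → g a b = 0) (φ : C → ℂ) (B : Matrix J J ℂ) :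
    ∑ a, φ (c a) * (g * B * gᴴ) a a = ∑ a, φ (c a) * B a a := by
  have e : ∀ M : Matrix J J ℂ, ∑ a, φ (c a) * M a a = trace (diagonal (fun a => φ (c a)) * M) :=
    fun M => by simp [trace]
  have h2 : diagonal (fun a => φ (c a)) * g = g * diagonal fun a => φ (c a) := by
    ext a b
    rw [diagonal_mul, mul_diagonal]
    by_cases h : c a = c b
    · rw [h, mul_comm]
    · rw [hg a b h, mul_zero, zero_mul]
  rw [e, e, ← Matrix.mul_assoc, ← Matrix.mul_assoc, h2, trace_mul_comm, ← Matrix.mul_assoc,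
    ← Matrix.mul_assoc, h1, Matrix.one_mul]

/-- the unitary matrix of a group element -/
def cl_U (k : ℕ) (h : ℂ) (G : Matrix J J ℂ) : Matrix (J × Pos k) (J × Pos k) ℂ :=
  blockDiagonal fun j : Pos k => h ^ j.1 • G

theorem cl_star {h : ℂ} (hh : ‖h‖ = 1) (i j : ℤ) : h ^ j * star (h ^ i) = h ^ (j - i) := by
  have h0 : h ≠ 0 := fun e => by simp [e] at hh
  rw [star_zpow₀, Complex.star_def, ← Complex.inv_eq_conj hh, zpow_sub₀ h0, _root_.inv_zpow,
    div_eq_mul_inv]

theorem cl_U_conj {k : ℕ} {h : ℂ} (hh : ‖h‖ = 1) (G : Matrix J J ℂ)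
    (M : Matrix (J × Pos k) (J × Pos k) ℂ) (y x : J × Pos k) :
    (cl_U k h G * M * (cl_U k h G)ᴴ) y x = h ^ (y.2.1 - x.2.1) *
      (G * (Matrix.of fun b a => M (b, y.2) (a, x.2)) * Gᴴ) y.1 x.1 := by
  rw [cl_U, blockDiagonal_conjTranspose, cl_bd, conjTranspose_smul, Matrix.smul_mul,
    Matrix.smul_mul, Matrix.mul_smul, smul_smul, cl_star hh, Matrix.smul_apply, smul_eq_mul]

theorem cl_U_unit {k : ℕ} {h : ℂ} (hh : ‖h‖ = 1) {G : Matrix J J ℂ} (hG : Gᴴ * G = 1) :
    (cl_U k h G)ᴴ * cl_U k h G = 1 := by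
  rw [cl_U, blockDiagonal_conjTranspose, ← blockDiagonal_mul, ← blockDiagonal_one]
  congr 1
  funext j
  rw [conjTranspose_smul, Matrix.smul_mul, Matrix.mul_smul, smul_smul, mul_comm, cl_star hh,
    sub_self, zpow_zero, one_smul, hG, Pi.one_apply]

theorem cl_U_sr {k : ℕ} {h : ℂ} (hh : ‖h‖ = 1) (G : Matrix J J ℂ) (s : ℕ → Matrix J J ℂ) :
    cl_U k h G * sr k s * (cl_U k h G)ᴴ = sr k fun m => h ^ m • (G * s m * Gᴴ) := by
  ext y x
  rw [cl_U_conj hh]
  by_cases e : x.2.1 ≤ y.2.1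
  · have e1 : (Matrix.of fun b a => sr k s (b, y.2) (a, x.2)) = s (y.2.1 - x.2.1).toNat := by
      ext b a
      exact if_pos e
    rw [e1, sr, of_apply, if_pos e, Matrix.smul_apply, smul_eq_mul, ← zpow_natCast,
      Int.toNat_of_nonneg (sub_nonneg.2 e)]
  · have e1 : (Matrix.of fun b a => sr k s (b, y.2) (a, x.2)) = 0 := by
      ext b a
      exact if_neg e
    rw [e1, sr, of_apply, if_neg e]
    simp

theorem cl_sr_smul (k : ℕ) (c : ℂ) (s : ℕ → Matrix J J ℂ) :
    (sr k fun m => c • s m) = c • sr k s := by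
  ext y x
  simp [sr]

theorem cl_sr_cont [TopologicalSpace X] (k : ℕ) {s : X → ℕ → Matrix J J ℂ}
    (hs : ∀ m, Continuous fun x => s x m) : Continuous fun x => sr k (s x) := by
  refine continuous_matrix fun y x => ?_
  simp only [sr, of_apply]
  split_ifs
  exacts [(hs _).matrix_elem _ _, continuous_const]

end Gen

variable {I P E κ : Type} [Fintype I] [DecidableEq I] [Fintype P] [DecidableEq P] [Fintype E]
  [Fintype κ] [DecidableEq κ] (D : Qv I P E κ)

theorem ext_some {k : ℕ} (Q : En P k) (y x : P × Pos k) :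
    ext Q (some y.1, y.2) (some x.1, x.2) = Q (y, x) := blkAt_mem Q y x

theorem continuous_ext (k : ℕ) : Continuous fun Q : En P k => ext Q :=
  continuous_matrix fun y x =>
    (continuous_hat2 continuous_const (continuous_blkAt k y.2 x.2)).matrix_elem y.1 x.1

theorem cl_ext {k : ℕ} (Q : En P k) :
    ext Q = cl_hb (mQ Q) (diagonal fun x : Pos k => if 0 ≤ x.1 then 1 else 0) := by
  ext ⟨_ | b, j⟩ ⟨_ | a, i⟩
  · simp only [ext, cl_hb, hat, of_apply, diagonal_apply]
    by_cases e : j = i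
    · simp [e]
    · simp [e]
  · rfl
  · rfl
  · exact ext_some Q (b, j) (a, i)

theorem cl_ser (k : ℕ) : ser (P := P) k (Pi.single 1 1) = cl_hb (sr k (Pi.single 1 1))
    (Matrix.of fun y x : Pos k => if x.1 + 1 = y.1 then 1 else 0) := by
  ext ⟨b, j⟩ ⟨a, i⟩
  by_cases e : i.1 + 1 = j.1
  · have e1 : i.1 ≤ j.1 := by omega
    have e2 : (j.1 - i.1).toNat = 1 := by omega
    cases a <;> cases b <;>
      simp [ser, sr, cl_hb, hat, e, e1, e2, one_apply, -Subtype.coe_le_coe]
  · by_cases e1 : i.1 ≤ j.1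
    · have e2 : (j.1 - i.1).toNat ≠ 1 := by omega
      cases a <;> cases b <;> simp [ser, sr, cl_hb, hat, e, e2]
    · cases a <;> cases b <;> simp [ser, sr, cl_hb, hat, e, e1, -Subtype.coe_le_coe]

theorem cl_cont_ind (k : ℕ) (o : Option P) : Continuous fun Q : En P k => Qv.ind Q o := by
  cases o
  · exact continuous_const
  · exact continuous_const.sub (continuous_finsetSum _ fun i _ => continuous_apply _)

namespace Qv

theorem cl_unit (g : (KT D.col κ).H) : g.1.1.1ᴴ * g.1.1.1 = 1 := g.1.1.2.1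

theorem cl_hat_unit (g : (KT D.col κ).H) : (hat 1 g.1.1.1)ᴴ * hat 1 g.1.1.1 = 1 := by
  rw [hat_conj, hat_mul, D.cl_unit, star_one, one_mul, hat_one]

theorem cl_norm (g : (KT D.col κ).H) : ‖chr D.h g.2‖ = 1 := (isChar_chr D.h).norm g.2

theorem cl_ext_act (k : ℕ) (g : (KT D.col κ).H) (Q : En P k) : ext ((D.aE k).act g Q) =
    cl_U k (chr D.h g.2) (hat 1 g.1.1.1) * ext Q * (cl_U k (chr D.h g.2) (hat 1 g.1.1.1))ᴴ := by
  ext y x
  have e : (Matrix.of fun b a => ext Q (b, y.2) (a, x.2)) =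
      hat (if y.2 = x.2 ∧ 0 ≤ x.2.1 then 1 else 0) (blkAt Q y.2 x.2) := rfl
  rw [cl_U_conj (D.cl_norm g), e, hat_conj, hat_mul, hat_mul, ← smul_eq_mul, ← Matrix.smul_apply,
    hat_smul, ← blkAt_aE, ext, of_apply]
  congr 1
  split_ifs with h
  · simp [h.1]
  · simp

theorem cl_U_col (k : ℕ) (g : (KT D.col κ).H) (y x : Option P × Pos k)
    (h : y.1.map D.col ≠ x.1.map D.col) : cl_U k (chr D.h g.2) (hat 1 g.1.1.1) y x = 0 := by
  have e : hat 1 g.1.1.1 y.1 x.1 = 0 := by
    obtain ⟨_ | b, j⟩ := y <;> obtain ⟨_ | a, i⟩ := x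
    · exact (h rfl).elim
    · rfl
    · rfl
    · exact g.1.2 b a fun e' => h (congrArg some e')
  simp [cl_U, blockDiagonal_apply, e]

theorem cl_wt {f f' : Option P → ℂ} (h0 : f none = f' none)
    (h : ∀ φ : I → ℂ, ∑ a, φ (D.col a) * f (some a) = ∑ a, φ (D.col a) * f' (some a)) :
    ∑ p : D.Wt, (f p.1.2.2 - f p.1.2.1) = ∑ p : D.Wt, (f' p.1.2.2 - f' p.1.2.1) := by
  have h1 : ∀ φ : Option I → ℂ, ∑ o, φ (Option.map D.col o) * f o =
      ∑ o, φ (Option.map D.col o) * f' o := fun φ => by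
    rw [Fintype.sum_option, Fintype.sum_option, h0]
    exact congrArg _ (h fun i => φ (some i))
  have h2 : ∀ F : Option P → ℂ, ∑ p : D.Wt, (F p.1.2.2 - F p.1.2.1) =
      ∑ e, (∑ a : Option P, ∑ b : Option P, (if a.map D.col = D.src e ∧ b.map D.col = D.tgt e
        then 1 else 0) * F b - ∑ b : Option P, ∑ a : Option P,
        (if a.map D.col = D.src e ∧ b.map D.col = D.tgt e then 1 else 0) * F a) := fun F => by
    refine (Finset.sum_subtype (Finset.univ.filter fun p : E × Option P × Option P =>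
      p.2.1.map D.col = D.src p.1 ∧ p.2.2.map D.col = D.tgt p.1) (fun p => by simp)
      fun p => F p.2.2 - F p.2.1).symm.trans ?_
    rw [Finset.sum_filter, Fintype.sum_prod_type]
    refine Finset.sum_congr rfl fun e _ => ?_
    rw [Fintype.sum_prod_type, Finset.sum_comm (f := fun b a : Option P =>
      (if a.map D.col = D.src e ∧ b.map D.col = D.tgt e then 1 else 0) * F a),
      ← Finset.sum_sub_distrib]
    refine Finset.sum_congr rfl fun a _ => ?_
    rw [← Finset.sum_sub_distrib]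
    refine Finset.sum_congr rfl fun b _ => ?_
    split_ifs <;> simp
  rw [h2, h2]
  refine Finset.sum_congr rfl fun e _ => ?_
  congr 1
  · exact Finset.sum_congr rfl fun a _ =>
      h1 fun o => if a.map D.col = D.src e ∧ o = D.tgt e then 1 else 0
  · exact Finset.sum_congr rfl fun b _ =>
      h1 fun o => if o = D.src e ∧ b.map D.col = D.tgt e then 1 else 0

theorem cl_ind (k : ℕ) (g : (KT D.col κ).H) (Q : En P k) (φ : I → ℂ) :
    ∑ a, φ (D.col a) * ind ((D.aE k).act g Q) (some a) = ∑ a, φ (D.col a) * ind Q (some a) := by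
  simp only [ind, mul_sub, Finset.sum_sub_distrib, Finset.mul_sum]
  congr 1
  rw [Finset.sum_comm, Finset.sum_comm (f := fun a i => _ * Q _)]
  refine Finset.sum_congr rfl fun i _ => ?_
  have := cl_trace (D.cl_unit g) g.1.2 φ (blkAt Q i i)
  simpa only [aE, sub_self, zpow_zero, one_mul, blkAt_mem Q (_, i) (_, i)] using this

/-- the conditions on a lattice without the framing -/
theorem mem_Gr {k : ℕ} {Q : En P k} : Q ∈ D.Gr k ↔
    IsPr (fun x => D.col x.1) (mQ Q) ∧ Pres (mQ Q) (sr k (Pi.single 1 1)) := by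
  change IsPr _ (ext Q) ∧ Pres (ext Q) _ ↔ _
  rw [cl_ext, cl_ser, cl_pres_hb, cl_isPr_hb, and_iff_left (b := Pres (diagonal _) _)]
  · unfold Pres
    rw [← diagonal_one, diagonal_sub]
    ext y x
    rw [mul_diagonal, diagonal_mul, of_apply, Matrix.zero_apply]
    split_ifs <;> first | omega | simp
  · rw [diagonal_conjTranspose]
    congr 1
    funext x
    rw [Pi.star_apply]
    split_ifs <;> simp
  · rw [diagonal_mul_diagonal]
    congr 1
    funext x
    split_ifs <;> simp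

theorem isClosed_Gr (k : ℕ) : IsClosed (D.Gr k) :=
  (cl_closed_isPr _ (continuous_ext k)).inter (cl_closed_pres (continuous_ext k) continuous_const)

theorem isClosed_RR (k : ℕ) : IsClosed (D.RR k) := by
  have e : D.RR k = Prod.fst ⁻¹' D.Gr k ∩
      ⋂ e, {z : En P k × D.NO | Pres (ext z.1) (ser k fun m => D.mat (z.2 m) e)} := by
    ext z
    rw [mem_RR, mem_inter_iff, mem_iInter]
    rfl
  rw [e]
  exact ((D.isClosed_Gr k).preimage continuous_fst).inter (isClosed_iInter fun e =>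
    cl_closed_pres ((continuous_ext k).comp continuous_fst) (cl_sr_cont k fun m =>
      (D.cmat_cont e).comp ((continuous_apply m).comp continuous_snd)))

theorem inv_Gr (k : ℕ) : (D.aE k).Inv (D.Gr k) := by
  intro g Q hQ
  have hU := cl_U_unit (k := k) (D.cl_norm g) (D.cl_hat_unit g)
  refine ⟨?_, ?_⟩ <;> rw [cl_ext_act]
  · exact cl_isPr_conj hU (D.cl_U_col k g) hQ.1
  · have h := cl_pres_conj hU (chr D.h g.2)⁻¹ hQ.2
    rw [ser_eq, cl_U_sr (D.cl_norm g), ← cl_sr_smul] at h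
    convert h using 2
    rw [ser_eq]
    congr 1
    funext m
    by_cases e : m = 1
    · rw [e, Pi.single_eq_same, pow_one, smul_smul, inv_mul_cancel₀ ((isChar_chr D.h).ne_zero g.2),
        one_smul, Matrix.mul_one, mul_eq_one_comm.1 (D.cl_hat_unit g)]
    · simp [e]

theorem inv_RR (k : ℕ) : (D.aX k).Inv (D.RR k) := by
  intro g z hz
  rw [mem_RR] at hz ⊢
  refine ⟨D.inv_Gr k g _ hz.1, fun e => ?_⟩
  have h := cl_pres_conj (cl_U_unit (k := k) (D.cl_norm g) (D.cl_hat_unit g)) (chr (D.t e) g.2)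
    (hz.2 e)
  rw [ser_eq, cl_U_sr (D.cl_norm g), ← cl_sr_smul, ← cl_ext_act] at h
  have e1 : (fun m => D.mat (((D.aX k).act g z).2 m) e) = fun m => chr (D.t e) g.2 •
      chr D.h g.2 ^ m • (hat 1 g.1.1.1 * D.mat (z.2 m) e * (hat 1 g.1.1.1)ᴴ) := by
    funext m
    rw [smul_comm, ← cmat_aN, ← cmat_smul]
    rfl
  rw [ser_eq, e1]
  exact h

theorem bdd_Gr (k : ℕ) : ∃ R : ℝ, ∀ Q ∈ D.Gr k, nsq Q ≤ R := by
  refine ⟨∑ _y : P × Pos k, 1, fun Q hQ => ?_⟩
  have h := (D.mem_Gr.1 hQ).1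
  rw [nsq, Fintype.sum_prod_type]
  exact Finset.sum_le_sum fun y _ => cl_row h.1 h.2.1 y

theorem isCompact_Gr (k : ℕ) : IsCompact (D.Gr k) := by
  obtain ⟨R, hR⟩ := D.bdd_Gr k
  refine Metric.isCompact_of_isClosed_isBounded (D.isClosed_Gr k)
    (isBounded_iff_forall_norm_le.2 ⟨|R| + 1, fun Q hQ => ?_⟩)
  refine (pi_norm_le_iff_of_nonneg (by positivity)).2 fun z => ?_
  have h : ‖Q z‖ ^ 2 ≤ nsq Q :=
    Finset.single_le_sum (f := fun z => ‖Q z‖ ^ 2) (fun _ _ => sq_nonneg _) (Finset.mem_univ z)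
  nlinarith [hR Q hQ, le_abs_self R, sq_nonneg (‖Q z‖ - 1)]

theorem zero_mem_RR {k : ℕ} {Q : En P k} : (Q, 0) ∈ D.RR k ↔ Q ∈ D.Gr k := by
  rw [mem_RR]
  refine and_iff_left fun e => ?_
  have h : (ser k fun m => D.mat ((0 : D.NO) m) e) = 0 := by
    ext y x
    simp [ser, cmat_zero]
  change Pres _ (ser k fun m => D.mat ((0 : D.NO) m) e)
  rw [h, Pres, Matrix.mul_zero, Matrix.zero_mul]

theorem RR_zero : D.RR 0 = univ := by
  have h : ∀ j : Pos 0, False := fun j => by
    have := Finset.mem_Ico.1 j.2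
    omega
  exact eq_univ_of_forall fun z => ⟨⟨Matrix.ext fun y => (h y.2).elim,
    Matrix.ext fun y => (h y.2).elim, fun y => (h y.2).elim⟩, Matrix.ext fun y => (h y.2).elim,
    fun _ => Matrix.ext fun y => (h y.2).elim⟩

theorem isClosed_comp (ν : I → ℤ) (k : ℕ) (m c : ℤ) : IsClosed (D.comp ν k m c) := by
  have h : ∀ o, Continuous fun z : En P k × D.NO => ind z.1 o := fun o =>
    (cl_cont_ind k o).comp continuous_fst
  exact (D.isClosed_RR k).inter ((isClosed_eq
    (continuous_finsetSum _ fun a _ => continuous_const.mul (h _)) continuous_const).inter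
    (isClosed_eq (continuous_finsetSum _ fun p _ => (h _).sub (h _)) continuous_const))

theorem inv_comp (ν : I → ℤ) (k : ℕ) (m c : ℤ) : (D.aX k).Inv (D.comp ν k m c) :=
  fun g z hz => ⟨D.inv_RR k g z hz.1, (D.cl_ind k g z.1 fun i => ν i).trans hz.2.1,
    (D.cl_wt (f := ind ((D.aE k).act g z.1)) (f' := ind z.1) rfl
      (D.cl_ind k g z.1)).trans hz.2.2⟩

/-- membership in a component only depends on the sums of the index over the colours -/
theorem mem_comp_of {ν : I → ℤ} {k : ℕ} {z : En P k × D.NO} (hz : z ∈ D.RR k) {μ : P → ℤ}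
    (h : ∀ i, ∑ a with D.col a = i, ind z.1 (some a) = ∑ a with D.col a = i, (μ a : ℂ)) :
    z ∈ D.comp ν k (∑ a, ν (D.col a) * μ a) (∑ p, D.xm μ p) := by
  have h1 : ∀ φ : I → ℂ, ∑ a, φ (D.col a) * ind z.1 (some a) = ∑ a, φ (D.col a) * (μ a : ℂ) := by
    intro φ
    have e : ∀ F : P → ℂ, ∑ a, φ (D.col a) * F a = ∑ i, φ i * ∑ a with D.col a = i, F a := by
      intro F
      rw [← Finset.sum_fiberwise Finset.univ D.col]
      refine Finset.sum_congr rfl fun i _ => ?_
      rw [Finset.mul_sum]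
      exact Finset.sum_congr rfl fun a ha => by rw [(Finset.mem_filter.1 ha).2]
    rw [e, e]
    exact Finset.sum_congr rfl fun i _ => by rw [h]
  refine ⟨hz, (h1 fun i => ν i).trans (by push_cast; rfl), ?_⟩
  refine (D.cl_wt (f' := fun o => ((o.elim 0 μ : ℤ) : ℂ)) Int.cast_zero.symm h1).trans ?_
  simp only [xm]
  push_cast
  rfl

theorem comp_disj {ν : I → ℤ} {k : ℕ} {m c m' c' : ℤ} {z : En P k × D.NO}
    (h : z ∈ D.comp ν k m c) (h' : z ∈ D.comp ν k m' c') : m = m' ∧ c = c' :=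
  ⟨Int.cast_injective (h.2.1.symm.trans h'.2.1), Int.cast_injective (h.2.2.symm.trans h'.2.2)⟩

end Qv

end Pool.Agent.Work.MP_849ab0_ag.G
end
end

-- merged part: Pool.Agent.Work.MP_849ab0_ag.G.C.Loop1
section
/-! Helper lemmas for the polynomial loops. -/

noncomputable section

set_option linter.unusedSectionVars false
set_option linter.unusedVariables false

namespace Pool.Agent.Work.MP_849ab0_ag.G

open Set Topology Matrix

variable {P : Type} [Fintype P] [DecidableEq P]

/-- a Laurent polynomial of matrices as a matrix of Laurent polynomials -/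
def loop_A (J : Finset ℤ) (s : ℤ → ℤ) (F : ℤ → Matrix P P ℂ) :
    Matrix P P (AddMonoidAlgebra ℂ ℤ) :=
  Matrix.of fun a b => ∑ x ∈ J, AddMonoidAlgebra.single (s x) (F x a b)

theorem loop_A_coeff (J : Finset ℤ) (s t : ℤ → ℤ) (F G : ℤ → Matrix P P ℂ) (a b : P) (m : ℤ) :
    ((loop_A J s F * loop_A J t G) a b).coeff m =
      (∑ x ∈ J, ∑ y ∈ J, if s x + t y = m then F x * G y else 0) a b := by
  simp only [Matrix.mul_apply, loop_A, Matrix.of_apply, Finset.sum_mul_sum,
    AddMonoidAlgebra.single_mul_single, AddMonoidAlgebra.coeff_sum, AddMonoidAlgebra.coeff_single,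
    Finsupp.finsetSum_apply, Finsupp.single_apply, Matrix.sum_apply]
  rw [Finset.sum_comm]
  refine Finset.sum_congr rfl fun x _ => ?_
  rw [Finset.sum_comm]
  refine Finset.sum_congr rfl fun y _ => ?_
  split_ifs with h
  · rw [Matrix.mul_apply]
  · simp

theorem loop_A_one (J : Finset ℤ) (s t : ℤ → ℤ) (F G : ℤ → Matrix P P ℂ) :
    loop_A J s F * loop_A J t G = 1 ↔ ∀ m : ℤ,
      (∑ x ∈ J, ∑ y ∈ J, if s x + t y = m then F x * G y else 0) = if m = 0 then 1 else 0 := by
  have h1 : ∀ (a b : P) (m : ℤ), ((1 : Matrix P P (AddMonoidAlgebra ℂ ℤ)) a b).coeff m =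
      (if m = 0 then (1 : Matrix P P ℂ) else 0) a b := by
    intro a b m
    by_cases h : a = b
    · subst h
      rw [Matrix.one_apply_eq, AddMonoidAlgebra.one_def, AddMonoidAlgebra.coeff_single,
        Finsupp.single_apply]
      by_cases hm : m = 0
      · simp [hm]
      · simp [hm, Ne.symm hm]
    · rw [Matrix.one_apply_ne h]
      split_ifs <;> simp [h]
  constructor
  · intro h m
    ext a b
    rw [← loop_A_coeff, h, h1]
  · intro h
    ext a b m
    rw [loop_A_coeff, h, h1]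

theorem loop_sum_shift {M : Type} [AddCommMonoid M] {k : ℕ} (f : ℤ → M)
    (hf : ∀ x, (k : ℤ) < |x| → f x = 0) (c : ℤ) :
    (∑ y ∈ Finset.Icc (-(k : ℤ)) k, if y = c then f y else 0) = f c := by
  rw [Finset.sum_ite_eq']
  split_ifs with h
  · rfl
  · refine (hf c ?_).symm
    rw [Finset.mem_Icc, ← abs_le] at h
    exact not_le.1 h

theorem loop_mul_star {k : ℕ} {γ : ℤ → Matrix P P ℂ} (h0 : ∀ x, (k : ℤ) < |x| → γ x = 0)
    (h : ∀ m, ∑ x ∈ Finset.Icc (-(k : ℤ)) k, (γ x)ᴴ * γ (x + m) = if m = 0 then 1 else 0) (m : ℤ) :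
    ∑ x ∈ Finset.Icc (-(k : ℤ)) k, γ x * (γ (x + m))ᴴ = if m = 0 then 1 else 0 := by
  have h1 : loop_A (Finset.Icc (-(k : ℤ)) k) (fun x => -x) (fun x => (γ x)ᴴ) *
      loop_A (Finset.Icc (-(k : ℤ)) k) (fun x => x) γ = 1 := by
    rw [loop_A_one]
    intro n
    rw [← h n]
    refine Finset.sum_congr rfl fun x _ => ?_
    rw [← loop_sum_shift (k := k) (fun y => (γ x)ᴴ * γ y) (fun y hy => by simp [h0 y hy]) (x + n)]
    refine Finset.sum_congr rfl fun y _ => if_congr (by omega) rfl rfl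
  have h2 := (loop_A_one _ _ _ _ _).1 (mul_eq_one_comm.1 h1) (-m)
  simp only [neg_eq_zero] at h2
  rw [← h2]
  refine Finset.sum_congr rfl fun x _ => ?_
  rw [← loop_sum_shift (k := k) (fun y => γ x * (γ y)ᴴ) (fun y hy => by simp [h0 y hy]) (x + m)]
  refine Finset.sum_congr rfl fun y _ => if_congr (by omega) rfl rfl

theorem loop_star_zpow {c : ℂ} (hc : ‖c‖ = 1) (x : ℤ) : star (c ^ x) = c ^ (-x) := by
  have h : star c = c⁻¹ := by
    rw [Complex.inv_def, Complex.normSq_eq_norm_sq, hc]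
    simp
  rw [star_zpow₀, h, _root_.inv_zpow', ]

theorem loop_sand1 {J : Type} [Fintype J] [DecidableEq J] {U W : Matrix J J ℂ} (hU : Uᴴ * U = 1)
    (a b d : ℂ) (A S B : Matrix J J ℂ) :
    (a • (U * A * Wᴴ))ᴴ * (b • (U * S * Uᴴ)) * (d • (U * B * Wᴴ)) =
      (star a * b * d) • (W * (Aᴴ * S * B) * Wᴴ) := by
  have h : ∀ X : Matrix J J ℂ, Uᴴ * (U * X) = X := fun X => by rw [← Matrix.mul_assoc, hU, one_mul]
  simp only [conjTranspose_smul, conjTranspose_mul, conjTranspose_conjTranspose, Matrix.smul_mul,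
    Matrix.mul_smul, smul_smul, Matrix.mul_assoc, h]
  congr 1
  ring

theorem loop_sand2 {J : Type} [Fintype J] [DecidableEq J] {U W : Matrix J J ℂ} (hW : Wᴴ * W = 1)
    (a b d : ℂ) (A S B : Matrix J J ℂ) :
    (a • (U * A * Wᴴ)) * (b • (W * S * Wᴴ)) * (d • (U * B * Wᴴ))ᴴ =
      (a * b * star d) • (U * (A * S * Bᴴ) * Uᴴ) := by
  have h : ∀ X : Matrix J J ℂ, Wᴴ * (W * X) = X := fun X => by rw [← Matrix.mul_assoc, hW, one_mul]
  simp only [conjTranspose_smul, conjTranspose_mul, conjTranspose_conjTranspose, Matrix.smul_mul,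
    Matrix.mul_smul, smul_smul, Matrix.mul_assoc, h]
  congr 1
  ring

theorem loop_sand3 {J : Type} [Fintype J] [DecidableEq J] {U W : Matrix J J ℂ} (hU : Uᴴ * U = 1)
    (a d : ℂ) (A B : Matrix J J ℂ) :
    (a • (U * A * Wᴴ))ᴴ * (d • (U * B * Wᴴ)) = (star a * d) • (W * (Aᴴ * B) * Wᴴ) := by
  have h : ∀ X : Matrix J J ℂ, Uᴴ * (U * X) = X := fun X => by rw [← Matrix.mul_assoc, hU, one_mul]
  simp only [conjTranspose_smul, conjTranspose_mul, conjTranspose_conjTranspose, Matrix.smul_mul,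
    Matrix.mul_smul, smul_smul, Matrix.mul_assoc, h]
  congr 1
  ring

theorem loop_hat (c : ℂ) (x : ℤ) (U A W : Matrix P P ℂ) :
    hat (if x = 0 then 1 else 0) (c ^ x • (U * A * Wᴴ)) =
      c ^ x • (hat 1 U * hat (if x = 0 then 1 else 0) A * (hat 1 W)ᴴ) := by
  rw [hat_conj, hat_mul, hat_mul, hat_smul]
  congr 1
  split_ifs with h
  · simp [h]
  · simp

theorem loop_hat_unit {U : Matrix P P ℂ} (hU : Uᴴ * U = 1) : (hat 1 U)ᴴ * hat 1 U = 1 := by
  rw [hat_conj, hat_mul, hU, star_one, one_mul, hat_one]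

theorem loop_blk_big {l : ℕ} (Q : En P l) {j i : ℤ} (h : (l : ℤ) ≤ j ∨ (l : ℤ) ≤ i) :
    blkAt Q j i = if j = i then 1 else 0 := by
  rw [blkAt, dif_neg]
  · exact if_congr (by omega) rfl rfl
  · simp only [Finset.mem_Ico]
    omega

theorem loop_blk_small {l : ℕ} (Q : En P l) {j i : ℤ} (h : j < -(l : ℤ) ∨ i < -(l : ℤ)) :
    blkAt Q j i = 0 := by
  rw [blkAt, dif_neg, if_neg]
  · omega
  · simp only [Finset.mem_Ico]
    omega

end Pool.Agent.Work.MP_849ab0_ag.G
end
end

-- merged part: Pool.Agent.Work.MP_849ab0_ag.G.C.Loop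
section
/-!
Task C-Loop. Polynomial loops.
Plan: Lp_mul_star: put A = sum of single x (γ x), B = sum of single (-x) (γ x)^H as square matrices
over the commutative ring AddMonoidAlgebra ℂ ℤ; B * A = 1 gives A * B = 1 (mul_eq_one_comm).
blk_tw: inside the box m it is the definition; for j ≥ m or i ≥ m the blocks of Q are scalar and
Lp_mul_star applies; for j < -m or i < -m all blocks vanish. Compactness: entries of γ x have norm
at most one (diagonal entries of the relation for m = 0) and Tychonoff. Equivariance is an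
identity of finite sums (blkAt_aE, cmat_aN, star of a unitary character is its inverse).
-/

noncomputable section

set_option linter.unusedSectionVars false
set_option linter.unusedVariables false

namespace Pool.Agent.Work.MP_849ab0_ag.G

open Set Topology Matrix

variable {I P E κ : Type} [Fintype I] [DecidableEq I] [Fintype P] [DecidableEq P] [Fintype E]
  [Fintype κ] [DecidableEq κ] (D : Qv I P E κ)

theorem continuous_tw (k l m : ℕ) :
    Continuous fun z : (ℤ → Matrix P P ℂ) × En P l => tw k z.1 z.2 m := by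
  refine continuous_pi fun w => ?_
  refine Continuous.matrix_elem ?_ _ _
  refine continuous_finsetSum _ fun x _ => continuous_finsetSum _ fun y _ => ?_
  exact (((continuous_apply x).comp continuous_fst).matrix_mul
    ((continuous_blkAt l _ _).comp continuous_snd)).matrix_mul
      ((continuous_apply y).comp continuous_fst).matrix_conjTranspose

namespace Qv

theorem Lp_mul_star {k : ℕ} {γ : ℤ → Matrix P P ℂ} (h : γ ∈ D.Lp k) (m : ℤ) :
    ∑ x ∈ Finset.Icc (-(k : ℤ)) k, γ x * (γ (x + m))ᴴ = if m = 0 then 1 else 0 :=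
  loop_mul_star h.1 h.2.2 m

theorem blk_tw {k l m : ℕ} {γ : ℤ → Matrix P P ℂ} (h : γ ∈ D.Lp k) (hm : k + l ≤ m) (Q : En P l)
    (j i : ℤ) : blkAt (tw k γ Q m) j i = ∑ x ∈ Finset.Icc (-(k : ℤ)) k,
      ∑ y ∈ Finset.Icc (-(k : ℤ)) k, γ x * blkAt Q (j - x) (i - y) * (γ y)ᴴ := by
  have hm' : (k : ℤ) + l ≤ m := by exact_mod_cast hm
  by_cases h1 : (m : ℤ) ≤ j ∨ (m : ℤ) ≤ i
  · rw [loop_blk_big _ h1]
    have e : (if j = i then (1 : Matrix P P ℂ) else 0) = if i - j = 0 then 1 else 0 :=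
      if_congr (by omega) rfl rfl
    rw [e, ← D.Lp_mul_star h (i - j)]
    refine Finset.sum_congr rfl fun x hx => ?_
    rw [← loop_sum_shift (k := k) (fun y => γ x * (γ y)ᴴ) (fun y hy => by simp [h.1 y hy])
      (x + (i - j))]
    refine Finset.sum_congr rfl fun y hy => ?_
    rw [Finset.mem_Icc] at hx hy
    rw [loop_blk_big Q (by omega)]
    by_cases e' : y = x + (i - j)
    · rw [if_pos e', if_pos (by omega), Matrix.mul_one]
    · rw [if_neg e', if_neg (by omega), Matrix.mul_zero, Matrix.zero_mul]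
  by_cases h2 : j < -(m : ℤ) ∨ i < -(m : ℤ)
  · rw [loop_blk_small _ h2]
    symm
    refine Finset.sum_eq_zero fun x hx => Finset.sum_eq_zero fun y hy => ?_
    rw [Finset.mem_Icc] at hx hy
    rw [loop_blk_small Q (j := j - x) (i := i - y) (by omega), Matrix.mul_zero, Matrix.zero_mul]
  have h3 : j ∈ Finset.Ico (-(m : ℤ)) m ∧ i ∈ Finset.Ico (-(m : ℤ)) m := by
    simp only [Finset.mem_Ico]
    omega
  rw [blkAt, dif_pos h3]
  rfl

theorem isClosed_Lp (k : ℕ) : IsClosed (D.Lp k) := by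
  unfold Lp
  simp only [ofPred_and, ofPred_forall]
  refine IsClosed.inter ?_ (IsClosed.inter ?_ ?_)
  · exact isClosed_iInter fun x => isClosed_iInter fun _ =>
      isClosed_eq (continuous_apply x) continuous_const
  · exact isClosed_iInter fun x => isClosed_iInter fun a => isClosed_iInter fun b =>
      isClosed_iInter fun _ => isClosed_eq ((continuous_apply x).matrix_elem a b) continuous_const
  · refine isClosed_iInter fun m => isClosed_eq ?_ continuous_const
    exact continuous_finsetSum _ fun x _ =>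
      (continuous_apply x).matrix_conjTranspose.matrix_mul (continuous_apply _)

theorem loop_norm_le {k : ℕ} {γ : ℤ → Matrix P P ℂ} (h : γ ∈ D.Lp k) (x : ℤ) (a b : P) :
    ‖γ x a b‖ ≤ 1 := by
  by_cases hx : (k : ℤ) < |x|
  · simp [h.1 x hx]
  have hx' : x ∈ Finset.Icc (-(k : ℤ)) k := by
    rw [Finset.mem_Icc, ← abs_le]
    exact not_lt.1 hx
  have h1 := congrFun (congrFun (h.2.2 0) b) b
  simp only [add_zero, if_true, Matrix.sum_apply, Matrix.mul_apply, conjTranspose_apply,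
    Matrix.one_apply_eq] at h1
  have h2 : ∑ x ∈ Finset.Icc (-(k : ℤ)) k, ∑ c, ‖γ x c b‖ ^ 2 = 1 := by
    have h3 : ∀ z : ℂ, star z * z = ((‖z‖ ^ 2 : ℝ) : ℂ) := fun z => by
      rw [← Complex.normSq_eq_norm_sq, Complex.normSq_eq_conj_mul_self]
      rfl
    simp only [h3] at h1
    exact_mod_cast h1
  have h4 : ‖γ x a b‖ ^ 2 ≤ 1 := by
    rw [← h2]
    refine le_trans ?_ (Finset.single_le_sum (f := fun x => ∑ c, ‖γ x c b‖ ^ 2)
      (fun _ _ => by positivity) hx')
    exact Finset.single_le_sum (f := fun c => ‖γ x c b‖ ^ 2) (fun _ _ => by positivity)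
      (Finset.mem_univ a)
  exact (sq_le_one_iff₀ (norm_nonneg _)).1 h4

theorem isCompact_Lp (k : ℕ) : IsCompact (D.Lp k) := by
  have h : IsCompact (Set.pi univ fun _ : ℤ => Set.pi univ fun _ : P => Set.pi univ fun _ : P =>
      Metric.closedBall (0 : ℂ) 1) :=
    isCompact_univ_pi fun _ => isCompact_univ_pi fun _ => isCompact_univ_pi fun _ =>
      isCompact_closedBall _ _
  refine IsCompact.of_isClosed_subset h (D.isClosed_Lp k) fun γ hγ x _ a _ b _ => ?_
  rw [mem_closedBall_zero_iff]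
  exact D.loop_norm_le hγ x a b

theorem continuous_adj (k : ℕ) :
    Continuous fun z : (ℤ → Matrix P P ℂ) × D.NO => D.adj k z.1 z.2 := by
  refine continuous_pi fun m => continuous_pi fun p => ?_
  unfold adj
  refine Continuous.matrix_elem ?_ _ _
  refine continuous_finsetSum _ fun x _ => continuous_finsetSum _ fun y _ => ?_
  by_cases h : 0 ≤ m + x - y
  · simp only [if_pos h]
    have h1 : ∀ x : ℤ, Continuous fun z : (ℤ → Matrix P P ℂ) × D.NO =>
        hat (if x = 0 then 1 else 0) (z.1 x) := fun x =>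
      continuous_hat2 continuous_const (by fun_prop)
    have h2 : Continuous fun z : (ℤ → Matrix P P ℂ) × D.NO => D.mat (z.2 (m + x - y).toNat) p.1.1 :=
      (D.cmat_cont _).comp (by fun_prop)
    exact ((h1 x).matrix_conjTranspose.matrix_mul h2).matrix_mul (h1 y)
  · simp only [if_neg h]
    exact continuous_const

theorem adj_zero (k : ℕ) (γ : ℤ → Matrix P P ℂ) : D.adj k γ 0 = 0 := by
  funext m p
  simp [adj, D.cmat_zero]

theorem loop_aF (g : D.KKT.H) (z : (ℤ → Matrix P P ℂ) × D.NO) (x : ℤ) :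
    (D.aF.act g z).1 x = chr D.h g.2.2 ^ x • (g.2.1.1.1 * z.1 x * g.1.1.1ᴴ) := rfl

theorem loop_unit (g : Ub D.col) : g.1.1ᴴ * g.1.1 = 1 := g.1.2.1

theorem loop_unit' (g : Ub D.col) : g.1.1 * g.1.1ᴴ = 1 := g.1.2.2

theorem loop_col_mul {C O : Type} [Fintype O] {c : O → C} {A B : Matrix O O ℂ}
    (hA : ∀ a b, c a ≠ c b → A a b = 0) (hB : ∀ a b, c a ≠ c b → B a b = 0) :
    ∀ a b, c a ≠ c b → (A * B) a b = 0 := by
  intro a b hab
  rw [Matrix.mul_apply]
  refine Finset.sum_eq_zero fun d _ => ?_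
  by_cases e : c a = c d
  · rw [hB d b (e ▸ hab), mul_zero]
  · rw [hA a d e, zero_mul]

theorem loop_col_star {C O : Type} {c : O → C} {A : Matrix O O ℂ}
    (hA : ∀ a b, c a ≠ c b → A a b = 0) : ∀ a b, c a ≠ c b → Aᴴ a b = 0 := by
  intro a b hab
  rw [conjTranspose_apply, hA b a (Ne.symm hab), star_zero]

theorem loop_col_hat {A : Matrix P P ℂ} (hA : ∀ a b, D.col a ≠ D.col b → A a b = 0) (c : ℂ) :
    ∀ a b : Option P, a.map D.col ≠ b.map D.col → hat c A a b = 0 := by
  rintro (_ | a) (_ | b) hab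
  · exact absurd rfl hab
  · rfl
  · rfl
  · exact hA a b fun e => hab (by simp [e])

theorem loop_supp {A B : Matrix (Option P) (Option P) ℂ}
    (hA : ∀ a b : Option P, a.map D.col ≠ b.map D.col → A a b = 0)
    (hB : ∀ a b : Option P, a.map D.col ≠ b.map D.col → B a b = 0) (y : D.Rep) (e : E)
    {b a : Option P} (h : ¬ (a.map D.col = D.src e ∧ b.map D.col = D.tgt e)) :
    (A * D.mat y e * B) b a = 0 := by
  rw [Matrix.mul_apply]
  refine Finset.sum_eq_zero fun d _ => ?_
  by_cases e1 : d.map D.col = a.map D.col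
  · rw [Matrix.mul_apply, Finset.sum_mul]
    refine Finset.sum_eq_zero fun c _ => ?_
    by_cases e2 : b.map D.col = c.map D.col
    · have : D.mat y e c d = 0 := by
        rw [mat, Matrix.of_apply, dif_neg]
        rw [e1, ← e2]
        exact h
      rw [this, mul_zero, zero_mul]
    · rw [hA b c e2, zero_mul, zero_mul]
  · rw [hB d a e1, mul_zero]

theorem aF_Lp {k : ℕ} (g : D.KKT.H) {z : (ℤ → Matrix P P ℂ) × D.NO} (h : z.1 ∈ D.Lp k) :
    (D.aF.act g z).1 ∈ D.Lp k := by
  have hc := (isChar_chr D.h).norm g.2.2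
  have hc0 := (isChar_chr D.h).ne_zero g.2.2
  refine ⟨fun x hx => ?_, fun x a b hab => ?_, fun m => ?_⟩
  · rw [loop_aF, h.1 x hx, Matrix.mul_zero, Matrix.zero_mul, smul_zero]
  · rw [loop_aF, Matrix.smul_apply, loop_col_mul (loop_col_mul g.2.1.2 (h.2.1 x))
      (loop_col_star g.1.2) a b hab, smul_zero]
  · have e : ∀ x : ℤ, star (chr D.h g.2.2 ^ x) * chr D.h g.2.2 ^ (x + m) = chr D.h g.2.2 ^ m := by
      intro x
      rw [loop_star_zpow hc, ← zpow_add₀ hc0]
      congr 1
      ring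
    simp only [loop_aF, loop_sand3 (D.loop_unit g.2.1), e]
    rw [← Finset.smul_sum, ← Finset.sum_mul, ← Finset.mul_sum, h.2.2 m]
    split_ifs with hm
    · rw [hm, zpow_zero, one_smul, Matrix.mul_one]
      exact D.loop_unit' g.1
    · simp

theorem tw_eqv (k l m : ℕ) (g : D.KKT.H) (z : (ℤ → Matrix P P ℂ) × D.NO) (Q : En P l) :
    tw k (D.aF.act g z).1 ((D.aE l).act (D.p13 g) Q) m = (D.aE m).act g.2 (tw k z.1 Q m) := by
  have hc := (isChar_chr D.h).norm g.2.2
  have hc0 := (isChar_chr D.h).ne_zero g.2.2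
  funext w
  have e : ∀ x y : ℤ, chr D.h g.2.2 ^ x * chr D.h g.2.2 ^ (w.1.2.1 - x - (w.2.2.1 - y)) *
      star (chr D.h g.2.2 ^ y) = chr D.h g.2.2 ^ (w.1.2.1 - w.2.2.1) := by
    intro x y
    rw [loop_star_zpow hc, ← zpow_add₀ hc0, ← zpow_add₀ hc0]
    congr 1
    ring
  have e2 : blkAt (tw k z.1 Q m) w.1.2 w.2.2 = ∑ x ∈ Finset.Icc (-(k : ℤ)) k,
      ∑ y ∈ Finset.Icc (-(k : ℤ)) k, z.1 x * blkAt Q (w.1.2 - x) (w.2.2 - y) * (z.1 y)ᴴ := by
    rw [blkAt, dif_pos ⟨w.1.2.2, w.2.2.2⟩]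
    rfl
  change _ = chr D.h g.2.2 ^ (w.1.2.1 - w.2.2.1) *
    (g.2.1.1.1 * blkAt (tw k z.1 Q m) w.1.2 w.2.2 * g.2.1.1.1ᴴ) w.1.1 w.2.1
  rw [e2, tw]
  simp only [loop_aF, blkAt_aE, loop_sand2 (D.loop_unit g.1), e]
  simp only [← Finset.smul_sum, ← Finset.sum_mul, ← Finset.mul_sum, Matrix.smul_apply,
    smul_eq_mul]

/-- the components of `adj` for a colour preserving loop -/
theorem mat_adj {k : ℕ} {γ : ℤ → Matrix P P ℂ} (h : γ ∈ D.Lp k) (s : D.NO) (m : ℕ) (e : E) :
    D.mat (D.adj k γ s m) e = ∑ x ∈ Finset.Icc (-(k : ℤ)) k, ∑ y ∈ Finset.Icc (-(k : ℤ)) k,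
      if 0 ≤ m + x - y then (hat (if x = 0 then 1 else 0) (γ x))ᴴ *
        D.mat (s (m + x - y).toNat) e * hat (if y = 0 then 1 else 0) (γ y) else 0 := by
  refine D.cmat_of (M := fun e => ∑ x ∈ Finset.Icc (-(k : ℤ)) k, ∑ y ∈ Finset.Icc (-(k : ℤ)) k,
      if 0 ≤ m + x - y then (hat (if x = 0 then 1 else 0) (γ x))ᴴ *
        D.mat (s (m + x - y).toNat) e * hat (if y = 0 then 1 else 0) (γ y) else 0) ?_ e
  intro e b a hne
  by_contra hn
  refine hne ?_
  simp only [Matrix.sum_apply]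
  refine Finset.sum_eq_zero fun x _ => Finset.sum_eq_zero fun y _ => ?_
  by_cases hh : 0 ≤ m + x - y
  · rw [if_pos hh]
    exact D.loop_supp (loop_col_star (D.loop_col_hat (h.2.1 x) _)) (D.loop_col_hat (h.2.1 y) _)
      _ _ hn
  · rw [if_neg hh, Matrix.zero_apply]

theorem adj_eqv (k : ℕ) (g : D.KKT.H) {z : (ℤ → Matrix P P ℂ) × D.NO} (h : z.1 ∈ D.Lp k) :
    D.adj k (D.aF.act g z).1 (D.aF.act g z).2 = D.aO.act (D.p13 g) (D.adj k z.1 z.2) := by
  have hc := (isChar_chr D.h).norm g.2.2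
  have hc0 := (isChar_chr D.h).ne_zero g.2.2
  funext m p
  rw [← D.cmat_apply (D.adj k _ _ m) p, ← D.cmat_apply (D.aO.act _ _ m) p,
    D.mat_adj (D.aF_Lp g h)]
  refine congrFun (congrFun ?_ _) _
  have e1 : ∀ (g' : (KT D.col κ).H) (s : D.NO) (n : ℕ) (e : E), D.mat (D.aO.act g' s n) e =
      (chr D.h g'.2 ^ n * chr (D.t e) g'.2) • (hat 1 g'.1.1.1 * D.mat (s n) e * (hat 1 g'.1.1.1)ᴴ) := by
    intro g' s n e
    change D.mat (chr D.h g'.2 ^ n • D.aN.act g' (s n)) e = _
    rw [cmat_smul, cmat_aN, smul_smul]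
  have e2 : (D.aF.act g z).2 = D.aO.act g.2 z.2 := rfl
  rw [e1, e2, D.mat_adj h, Finset.mul_sum, Finset.sum_mul, Finset.smul_sum]
  refine Finset.sum_congr rfl fun x _ => ?_
  rw [Finset.mul_sum, Finset.sum_mul, Finset.smul_sum]
  refine Finset.sum_congr rfl fun y _ => ?_
  by_cases hh : 0 ≤ m + x - y
  · rw [if_pos hh, if_pos hh, loop_aF, loop_aF, loop_hat, loop_hat, e1,
      loop_sand1 (loop_hat_unit (D.loop_unit g.2.1))]
    congr 1
    rw [loop_star_zpow hc, ← zpow_natCast, ← zpow_natCast, Int.toNat_of_nonneg hh]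
    have : chr D.h g.2.2 ^ (m : ℤ) =
        chr D.h g.2.2 ^ (-x) * chr D.h g.2.2 ^ (m + x - y) * chr D.h g.2.2 ^ y := by
      rw [← zpow_add₀ hc0, ← zpow_add₀ hc0]
      congr 1
      ring
    change _ = chr D.h g.2.2 ^ (m : ℤ) * chr (D.t p.1.1) g.2.2
    rw [this]
    ring
  · rw [if_neg hh, if_neg hh]
    simp

end Qv

end Pool.Agent.Work.MP_849ab0_ag.G
end
end

-- merged part: Pool.Agent.Work.MP_849ab0_ag.G.C.Tw
section
/-!
Task C-Tw. A loop moves lattices to lattices.
Plan: with hγ x = hat (if x = 0 then 1 else 0) (γ x) put G = top k hγ, G' = top k (fun x => (hγ (-x))^H).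
Then G' * G = 1 = G * G' (definition of Lp, Lp_mul_star), bo (tw k γ Q m) = G * bo Q * G' (blk_tw,
Band.ext), G and G' commute with the shift T = top 1 (single 1 1). Use ext_herm_iff, ext_idem_iff,
pres_iff. For tw_RR let S = top N (mat (s m) e for m ≥ 0, else 0) with N large; P0 = bo (0 : En P 0);
(1 - G P0 G') S G P0 G' = 0 gives (1 - P0) S' P0 = 0 for the Toeplitz operator S' = G' S G, so its
symbol has no negative powers; its coefficients m < 2 l are mat (adj k γ s m) e (mat_adj); hence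
(1 - bo Q) S' (bo Q) = 0 and (1 - G (bo Q) G') S G (bo Q) G' = 0.
-/

noncomputable section

set_option linter.unusedSectionVars false
set_option linter.unusedVariables false

namespace Pool.Agent.Work.MP_849ab0_ag.G

open Set Topology Matrix

variable {I P E κ : Type} [Fintype I] [DecidableEq I] [Fintype P] [DecidableEq P] [Fintype E]
  [Fintype κ] [DecidableEq κ] (D : Qv I P E κ)

/-- the loop on `V ⊕ ℂ` -/
def twH (γ : ℤ → Matrix P P ℂ) (x : ℤ) : Matrix (Option P) (Option P) ℂ :=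
  hat (if x = 0 then 1 else 0) (γ x)

/-- its operator -/
def twG (k : ℕ) (γ : ℤ → Matrix P P ℂ) : Opr (Option P) := top k (twH γ)

/-- the adjoint operator -/
def twA (k : ℕ) (γ : ℤ → Matrix P P ℂ) : Opr (Option P) := top k fun x => (twH γ (-x))ᴴ

/-- the shift -/
def twT (P : Type) [Fintype P] [DecidableEq P] : Opr (Option P) :=
  top 1 fun x => if x = 1 then 1 else 0

theorem tw_sum_neg {M : Type} [AddCommMonoid M] (k : ℕ) (f : ℤ → M) :
    ∑ x ∈ Finset.Icc (-(k : ℤ)) k, f (-x) = ∑ x ∈ Finset.Icc (-(k : ℤ)) k, f x := by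
  refine Finset.sum_nbij' (fun x => -x) (fun x => -x) ?_ ?_ ?_ ?_ ?_
  · intro a ha; simp only [Finset.mem_Icc] at ha ⊢; omega
  · intro a ha; simp only [Finset.mem_Icc] at ha ⊢; omega
  · intro a _; simp
  · intro a _; simp
  · intro a _; rfl

theorem tw_hat_ite (p : Prop) [Decidable p] :
    hat (if p then 1 else 0) (if p then (1 : Matrix P P ℂ) else 0) = if p then 1 else 0 := by
  split_ifs
  · exact hat_one
  · exact hat_zero

theorem tw_band_top (b : ℕ) (σ : ℤ → Matrix (Option P) (Option P) ℂ) : Band b (top b σ) :=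
  band_mop b fun j i => σ (j - i)

theorem tw_band_G (k : ℕ) (γ : ℤ → Matrix P P ℂ) : Band k (twG k γ) := tw_band_top k (twH γ)

theorem tw_band_A (k : ℕ) (γ : ℤ → Matrix P P ℂ) : Band k (twA k γ) :=
  tw_band_top k fun x => (twH γ (-x))ᴴ

theorem tw_band_T : Band 1 (twT P) := tw_band_top 1 fun x => if x = 1 then 1 else 0

theorem tw_band_bo {k : ℕ} (Q : En P k) : Band (2 * k) (bo Q) := band_mop (2 * k) (hb Q)

theorem tw_ent_T (j i : ℤ) : ent (twT P) j i = if j - i = 1 then 1 else 0 := by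
  refine ent_mop' (M := fun j i => if j - i = 1 then 1 else 0) (fun j i e => ?_) j i
  refine if_neg fun h => ?_
  rw [h] at e
  simp at e

theorem tw_pres_T {k : ℕ} (Q : En P k) :
    Pres (ext Q) (ser k (Pi.single 1 1)) ↔ (1 - bo Q) * twT P * bo Q = 0 := by
  refine pres_iff Q tw_band_T (fun j i e => ?_) fun i m _ => ?_
  · rw [tw_ent_T, if_neg (by omega)]
  · rw [tw_ent_T, Pi.single_apply]
    exact if_congr (by omega) rfl rfl

/-- a Toeplitz operator commutes with the shift -/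
theorem tw_comm_T {b : ℕ} {A : Opr (Option P)} (hA : Band b A) {σ : ℤ → Matrix _ _ ℂ}
    (h : ∀ j i, ent A j i = σ (j - i)) : A * twT P = twT P * A := by
  refine Band.ext (hA.mul tw_band_T) (tw_band_T.mul hA) fun j i => ?_
  rw [hA.ent_mul' _ j i {i + 1}, tw_band_T.ent_mul' _ j i {j - 1}]
  · simp only [Finset.sum_singleton, tw_ent_T, h]
    rw [if_pos (by ring), if_pos (by ring), mul_one, one_mul]
    congr 1
    ring
  · intro y hy
    rw [tw_ent_T, if_neg, zero_mul]
    simp only [Finset.mem_singleton] at hy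
    omega
  · intro y hy
    rw [tw_ent_T, if_neg, mul_zero]
    simp only [Finset.mem_singleton] at hy
    omega

/-- colour preserving matrices -/
def twC (c : P → I) (M : Matrix P P ℂ) : Prop := ∀ a b, c a ≠ c b → M a b = 0

theorem twC_mul {c : P → I} {M N : Matrix P P ℂ} (h : twC c M) (h' : twC c N) :
    twC c (M * N) := fun a b hab => by
  rw [mul_apply]
  refine Finset.sum_eq_zero fun d _ => ?_
  by_cases e : c a = c d
  · rw [h' d b (e ▸ hab), mul_zero]
  · rw [h a d e, zero_mul]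

theorem twC_conj {c : P → I} {M : Matrix P P ℂ} (h : twC c M) : twC c Mᴴ := fun a b hab => by
  rw [conjTranspose_apply, h b a hab.symm, star_zero]

theorem twC_blk {c : P → I} {l : ℕ} {Q : En P l}
    (h : ∀ y x : Option P × Pos l, y.1.map c ≠ x.1.map c → ext Q y x = 0) (j i : ℤ) :
    twC c (blkAt Q j i) := fun a b hab => by
  by_cases e : j ∈ Finset.Ico (-(l : ℤ)) l ∧ i ∈ Finset.Ico (-(l : ℤ)) l
  · exact h (some a, ⟨j, e.1⟩) (some b, ⟨i, e.2⟩) (by simpa using hab)
  · unfold blkAt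
    rw [dif_neg e]
    split_ifs
    · exact one_apply_ne fun e => hab (e ▸ rfl)
    · rfl

/-- the rearrangement used for every conjugation -/
theorem tw_conj {R : Type} [Ring R] {G A p S : R} (h1 : G * A = 1) :
    (1 - G * p * A) * S * (G * p * A) = G * ((1 - p) * (A * S * G) * p) * A := by
  have : (1 - G * p * A) = G * (1 - p) * A := by rw [mul_sub, sub_mul, mul_one, h1]
  rw [this]
  simp only [mul_assoc]

namespace Qv

variable {D}

theorem twH_out {k : ℕ} {γ : ℤ → Matrix P P ℂ} (h : γ ∈ D.Lp k) {x : ℤ} (e : (k : ℤ) < |x|) :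
    twH γ x = 0 := by
  unfold twH
  rw [h.1 x e, if_neg, hat_zero]
  rintro rfl
  simp at e
  omega

theorem tw_ent_G {k : ℕ} {γ : ℤ → Matrix P P ℂ} (h : γ ∈ D.Lp k) (j i : ℤ) :
    ent (twG k γ) j i = twH γ (j - i) :=
  ent_mop' (M := fun j i => twH γ (j - i)) (fun _ _ e => twH_out h e) j i

theorem tw_ent_A {k : ℕ} {γ : ℤ → Matrix P P ℂ} (h : γ ∈ D.Lp k) (j i : ℤ) :
    ent (twA k γ) j i = (twH γ (-(j - i)))ᴴ :=
  ent_mop' (M := fun j i => (twH γ (-(j - i)))ᴴ)
    (fun _ _ e => by rw [twH_out h (by rwa [abs_neg]), conjTranspose_zero]) j i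

theorem tw_delta (k : ℕ) (m : ℤ) :
    ∑ x ∈ Finset.Icc (-(k : ℤ)) k, (if x = 0 then (1 : ℂ) else 0) * (if x + m = 0 then 1 else 0) =
      if m = 0 then 1 else 0 := by
  rw [Finset.sum_eq_single 0]
  · simp
  · intro b _ hb; simp [hb]
  · intro hb; exact absurd (by simp) hb

theorem twH_left {k : ℕ} {γ : ℤ → Matrix P P ℂ} (h : γ ∈ D.Lp k) (m : ℤ) :
    ∑ x ∈ Finset.Icc (-(k : ℤ)) k, (twH γ x)ᴴ * twH γ (x + m) = if m = 0 then 1 else 0 := by
  simp only [twH, hat_conj, hat_mul, hat_sum, h.2.2 m, apply_ite star, star_one, star_zero,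
    tw_delta, tw_hat_ite]

theorem twH_right {k : ℕ} {γ : ℤ → Matrix P P ℂ} (h : γ ∈ D.Lp k) (m : ℤ) :
    ∑ x ∈ Finset.Icc (-(k : ℤ)) k, twH γ x * (twH γ (x + m))ᴴ = if m = 0 then 1 else 0 := by
  simp only [twH, hat_conj, hat_mul, hat_sum, D.Lp_mul_star h m, apply_ite star, star_one,
    star_zero, tw_delta, tw_hat_ite]

theorem tw_G_mul {k : ℕ} {γ : ℤ → Matrix P P ℂ} (h : γ ∈ D.Lp k) (B : Opr (Option P)) (j i : ℤ) :
    ent (twG k γ * B) j i = ∑ x ∈ Finset.Icc (-(k : ℤ)) k, twH γ x * ent B (j - x) i := by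
  rw [(tw_band_G k γ).ent_mul]
  simp only [tw_ent_G h, sub_sub_cancel]

theorem tw_A_mul {k : ℕ} {γ : ℤ → Matrix P P ℂ} (h : γ ∈ D.Lp k) (B : Opr (Option P)) (j i : ℤ) :
    ent (twA k γ * B) j i = ∑ x ∈ Finset.Icc (-(k : ℤ)) k, (twH γ x)ᴴ * ent B (j + x) i := by
  rw [(tw_band_A k γ).ent_mul, ← tw_sum_neg]
  simp only [tw_ent_A h, sub_neg_eq_add, neg_sub, add_sub_cancel_left]

theorem tw_mul_G {k b : ℕ} {γ : ℤ → Matrix P P ℂ} (h : γ ∈ D.Lp k) {B : Opr (Option P)}
    (hB : Band b B) (j i : ℤ) :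
    ent (B * twG k γ) j i = ∑ y ∈ Finset.Icc (-(k : ℤ)) k, ent B j (i + y) * twH γ y := by
  rw [hB.ent_mul' _ j i ((Finset.Icc (-(k : ℤ)) k).image fun y => i + y),
    Finset.sum_image fun x _ y _ e => add_left_cancel e]
  · simp only [tw_ent_G h, add_sub_cancel_left]
  · intro y hy
    rw [tw_ent_G h, twH_out h, mul_zero]
    by_contra e
    refine hy (Finset.mem_image.2 ⟨y - i, ?_, by ring⟩)
    rw [Finset.mem_Icc, ← abs_le]
    exact not_lt.1 e

theorem tw_mul_A {k b : ℕ} {γ : ℤ → Matrix P P ℂ} (h : γ ∈ D.Lp k) {B : Opr (Option P)}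
    (hB : Band b B) (j i : ℤ) :
    ent (B * twA k γ) j i = ∑ y ∈ Finset.Icc (-(k : ℤ)) k, ent B j (i - y) * (twH γ y)ᴴ := by
  rw [hB.ent_mul' _ j i ((Finset.Icc (-(k : ℤ)) k).image fun y => i - y),
    Finset.sum_image fun x _ y _ e => sub_right_injective e]
  · simp only [tw_ent_A h, neg_sub, sub_sub_cancel]
  · intro y hy
    rw [tw_ent_A h, twH_out h, conjTranspose_zero, mul_zero]
    by_contra e
    refine hy (Finset.mem_image.2 ⟨-(y - i), ?_, by ring⟩)
    rw [Finset.mem_Icc, ← abs_le]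
    exact not_lt.1 e

theorem tw_AG {k : ℕ} {γ : ℤ → Matrix P P ℂ} (h : γ ∈ D.Lp k) : twA k γ * twG k γ = 1 := by
  refine Band.ext ((tw_band_A k γ).mul (tw_band_G k γ)) (band_one 0) fun j i => ?_
  have e : ∀ x, j + x - i = x + (j - i) := fun x => by ring
  simp only [tw_A_mul h, tw_ent_G h, ent_one, e, twH_left h, sub_eq_zero]

theorem tw_GA {k : ℕ} {γ : ℤ → Matrix P P ℂ} (h : γ ∈ D.Lp k) : twG k γ * twA k γ = 1 := by
  refine Band.ext ((tw_band_G k γ).mul (tw_band_A k γ)) (band_one 0) fun j i => ?_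
  have e : ∀ x, -(j - x - i) = x + (i - j) := fun x => by ring
  simp only [tw_G_mul h, tw_ent_A h, ent_one, e, twH_right h, sub_eq_zero, eq_comm]

theorem tw_hb {k l m : ℕ} {γ : ℤ → Matrix P P ℂ} (h : γ ∈ D.Lp k) (hm : k + l ≤ m) (Q : En P l)
    (j i : ℤ) : hb (tw k γ Q m) j i = ∑ x ∈ Finset.Icc (-(k : ℤ)) k,
      ∑ y ∈ Finset.Icc (-(k : ℤ)) k, twH γ x * hb Q (j - x) (i - y) * (twH γ y)ᴴ := by
  simp only [hb, twH, hat_conj, hat_mul, hat_sum, D.blk_tw h hm]
  congr 1
  rw [Finset.sum_eq_single 0, Finset.sum_eq_single 0]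
  · simp
  · intro b _ hb; simp [hb]
  · intro hb; exact absurd (by simp) hb
  · intro b _ hb; simp [hb]
  · intro hb; exact absurd (by simp) hb

theorem tw_bo {k l m : ℕ} {γ : ℤ → Matrix P P ℂ} (h : γ ∈ D.Lp k) (hm : k + l ≤ m) (Q : En P l) :
    bo (tw k γ Q m) = twG k γ * bo Q * twA k γ := by
  refine Band.ext (tw_band_bo _) (((tw_band_G k γ).mul (tw_band_bo Q)).mul (tw_band_A k γ))
    fun j i => ?_
  rw [ent_bo, tw_hb h hm, mul_assoc, tw_G_mul h]
  simp only [tw_mul_A h (tw_band_bo Q), ent_bo, Finset.mul_sum, mul_assoc]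

theorem tw_ent_conj {k b : ℕ} {γ : ℤ → Matrix P P ℂ} (h : γ ∈ D.Lp k) {S : Opr (Option P)}
    (hS : Band b S) (j i : ℤ) : ent (twA k γ * S * twG k γ) j i = ∑ x ∈ Finset.Icc (-(k : ℤ)) k,
      ∑ y ∈ Finset.Icc (-(k : ℤ)) k, (twH γ x)ᴴ * ent S (j + x) (i + y) * twH γ y := by
  rw [mul_assoc, tw_A_mul h]
  simp only [tw_mul_G h hS, Finset.mul_sum, mul_assoc]

/-- an operator that preserves `V[[t]]` has no entries from it to the negative powers -/
theorem tw_zero_ent {b : ℕ} {S : Opr (Option P)} (hS : Band b S)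
    (h : (1 - bo (0 : En P 0)) * S * bo (0 : En P 0) = 0) {j : ℤ} (hj : j < 0) :
    ent S j 0 = 0 := by
  have e0 : ∀ j i, ent (bo (0 : En P 0)) j i = if j = i ∧ 0 ≤ i then 1 else 0 := fun j i => by
    rw [ent_bo, hb_out _ (by simp)]
    rfl
  have e : ent ((1 - bo (0 : En P 0)) * S * bo (0 : En P 0)) j 0 = ent 0 j 0 := by rw [h]
  rw [mul_assoc, ((band_one _).sub (tw_band_bo _)).ent_mul' _ j 0 {j}, Finset.sum_singleton,
    hS.ent_mul' _ j 0 {0}, Finset.sum_singleton, ent_sub, ent_one, e0, e0, ent_zero] at e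
  · simpa [hj.not_ge] using e
  · intro y hy
    rw [e0, if_neg, mul_zero]
    simp only [Finset.mem_singleton] at hy
    exact fun c => hy c.1
  · intro y hy
    simp only [Finset.mem_singleton] at hy
    rw [ent_sub, ent_one, e0, if_neg (Ne.symm hy), if_neg fun c => hy c.1.symm, sub_zero, zero_mul]

variable (D)

theorem zero_mem_Gr : (0 : En P 0) ∈ D.Gr 0 :=
  D.zero_mem_RR.1 (D.RR_zero ▸ mem_univ _)

theorem tw_Gr {k l m : ℕ} {γ : ℤ → Matrix P P ℂ} (h : γ ∈ D.Lp k) (hm : k + l ≤ m) {Q : En P l}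
    (hQ : Q ∈ D.Gr l) : tw k γ Q m ∈ D.Gr m := by
  obtain ⟨⟨h1, h2, h3⟩, h4⟩ := hQ
  refine ⟨⟨?_, ?_, ?_⟩, ?_⟩
  · rw [ext_herm_iff] at h1 ⊢
    intro j i
    rw [tw_hb h hm, tw_hb h hm, Finset.sum_comm]
    simp only [conjTranspose_sum, conjTranspose_mul, conjTranspose_conjTranspose, h1, mul_assoc]
  · rw [ext_idem_iff] at h2 ⊢
    rw [tw_bo h hm]
    calc twG k γ * bo Q * twA k γ * (twG k γ * bo Q * twA k γ)
        = twG k γ * (bo Q * (twA k γ * twG k γ) * bo Q) * twA k γ := by simp only [mul_assoc]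
      _ = _ := by rw [tw_AG h, mul_one, h2]
  · rintro ⟨a, j⟩ ⟨b, i⟩ hab
    rcases a with _ | a <;> rcases b with _ | b
    · exact absurd rfl hab
    · rfl
    · rfl
    · change blkAt (tw k γ Q m) j i a b = 0
      rw [D.blk_tw h hm, Matrix.sum_apply]
      refine Finset.sum_eq_zero fun x _ => ?_
      rw [Matrix.sum_apply]
      refine Finset.sum_eq_zero fun y _ => ?_
      exact twC_mul (twC_mul (h.2.1 x) (twC_blk h3 _ _)) (twC_conj (h.2.1 y)) a b
        (by simpa using hab)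
  · rw [tw_pres_T] at h4 ⊢
    have e : twA k γ * twT P * twG k γ = twT P := by
      rw [tw_comm_T (tw_band_A k γ) (σ := fun x => (twH γ (-x))ᴴ) (tw_ent_A h), mul_assoc, tw_AG h,
        mul_one]
    rw [tw_bo h hm, tw_conj (tw_GA h), e, h4, mul_zero, zero_mul]

theorem tw_RR {k l m : ℕ} {z : (ℤ → Matrix P P ℂ) × D.NO} (h : z ∈ D.UF k) (hm : k + l ≤ m)
    {Q : En P l} (hQ : (Q, D.adj k z.1 z.2) ∈ D.RR l) : (tw k z.1 Q m, z.2) ∈ D.RR m := by
  obtain ⟨γ, s⟩ := z
  obtain ⟨hγ, h0⟩ := h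
  rw [mem_RR] at hQ h0 ⊢
  refine ⟨D.tw_Gr hγ hm hQ.1, fun e => ?_⟩
  dsimp only at hγ h0 hQ ⊢
  let σ : ℤ → Matrix (Option P) (Option P) ℂ := fun x => if 0 ≤ x then D.mat (s x.toNat) e else 0
  let S : Opr (Option P) := top (2 * m) σ
  have hS : Band (2 * m) S := tw_band_top (2 * m) σ
  have eS : ∀ j i, ent S j i = if |j - i| ≤ (2 * m : ℕ) then σ (j - i) else 0 := fun j i =>
    ent_mop (2 * m) (fun j i => σ (j - i)) j i
  have S0 : ∀ j i, j < i → ent S j i = 0 := fun j i c => by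
    rw [eS]
    simp only [σ]
    rw [if_neg (show ¬0 ≤ j - i by omega), ite_self]
  have S1 : ∀ (i : ℤ) (n : ℕ), n < 2 * m → ent S (i + n) i = D.mat (s n) e := fun i n c => by
    rw [eS, add_sub_cancel_left, if_pos (by rw [abs_le]; constructor <;> omega)]
    simp [σ]
  have hS' : Band (k + 2 * m + k) (twA k γ * S * twG k γ) :=
    ((tw_band_A k γ).mul hS).mul (tw_band_G k γ)
  have a0 := (pres_iff _ hS S0 fun i n c => S1 i n (by omega)).1 (h0.2 e)
  rw [tw_bo (l := 0) (m := k) hγ le_rfl, tw_conj (tw_GA hγ)] at a0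
  have a1 : (1 - bo (0 : En P 0)) * (twA k γ * S * twG k γ) * bo (0 : En P 0) = 0 := by
    have := congrArg (fun X => twA k γ * X * twG k γ) a0
    simp only [mul_zero, zero_mul] at this
    rw [← this]
    generalize (1 - bo (0 : En P 0)) * (twA k γ * S * twG k γ) * bo (0 : En P 0) = X
    calc X = (twA k γ * twG k γ) * X * (twA k γ * twG k γ) := by rw [tw_AG hγ, one_mul, mul_one]
      _ = _ := by simp only [mul_assoc]
  have T0 : ∀ j i, j < i → ent (twA k γ * S * twG k γ) j i = 0 := fun j i c => by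
    rw [← tw_zero_ent hS' a1 (j := j - i) (by omega), tw_ent_conj hγ hS, tw_ent_conj hγ hS]
    refine Finset.sum_congr rfl fun x _ => Finset.sum_congr rfl fun y _ => ?_
    rw [eS, eS, show j + x - (i + y) = j - i + x - (0 + y) by ring]
  have T1 : ∀ (i : ℤ) (n : ℕ), n < 2 * l →
      ent (twA k γ * S * twG k γ) (i + n) i = D.mat (D.adj k γ s n) e := fun i n c => by
    rw [tw_ent_conj hγ hS, D.mat_adj hγ]
    refine Finset.sum_congr rfl fun x hx => Finset.sum_congr rfl fun y hy => ?_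
    rw [Finset.mem_Icc] at hx hy
    rw [eS, show i + n + x - (i + y) = n + x - y by ring,
      if_pos (by rw [abs_le]; constructor <;> omega)]
    simp only [σ]
    by_cases c' : 0 ≤ n + x - y
    · rw [if_pos c', if_pos c']
      rfl
    · rw [if_neg c', if_neg c', mul_zero, zero_mul]
  have a2 := (pres_iff _ hS' T0 T1).1 (hQ.2 e)
  rw [pres_iff _ hS S0 S1, tw_bo hγ hm, tw_conj (tw_GA hγ), a2, mul_zero, zero_mul]

/-- take `k = 0`, `γ = Pi.single 0 1` -/
theorem upE_RR {k : ℕ} {z : En P k × D.NO} (h : z ∈ D.RR k) : (upE k z.1, z.2) ∈ D.RR (k + 1) := by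
  have hγ : (Pi.single 0 1 : ℤ → Matrix P P ℂ) ∈ D.Lp 0 := by
    refine ⟨fun x hx => Pi.single_eq_of_ne (fun e => ?_) _, fun x a b hab => ?_, fun m => ?_⟩
    · simp [e] at hx
    · rw [Pi.single_apply]
      split_ifs
      · exact one_apply_ne fun e => hab (e ▸ rfl)
      · rfl
    · simp [Pi.single_apply]
  have e1 : D.adj 0 (Pi.single 0 1) z.2 = z.2 := by
    ext m p
    simp [adj, hat_one, cmat_apply]
  have e2 : tw 0 (Pi.single 0 1) z.1 (k + 1) = upE k z.1 := by
    ext w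
    simp [tw, upE]
  rw [← e2]
  exact D.tw_RR (z := (Pi.single 0 1, z.2)) ⟨hγ, D.RR_zero ▸ mem_univ _⟩ (by omega)
    (by rw [e1]; exact h)

end Qv

end Pool.Agent.Work.MP_849ab0_ag.G
end
end

-- merged part: Pool.Agent.Work.MP_849ab0_ag.G.C.Frame
section
/-!
Task C-Frame. Every lattice has a unitary polynomial frame, unique up to K (Iwasawa).
Plan: exists_factor: colour by colour the image of Q has dimension trace Q (rank of an idempotent),
choose an orthonormal basis of it indexed by the fibre of c' (or: spectral theorem, or induction).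
exists_frame: B = bo Q, B' = T B T^-1 has blocks hb Q (j-1) (i-1); B B' = B' = B' B (stability under t and
adjoint), so Π = B - B' is a Hermitian idempotent with blocks blkAt Q j i - blkAt Q (j-1) (i-1) on V,
supported in Icc (-k) k, and colour trace v c (telescoping). Factor the finite matrix Π on
P × Icc (-k) k as Γ Γ^H and let γ x be the blocks of Γ. Unitarity for m ≥ 1: Π T^m Π = 0 because
B' T^m B = T^m B; m ≤ -1 by the adjoint. tw k γ 0 k = Q: the block (j, i) is the sum over m ≥ 0 of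
Π (j-m) (i-m), telescoping. frame_unique: blk_tw gives γ j * (γ i)^H = blk j i - blk (j-1) (i-1) for
both loops, put g^H = sum over x of (γ x)^H * γ' x.
-/

noncomputable section

set_option linter.unusedSectionVars false
set_option linter.unusedVariables false

namespace Pool.Agent.Work.MP_849ab0_ag.G

open Set Topology Matrix

theorem frame_pick {J J' : Type} [Fintype J] [DecidableEq J] [Fintype J'] [DecidableEq J']
    (T : Finset J) (S : Finset J') (h : S.card = T.card) :
    ∃ W : Matrix J J' ℂ, Wᴴ * W = diagonal (fun a => if a ∈ S then 1 else 0) ∧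
      W * Wᴴ = diagonal (fun x => if x ∈ T then 1 else 0) := by
  classical
  let e : S ≃ T := Finset.equivOfCardEq h
  let r : J → J' → Prop := fun x a => ∃ h : a ∈ S, (e ⟨a, h⟩ : J) = x
  have r1 : ∀ x a b, r x a → r x b → a = b := by
    rintro x a b ⟨ha, e1⟩ ⟨hb, e2⟩
    have := e.injective (Subtype.ext (e1.trans e2.symm))
    exact congrArg Subtype.val this
  have r2 : ∀ x y a, r x a → r y a → x = y := by
    rintro x y a ⟨ha, e1⟩ ⟨hb, e2⟩
    exact e1.symm.trans e2
  refine ⟨Matrix.of fun x a => if r x a then 1 else 0, ?_, ?_⟩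
  · ext a b
    simp only [mul_apply, conjTranspose_apply, of_apply, diagonal_apply]
    by_cases hab : a = b
    · subst hab
      rw [if_pos rfl]
      by_cases ha : a ∈ S
      · rw [if_pos ha, Finset.sum_eq_single (e ⟨a, ha⟩ : J)]
        · rw [if_pos ⟨ha, rfl⟩]; simp
        · intro x _ hx
          rw [if_neg fun hr => hx (r2 _ _ _ hr ⟨ha, rfl⟩)]; simp
        · simp
      · rw [if_neg ha]
        refine Finset.sum_eq_zero fun x _ => ?_
        rw [if_neg fun hr => ha hr.1]; simp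
    · rw [if_neg hab]
      refine Finset.sum_eq_zero fun x _ => ?_
      by_cases h1 : r x a
      · rw [if_neg fun hr => hab (r1 _ _ _ h1 hr)]; simp
      · rw [if_neg h1]; simp
  · ext x y
    simp only [mul_apply, conjTranspose_apply, of_apply, diagonal_apply]
    by_cases hxy : x = y
    · subst hxy
      rw [if_pos rfl]
      by_cases hx : x ∈ T
      · have hr : r x (e.symm ⟨x, hx⟩ : J') := ⟨(e.symm ⟨x, hx⟩).2, by simp⟩
        rw [if_pos hx, Finset.sum_eq_single (e.symm ⟨x, hx⟩ : J')]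
        · rw [if_pos hr]; simp
        · intro a _ ha
          rw [if_neg fun hr' => ha (r1 _ _ _ hr' hr)]; simp
        · simp
      · rw [if_neg hx]
        refine Finset.sum_eq_zero fun a _ => ?_
        rw [if_neg]
        · simp
        · rintro ⟨ha, e1⟩
          exact hx (e1 ▸ (e ⟨a, ha⟩).2)
    · rw [if_neg hxy]
      refine Finset.sum_eq_zero fun a _ => ?_
      by_cases h1 : r x a
      · rw [if_neg fun hr => hxy (r2 _ _ _ h1 hr)]; simp
      · rw [if_neg h1]; simp

theorem frame_factor {J J' : Type} [Fintype J] [DecidableEq J] [Fintype J'] [DecidableEq J']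
    {Q : Matrix J J ℂ} (h1 : Qᴴ = Q) (h2 : Q * Q = Q) (S : Finset J')
    (h : Q.trace = (S.card : ℂ)) :
    ∃ Γ : Matrix J J' ℂ, Γᴴ * Γ = diagonal (fun a => if a ∈ S then 1 else 0) ∧ Γ * Γᴴ = Q := by
  classical
  have hA : Q.IsHermitian := h1
  obtain ⟨U, d, hU, hU', hQ⟩ : ∃ (U : Matrix J J ℂ) (d : J → ℂ), Uᴴ * U = 1 ∧ U * Uᴴ = 1 ∧
      Q = U * diagonal d * Uᴴ := by
    refine ⟨hA.eigenvectorUnitary, RCLike.ofReal ∘ hA.eigenvalues,
      hA.eigenvectorUnitary.2.1, hA.eigenvectorUnitary.2.2, ?_⟩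
    simpa [Unitary.conjStarAlgAut_apply, star_eq_conjTranspose] using hA.spectral_theorem
  have hD : Uᴴ * Q * U = diagonal d := by
    rw [hQ]
    calc Uᴴ * (U * diagonal d * Uᴴ) * U = (Uᴴ * U) * diagonal d * (Uᴴ * U) := by
          simp only [Matrix.mul_assoc]
      _ = diagonal d := by rw [hU, Matrix.one_mul, Matrix.mul_one]
  have hdd : diagonal d * diagonal d = diagonal d := by
    rw [← hD]
    calc Uᴴ * Q * U * (Uᴴ * Q * U) = Uᴴ * (Q * (U * Uᴴ) * Q) * U := by
          simp only [Matrix.mul_assoc]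
      _ = Uᴴ * Q * U := by rw [hU', Matrix.mul_one, h2]
  have hd : ∀ x, d x = if x ∈ Finset.univ.filter (fun x => d x = 1) then 1 else 0 := by
    intro x
    have := congrFun (congrFun hdd x) x
    rw [diagonal_mul_diagonal, diagonal_apply_eq, diagonal_apply_eq] at this
    by_cases e : d x = 1
    · simp [e]
    · have e' : d x * (d x - 1) = 0 := by rw [mul_sub, this, mul_one, sub_self]
      rcases mul_eq_zero.1 e' with e0 | e0
      · simp [e0]
      · exact absurd (sub_eq_zero.1 e0) e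
  set T := Finset.univ.filter (fun x => d x = 1) with hT
  have hc : S.card = T.card := by
    have t1 : Q.trace = ∑ x, d x := by
      rw [← trace_diagonal, ← hD, Matrix.trace_mul_comm, ← Matrix.mul_assoc, hU', Matrix.one_mul]
    have t2 : ∑ x, d x = (T.card : ℂ) := by
      rw [Finset.sum_congr rfl fun x _ => hd x]
      simp
    exact_mod_cast h.symm.trans (t1.trans t2)
  obtain ⟨W, w1, w2⟩ := frame_pick T S hc
  refine ⟨U * W, ?_, ?_⟩
  · rw [conjTranspose_mul, ← w1]
    calc Wᴴ * Uᴴ * (U * W) = Wᴴ * ((Uᴴ * U) * W) := by simp only [Matrix.mul_assoc]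
      _ = Wᴴ * W := by rw [hU, Matrix.one_mul]
  · rw [conjTranspose_mul, hQ, show d = _ from funext hd, ← w2]
    simp only [Matrix.mul_assoc]

open scoped ComplexOrder in
theorem frame_col0 {J J' : Type} [Fintype J] {G : Matrix J J' ℂ} {a : J'} (e : (Gᴴ * G) a a = 0)
    (x : J) : G x a = 0 := by
  have e' : star (fun y => G y a) ⬝ᵥ (fun y => G y a) = 0 := e
  exact congrFun (dotProduct_star_self_eq_zero.1 e') x

open scoped ComplexOrder in
theorem frame_row0 {J J' : Type} [Fintype J'] {G : Matrix J J' ℂ} {x : J} (e : (G * Gᴴ) x x = 0)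
    (a : J') : G x a = 0 := by
  have e' : (G x) ⬝ᵥ star (G x) = 0 := e
  exact congrFun (dotProduct_self_star_eq_zero.1 e') a

theorem exists_factor {J J' C : Type} [Fintype J] [DecidableEq J] [Fintype J'] [DecidableEq J']
    [DecidableEq C] {c : J → C} {c' : J' → C} {Q : Matrix J J ℂ} (hQ : IsPr c Q)
    (h : ∀ i, ∑ x with c x = i, Q x x = ((Finset.univ.filter fun a => c' a = i).card : ℂ)) :
    ∃ Γ : Matrix J J' ℂ, Γᴴ * Γ = 1 ∧ Γ * Γᴴ = Q ∧ ∀ x a, c x ≠ c' a → Γ x a = 0 := by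
  classical
  obtain ⟨h1, h2, h3⟩ := hQ
  have key : ∀ i : C, ∃ G : Matrix J J' ℂ,
      Gᴴ * G = diagonal (fun a => if c' a = i then 1 else 0) ∧
        G * Gᴴ = Matrix.of fun x y => if c x = i then Q x y else 0 := by
    intro i
    have := frame_factor (Q := Matrix.of fun x y => if c x = i then Q x y else 0) ?_ ?_
      (Finset.univ.filter fun a => c' a = i) ?_
    · simpa using this
    · ext x y
      simp only [conjTranspose_apply, of_apply]
      have e := congrFun (congrFun h1 x) y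
      rw [conjTranspose_apply] at e
      by_cases hxy : c x = c y
      · rw [← hxy]
        split_ifs
        · exact e
        · simp
      · rw [h3 x y hxy, h3 y x (Ne.symm hxy)]
        simp
    · ext x y
      simp only [mul_apply, of_apply]
      split_ifs with hx
      · rw [← congrFun (congrFun h2 x) y, mul_apply]
        refine Finset.sum_congr rfl fun z _ => ?_
        split_ifs with hz
        · rfl
        · rw [h3 x z fun e => hz (e ▸ hx)]; simp
      · simp
    · rw [← h i, Finset.sum_filter]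
      rfl
  choose G g1 g2 using key
  have z1 : ∀ i x a, c' a ≠ i → G i x a = 0 := by
    intro i x a ha
    have e := congrFun (congrFun (g1 i) a) a
    rw [diagonal_apply_eq, if_neg ha] at e
    exact frame_col0 e x
  have z2 : ∀ i x a, c x ≠ i → G i x a = 0 := by
    intro i x a hx
    have e := congrFun (congrFun (g2 i) x) x
    rw [of_apply, if_neg hx] at e
    exact frame_row0 e a
  refine ⟨Matrix.of fun x a => G (c' a) x a, ?_, ?_, fun x a hx => z2 _ _ _ hx⟩
  · ext a b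
    simp only [mul_apply, conjTranspose_apply, of_apply]
    by_cases hab : c' a = c' b
    · have e := congrFun (congrFun (g1 (c' a)) a) b
      simp only [mul_apply, conjTranspose_apply] at e
      rw [← hab, e]
      simp [diagonal_apply, one_apply]
    · rw [one_apply_ne fun e : a = b => hab (congrArg c' e)]
      refine Finset.sum_eq_zero fun x _ => ?_
      by_cases hx : c x = c' a
      · rw [z2 _ x b fun e => hab (hx.symm.trans e), mul_zero]
      · rw [z2 _ x a hx]; simp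
  · ext x y
    simp only [mul_apply, conjTranspose_apply, of_apply]
    have e := congrFun (congrFun (g2 (c x)) x) y
    simp only [mul_apply, conjTranspose_apply, of_apply, if_true] at e
    rw [← e]
    refine Finset.sum_congr rfl fun a _ => ?_
    by_cases ha : c' a = c x
    · rw [ha]
    · rw [z2 _ x a (Ne.symm ha), z1 _ x a ha]; simp

variable {I P E κ : Type} [Fintype I] [DecidableEq I] [Fintype P] [DecidableEq P] [Fintype E]
  [Fintype κ] [DecidableEq κ] (D : Qv I P E κ)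

namespace Qv

theorem frame_ring {R : Type} [Ring R] {T S B : R} (h0 : S * T = 1) (h1 : B * B = B)
    (h2 : B * T * B = T * B) (h3 : B * S * B = B * S) :
    (B - T * B * S) * (B - T * B * S) = B - T * B * S ∧
      (∀ n : ℕ, (B - T * B * S) * (T ^ (n + 1) * (B - T * B * S)) = 0) ∧
      ∀ n : ℕ, (B - T * B * S) * (S ^ (n + 1) * (B - T * B * S)) = 0 := by
  set A := B - T * B * S with hA
  have a1 : B * A = A := by rw [hA, mul_sub, h1, ← mul_assoc, ← mul_assoc, h2]
  have a2 : A * B = A := by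
    rw [hA, sub_mul, h1, mul_assoc T, mul_assoc T, h3, ← mul_assoc]
  have a3 : A * T * B = 0 := by
    rw [hA, sub_mul, sub_mul, h2, mul_assoc _ S, h0, mul_one, mul_assoc, h1, sub_self]
  have a4 : B * S * A = 0 := by
    rw [hA, mul_sub, h3, mul_assoc T, ← mul_assoc, mul_assoc B S T, h0, mul_one, ← mul_assoc, h1,
      sub_self]
  have b1 : ∀ n : ℕ, B * (T ^ n * B) = T ^ n * B := by
    intro n
    induction n with
    | zero => simpa using h1
    | succ n ih =>
      calc B * (T ^ (n + 1) * B) = B * T * (B * (T ^ n * B)) := by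
            rw [ih, pow_succ']; simp only [mul_assoc]
        _ = T * (B * (T ^ n * B)) := by rw [← mul_assoc, h2, mul_assoc]
        _ = T ^ (n + 1) * B := by rw [ih, pow_succ', mul_assoc]
  have b2 : ∀ n : ℕ, B * S ^ n * B = B * S ^ n := by
    intro n
    induction n with
    | zero => simpa using h1
    | succ n ih =>
      calc B * S ^ (n + 1) * B = B * S ^ n * B * S * B := by
            rw [ih, pow_succ]; simp only [mul_assoc]
        _ = B * S ^ n * (B * S * B) := by simp only [mul_assoc]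
        _ = B * S ^ (n + 1) := by rw [h3, ← mul_assoc, ih, pow_succ, mul_assoc]
  refine ⟨?_, fun n => ?_, fun n => ?_⟩
  · calc A * A = B * A - T * (B * S * A) := by
          conv_lhs => rw [hA, sub_mul, ← hA]
          simp only [mul_assoc]
      _ = A := by rw [a1, a4, mul_zero, sub_zero]
  · calc A * (T ^ (n + 1) * A) = A * (T ^ (n + 1) * (B * A)) := by rw [a1]
      _ = A * T * (T ^ n * B) * A := by rw [pow_succ']; simp only [mul_assoc]
      _ = A * T * B * (T ^ n * B) * A := by rw [mul_assoc _ B, b1]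
      _ = 0 := by rw [a3, zero_mul, zero_mul]
  · calc A * (S ^ (n + 1) * A) = A * (B * S ^ n) * (S * A) := by
          rw [← mul_assoc A B, a2, pow_succ]; simp only [mul_assoc]
      _ = A * (B * S ^ n) * (B * S * A) := by
          conv_lhs => rw [← b2]
          simp only [mul_assoc]
      _ = 0 := by rw [a4, mul_zero]

/-- the shift -/
def frame_sh (O : Type) (m : ℤ) : Opr O := LinearMap.funLeft ℂ (O → ℂ) fun j => j - m

theorem frame_sh_mul {O : Type} (m n : ℤ) : frame_sh O m * frame_sh O n = frame_sh O (m + n) := by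
  refine LinearMap.ext fun v => funext fun j => ?_
  change v (j - m - n) = v (j - (m + n))
  rw [sub_sub]

theorem frame_sh_zero {O : Type} : frame_sh O 0 = 1 := by
  refine LinearMap.ext fun v => funext fun j => ?_
  change v (j - 0) = v j
  rw [sub_zero]

theorem frame_sh_pow {O : Type} (a : ℤ) (n : ℕ) : frame_sh O a ^ n = frame_sh O (n * a) := by
  induction n with
  | zero => simp [frame_sh_zero]
  | succ n ih => rw [pow_succ, ih, frame_sh_mul]; congr 1; push_cast; ring

theorem frame_ent_l {O : Type} [DecidableEq O] (m : ℤ) (A : Opr O) (j i : ℤ) :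
    ent (frame_sh O m * A) j i = ent A (j - m) i := rfl

theorem frame_ent_r {O : Type} [DecidableEq O] (m : ℤ) (A : Opr O) (j i : ℤ) :
    ent (A * frame_sh O m) j i = ent A j (i + m) := by
  ext b a
  change A (frame_sh O m (Pi.single i (Pi.single a 1))) j b = A _ j b
  refine congrArg (fun v => A v j b) (funext fun x => ?_)
  change (Pi.single i (Pi.single a 1) : ℤ → O → ℂ) (x - m) = _
  by_cases hx : x = i + m
  · subst hx
    simp
  · rw [Pi.single_eq_of_ne hx, Pi.single_eq_of_ne (by omega)]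

theorem frame_ent_sh {O : Type} [Fintype O] [DecidableEq O] (m j i : ℤ) :
    ent (frame_sh O m) j i = if j - m = i then 1 else 0 := by
  rw [← mul_one (frame_sh O m), frame_ent_l, ent_one]

theorem frame_band {O : Type} [Fintype O] [DecidableEq O] {m : ℤ} (h : -1 ≤ m ∧ m ≤ 1) :
    Band 1 (frame_sh O m) := by
  intro v j
  rw [Finset.sum_eq_single m]
  · rw [frame_ent_sh, if_pos rfl, one_mulVec]
    rfl
  · intro x _ hx
    rw [frame_ent_sh, if_neg (by omega), zero_mulVec]
  · intro hm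
    exact absurd (Finset.mem_Icc.2 (by simpa using h)) hm

theorem frame_tele {M : Type} [AddCommGroup M] (f : ℤ → M) (k : ℕ) :
    ∑ j ∈ Finset.Icc (-(k : ℤ)) k, (f j - f (j - 1)) = f k - f (-(k : ℤ) - 1) := by
  induction k with
  | zero => simp
  | succ k ih =>
    have e : Finset.Icc (-((k + 1 : ℕ) : ℤ)) (k + 1 : ℕ) =
        insert (-(k : ℤ) - 1) (insert ((k : ℤ) + 1) (Finset.Icc (-(k : ℤ)) k)) := by
      ext x
      simp only [Finset.mem_Icc, Finset.mem_insert]
      omega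
    rw [e, Finset.sum_insert (by simp; omega), Finset.sum_insert (by simp), ih]
    push_cast
    rw [show -((k : ℤ) + 1) - 1 = -(k : ℤ) - 1 - 1 by ring, add_sub_cancel_right]
    abel

/-- the blocks of the projection on the orthogonal complement of `t L` in `L` -/
def frame_pi {k : ℕ} (Q : En P k) (j i : ℤ) : Matrix P P ℂ := blkAt Q j i - blkAt Q (j - 1) (i - 1)

theorem frame_herm {k : ℕ} {Q : En P k} (hQ : Q ∈ D.Gr k) (j i : ℤ) :
    (blkAt Q i j)ᴴ = blkAt Q j i := by
  ext b a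
  exact congrFun (congrFun ((ext_herm_iff Q).1 hQ.1.1 j i) (some b)) (some a)

theorem frame_col {k : ℕ} {Q : En P k} (hQ : Q ∈ D.Gr k) (j i : ℤ) {b a : P}
    (h : D.col b ≠ D.col a) : blkAt Q j i b a = 0 := by
  by_cases hb : j ∈ Finset.Ico (-(k : ℤ)) k ∧ i ∈ Finset.Ico (-(k : ℤ)) k
  · exact hQ.1.2.2 (some b, ⟨j, hb.1⟩) (some a, ⟨i, hb.2⟩) (by simpa using h)
  · unfold blkAt
    rw [dif_neg hb]
    split_ifs
    · exact one_apply_ne fun e => h (congrArg D.col e)
    · rfl

theorem frame_orth {k : ℕ} {Q : En P k} (hQ : Q ∈ D.Gr k) (m j i : ℤ) :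
    ∑ y ∈ Finset.Icc (-(k : ℤ)) k, frame_pi Q j y * frame_pi Q (y + m) i =
      if m = 0 then frame_pi Q j i else 0 := by
  set B := bo Q with hB
  set T := frame_sh (Option P) 1 with hT
  set S := frame_sh (Option P) (-1) with hS
  have bB : Band (2 * k) B := band_mop _ _
  have bT : Band 1 T := frame_band (by omega)
  have bS : Band 1 S := frame_band (by omega)
  have h0 : S * T = 1 := by rw [hS, hT, frame_sh_mul]; simp [frame_sh_zero]
  have h1 : B * B = B := (ext_idem_iff Q).1 hQ.1.2.1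
  have h2 : B * T * B = T * B := by
    have := (pres_iff Q bT (fun j i hji => by rw [hT, frame_ent_sh, if_neg (by omega)])
      (fun i m _ => ?_)).1 hQ.2
    · rw [sub_mul, sub_mul, one_mul, sub_eq_zero] at this
      exact this.symm
    · rw [hT, frame_ent_sh]
      by_cases hm : m = 1
      · subst hm
        simp
      · rw [if_neg (by omega), Pi.single_eq_of_ne hm]
  have hh := (ext_herm_iff Q).1 hQ.1.1
  have h3 : B * S * B = B * S := by
    refine Band.ext ((bB.mul bS).mul bB) (bB.mul bS) fun j i => ?_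
    have o : ∀ y, y ∉ Finset.Icc (i - (2 * k : ℕ)) (i + (2 * k : ℕ)) → ent B i y = 0 :=
      fun y hy => bB.ent_zero (by rw [Finset.mem_Icc] at hy; rw [lt_abs]; omega)
    have o' : ∀ y, y ∉ Finset.Icc (i - (2 * k : ℕ)) (i + (2 * k : ℕ)) → ent B y i = 0 :=
      fun y hy => bB.ent_zero (by rw [Finset.mem_Icc] at hy; rw [lt_abs]; omega)
    have e := congrArg (fun A => (ent A i j)ᴴ) h2
    rw [mul_assoc, bB.ent_mul' _ _ _ _ fun y hy => by rw [o y hy, Matrix.zero_mul]] at e
    rw [(bB.mul bS).ent_mul' _ _ _ _ fun y hy => by rw [o' y hy, Matrix.mul_zero]]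
    simpa only [hB, hT, hS, frame_ent_l, frame_ent_r, ent_bo, conjTranspose_sum, conjTranspose_mul,
      hh, ← sub_eq_add_neg] using e
  obtain ⟨r0, r1, r2⟩ := frame_ring h0 h1 h2 h3
  set A := B - T * B * S with hA
  have bA : Band (1 + 2 * k + 1) A := (bB.mono (by omega)).sub ((bT.mul bB).mul bS)
  have eA : ∀ j i, ent A j i = hb Q j i - hb Q (j - 1) (i - 1) := by
    intro j i
    simp only [hA, hB, hT, hS, ent_sub, mul_assoc, frame_ent_l, frame_ent_r, ent_bo,
      ← sub_eq_add_neg]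
  have r : A * (frame_sh (Option P) (-m) * A) = if m = 0 then A else 0 := by
    rcases lt_trichotomy m 0 with hm | hm | hm
    · have := r1 (-m - 1).toNat
      rw [hT, frame_sh_pow, show (((-m - 1).toNat + 1 : ℕ) : ℤ) * 1 = -m by omega] at this
      rw [if_neg hm.ne, this]
    · subst hm
      simpa [frame_sh_zero] using r0
    · have := r2 (m - 1).toNat
      rw [hS, frame_sh_pow, show (((m - 1).toNat + 1 : ℕ) : ℤ) * -1 = -m by omega] at this
      rw [if_neg hm.ne', this]
  have e := congrArg (fun A => ent A j i) r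
  rw [bA.ent_mul' _ _ _ (Finset.Icc (-(k : ℤ)) k) fun y hy => ?_] at e
  · ext b a
    have e' := congrFun (congrFun e (some b)) (some a)
    simp only [frame_ent_l, eA, sub_neg_eq_add, Matrix.sum_apply, mul_apply,
      Fintype.sum_option] at e'
    simp only [Matrix.sum_apply, mul_apply]
    have e2 : ∀ (c : Prop) [Decidable c], ent (if c then A else 0) j i (some b) (some a) =
        (if c then frame_pi Q j i else 0) b a := by
      intro c _
      split_ifs
      · rw [eA]; rfl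
      · rw [ent_zero]; rfl
    rw [← e2, ← e']
    refine Finset.sum_congr rfl fun y _ => ?_
    have z : (hb Q j y - hb Q (j - 1) (y - 1)) (some b) none = 0 := sub_self (0 : ℂ)
    rw [z, zero_mul, zero_add]
    rfl
  · rw [Finset.mem_Icc] at hy
    rw [eA, hb_out Q (by simp only [Finset.mem_Ico]; omega),
      hb_out Q (by simp only [Finset.mem_Ico]; omega)]
    by_cases hc : j = y ∧ (k : ℤ) ≤ y
    · rw [if_pos hc, if_pos (by omega), sub_self, Matrix.zero_mul]
    · rw [if_neg hc, if_neg (by omega), sub_self, Matrix.zero_mul]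

theorem frame_zero_blk (j i : ℤ) :
    blkAt (0 : En P 0) j i = if j = i ∧ 0 ≤ i then 1 else 0 := by
  unfold blkAt
  rw [dif_neg (by simp)]
  simp

theorem frame_diff {k : ℕ} {γ : ℤ → Matrix P P ℂ} (h : γ ∈ D.Lp k) (j i : ℤ) :
    blkAt (tw k γ (0 : En P 0) k) j i - blkAt (tw k γ (0 : En P 0) k) (j - 1) (i - 1) =
      γ j * (γ i)ᴴ := by
  rw [D.blk_tw (l := 0) (m := k) h (le_refl k), D.blk_tw (l := 0) (m := k) h (le_refl k),
    ← Finset.sum_sub_distrib]
  have e : ∀ x y : ℤ, γ x * blkAt (0 : En P 0) (j - x) (i - y) * (γ y)ᴴ -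
      γ x * blkAt (0 : En P 0) (j - 1 - x) (i - 1 - y) * (γ y)ᴴ =
        if x = j then (if y = i then γ j * (γ i)ᴴ else 0) else 0 := by
    intro x y
    rw [frame_zero_blk, frame_zero_blk]
    by_cases hx : x = j
    · by_cases hy : y = i
      · subst hx hy
        simp
      · rw [if_pos hx, if_neg hy, if_neg (by omega), if_neg (by omega), sub_self]
    · rw [if_neg hx]
      by_cases h1 : j - x = i - y ∧ 0 ≤ i - y
      · rw [if_pos h1, if_pos (by omega), sub_self]
      · rw [if_neg h1, if_neg (by omega), sub_self]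
  simp only [← Finset.sum_sub_distrib, e]
  by_cases hj : j ∈ Finset.Icc (-(k : ℤ)) k
  · by_cases hi : i ∈ Finset.Icc (-(k : ℤ)) k
    · rw [Finset.sum_eq_single j]
      · simp [hi]
      · intro x _ hx
        simp [hx]
      · intro hx
        exact absurd hj hx
    · rw [h.1 i (by rw [Finset.mem_Icc] at hi; rw [lt_abs]; omega)]
      simp
  · rw [h.1 j (by rw [Finset.mem_Icc] at hj; rw [lt_abs]; omega)]
    simp

theorem frame_eq_of_diff {k : ℕ} {Q Q' : En P k}
    (h : ∀ j i, blkAt Q j i - blkAt Q (j - 1) (i - 1) = blkAt Q' j i - blkAt Q' (j - 1) (i - 1)) :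
    Q = Q' := by
  have h0 : ∀ (R : En P k) (i : ℤ), blkAt R (-(k : ℤ) - 1) i = 0 := by
    intro R i
    unfold blkAt
    rw [dif_neg (by simp), if_neg (by omega)]
  have h1 : ∀ (n : ℕ) (i : ℤ), blkAt Q (-(k : ℤ) - 1 + n) i = blkAt Q' (-(k : ℤ) - 1 + n) i := by
    intro n
    induction n with
    | zero => intro i; simp only [Nat.cast_zero, add_zero, h0]
    | succ n ih =>
      intro i
      have e := h (-(k : ℤ) - 1 + (n + 1 : ℕ)) i
      rw [show -(k : ℤ) - 1 + (n + 1 : ℕ) - 1 = -(k : ℤ) - 1 + n by push_cast; ring, ih] at e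
      exact sub_left_injective e
  funext z
  obtain ⟨y, x⟩ := z
  rw [← blkAt_mem Q, ← blkAt_mem Q']
  have hy := (Finset.mem_Ico.1 y.2.2).1
  have e : (y.2 : ℤ) = -(k : ℤ) - 1 + ((y.2 : ℤ) + k + 1).toNat := by omega
  rw [e, h1]

theorem exists_frame {k : ℕ} {Q : En P k} (hQ : Q ∈ D.Gr k) :
    ∃ γ ∈ D.Lp k, tw k γ (0 : En P 0) k = Q := by
  have hP : IsPr (fun x : P × Finset.Icc (-(k : ℤ)) k => D.col x.1)
      (Matrix.of fun y x => frame_pi Q y.2 x.2 y.1 x.1) := by
    refine ⟨?_, ?_, fun y x h => ?_⟩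
    · ext y x
      have e : (frame_pi Q x.2 y.2)ᴴ = frame_pi Q y.2 x.2 := by
        simp only [frame_pi, conjTranspose_sub, D.frame_herm hQ]
      exact congrFun (congrFun e y.1) x.1
    · ext y x
      have e := congrFun (congrFun (D.frame_orth hQ 0 y.2 x.2) y.1) x.1
      simp only [add_zero, if_true, Matrix.sum_apply, mul_apply] at e
      simp only [mul_apply, of_apply, Fintype.sum_prod_type_right]
      rw [← e, ← Finset.sum_coe_sort (Finset.Icc (-(k : ℤ)) k)]
    · simp only [of_apply, frame_pi, Matrix.sub_apply, D.frame_col hQ _ _ h, sub_self]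
  obtain ⟨Γ, g1, g2, g3⟩ := exists_factor (c' := D.col) hP fun c => by
    have e := frame_tele (fun j => blkAt Q j j) k
    have e1 : blkAt Q k k = 1 := by
      unfold blkAt
      rw [dif_neg (by simp), if_pos (by simp)]
    have e0 : blkAt Q (-(k : ℤ) - 1) (-(k : ℤ) - 1) = 0 := by
      unfold blkAt
      rw [dif_neg (by simp), if_neg (by omega)]
    rw [e1, e0, sub_zero, ← Finset.sum_coe_sort] at e
    rw [Finset.sum_filter, Fintype.sum_prod_type, Finset.card_filter]
    push_cast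
    refine Finset.sum_congr rfl fun a _ => ?_
    split_ifs
    · have e' := congrFun (congrFun e a) a
      rw [Matrix.sum_apply, one_apply_eq] at e'
      exact e'
    · simp
  let γ : ℤ → Matrix P P ℂ := fun x =>
    if h : x ∈ Finset.Icc (-(k : ℤ)) k then Matrix.of fun b a => Γ (b, ⟨x, h⟩) a else 0
  have s0 : ∀ x, x ∉ Finset.Icc (-(k : ℤ)) k → γ x = 0 := fun x hx => dif_neg hx
  have s1 : ∀ (x : Finset.Icc (-(k : ℤ)) k) b a, γ x b a = Γ (b, x) a := fun x b a => by
    simp only [γ, dif_pos x.2, of_apply]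
  have u : ∑ x ∈ Finset.Icc (-(k : ℤ)) k, (γ x)ᴴ * γ x = 1 := by
    rw [← g1, ← Finset.sum_coe_sort]
    ext a b
    simp only [Matrix.sum_apply, mul_apply, conjTranspose_apply, s1, Fintype.sum_prod_type_right]
  have o : ∀ j i, ¬(j ∈ Finset.Icc (-(k : ℤ)) k ∧ i ∈ Finset.Icc (-(k : ℤ)) k) →
      frame_pi Q j i = 0 := by
    intro j i h
    simp only [Finset.mem_Icc] at h
    unfold frame_pi blkAt
    rw [dif_neg (by simp only [Finset.mem_Ico]; omega),
      dif_neg (by simp only [Finset.mem_Ico]; omega)]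
    by_cases hc : j = i ∧ (k : ℤ) ≤ i
    · rw [if_pos hc, if_pos (by omega), sub_self]
    · rw [if_neg hc, if_neg (by omega), sub_self]
  have p : ∀ j i, γ j * (γ i)ᴴ = frame_pi Q j i := by
    intro j i
    by_cases h : j ∈ Finset.Icc (-(k : ℤ)) k ∧ i ∈ Finset.Icc (-(k : ℤ)) k
    · ext b a
      have e := congrFun (congrFun g2 (b, ⟨j, h.1⟩)) (a, ⟨i, h.2⟩)
      simp only [mul_apply, conjTranspose_apply, of_apply, ← s1] at e
      simpa only [mul_apply, conjTranspose_apply] using e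
    · rw [o j i h]
      rcases not_and_or.1 h with h | h
      · rw [s0 j h, Matrix.zero_mul]
      · rw [s0 i h, conjTranspose_zero, Matrix.mul_zero]
  have hγ : γ ∈ D.Lp k := by
    refine ⟨fun x hx => s0 x ?_, fun x a b h => ?_, fun m => ?_⟩
    · rw [Finset.mem_Icc]
      rw [lt_abs] at hx
      omega
    · by_cases hx : x ∈ Finset.Icc (-(k : ℤ)) k
      · exact (s1 ⟨x, hx⟩ a b).trans (g3 _ _ h)
      · rw [s0 x hx]; rfl
    · split_ifs with hm
      · simpa [hm] using u
      · set M := ∑ x ∈ Finset.Icc (-(k : ℤ)) k, (γ x)ᴴ * γ (x + m) with hM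
        have z : ∀ j i, γ j * M * (γ i)ᴴ = 0 := by
          intro j i
          have e := D.frame_orth hQ m j i
          rw [if_neg hm] at e
          rw [← e, hM, Finset.mul_sum, Finset.sum_mul]
          refine Finset.sum_congr rfl fun y _ => ?_
          rw [← p, ← p]
          simp only [Matrix.mul_assoc]
        calc M = (∑ x ∈ Finset.Icc (-(k : ℤ)) k, (γ x)ᴴ * γ x) * M *
              ∑ x ∈ Finset.Icc (-(k : ℤ)) k, (γ x)ᴴ * γ x := by
              rw [u, Matrix.one_mul, Matrix.mul_one]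
          _ = ∑ x ∈ Finset.Icc (-(k : ℤ)) k, ∑ y ∈ Finset.Icc (-(k : ℤ)) k,
              (γ y)ᴴ * (γ y * M * (γ x)ᴴ) * γ x := by
              simp only [Finset.mul_sum, Finset.sum_mul, Matrix.mul_assoc]
          _ = 0 := by simp [z]
  exact ⟨γ, hγ, frame_eq_of_diff fun j i => (D.frame_diff hγ j i).trans (p j i)⟩

theorem frame_unique {k : ℕ} {γ γ' : ℤ → Matrix P P ℂ} (h : γ ∈ D.Lp k) (h' : γ' ∈ D.Lp k)
    (e : tw k γ (0 : En P 0) k = tw k γ' (0 : En P 0) k) :
    ∃! g : Ub D.col, ∀ x, γ' x = γ x * g.1.1ᴴ := by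
  have hd : ∀ j i, γ j * (γ i)ᴴ = γ' j * (γ' i)ᴴ := fun j i => by
    rw [← D.frame_diff h, ← D.frame_diff h', e]
  have u : ∑ x ∈ Finset.Icc (-(k : ℤ)) k, (γ x)ᴴ * γ x = 1 := by simpa using h.2.2 0
  have u' : ∑ x ∈ Finset.Icc (-(k : ℤ)) k, (γ' x)ᴴ * γ' x = 1 := by simpa using h'.2.2 0
  obtain ⟨g, hg⟩ : ∃ g, g = ∑ x ∈ Finset.Icc (-(k : ℤ)) k, (γ x)ᴴ * γ' x := ⟨_, rfl⟩
  have h1 : ∀ j, γ' j = γ j * g := by
    intro j
    rw [hg, Finset.mul_sum]
    simp only [← Matrix.mul_assoc, hd]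
    simp only [Matrix.mul_assoc]
    rw [← Finset.mul_sum, u', Matrix.mul_one]
  have h2 : gᴴ * g = 1 := by
    rw [← u']
    conv_lhs => rw [hg, conjTranspose_sum, ← hg, Finset.sum_mul]
    refine Finset.sum_congr rfl fun x _ => ?_
    rw [conjTranspose_mul, conjTranspose_conjTranspose, Matrix.mul_assoc, ← h1]
  have h3 : gᴴ ∈ Matrix.unitaryGroup P ℂ := by
    rw [Matrix.mem_unitaryGroup_iff, star_eq_conjTranspose, conjTranspose_conjTranspose, h2]
  have h4 : ∀ a b, D.col a ≠ D.col b → gᴴ a b = 0 := by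
    intro a b hab
    rw [conjTranspose_apply, hg, Matrix.sum_apply, Finset.sum_eq_zero, star_zero]
    intro x _
    rw [mul_apply]
    refine Finset.sum_eq_zero fun d _ => ?_
    by_cases hd : D.col d = D.col a
    · rw [conjTranspose_apply, h.2.1 x d b (hd ▸ hab)]; simp
    · rw [h'.2.1 x d a hd, mul_zero]
  refine ⟨⟨⟨gᴴ, h3⟩, h4⟩, fun x => ?_, fun g' hg' => ?_⟩
  · simpa using h1 x
  · refine Subtype.ext (Subtype.ext ?_)
    change g'.1.1 = gᴴ
    have : g = g'.1.1ᴴ := by
      rw [hg]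
      simp only [hg', ← Matrix.mul_assoc]
      rw [← Finset.sum_mul, u, Matrix.one_mul]
    rw [this, conjTranspose_conjTranspose]

end Qv

end Pool.Agent.Work.MP_849ab0_ag.G
end
end

-- merged part: Pool.Agent.Work.MP_849ab0_ag.G.C.Fix
section
/-!
Task C-Fix. Computations at the fixed points t ^ μ.
Plan: blkAt (pjL k μ) j i = diagonal (if j = i ∧ μ a ≤ i then 1 else 0) for μ in the box and all
j i; tl l x * M * (tl l y)^H has entries [l b = x] [l a = y] M b a. mem_PD: a diagonal in P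
Hermitian idempotent stable under t: for each a the image of the block is stable under the
nilpotent shift, so it is spanned by the t ^ i with μ a ≤ i (let μ a be the least i with a nonzero
row i, or k; then e_i lies in the image for all i ≥ μ a by downward induction).
-/

noncomputable section

set_option linter.unusedSectionVars false
set_option linter.unusedVariables false

namespace Pool.Agent.Work.MP_849ab0_ag.G

open Set Topology Matrix

variable {I P E κ : Type} [Fintype I] [DecidableEq I] [Fintype P] [DecidableEq P] [Fintype E]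
  [Fintype κ] [DecidableEq κ] (D : Qv I P E κ)

theorem fix_eD {k : ℕ} {z : (P × Pos k) × (P × Pos k)} (h : z.1.1 = z.2.1) :
    eD k (z.1.1, z.1.2, z.2.2) = z := Prod.ext rfl (Prod.ext h rfl)

theorem ex0_eD {k : ℕ} (d : DI P k → ℂ) (z : (P × Pos k) × (P × Pos k)) :
    ex0 (eD k) d z = if z.1.1 = z.2.1 then d (z.1.1, z.1.2, z.2.2) else 0 := by
  split_ifs with h
  · rw [← congrArg (ex0 (eD k) d) (fix_eD h)]
    exact (eD_inj k).extend_apply _ _ _
  · exact Function.extend_apply' _ _ _ fun ⟨a, e⟩ => h (e ▸ rfl)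

theorem fix_ex0 {k : ℕ} {Q : En P k} (h : ∀ z, z.1.1 ≠ z.2.1 → Q z = 0) :
    Q = ex0 (eD k) (Q ∘ eD k) := by
  funext z
  rw [ex0_eD]
  split_ifs with e
  exacts [congrArg Q (fix_eD e).symm, h z e]

theorem fix_blk {k : ℕ} (d : DI P k → ℂ) (j i : ℤ) {b a : P} (h : b ≠ a) :
    blkAt (ex0 (eD k) d) j i b a = 0 := by
  unfold blkAt
  split_ifs
  exacts [(ex0_eD d _).trans (if_neg h), one_apply_ne h, rfl]

theorem ex0_pD (k : ℕ) (μ : P → ℤ) : ex0 (eD k) (pD k μ) = pjL k μ :=
  (fix_ex0 fun z h => if_neg fun e => h (congrArg Prod.fst e.1)).symm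

theorem mQ_prj (k : ℕ) (μ : P → ℤ) :
    mQ (pjL k μ) = diagonal fun x => if μ x.1 ≤ x.2.1 then 1 else 0 := by
  ext y x
  simp only [mQ, pjL, of_apply, diagonal_apply, ite_and]

theorem blkAt_prj {k : ℕ} {μ : P → ℤ} (h : μ ∈ box P k) (j i : ℤ) :
    blkAt (pjL k μ) j i = diagonal fun a => if j = i ∧ μ a ≤ i then 1 else 0 := by
  unfold blkAt
  ext b a
  have := mem_box.1 h b
  split_ifs with h1 h2
  · simp only [pjL, of_apply, diagonal_apply, Prod.mk.injEq, Subtype.mk.injEq, ← ite_and, and_assoc]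
    exact if_congr (and_congr_right fun _ => by omega) rfl rfl
  · rw [one_apply, diagonal_apply, if_pos (show j = i ∧ μ b ≤ i by omega)]
  · simp only [Finset.mem_Ico] at h1
    rw [diagonal_apply, if_neg (show ¬ (j = i ∧ μ b ≤ i) by omega), ite_self, Matrix.zero_apply]

theorem fix_ind {k : ℕ} {μ : P → ℤ} (h : μ ∈ box P k) (a : P) :
    Qv.ind (pjL k μ) (some a) = μ a := by
  obtain ⟨h1, h2⟩ := mem_box.1 h a
  have e : (Finset.Ico (-(k : ℤ)) k).filter (μ a ≤ ·) = Finset.Ico (μ a) k := by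
    ext i
    simp only [Finset.mem_filter, Finset.mem_Ico]
    omega
  simp only [Qv.ind, pjL, true_and]
  rw [Finset.sum_coe_sort _ fun i => if μ a ≤ i then (1 : ℂ) else 0, Finset.sum_boole, e,
    Int.card_Ico, ← Int.cast_natCast (k - μ a).toNat, Int.toNat_of_nonneg (sub_nonneg.2 h2)]
  push_cast
  ring

theorem prj_inj {k : ℕ} {μ μ' : P → ℤ} (h : μ ∈ box P k) (h' : μ' ∈ box P k)
    (e : pjL k μ = pjL k μ') : μ = μ' :=
  funext fun a => Int.cast_injective (α := ℂ) (by rw [← fix_ind h, e, fix_ind h'])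

theorem pD_inj {k : ℕ} {μ μ' : P → ℤ} (h : μ ∈ box P k) (h' : μ' ∈ box P k)
    (e : pD k μ = pD k μ') : μ = μ' :=
  prj_inj h h' (by rw [← ex0_pD, e, ex0_pD])

theorem ind_prj {k : ℕ} {μ : P → ℤ} (h : μ ∈ box P k) (a : P) :
    Qv.ind (pjL k μ) (some a) = μ a := fix_ind h a

theorem add_mem_box {k l : ℕ} {μ μ' : P → ℤ} (h : μ ∈ box P k) (h' : μ' ∈ box P l) :
    μ + μ' ∈ box P (k + l) := mem_box.2 fun a => by
  have := mem_box.1 h a
  have := mem_box.1 h' a
  rw [Pi.add_apply]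
  omega

theorem box_mono {k l : ℕ} (h : k ≤ l) : box P k ⊆ box P l := fun μ e => mem_box.2 fun a => by
  have := mem_box.1 e a
  omega

theorem exists_box (μ : P → ℤ) : ∃ k, μ ∈ box P k :=
  ⟨Finset.univ.sup fun a => (μ a).natAbs, mem_box.2 fun a => by
    have := Finset.le_sup (f := fun a => (μ a).natAbs) (Finset.mem_univ a)
    omega⟩

theorem fix_tl (l : P → ℤ) (x y : ℤ) (M : Matrix P P ℂ) (b a : P) :
    (tl l x * M * (tl l y)ᴴ) b a = if l b = x then if l a = y then M b a else 0 else 0 := by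
  rw [tl, tl, diagonal_conjTranspose, mul_diagonal, diagonal_mul, Pi.star_apply]
  split_ifs <;> simp

theorem fix_tw {k k' : ℕ} {l μ : P → ℤ} (h : l ∈ box P k) (h' : μ ∈ box P k') (m : ℕ) :
    tw k (tl l) (pjL k' μ) m = pjL m (l + μ) := by
  funext ⟨⟨b, j⟩, a, i⟩
  simp only [tw, Matrix.sum_apply, fix_tl, Finset.sum_ite_irrel, Finset.sum_const_zero,
    Finset.sum_ite_eq, Finset.mem_Icc, mem_box.1 h, if_true, and_self]
  simp only [blkAt_prj h', pjL, diagonal_apply, Prod.mk.injEq, Pi.add_apply, ← ite_and,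
    Subtype.ext_iff]
  by_cases e : b = a
  · subst e
    exact if_congr (by simp only [true_and]; omega) rfl rfl
  · simp only [e, false_and, if_false]

theorem tw_tl_zero {k : ℕ} {l : P → ℤ} (h : l ∈ box P k) :
    tw k (tl l) (0 : En P 0) k = pjL k l := by
  have e : (0 : En P 0) = pjL 0 0 := funext fun z => by
    have := Finset.mem_Ico.1 z.1.2.2
    omega
  rw [e, fix_tw h (by simp [mem_box]), add_zero]

theorem tw_tl_prj {k k' : ℕ} {l μ : P → ℤ} (h : l ∈ box P k) (h' : μ ∈ box P k') :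
    tw k (tl l) (pjL k' μ) (k + k') = pjL (k + k') (l + μ) := fix_tw h h' _

theorem tw_tl_ex0 (k k' m : ℕ) (l : P → ℤ) (d : DI P k' → ℂ) :
    tw k (tl l) (ex0 (eD k') d) m = ex0 (eD m) (tw k (tl l) (ex0 (eD k') d) m ∘ eD m) :=
  fix_ex0 fun z h => by
    simp only [tw, Matrix.sum_apply, fix_tl, fix_blk d _ _ h, ite_self, Finset.sum_const_zero]

theorem upE_prj {k : ℕ} {μ : P → ℤ} (h : μ ∈ box P k) : upE k (pjL k μ) = pjL (k + 1) μ := by
  funext ⟨⟨b, j⟩, a, i⟩
  simp only [upE, blkAt_prj h, pjL, diagonal_apply, Prod.mk.injEq, ← ite_and, Subtype.ext_iff,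
    and_assoc]
  exact if_congr (and_congr_right fun _ => by omega) rfl rfl

theorem upE_ex0 (k : ℕ) (d : DI P k → ℂ) :
    upE k (ex0 (eD k) d) = ex0 (eD (k + 1)) (upE k (ex0 (eD k) d) ∘ eD (k + 1)) :=
  fix_ex0 fun _ h => fix_blk d _ _ h

theorem continuous_upE (k : ℕ) : Continuous (upE (P := P) k) :=
  continuous_pi fun _ => (continuous_blkAt k _ _).matrix_elem _ _

namespace Qv

theorem fix_pres {J : Type} [Fintype J] [DecidableEq J] (d : J → Prop) [DecidablePred d]
    (S : Matrix J J ℂ) :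
    Pres (diagonal fun x => if d x then 1 else 0) S ↔ ∀ y x, ¬ d y → d x → S y x = 0 := by
  rw [Pres, ← diagonal_one, diagonal_sub, ← Matrix.ext_iff]
  refine forall₂_congr fun y x => ?_
  rw [mul_diagonal, diagonal_mul]
  by_cases h : d y <;> by_cases h' : d x <;> simp [h, h']

theorem fix_sr (k : ℕ) (y x : P × Pos k) :
    sr k (Pi.single 1 1) y x = if y.1 = x.1 ∧ y.2.1 = x.2.1 + 1 then 1 else 0 := by
  simp only [sr, of_apply, Pi.single_apply, ite_and]
  by_cases h : y.2.1 = x.2.1 + 1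
  · rw [if_pos (by omega), if_pos (by omega), one_apply, if_pos h]
  · rw [if_neg h, ite_self]
    split_ifs with h1 h2
    exacts [absurd (by omega) h, rfl, rfl]

/-- there is a fixed vector with leading term at `x` -/
def fix_L {k : ℕ} (M : Matrix (P × Pos k) (P × Pos k) ℂ) (x : P × Pos k) : Prop :=
  ∃ v, M *ᵥ v = v ∧ v x ≠ 0 ∧ ∀ y, v y ≠ 0 → y.1 = x.1 ∧ x.2.1 ≤ y.2.1

theorem fix_up {k : ℕ} {M : Matrix (P × Pos k) (P × Pos k) ℂ} (h : Pres M (sr k (Pi.single 1 1)))
    {x : P × Pos k} (hx : fix_L M x) (n : ℕ) : ∀ y, y.1 = x.1 → y.2.1 = x.2.1 + n → fix_L M y := by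
  induction n with
  | zero => exact fun y e e' => (Prod.ext e (Subtype.ext (by omega)) : y = x) ▸ hx
  | succ n ih =>
    intro y e e'
    have b1 := Finset.mem_Ico.1 x.2.2
    have b2 := Finset.mem_Ico.1 y.2.2
    obtain ⟨z, z1, z2⟩ : ∃ z : P × Pos k, z.1 = y.1 ∧ z.2.1 = x.2.1 + n :=
      ⟨(y.1, ⟨x.2.1 + n, Finset.mem_Ico.2 (by omega)⟩), rfl, rfl⟩
    obtain ⟨v, v1, v2, v3⟩ := ih z (z1.trans e) z2
    refine ⟨sr k (Pi.single 1 1) *ᵥ v, ?_, ?_, fun w hw => ?_⟩
    · have := congrArg (· *ᵥ v) h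
      simp only [← mulVec_mulVec, v1, sub_mulVec, one_mulVec, zero_mulVec] at this
      exact (sub_eq_zero.1 this).symm
    · rw [mulVec, dotProduct, Finset.sum_eq_single z _ (by simp), fix_sr,
        if_pos ⟨z1.symm, by omega⟩, one_mul]
      · exact v2
      · intro w _ hw
        rw [fix_sr, if_neg, zero_mul]
        exact fun c => hw (Prod.ext (c.1.symm.trans z1.symm) (Subtype.ext (by omega)))
    · obtain ⟨u, -, hu⟩ := Finset.exists_ne_zero_of_sum_ne_zero hw
      have c := v3 u (right_ne_zero_of_mul hu)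
      have c' : sr k (Pi.single 1 1) w u ≠ 0 := left_ne_zero_of_mul hu
      rw [fix_sr, ite_ne_right_iff] at c'
      exact ⟨c'.1.1.trans (c.1.trans z1), by omega⟩

theorem fix_down {k : ℕ} {M : Matrix (P × Pos k) (P × Pos k) ℂ} {a : P} {m : ℤ}
    (h : ∀ i : Pos k, m ≤ i.1 → fix_L M (a, i)) (i : Pos k) :
    m ≤ i.1 → Pi.single (a, i) 1 ∈ LinearMap.eqLocus M.mulVecLin LinearMap.id := by
  induction i using WellFoundedGT.induction with
  | ind i ih =>
    intro hi
    obtain ⟨v, v1, v2, v3⟩ := h i hi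
    have k1 : v ∈ LinearMap.eqLocus M.mulVecLin LinearMap.id := v1
    rw [pi_eq_sum_univ' v, ← Finset.add_sum_erase _ _ (Finset.mem_univ (a, i)),
      Submodule.add_mem_iff_left _ (Submodule.sum_mem _ fun y hy => ?_)] at k1
    · exact (Submodule.smul_mem_iff _ v2).1 k1
    · by_cases e : v y = 0
      · rw [e, zero_smul]
        exact zero_mem _
      · obtain ⟨b, j⟩ := y
        obtain ⟨rfl, c⟩ := v3 _ e
        exact Submodule.smul_mem _ _ (ih j (lt_of_le_of_ne c fun c' =>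
          Finset.ne_of_mem_erase hy (c' ▸ rfl)) (hi.trans c))

theorem fix_lev {k : ℕ} {M : Matrix (P × Pos k) (P × Pos k) ℂ} (h1 : M * M = M)
    (h2 : Pres M (sr k (Pi.single 1 1))) (h3 : ∀ y x, M y x ≠ 0 → y.1 = x.1) (a : P) :
    ∃ m : ℤ, (-(k : ℤ) ≤ m ∧ m ≤ k) ∧ (∀ i : Pos k, i.1 < m → ∀ x, M (a, i) x = 0) ∧
      ∀ i : Pos k, m ≤ i.1 → fix_L M (a, i) := by
  classical
  by_cases hn : (Finset.univ.filter fun i : Pos k => ∃ x, M (a, i) x ≠ 0).Nonempty
  · obtain ⟨j, j1, j2⟩ := Finset.exists_min_image _ (fun i : Pos k => i.1) hn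
    simp only [Finset.mem_filter, Finset.mem_univ, true_and] at j1 j2
    obtain ⟨x, hx⟩ := j1
    have b := Finset.mem_Ico.1 j.2
    refine ⟨j.1, ⟨b.1, b.2.le⟩, fun i hi y => not_not.1 fun c => (j2 i ⟨y, c⟩).not_gt hi,
      fun i hi => fix_up h2 (x := (a, j)) ⟨fun y => M y x, funext fun y => congrFun₂ h1 y x, hx,
        fun y hy => ?_⟩ (i.1 - j.1).toNat _ rfl (by simp only; omega)⟩
    obtain ⟨c, i⟩ := y
    obtain rfl : c = a := (h3 _ _ hy).trans (h3 _ _ hx).symm
    exact ⟨rfl, j2 i ⟨x, hy⟩⟩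
  · exact ⟨k, ⟨by omega, le_rfl⟩, fun i _ x => not_not.1 fun c =>
      hn ⟨i, Finset.mem_filter.2 ⟨Finset.mem_univ _, x, c⟩⟩,
      fun i hi => absurd (Finset.mem_Ico.1 i.2).2 hi.not_gt⟩

theorem fix_nu {k : ℕ} {μ : P → ℤ} (h : μ ∈ box P k) (o : Option P) :
    -(k : ℤ) ≤ o.elim 0 μ ∧ o.elim 0 μ ≤ k := by
  cases o with
  | none => exact ⟨by simp, by simp⟩
  | some a => exact mem_box.1 h a

theorem fix_QF {k : ℕ} {μ : P → ℤ} (h : μ ∈ box P k) {q : D.Wt × ℕ} :
    q ∈ D.QF k μ ↔ (q.2 : ℤ) < D.xm μ q.1 := by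
  have h1 := fix_nu h q.1.1.2.2
  have h2 := fix_nu h q.1.1.2.1
  simp only [QF, Finset.mem_filter, Finset.mem_product, Finset.mem_univ, Finset.mem_range, true_and,
    xm]
  omega

theorem fix_ext {k : ℕ} {μ : P → ℤ} (h : μ ∈ box P k) :
    ext (pjL k μ) = diagonal fun x => if x.1.elim 0 μ ≤ x.2.1 then 1 else 0 := by
  ext ⟨_ | b, j⟩ ⟨_ | a, i⟩
  · by_cases e : j = i <;> simp [ext, hat, e]
  · simp [ext, hat]
  · simp [ext, hat]
  · refine (ext_some (pjL k μ) (b, j) (a, i)).trans ?_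
    simp only [pjL, diagonal_apply, ite_and, Prod.mk.injEq, Option.some.injEq]
    rfl

theorem upE_eqv (k : ℕ) (g : (KT D.col κ).H) (Q : En P k) :
    upE k ((D.aE k).act g Q) = (D.aE (k + 1)).act g (upE k Q) := by
  funext z
  have e : blkAt (upE k Q) z.1.2 z.2.2 = blkAt Q z.1.2 z.2.2 :=
    Matrix.ext fun b a => blkAt_mem (upE k Q) (b, z.1.2) (a, z.2.2)
  simp only [aE, e]
  exact congrFun₂ (D.blkAt_aE k g Q _ _) _ _

theorem prj_Gr {k : ℕ} {μ : P → ℤ} (h : μ ∈ box P k) : pjL k μ ∈ D.Gr k := by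
  rw [mem_Gr, mQ_prj, fix_pres]
  refine ⟨⟨?_, ?_, fun a b e => diagonal_apply_ne _ fun c => e (c ▸ rfl)⟩, fun y x hy hx => ?_⟩
  · rw [diagonal_conjTranspose]
    exact congrArg _ (funext fun x => by simp [apply_ite star])
  · rw [diagonal_mul_diagonal]
    exact congrArg _ (funext fun x => by split_ifs <;> simp)
  · rw [fix_sr, if_neg]
    rintro ⟨e, e'⟩
    rw [e] at hy
    omega

theorem mem_PD {k : ℕ} {d : DI P k → ℂ} : ex0 (eD k) d ∈ D.Gr k ↔ d ∈ PD P k := by
  refine ⟨fun h => ?_, ?_⟩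
  · obtain ⟨⟨h0, h1, -⟩, h2⟩ := D.mem_Gr.1 h
    choose μ m1 m2 m3 using fix_lev h1 h2 fun y x => not_imp_comm.1 fun e =>
      (ex0_eD d (y, x)).trans (if_neg e)
    have e : mQ (ex0 (eD k) d) = mQ (pjL k μ) := by
      rw [mQ_prj]
      ext y ⟨a, i⟩
      rw [← transpose_apply (diagonal _), diagonal_transpose, diagonal_apply]
      by_cases c : μ a ≤ i.1
      · have := congrFun (fix_down (m3 a) i c) y
        simpa [Pi.single_apply, c, eq_comm] using this
      · rw [← h0, conjTranspose_apply, m2 a i (not_le.1 c), if_neg c, ite_self, star_zero]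
    refine ⟨μ, mem_box.2 m1, funext fun z => ((eD_inj k).extend_apply d 0 z).symm.trans ?_⟩
    exact congrFun₂ e (eD k z).1 (eD k z).2
  · rintro ⟨μ, h, rfl⟩
    rw [ex0_pD]
    exact D.prj_Gr h

theorem tl_Lp {k : ℕ} {l : P → ℤ} (h : l ∈ box P k) : tl l ∈ D.Lp k := by
  refine ⟨fun x hx => ?_, fun x a b e => diagonal_apply_ne _ fun c => e (c ▸ rfl), fun m => ?_⟩
  · ext b a
    have := mem_box.1 h b
    rw [lt_abs] at hx
    rw [tl, diagonal_apply, if_neg (show ¬ l b = x by omega), ite_self, Matrix.zero_apply]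
  · ext b a
    have e : ∀ x, ((tl l x)ᴴ * tl l (x + m)) b a =
        if l b = x then if m = 0 then (1 : Matrix P P ℂ) b a else 0 else 0 := fun x => by
      rw [tl, tl, diagonal_conjTranspose, diagonal_mul_diagonal, diagonal_apply, one_apply,
        Pi.star_apply]
      by_cases c : l b = x <;> by_cases c' : m = 0 <;> simp [c, c']
    simp only [Matrix.sum_apply, e, Finset.sum_ite_eq, Finset.mem_Icc, mem_box.1 h, and_self, if_true]
    split_ifs <;> rfl

theorem tl_UF {k : ℕ} {l : P → ℤ} (h : l ∈ box P k) : (tl l, 0) ∈ D.UF k :=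
  ⟨D.tl_Lp h, D.zero_mem_RR.2 ((tw_tl_zero h).symm ▸ D.prj_Gr h)⟩

theorem pD_fix (k : ℕ) (μ : P → ℤ) (g : (TT P κ).H) :
    (wr (D.wD k)).act g (pD k μ) = pD k μ := by
  funext z
  rw [wr_act]
  by_cases e : z.2.1 = z.2.2
  · rw [wD, e, sub_self, zero_smul, Prod.mk_zero_zero, ch_zero, one_mul]
  · have : pD k μ z = 0 := if_neg fun c => e (congrArg Prod.snd c.1)
    rw [this, mul_zero]

theorem prj_fix (k : ℕ) (μ : P → ℤ) (g : (TT P κ).H) :
    (D.aE k).act (D.ic g) (pjL k μ) = pjL k μ := by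
  funext z
  rw [aE_ic, wr_act]
  by_cases e : z.1 = z.2
  · rw [wE, e, sub_self, sub_self, zero_smul, Prod.mk_zero_zero, ch_zero, one_mul]
  · have : pjL k μ z = 0 := if_neg fun c => e c.1
    rw [this, mul_zero]

/-- the fibre of the space of triples over a fixed point -/
theorem prj_RR {k : ℕ} {μ : P → ℤ} (h : μ ∈ box P k) (s : D.NO) :
    (pjL k μ, s) ∈ D.RR k ↔ ∀ q ∈ D.QF k μ, s q.2 q.1 = 0 := by
  simp only [mem_RR, D.prj_Gr h, true_and, fix_ext h, fix_pres, D.fix_QF h, xm]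
  refine ⟨fun H q hq => ?_, fun H e y x hy hx => ?_⟩
  · have h1 := fix_nu h q.1.1.2.2
    have h2 := fix_nu h q.1.1.2.1
    have := H q.1.1.1 (q.1.1.2.2, ⟨q.1.1.2.1.elim 0 μ + q.2, Finset.mem_Ico.2 (by omega)⟩)
      (q.1.1.2.1, ⟨q.1.1.2.1.elim 0 μ, Finset.mem_Ico.2 (by omega)⟩) (by simp only; omega) le_rfl
    simpa [ser, cmat_apply] using this
  · simp only [ser, mat, of_apply]
    split_ifs with c c'
    · refine H (⟨(e, x.1, y.1), c'⟩, _) ?_
      change ((y.2.1 - x.2.1).toNat : ℤ) < y.1.elim 0 μ - x.1.elim 0 μ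
      omega
    all_goals rfl

theorem mem_QF {k : ℕ} {μ : P → ℤ} (h : μ ∈ box P k) {q : D.Wt × ℕ} :
    q ∈ D.QF k μ ↔ (q.2 : ℤ) < D.xm μ q.1 := D.fix_QF h

end Qv

end Pool.Agent.Work.MP_849ab0_ag.G
end
end
end

-- merged part: Pool.Agent.Work.MP_849ab0_ag.G.C.Shear
section
-- merged part: Pool.Agent.Work.MP_849ab0_ag.G.C.Ech
section
/-!
Task C-Ech. Linear algebra of projections: echelon forms, graphs, semicontinuity; the ring
homomorphism sr.
Plan: exists_ech: let S be the set of pivots (last clause). The restriction map from the image L of Q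
to S → ℂ is injective (a nonzero v in L is nonzero at its leading index, a pivot) and surjective
(triangular: induction on rk from above, or determinant); u has as column x ∈ S the vector of L with
coordinates δ x on S. It vanishes below x (its leading index is a pivot) and outside the colour of x
(L is stable under the colour projections, uniqueness). isClosed_kap: rank-nullity for the map
v ↦ ((1 - Q) v, v restricted to the complement of S) and isOpen_setOf_nat_le_rank.
graph_inv: Q u^H = Q, p u^H... multiply out. unit_of_tri: N is nilpotent or block triangular.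
-/

noncomputable section

set_option linter.unusedSectionVars false
set_option linter.unusedVariables false

namespace Pool.Agent.Work.MP_849ab0_ag.G

open Set Topology Matrix

variable {J C : Type} [Fintype J] [DecidableEq J]

theorem ech_min (r : J → ℤ) {v : J → ℂ} (hv : v ≠ 0) :
    ∃ x, v x ≠ 0 ∧ ∀ y, r y < r x → v y = 0 := by
  obtain ⟨x₀, hx₀⟩ := Function.ne_iff.1 hv
  obtain ⟨x, hx, hm⟩ := Finset.exists_min_image (Finset.univ.filter fun x => v x ≠ 0) r
    ⟨x₀, Finset.mem_filter.2 ⟨Finset.mem_univ _, hx₀⟩⟩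
  exact ⟨x, (Finset.mem_filter.1 hx).2, fun y hy => not_not.1 fun h =>
    absurd (hm y (Finset.mem_filter.2 ⟨Finset.mem_univ _, h⟩)) (not_le.2 hy)⟩

theorem ech_col {r : J → ℤ} (hr : Function.Injective r) {Q : Matrix J J ℂ} {S : Finset J}
    (hS : ∀ x ∈ S, ∃ v, Q *ᵥ v = v ∧ v x ≠ 0 ∧ ∀ y, r y < r x → v y = 0) (x : J) :
    x ∈ S → ∃ v, Q *ᵥ v = v ∧ (∀ y ∈ S, v y = if y = x then 1 else 0) ∧
      ∀ y, r y < r x → v y = 0 := by
  have : IsTrans J fun a b => r b < r a := ⟨fun _ _ _ h h' => h'.trans h⟩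
  have : Std.Irrefl fun a b : J => r b < r a := ⟨fun _ => lt_irrefl _⟩
  induction x using (Finite.wellFounded_of_trans_of_irrefl fun a b : J => r b < r a).induction with
  | _ x ih =>
    intro hx
    obtain ⟨v, h1, h2, h3⟩ := hS x hx
    choose! w w1 w2 w3 using ih
    refine ⟨(v x)⁻¹ • (v - ∑ y ∈ S.filter fun y => r x < r y, v y • w y), ?_, fun z hz => ?_,
      fun z hz => ?_⟩
    · rw [mulVec_smul, mulVec_sub, h1, mulVec_sum]
      congr 2
      exact Finset.sum_congr rfl fun y hy => by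
        rw [mulVec_smul, w1 y (Finset.mem_filter.1 hy).2 (Finset.mem_filter.1 hy).1]
    · simp only [Pi.smul_apply, Pi.sub_apply, Finset.sum_apply, smul_eq_mul]
      rw [Finset.sum_congr rfl fun y hy => by
        rw [w2 y (Finset.mem_filter.1 hy).2 (Finset.mem_filter.1 hy).1 z hz]]
      simp only [mul_ite, mul_one, mul_zero, Finset.sum_ite_eq, Finset.mem_filter]
      rcases lt_trichotomy (r z) (r x) with h | h | h
      · rw [if_neg fun h' => lt_asymm h h'.2, h3 z h, if_neg fun e => h.ne (by rw [e])]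
        simp
      · rw [hr h, if_neg fun h' => lt_irrefl _ h'.2, if_pos rfl, sub_zero, inv_mul_cancel₀ h2]
      · rw [if_pos ⟨hz, h⟩, if_neg fun e => h.ne' (by rw [e])]
        simp
    · simp only [Pi.smul_apply, Pi.sub_apply, Finset.sum_apply, smul_eq_mul]
      rw [h3 z hz, Finset.sum_eq_zero fun y hy => by
        rw [w3 y (Finset.mem_filter.1 hy).2 (Finset.mem_filter.1 hy).1 z
          (hz.trans (Finset.mem_filter.1 hy).2), mul_zero]]
      simp

theorem exists_ech {c : J → C} {r : J → ℤ} (hr : Function.Injective r) {Q : Matrix J J ℂ}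
    (hQ : IsPr c Q) : ∃ (S : Finset J) (u : Matrix J J ℂ), Q * u = u ∧ u * Q = Q ∧
      (∀ y x, x ∉ S → u y x = 0) ∧ (∀ x ∈ S, ∀ y ∈ S, u y x = if y = x then 1 else 0) ∧
      (∀ y x, u y x ≠ 0 → r x ≤ r y ∧ c y = c x) ∧
      ∀ x, x ∈ S ↔ ∃ v, Q *ᵥ v = v ∧ v x ≠ 0 ∧ ∀ y, r y < r x → v y = 0 := by
  classical
  let S : Finset J := Finset.univ.filter fun x =>
    ∃ v, Q *ᵥ v = v ∧ v x ≠ 0 ∧ ∀ y, r y < r x → v y = 0
  have hS : ∀ x, x ∈ S ↔ ∃ v, Q *ᵥ v = v ∧ v x ≠ 0 ∧ ∀ y, r y < r x → v y = 0 := fun x => by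
    simp only [S, Finset.mem_filter, Finset.mem_univ, true_and]
  have hinj : ∀ v, Q *ᵥ v = v → (∀ x ∈ S, v x = 0) → v = 0 := fun v h1 h2 => by
    by_contra h
    obtain ⟨x, hx, hm⟩ := ech_min r h
    exact hx (h2 x ((hS x).2 ⟨v, h1, hx, hm⟩))
  choose! w w1 w2 w3 using ech_col hr fun x hx => (hS x).1 hx
  let u : Matrix J J ℂ := Matrix.of fun y x => if x ∈ S then w x y else 0
  have hu : ∀ y x, u y x = if x ∈ S then w x y else 0 := fun _ _ => rfl
  have h1 : Q * u = u := by
    ext y x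
    rw [mul_apply]
    simp only [hu]
    split_ifs with h
    · exact congrFun (w1 x h) y
    · simp
  have h2 : ∀ v, Q *ᵥ v = v → u *ᵥ v = v := fun v hv => by
    refine sub_eq_zero.1 (hinj _ (by rw [mulVec_sub, mulVec_mulVec, h1, hv]) fun z hz => ?_)
    rw [Pi.sub_apply, sub_eq_zero, mulVec, dotProduct, Finset.sum_eq_single z]
    · rw [hu, if_pos hz, w2 z hz z hz, if_pos rfl, one_mul]
    · intro x _ hx
      rw [hu]
      split_ifs with h
      · rw [w2 x h z hz, if_neg hx.symm, zero_mul]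
      · exact zero_mul _
    · simp
  refine ⟨S, u, h1, ?_, fun y x hx => by rw [hu, if_neg hx],
    fun x hx y hy => by rw [hu, if_pos hx, w2 x hx y hy], fun y x h => ?_, hS⟩
  · ext y x
    exact congrFun (h2 (fun y => Q y x) (funext fun y => congrFun (congrFun hQ.2.1 y) x)) y
  · have hx : x ∈ S := not_not.1 fun hx => h (by rw [hu, if_neg hx])
    rw [hu, if_pos hx] at h
    refine ⟨not_lt.1 fun h' => h (w3 x hx y h'), not_not.1 fun e => h ?_⟩
    have h3 := hinj (fun z => if c z = c x then 0 else w x z) (funext fun z => ?_) fun z hz => ?_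
    · simpa [e] using congrFun h3 y
    · rw [mulVec, dotProduct]
      split_ifs with e'
      · refine Finset.sum_eq_zero fun t _ => ?_
        split_ifs with e''
        · exact mul_zero _
        · rw [hQ.2.2 z t fun e3 => e'' (e3.symm.trans e'), zero_mul]
      · refine Eq.trans (Finset.sum_congr rfl fun t _ => ?_) (congrFun (w1 x hx) z)
        split_ifs with e''
        · exact (mul_zero _).trans
            (mul_eq_zero_of_left (hQ.2.2 z t fun e3 => e' (e3.trans e'')) _).symm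
        · rfl
    · split_ifs with e'
      · rfl
      · rw [w2 x hx z hz, if_neg fun e3 => e' (by rw [e3])]

/-- vectors in the image of `Q` with support in `S` -/
def fixS (Q : Matrix J J ℂ) (S : Finset J) : Submodule ℂ (J → ℂ) where
  carrier := {v | Q *ᵥ v = v ∧ ∀ y ∉ S, v y = 0}
  add_mem' h h' := ⟨by rw [mulVec_add, h.1, h'.1], fun y hy => by simp [h.2 y hy, h'.2 y hy]⟩
  zero_mem' := ⟨mulVec_zero _, fun _ _ => rfl⟩
  smul_mem' a v h := ⟨by rw [mulVec_smul, h.1], fun y hy => by simp [h.2 y hy]⟩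

/-- its dimension -/
def kapS (Q : Matrix J J ℂ) (S : Finset J) : ℕ := Module.finrank ℂ (fixS Q S)

theorem isClosed_kap (S : Finset J) (m : ℕ) : IsClosed {Q : Matrix J J ℂ | m ≤ kapS Q S} := by
  let L : Matrix (J ⊕ J) J ℂ →ₗ[ℂ] (J → ℂ) →L[ℂ] (J ⊕ J → ℂ) :=
    LinearMap.toContinuousLinearMap.toLinearMap ∘ₗ Matrix.toLin'.toLinearMap
  let Φ : Matrix J J ℂ → Matrix (J ⊕ J) J ℂ := fun Q =>
    fromRows (1 - Q) (diagonal fun y => if y ∈ S then 0 else 1)
  have hΦ : Continuous Φ := continuous_matrix fun i j => by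
    rcases i with i | i
    · exact continuous_const.sub (continuous_id.matrix_elem i j)
    · exact continuous_const
  have hc : Continuous fun Q => L (Φ Q) := L.continuous_of_finiteDimensional.comp hΦ
  have h1 := ((isOpen_setOfPred_nat_le_rank (𝕜 := ℂ) (E := J → ℂ) (F := J ⊕ J → ℂ)
    (Fintype.card J + 1 - m)).preimage hc).isClosed_compl
  convert h1 using 1
  ext Q
  have h2 : LinearMap.ker (Matrix.toLin' (Φ Q)) = fixS Q S := by
    ext v
    rw [LinearMap.mem_ker, Matrix.toLin'_apply, fromRows_mulVec]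
    constructor
    · intro h
      refine ⟨?_, fun y hy => ?_⟩
      · have h3 : (1 - Q) *ᵥ v = 0 := funext fun y => congrFun h (Sum.inl y)
        rw [sub_mulVec, one_mulVec, sub_eq_zero] at h3
        exact h3.symm
      · simpa [mulVec_diagonal, hy] using congrFun h (Sum.inr y)
    · rintro ⟨h, h'⟩
      funext y
      rcases y with y | y
      · simp [sub_mulVec, h]
      · by_cases hy : y ∈ S
        · simp [mulVec_diagonal, hy]
        · simp [mulVec_diagonal, h' y hy]
  have h3 := LinearMap.finrank_range_add_finrank_ker (Matrix.toLin' (Φ Q))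
  rw [h2, Module.finrank_fintype_fun_eq_card] at h3
  have h4 : (L (Φ Q) : (J → ℂ) →ₗ[ℂ] (J ⊕ J → ℂ)).rank =
      (Module.finrank ℂ (LinearMap.range (Matrix.toLin' (Φ Q))) : ℕ) :=
    (Module.finrank_eq_rank _ _).symm
  simp only [mem_ofPred_eq, mem_compl_iff, mem_preimage, h4, Nat.cast_le, kapS]
  omega

theorem kap_of {Q g M : Matrix J J ℂ} {S : Finset J} {T : J → Prop} [DecidablePred T]
    (hg : IsUnit g.det) (hS : ∀ y x, g y x ≠ 0 → x ∈ S → y ∈ S)
    (h1 : Q * (g * diagonal fun x => if T x then 1 else 0) =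
      g * diagonal fun x => if T x then 1 else 0)
    (h2 : Q = (g * diagonal fun x => if T x then 1 else 0) * M) :
    kapS Q S = (S.filter T).card := by
  let E : (↥(S.filter T) → ℂ) →ₗ[ℂ] (J → ℂ) :=
    LinearMap.pi fun y => if h : y ∈ S.filter T then LinearMap.proj ⟨y, h⟩ else 0
  have hE : ∀ w y, E w y = if h : y ∈ S.filter T then w ⟨y, h⟩ else 0 := fun w y => by
    simp only [E, LinearMap.pi_apply]
    split_ifs <;> rfl
  have hgi : Function.Injective g.mulVecLin := mulVec_injective_iff_isUnit.2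
    ((isUnit_iff_isUnit_det g).2 hg)
  have hEi : Function.Injective E := fun w w' h => funext fun y => by
    simpa [hE, dif_pos y.2] using congrFun h y
  have hU : ∀ v ∈ fixS 1 S, g.mulVecLin v ∈ fixS 1 S := fun v hv => ⟨one_mulVec _, fun y hy =>
    Finset.sum_eq_zero fun x _ => by
      by_cases h : g y x = 0
      · exact mul_eq_zero_of_left h _
      · exact mul_eq_zero_of_right _ (hv.2 x fun hx => hy (hS y x h hx))⟩
  have hsurj : Function.Surjective (g.mulVecLin.restrict hU) :=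
    LinearMap.injective_iff_surjective.1 fun a b h => Subtype.ext (hgi (congrArg Subtype.val h))
  have h3 : LinearMap.range (g.mulVecLin ∘ₗ E) = fixS Q S := by
    refine le_antisymm ?_ fun v hv => ?_
    · rintro _ ⟨w, rfl⟩
      have h4 : (diagonal fun x => if T x then (1 : ℂ) else 0) *ᵥ E w = E w := funext fun y => by
        rw [mulVec_diagonal]
        split_ifs with h
        · exact one_mul _
        · rw [hE, dif_neg fun h' => h (Finset.mem_filter.1 h').2, mul_zero]
      refine ⟨?_, (hU (E w) ⟨one_mulVec _, fun y hy => ?_⟩).2⟩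
      · change Q *ᵥ g *ᵥ E w = g *ᵥ E w
        rw [← h4, mulVec_mulVec, mulVec_mulVec, mul_assoc, h1, mulVec_mulVec]
      · rw [hE, dif_neg fun h' => hy (Finset.mem_filter.1 h').1]
    · obtain ⟨⟨w, hw⟩, e⟩ := hsurj ⟨v, one_mulVec _, hv.2⟩
      have e1 : g *ᵥ w = v := congrArg Subtype.val e
      have e2 : w = (diagonal fun x => if T x then (1 : ℂ) else 0) *ᵥ M *ᵥ v := hgi (by
        change g *ᵥ w = g *ᵥ _
        rw [mulVec_mulVec, mulVec_mulVec, ← h2, hv.1, e1])
      refine ⟨fun y => w y, (congrArg g.mulVecLin (funext fun y => ?_)).trans e1⟩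
      rw [hE]
      split_ifs with h
      · rfl
      · by_cases hy : y ∈ S
        · rw [e2, mulVec_diagonal, if_neg fun h' => h (Finset.mem_filter.2 ⟨hy, h'⟩), zero_mul]
        · exact (hw.2 y hy).symm
  have h5 : Function.Injective (g.mulVecLin ∘ₗ E) := fun a b h => hEi (hgi h)
  rw [kapS, ← h3, LinearMap.finrank_range_of_inj h5, Module.finrank_fintype_fun_eq_card,
    Fintype.card_coe]

theorem graph_inv {Q p u : Matrix J J ℂ} (hQ : Qᴴ = Q) (hp : pᴴ = p) (hpp : p * p = p)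
    (h1 : Q * u = u) (h2 : u * Q = Q) (h3 : p * u = p) (h4 : u * p = u) :
    IsUnit (p * Q * p + (1 - p)).det ∧ Q * p * (p * Q * p + (1 - p))⁻¹ = u := by
  have a2 : Q * uᴴ = Q := by simpa only [conjTranspose_mul, hQ] using congrArg conjTranspose h2
  have a4 : p * uᴴ = uᴴ := by simpa only [conjTranspose_mul, hp] using congrArg conjTranspose h4
  have b1 : p * (uᴴ * u + (1 - p)) = uᴴ * u := by
    rw [mul_add, mul_sub, hpp, mul_one, sub_self, add_zero, ← mul_assoc, a4]
  have b2 : Q * p * (uᴴ * u + (1 - p)) = u := by rw [mul_assoc, b1, ← mul_assoc, a2, h1]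
  have b3 : (p * Q * p + (1 - p)) * (uᴴ * u + (1 - p)) = 1 := by
    rw [add_mul, mul_assoc p Q, mul_assoc p, b2, h3, sub_mul, one_mul, b1]
    abel
  exact ⟨isUnit_det_of_right_inverse b3, by rw [inv_eq_right_inv b3, b2]⟩

open ComplexOrder in
theorem proj_of {g p : Matrix J J ℂ} (hg : IsUnit g.det) (hp : pᴴ = p) (hpp : p * p = p) :
    IsUnit ((g * p)ᴴ * (g * p) + (1 - p)).det ∧
      ∀ Q, Q = g * p * ((g * p)ᴴ * (g * p) + (1 - p))⁻¹ * (g * p)ᴴ →
        Qᴴ = Q ∧ Q * Q = Q ∧ Q * (g * p) = g * p := by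
  have a1 : p * (g * p)ᴴ = (g * p)ᴴ := by rw [conjTranspose_mul, hp, ← mul_assoc, hpp]
  have a2 : g * p * p = g * p := by rw [mul_assoc, hpp]
  have hB : IsUnit ((g * p)ᴴ * (g * p) + (1 - p)).det := by
    refine isUnit_iff_ne_zero.2 fun h => ?_
    obtain ⟨v, h0, hv⟩ := exists_mulVec_eq_zero_iff.2 h
    have h1 := congrArg (p *ᵥ ·) hv
    simp only [mulVec_mulVec, mulVec_zero] at h1
    rw [mul_add, mul_sub, hpp, mul_one, sub_self, add_zero, ← mul_assoc, a1] at h1
    rw [add_mulVec, h1, zero_add, sub_mulVec, one_mulVec, sub_eq_zero] at hv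
    rw [conjTranspose_mul_self_mulVec_eq_zero, ← mulVec_mulVec, ← hv] at h1
    exact h0 (eq_zero_of_mulVec_eq_zero hg.ne_zero h1)
  refine ⟨hB, fun Q hQ => ?_⟩
  have a3 : ((g * p)ᴴ * (g * p) + (1 - p)) * p = (g * p)ᴴ * (g * p) := by
    rw [add_mul, sub_mul, hpp, one_mul, sub_self, add_zero, mul_assoc, a2]
  have a4 : Q * (g * p) = g * p := by
    have a6 : ((g * p)ᴴ * (g * p) + (1 - p))⁻¹ * ((g * p)ᴴ * (g * p)) = p := by
      have a7 := congrArg (((g * p)ᴴ * (g * p) + (1 - p))⁻¹ * ·) a3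
      simp only [← mul_assoc _⁻¹, nonsing_inv_mul _ hB, one_mul] at a7
      rw [← mul_assoc]
      exact a7.symm
    rw [hQ, mul_assoc, mul_assoc (g * p), a6, a2]
  refine ⟨?_, ?_, a4⟩
  · have a5 : ((g * p)ᴴ * (g * p) + (1 - p))ᴴ = (g * p)ᴴ * (g * p) + (1 - p) := by
      rw [conjTranspose_add, conjTranspose_sub, conjTranspose_one, hp, conjTranspose_mul,
        conjTranspose_conjTranspose]
    rw [hQ, conjTranspose_mul, conjTranspose_mul (g * p), conjTranspose_nonsing_inv, a5,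
      conjTranspose_conjTranspose, mul_assoc (g * p)]
  · conv_lhs => arg 2; rw [hQ]
    rw [← mul_assoc, ← mul_assoc Q, a4, ← hQ]

theorem proj_unique {Q Q' : Matrix J J ℂ} (h : Qᴴ = Q) (h' : Q'ᴴ = Q') (e : Q * Q' = Q')
    (e' : Q' * Q = Q) : Q = Q' := by
  rw [← e', ← h, ← h', ← conjTranspose_mul, h', e, h']

theorem unit_of_tri {r : J → ℤ} {N : Matrix J J ℂ} (h : ∀ y x, N y x ≠ 0 → r x < r y) :
    IsUnit (1 + N).det := by
  refine isUnit_iff_ne_zero.2 fun h0 => ?_
  obtain ⟨v, h1, hv⟩ := exists_mulVec_eq_zero_iff.2 h0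
  obtain ⟨x, hx, hm⟩ := ech_min r h1
  have h2 := congrFun hv x
  rw [add_mulVec, one_mulVec, Pi.add_apply, mulVec, dotProduct, Finset.sum_eq_zero fun z _ => ?_,
    add_zero] at h2
  · exact hx h2
  · by_cases e : N x z = 0
    · exact mul_eq_zero_of_left e _
    · exact mul_eq_zero_of_right _ (hm z (h x z e))

/-- the inverse of a colour preserving matrix preserves the colouring -/
theorem graded_inv {c : J → C} {M : Matrix J J ℂ} (h : ∀ a b, c a ≠ c b → M a b = 0) (a b : J)
    (e : c a ≠ c b) : M⁻¹ a b = 0 := by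
  classical
  by_cases hM : IsUnit M.det
  · let D : Matrix J J ℂ := diagonal fun y => if c y = c b then 1 else 0
    have h1 : D * M = M * D := by
      ext y x
      rw [diagonal_mul, mul_diagonal]
      by_cases e' : c y = c x
      · rw [e', mul_comm]
      · rw [h y x e', mul_zero, zero_mul]
    have h2 : M⁻¹ * D = D * M⁻¹ := by
      calc M⁻¹ * D = M⁻¹ * (D * M) * M⁻¹ := by
            rw [mul_assoc, mul_assoc, mul_nonsing_inv _ hM, mul_one]
        _ = D * M⁻¹ := by rw [h1, ← mul_assoc, nonsing_inv_mul _ hM, one_mul]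
    have h3 := congrFun (congrFun h2 a) b
    rwa [diagonal_mul, mul_diagonal, if_pos rfl, if_neg e, mul_one, zero_mul] at h3
  · rw [nonsing_inv_apply_not_isUnit _ hM]
    rfl

theorem graded_mul {c : J → C} {M N : Matrix J J ℂ} (h : ∀ a b, c a ≠ c b → M a b = 0)
    (h' : ∀ a b, c a ≠ c b → N a b = 0) (a b : J) (e : c a ≠ c b) : (M * N) a b = 0 := by
  rw [mul_apply]
  refine Finset.sum_eq_zero fun z _ => ?_
  by_cases e' : c a = c z
  · rw [h' z b fun e'' => e (e'.trans e''), mul_zero]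
  · rw [h a z e', zero_mul]

/-- `Q` has the image of `A`; stability under `y` can be tested on `A` -/
theorem pres_of_range {Q A M y : Matrix J J ℂ} (h1 : Q * A = A) (h2 : Q = A * M) :
    Pres Q y ↔ ∃ N, y * A = A * N := by
  unfold Pres
  constructor
  · intro h
    refine ⟨M * y * A, ?_⟩
    have h3 := congrArg (· * A) h
    simp only [mul_assoc, h1, zero_mul] at h3
    rw [sub_mul, one_mul, sub_eq_zero] at h3
    rw [mul_assoc M, ← mul_assoc A, ← h2, ← h3]
  · rintro ⟨N, h⟩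
    have h3 : y * Q = A * (N * M) := by rw [← mul_assoc, ← h, mul_assoc, ← h2]
    rw [mul_assoc, h3, ← mul_assoc, sub_mul, one_mul, h1, sub_self, zero_mul]

theorem ech_sr_mul (k : ℕ) (A B : PowerSeries (Matrix J J ℂ)) :
    (sr k fun m => PowerSeries.coeff m (A * B)) =
      (sr k fun m => PowerSeries.coeff m A) * sr k fun m => PowerSeries.coeff m B := by
  ext y x
  have h1 : ((sr k fun m => PowerSeries.coeff m A) * sr k fun m => PowerSeries.coeff m B) y x =
      ∑ z ∈ Finset.univ.filter fun z : Pos k => x.2.1 ≤ z.1 ∧ z.1 ≤ y.2.1,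
        (PowerSeries.coeff (y.2.1 - z.1).toNat A * PowerSeries.coeff (z.1 - x.2.1).toNat B)
          y.1 x.1 := by
    rw [mul_apply, Fintype.sum_prod_type_right, Finset.sum_filter]
    refine Finset.sum_congr rfl fun z _ => ?_
    simp only [sr, of_apply]
    by_cases e : x.2.1 ≤ z.1 <;> by_cases e' : z.1 ≤ y.2.1 <;> simp [e, e', mul_apply]
  rw [h1, sr, of_apply]
  split_ifs with e
  · rw [PowerSeries.coeff_mul, Matrix.sum_apply]
    have hx := Finset.mem_Ico.1 x.2.2
    have hy := Finset.mem_Ico.1 y.2.2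
    refine Finset.sum_bij' (fun p hp => (⟨x.2.1 + p.2, Finset.mem_Ico.2 (by
        have := Finset.HasAntidiagonal.mem_antidiagonal.1 hp
        omega)⟩ : Pos k)) (fun z _ => ((y.2.1 - z.1).toNat, (z.1 - x.2.1).toNat)) ?_ ?_ ?_ ?_ ?_
    · intro p hp
      have := Finset.HasAntidiagonal.mem_antidiagonal.1 hp
      refine Finset.mem_filter.2 ⟨Finset.mem_univ _, ?_⟩
      dsimp only
      omega
    · intro z hz
      have := (Finset.mem_filter.1 hz).2
      refine Finset.HasAntidiagonal.mem_antidiagonal.2 ?_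
      dsimp only
      omega
    · intro p hp
      have := Finset.HasAntidiagonal.mem_antidiagonal.1 hp
      refine Prod.ext ?_ ?_ <;> dsimp only <;> omega
    · intro z hz
      have := (Finset.mem_filter.1 hz).2
      refine Subtype.ext ?_
      dsimp only
      omega
    · intro p hp
      have := Finset.HasAntidiagonal.mem_antidiagonal.1 hp
      have e1 : (y.2.1 - (x.2.1 + p.2)).toNat = p.1 := by omega
      have e2 : (x.2.1 + p.2 - x.2.1).toNat = p.2 := by omega
      dsimp only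
      rw [e1, e2]
  · refine (Finset.sum_eq_zero fun z hz => absurd ?_ e).symm
    exact (Finset.mem_filter.1 hz).2.1.trans (Finset.mem_filter.1 hz).2.2

/-- `sr k` is a ring homomorphism -/
theorem exists_srH (k : ℕ) :
    ∃ φ : PowerSeries (Matrix J J ℂ) →+* Matrix (J × Pos k) (J × Pos k) ℂ,
      ∀ A, φ A = sr k fun m => PowerSeries.coeff m A := by
  refine ⟨{ toFun := fun A => sr k fun m => PowerSeries.coeff m A
            map_one' := ?_
            map_mul' := ech_sr_mul k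
            map_zero' := ?_
            map_add' := fun A B => ?_ }, fun _ => rfl⟩
  · ext ⟨a, i⟩ ⟨b, j⟩
    simp only [sr, of_apply, PowerSeries.coeff_one, one_apply, Prod.mk.injEq]
    by_cases e : i = j
    · simp [e, one_apply]
    · have e' : i.1 ≠ j.1 := fun h => e (Subtype.ext h)
      rw [if_neg fun h : a = b ∧ i = j => e h.2]
      split_ifs with h1 h2
      · omega
      · rfl
      · rfl
  · ext y x
    simp [sr]
  · ext y x
    simp only [sr, of_apply, map_add, Matrix.add_apply]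
    split_ifs
    · rfl
    · exact (add_zero _).symm

theorem ech_rk {n k : ℕ} {x y : Fin n × Pos k} (h : x.2.1 < y.2.1) : rk x < rk y := by
  have h1 : (n : ℤ) * (x.2.1 + 1) ≤ n * y.2.1 :=
    mul_le_mul_of_nonneg_left h (Int.natCast_nonneg n)
  have h2 := y.1.2
  rw [mul_add] at h1
  unfold rk
  omega

theorem rk_inj {n k : ℕ} : Function.Injective (rk (n := n) (k := k)) := fun x y h => by
  have h1 : x.2.1 = y.2.1 := le_antisymm (not_lt.1 fun e => (ech_rk e).ne' h)
    (not_lt.1 fun e => (ech_rk e).ne h)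
  refine Prod.ext (Fin.ext ?_) (Subtype.ext h1)
  unfold rk at h
  rw [h1] at h
  omega

theorem rk_lt {n k : ℕ} {x y : Fin n × Pos k} :
    rk x < rk y ↔ x.2.1 < y.2.1 ∨ (x.2.1 = y.2.1 ∧ y.1 < x.1) := by
  rcases lt_trichotomy x.2.1 y.2.1 with h | h | h
  · exact iff_of_true (ech_rk h) (Or.inl h)
  · unfold rk
    rw [h, Fin.lt_def]
    omega
  · exact iff_of_false (lt_asymm (ech_rk h)) (by omega)

end Pool.Agent.Work.MP_849ab0_ag.G
end
end

-- merged part: Pool.Agent.Work.MP_849ab0_ag.G.C.Cell1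
section
/-!
Task C-Cell1. The parametrisation gC and the chart fC of an Iwahori cell.
Plan: p = mQ (pjL k μ) is diagonal (mQ_prj), g = 1 + sr k (hw w) is unitriangular (hw_tri, unit_of_tri),
A = g p, proj_of. gC_Gr: mem_Gr, graded_inv, pres_of_range (t commutes with g by exists_srH and
t p = p t p). For gC_UC and fC_gC put X = p A p + 1 - p = 1 + p N p (unitriangular), u = A X⁻¹ and use
graph_inv; u A = A, and the column of A at x = (b, μ b) is a vector v with p v = e_x, so the column of u at x is v; its entry at (a, μ b + j) is w (a, b, j).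
Equivariance: with the diagonal unitary matrix d = diagonal (x ↦ ch (single x.1 1, x.2 • h) g) one has
mQ (aE g Q) = d * mQ Q * d^H (aE_ic), sr (hw (g w)) = d * sr (hw w) * d^H, d commutes with p.
ind_gC: trace (e Q) = trace (e p) for the colour projection e, which commutes with everything.
-/

noncomputable section

set_option linter.unusedSectionVars false
set_option linter.unusedVariables false

namespace Pool.Agent.Work.MP_849ab0_ag.G

open Set Topology Matrix

variable {n : ℕ} {I E κ : Type} [Fintype I] [DecidableEq I] [Fintype E]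
  [Fintype κ] [DecidableEq κ] (D : Qv I (Fin n) E κ) {k : ℕ} {μ : Fin n → ℤ}

section

variable {P : Type} [Fintype P] [DecidableEq P]

theorem cell1_mQ_unQ (M : Matrix (P × Pos k) (P × Pos k) ℂ) : mQ (unQ M) = M := rfl

theorem cell1_mQ_inj {Q Q' : En P k} (h : mQ Q = mQ Q') : Q = Q' :=
  funext fun z => congrFun₂ h z.1 z.2

theorem cell1_cont_mQ : Continuous fun Q : En P k => mQ Q :=
  continuous_matrix fun y x => continuous_apply (y, x)

theorem cell1_cont_unQ : Continuous fun M : Matrix (P × Pos k) (P × Pos k) ℂ => unQ M :=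
  continuous_pi fun z => continuous_id.matrix_elem z.1 z.2

theorem cell1_pH (k : ℕ) (μ : P → ℤ) : (mQ (pjL k μ))ᴴ = mQ (pjL k μ) := by
  rw [mQ_prj, diagonal_conjTranspose]
  exact congrArg _ (funext fun x => by simp [apply_ite star])

theorem cell1_pp (k : ℕ) (μ : P → ℤ) : mQ (pjL k μ) * mQ (pjL k μ) = mQ (pjL k μ) := by
  rw [mQ_prj, diagonal_mul_diagonal]
  exact congrArg _ (funext fun x => by split_ifs <;> simp)

theorem cell1_cont_MC (k : ℕ) (μ : P → ℤ) : Continuous (MC k μ) :=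
  ((continuous_const.matrix_mul cell1_cont_mQ).matrix_mul continuous_const).add continuous_const

theorem cell1_inv_at {J : Type} [Fintype J] [DecidableEq J] {M : Matrix J J ℂ}
    (h : IsUnit M.det) : ContinuousAt Inv.inv M := by
  obtain ⟨u, hu⟩ := h
  exact continuousAt_matrix_inv M (hu ▸ NormedRing.inverse_continuousAt u)

theorem cell1_ch_sub (w w' : WT P κ) (g : (TT P κ).H) :
    ch (w - w') g = ch w g * star (ch w' g) := by
  have h1 : ch w' g * star (ch w' g) = 1 := by
    rw [Complex.star_def, Complex.mul_conj, Complex.normSq_eq_norm_sq, (isChar_ch w').norm g]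
    simp
  have h2 := ch_add (w - w') w' g
  rw [sub_add_cancel] at h2
  rw [h2, mul_assoc, h1, mul_one]

end

section

variable {J : Type} [Fintype J] [DecidableEq J] {d : Matrix J J ℂ}

theorem cell1_cmul (h : dᴴ * d = 1) (M N : Matrix J J ℂ) :
    d * M * dᴴ * (d * N * dᴴ) = d * (M * N) * dᴴ := by
  calc d * M * dᴴ * (d * N * dᴴ) = d * M * (dᴴ * d) * N * dᴴ := by simp only [Matrix.mul_assoc]
    _ = _ := by rw [h, Matrix.mul_one, Matrix.mul_assoc d M N]

theorem cell1_cinv (h : dᴴ * d = 1) (M : Matrix J J ℂ) : (d * M * dᴴ)⁻¹ = d * M⁻¹ * dᴴ := by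
  rw [Matrix.mul_inv_rev, Matrix.mul_inv_rev, Matrix.inv_eq_left_inv h,
    Matrix.inv_eq_right_inv h, Matrix.mul_assoc]

theorem cell1_cH (M : Matrix J J ℂ) : (d * M * dᴴ)ᴴ = d * Mᴴ * dᴴ := by
  rw [conjTranspose_mul, conjTranspose_mul, conjTranspose_conjTranspose, Matrix.mul_assoc]

theorem cell1_cadd (h : dᴴ * d = 1) {p : Matrix J J ℂ} (hp : d * p * dᴴ = p) (M : Matrix J J ℂ) :
    d * M * dᴴ + (1 - p) = d * (M + (1 - p)) * dᴴ := by
  rw [Matrix.mul_add, Matrix.add_mul, Matrix.mul_sub, Matrix.sub_mul, hp, Matrix.mul_one,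
    mul_eq_one_comm.1 h]

theorem cell1_comm {C : Type} [DecidableEq C] {c : J → C} {M : Matrix J J ℂ}
    (h : ∀ a b, c a ≠ c b → M a b = 0) (i : C) :
    (diagonal fun x => if c x = i then (1 : ℂ) else 0) * M =
      M * diagonal fun x => if c x = i then (1 : ℂ) else 0 := by
  ext y x
  rw [diagonal_mul, mul_diagonal]
  by_cases e : c y = c x
  · rw [e, mul_comm]
  · rw [h y x e, mul_zero, zero_mul]

end

theorem isOpen_UC {P : Type} [Fintype P] [DecidableEq P] (k : ℕ) (μ : P → ℤ) : IsOpen (UC k μ) :=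
  isOpen_ne_fun (cell1_cont_MC k μ).matrix_det continuous_const

namespace Qv

theorem cell1_CF {q : Fin n × Fin n × ℕ} (h : q ∈ D.CF k μ) :
    D.col q.1 = D.col q.2.1 ∧ (q.2.2 : ℤ) < μ q.1 - μ q.2.1 ∧ (0 < q.2.2 ∨ q.1 < q.2.1) :=
  (Finset.mem_filter.1 h).2

theorem mem_CF (h : μ ∈ box (Fin n) k) {q : Fin n × Fin n × ℕ} : q ∈ D.CF k μ ↔
    D.col q.1 = D.col q.2.1 ∧ (q.2.2 : ℤ) < μ q.1 - μ q.2.1 ∧ (0 < q.2.2 ∨ q.1 < q.2.1) := by
  refine ⟨D.cell1_CF, fun e => Finset.mem_filter.2 ⟨?_, e⟩⟩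
  have h1 := mem_box.1 h q.1
  have h2 := mem_box.1 h q.2.1
  have h3 := e.2.1
  simp only [Finset.mem_product, Finset.mem_univ, true_and, Finset.mem_range]
  omega

theorem cell1_hw (w : D.CF k μ → ℂ) (y x : Fin n × Pos k) (h : sr k (D.hw k μ w) y x ≠ 0) :
    x.2.1 ≤ y.2.1 ∧ (y.1, x.1, (y.2.1 - x.2.1).toNat) ∈ D.CF k μ := by
  simp only [sr, hw, of_apply] at h
  by_cases h1 : x.2.1 ≤ y.2.1
  · rw [if_pos h1] at h
    exact ⟨h1, by_contra fun h2 => h (dif_neg h2)⟩
  · exact absurd (if_neg h1) h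

theorem hw_tri (w : D.CF k μ → ℂ) (y x : Fin n × Pos k) (h : sr k (D.hw k μ w) y x ≠ 0) :
    rk x < rk y ∧ D.col y.1 = D.col x.1 := by
  obtain ⟨h1, h2⟩ := D.cell1_hw w y x h
  obtain ⟨h3, -, h4⟩ := D.cell1_CF h2
  refine ⟨rk_lt.2 ?_, h3⟩
  rcases h4 with h4 | h4
  · exact Or.inl (by simp only at h4; omega)
  · exact h1.lt_or_eq.imp_right fun e => ⟨e, h4⟩

theorem cell1_unit (w : D.CF k μ → ℂ) : IsUnit (1 + sr k (D.hw k μ w)).det :=
  unit_of_tri (r := rk) fun y x h => (D.hw_tri w y x h).1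

theorem cell1_proj (w : D.CF k μ → ℂ) : (mQ (D.gC k μ w))ᴴ = mQ (D.gC k μ w) ∧
    mQ (D.gC k μ w) * mQ (D.gC k μ w) = mQ (D.gC k μ w) ∧
      mQ (D.gC k μ w) * D.AC k μ w = D.AC k μ w :=
  (proj_of (D.cell1_unit w) (cell1_pH k μ) (cell1_pp k μ)).2 _ rfl

theorem gC_range (w : D.CF k μ → ℂ) : mQ (D.gC k μ w) * D.AC k μ w = D.AC k μ w ∧
    ∃ M, mQ (D.gC k μ w) = D.AC k μ w * M :=
  ⟨(D.cell1_proj w).2.2, _, Matrix.mul_assoc _ _ _⟩

theorem cell1_cont_AC : Continuous (D.AC k μ) := by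
  refine (continuous_const.add (continuous_matrix fun y x => ?_)).matrix_mul continuous_const
  simp only [sr, hw, of_apply]
  split_ifs
  exacts [continuous_apply _, continuous_const, continuous_const]

theorem continuous_gC : Continuous (D.gC k μ) := by
  have h := D.cell1_cont_AC (k := k) (μ := μ)
  refine cell1_cont_unQ.comp ((h.matrix_mul ?_).matrix_mul h.matrix_conjTranspose)
  exact continuous_iff_continuousAt.2 fun w => ContinuousAt.comp (g := Inv.inv)
    (f := fun w => (D.AC k μ w)ᴴ * D.AC k μ w + (1 - mQ (pjL k μ)))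
    (cell1_inv_at (proj_of (D.cell1_unit w) (cell1_pH k μ) (cell1_pp k μ)).1)
    ((h.matrix_conjTranspose.matrix_mul h).add continuous_const).continuousAt

theorem continuousOn_fC : ContinuousOn (D.fC k μ) (UC k μ) := by
  intro Q hQ
  have h1 : ContinuousAt (fun Q => (MC k μ Q)⁻¹) Q := ContinuousAt.comp (g := Inv.inv)
    (cell1_inv_at (isUnit_iff_ne_zero.2 hQ)) (cell1_cont_MC k μ).continuousAt
  have h2 : ContinuousAt (fun Q : En (Fin n) k => mQ Q * mQ (pjL k μ) * (MC k μ Q)⁻¹) Q :=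
    (cell1_cont_mQ.matrix_mul continuous_const).continuousAt.mul h1
  refine (continuousAt_pi.2 fun q => ?_).continuousWithinAt
  exact (((continuous_blkAt k _ _).comp cell1_cont_unQ).matrix_elem _ _).continuousAt.comp h2

theorem cell1_pgr (k : ℕ) (μ : Fin n → ℤ) (a b : Fin n × Pos k) (e : D.col a.1 ≠ D.col b.1) :
    mQ (pjL k μ) a b = 0 := by
  rw [mQ_prj]
  exact diagonal_apply_ne _ fun c => e (c ▸ rfl)

theorem cell1_Agr (w : D.CF k μ → ℂ) (a b : Fin n × Pos k) (e : D.col a.1 ≠ D.col b.1) :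
    D.AC k μ w a b = 0 := by
  refine graded_mul (c := fun x : Fin n × Pos k => D.col x.1) (fun y x e => ?_)
    (D.cell1_pgr k μ) a b e
  rw [Matrix.add_apply, one_apply_ne fun c : y = x => e (c ▸ rfl),
    not_not.1 fun c => e (D.hw_tri w y x c).2, add_zero]

theorem gC_Gr (w : D.CF k μ → ℂ) : D.gC k μ w ∈ D.Gr k := by
  have hH : ∀ a b : Fin n × Pos k, D.col a.1 ≠ D.col b.1 → (D.AC k μ w)ᴴ a b = 0 := fun a b e => by
    rw [conjTranspose_apply, D.cell1_Agr w b a e.symm, star_zero]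
  obtain ⟨h1, M, h2⟩ := D.gC_range w
  refine D.mem_Gr.2 ⟨⟨(D.cell1_proj w).1, (D.cell1_proj w).2.1, ?_⟩,
    (pres_of_range h1 h2).2 ⟨sr k (Pi.single 1 1) * mQ (pjL k μ), ?_⟩⟩
  · refine graded_mul (graded_mul (D.cell1_Agr w) (graded_inv fun a b e => ?_)) hH
    rw [Matrix.add_apply, Matrix.sub_apply, graded_mul hH (D.cell1_Agr w) a b e,
      one_apply_ne fun c : a = b => e (c ▸ rfl), D.cell1_pgr k μ a b e, sub_zero, add_zero]
  · obtain ⟨φ, hφ⟩ := exists_srH (J := Fin n) k
    have e1 : φ PowerSeries.X = sr k (Pi.single 1 1) := by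
      rw [hφ]
      exact congrArg _ (funext fun m => by rw [PowerSeries.coeff_X, Pi.single_apply])
    have e2 : φ (PowerSeries.mk (D.hw k μ w)) = sr k (D.hw k μ w) := by
      rw [hφ]
      exact congrArg _ (funext fun m => PowerSeries.coeff_mk _ _)
    have e3 : sr k (D.hw k μ w) * sr k (Pi.single 1 1) = sr k (Pi.single 1 1) * sr k (D.hw k μ w) := by
      rw [← e1, ← e2, ← map_mul, ← map_mul, (PowerSeries.commute_X _).eq]
    have e4 : Pres (mQ (pjL k μ)) (sr k (Pi.single 1 1)) := by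
      rw [mQ_prj, fix_pres]
      intro y x hy hx
      rw [fix_sr, if_neg]
      rintro ⟨e, e'⟩
      rw [e] at hy
      omega
    rw [Pres, Matrix.sub_mul, Matrix.sub_mul, Matrix.one_mul, sub_eq_zero] at e4
    rw [AC, Matrix.mul_assoc (1 + _), ← Matrix.mul_assoc (mQ _), ← e4, ← Matrix.mul_assoc,
      ← Matrix.mul_assoc, Matrix.mul_add, Matrix.add_mul 1, e3, Matrix.mul_one, Matrix.one_mul]

theorem cell1_u (w : D.CF k μ → ℂ) : ∃ u, mQ (D.gC k μ w) * u = u ∧
    u * mQ (D.gC k μ w) = mQ (D.gC k μ w) ∧ mQ (pjL k μ) * u = mQ (pjL k μ) ∧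
      u * mQ (pjL k μ) = u ∧ u * D.AC k μ w = D.AC k μ w := by
  obtain ⟨h1, M, h2⟩ := D.gC_range w
  have hpp := cell1_pp k μ
  have hu : IsUnit (1 + mQ (pjL k μ) * sr k (D.hw k μ w) * mQ (pjL k μ)).det :=
    unit_of_tri (r := rk) fun y x h => (D.hw_tri w y x fun c => h (by
      rw [mQ_prj, mul_diagonal, diagonal_mul, c, mul_zero, zero_mul])).1
  have hA : D.AC k μ w = (1 + sr k (D.hw k μ w)) * mQ (pjL k μ) := rfl
  generalize mQ (pjL k μ) = p at hpp hu hA ⊢
  generalize sr k (D.hw k μ w) = N at hu hA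
  generalize D.AC k μ w = A at h1 h2 hA ⊢
  generalize mQ (D.gC k μ w) = Q at h1 h2 ⊢
  generalize hX : 1 + p * N * p = X at hu
  have a1 : A * p = A := by rw [hA, Matrix.mul_assoc, hpp]
  have a2 : p * A = X * p := by
    rw [hA, ← hX, Matrix.add_mul, Matrix.add_mul, Matrix.mul_add, Matrix.one_mul, hpp,
      Matrix.mul_assoc _ p p, hpp, Matrix.mul_assoc]
  have a3 : p * X = X * p := by
    rw [← hX, Matrix.mul_add, Matrix.add_mul, Matrix.mul_one, Matrix.one_mul,
      Matrix.mul_assoc _ p p, hpp, ← Matrix.mul_assoc, ← Matrix.mul_assoc, hpp]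
  have a4 : X⁻¹ * p = p * X⁻¹ := by
    calc X⁻¹ * p = X⁻¹ * (p * X) * X⁻¹ := by
          rw [Matrix.mul_assoc, Matrix.mul_assoc, mul_nonsing_inv X hu, Matrix.mul_one]
      _ = p * X⁻¹ := by rw [a3, ← Matrix.mul_assoc, nonsing_inv_mul X hu, Matrix.one_mul]
  have a5 : A * X⁻¹ * p = A * X⁻¹ := by rw [Matrix.mul_assoc, a4, ← Matrix.mul_assoc, a1]
  have a6 : A * X⁻¹ * A = A := by
    rw [← a5, Matrix.mul_assoc, a2, Matrix.mul_assoc, ← Matrix.mul_assoc X⁻¹,
      nonsing_inv_mul X hu, Matrix.one_mul, a1]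
  refine ⟨A * X⁻¹, by rw [← Matrix.mul_assoc, h1], by rw [h2, ← Matrix.mul_assoc, a6], ?_, a5, a6⟩
  rw [← Matrix.mul_assoc, a2, ← a3, Matrix.mul_assoc, mul_nonsing_inv X hu, Matrix.mul_one]

theorem gC_UC (w : D.CF k μ → ℂ) : D.gC k μ w ∈ UC k μ := by
  obtain ⟨u, h1, h2, h3, h4, -⟩ := D.cell1_u w
  exact (graph_inv (D.cell1_proj w).1 (cell1_pH k μ) (cell1_pp k μ) h1 h2 h3 h4).1.ne_zero

theorem cell1_pos (h : μ ∈ box (Fin n) k) (q : D.CF k μ) : ∃ y x : Fin n × Pos k,
    y.1 = q.1.1 ∧ y.2.1 = μ q.1.2.1 + q.1.2.2 ∧ x.1 = q.1.2.1 ∧ x.2.1 = μ q.1.2.1 ∧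
      ∀ Q : En (Fin n) k, D.fC k μ Q q = (mQ Q * mQ (pjL k μ) * (MC k μ Q)⁻¹) y x := by
  have h1 := mem_box.1 h q.1.1
  have h2 := mem_box.1 h q.1.2.1
  have h3 := (D.cell1_CF q.2).2.1
  exact ⟨(q.1.1, ⟨μ q.1.2.1 + q.1.2.2, Finset.mem_Ico.2 (by omega)⟩),
    (q.1.2.1, ⟨μ q.1.2.1, Finset.mem_Ico.2 (by omega)⟩), rfl, rfl, rfl, rfl,
    fun Q => blkAt_mem _ (_, ⟨_, _⟩) (_, ⟨_, _⟩)⟩

theorem fC_gC (h : μ ∈ box (Fin n) k) (w : D.CF k μ → ℂ) : D.fC k μ (D.gC k μ w) = w := by
  funext q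
  obtain ⟨u, h1, h2, h3, h4, h5⟩ := D.cell1_u w
  obtain ⟨y, x, y1, y2, x1, x2, e⟩ := D.cell1_pos h q
  have h6 := (D.cell1_CF q.2).2.1
  have hx : ∀ z, D.AC k μ w z x = (1 + sr k (D.hw k μ w)) z x := fun z => by
    rw [AC, mQ_prj, mul_diagonal, if_pos (by rw [x1, x2]), mul_one]
  have h7 : ∀ z, (mQ (pjL k μ) * D.AC k μ w) z x = (1 : Matrix _ _ ℂ) z x := fun z => by
    rw [mQ_prj, diagonal_mul, hx, Matrix.add_apply]
    split_ifs with c
    · rw [one_mul, not_not.1 fun c' : sr k (D.hw k μ w) z x ≠ 0 => ?_, add_zero]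
      obtain ⟨c1, c2⟩ := D.cell1_hw w z x c'
      have c3 := (D.cell1_CF c2).2.1
      simp only [x1] at c3
      omega
    · rw [zero_mul, one_apply_ne]
      rintro rfl
      exact c (by rw [x1, x2])
  have h8 : u y x = D.AC k μ w y x := by
    rw [← h5, ← congrArg (· * D.AC k μ w) h4, Matrix.mul_assoc, mul_apply]
    simp only [h7]
    rw [← mul_apply, Matrix.mul_one]
  rw [e, MC, (graph_inv (D.cell1_proj w).1 (cell1_pH k μ) (cell1_pp k μ) h1 h2 h3 h4).2, h8, hx,
    Matrix.add_apply, one_apply_ne, zero_add]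
  · have e1 : (y.1, x.1, (y.2.1 - x.2.1).toNat) = q.1 := by
      rw [y1, y2, x1, x2, add_sub_cancel_left, Int.toNat_natCast]
    simp only [sr, hw, of_apply]
    rw [if_pos (by omega), dif_pos (e1 ▸ q.2)]
    exact congrArg w (Subtype.ext e1)
  · rintro rfl
    rw [← y1, x1] at h6
    omega

theorem gC_zero : D.gC k μ 0 = pjL k μ := by
  have e : D.AC k μ 0 = mQ (pjL k μ) := by
    have e1 : sr k (D.hw k μ 0) = 0 := by
      ext y x
      simp [sr, hw]
    rw [AC, e1, add_zero, Matrix.one_mul]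
  refine cell1_mQ_inj ?_
  rw [gC, cell1_mQ_unQ, e, cell1_pH, cell1_pp, add_sub_cancel, inv_one, Matrix.mul_one, cell1_pp]

/-- the matrix of an element of the torus -/
def cell1_d (k : ℕ) (g : (TT (Fin n) κ).H) : Matrix (Fin n × Pos k) (Fin n × Pos k) ℂ :=
  diagonal fun x => ch (Pi.single x.1 1, x.2.1 • D.h) g

theorem cell1_d_apply (g : (TT (Fin n) κ).H) (M : Matrix (Fin n × Pos k) (Fin n × Pos k) ℂ)
    (y x : Fin n × Pos k) :
    (D.cell1_d k g * M * (D.cell1_d k g)ᴴ) y x = ch (D.wE k (y, x)) g * M y x := by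
  rw [cell1_d, diagonal_conjTranspose, mul_diagonal, diagonal_mul, Pi.star_apply, mul_right_comm,
    ← cell1_ch_sub, wE, sub_smul]
  rfl

theorem cell1_dd (g : (TT (Fin n) κ).H) : (D.cell1_d k g)ᴴ * D.cell1_d k g = 1 := by
  rw [cell1_d, diagonal_conjTranspose, diagonal_mul_diagonal, ← diagonal_one]
  exact congrArg _ (funext fun x => by
    rw [Pi.star_apply, mul_comm, ← cell1_ch_sub, sub_self, ch_zero])

theorem cell1_aE (g : (TT (Fin n) κ).H) (Q : En (Fin n) k) :
    mQ ((D.aE k).act (D.ic g) Q) = D.cell1_d k g * mQ Q * (D.cell1_d k g)ᴴ := by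
  ext y x
  rw [cell1_d_apply, aE_ic]
  rfl

theorem cell1_dp (g : (TT (Fin n) κ).H) :
    D.cell1_d k g * mQ (pjL k μ) * (D.cell1_d k g)ᴴ = mQ (pjL k μ) := by
  rw [← cell1_aE, prj_fix]

theorem cell1_AC (g : (TT (Fin n) κ).H) (w : D.CF k μ → ℂ) :
    D.AC k μ ((wr (D.wC k μ)).act g w) = D.cell1_d k g * D.AC k μ w * (D.cell1_d k g)ᴴ := by
  have e : sr k (D.hw k μ ((wr (D.wC k μ)).act g w)) =
      D.cell1_d k g * sr k (D.hw k μ w) * (D.cell1_d k g)ᴴ := by
    ext y x
    rw [cell1_d_apply]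
    simp only [sr, hw, of_apply]
    split_ifs with c c'
    · rw [wr_act, wC, wE, Int.toNat_of_nonneg (sub_nonneg.2 c)]
    all_goals rw [mul_zero]
  rw [AC, AC, e, ← cell1_cmul (D.cell1_dd g), D.cell1_dp, Matrix.mul_add (D.cell1_d k g),
    Matrix.add_mul _ _ (D.cell1_d k g)ᴴ, Matrix.mul_one, mul_eq_one_comm.1 (D.cell1_dd g)]

theorem gC_eqv (g : (TT (Fin n) κ).H) (w : D.CF k μ → ℂ) :
    D.gC k μ ((wr (D.wC k μ)).act g w) = (D.aE k).act (D.ic g) (D.gC k μ w) := by
  have h := D.cell1_dd (k := k) g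
  refine cell1_mQ_inj ?_
  rw [cell1_aE, gC, gC, cell1_mQ_unQ, cell1_mQ_unQ, cell1_AC, cell1_cH, cell1_cmul h,
    cell1_cadd h (D.cell1_dp g), cell1_cinv h, cell1_cmul h, cell1_cmul h]

theorem cell1_MC (g : (TT (Fin n) κ).H) (Q : En (Fin n) k) :
    MC k μ ((D.aE k).act (D.ic g) Q) = D.cell1_d k g * MC k μ Q * (D.cell1_d k g)ᴴ := by
  have h := D.cell1_dd (k := k) g
  rw [MC, MC, cell1_aE, ← cell1_cadd h (D.cell1_dp g), ← cell1_cmul h, ← cell1_cmul h, cell1_dp]

theorem inv_UC : ((D.aE k).res D.ic).Inv (UC k μ) := by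
  intro g Q hQ
  change (MC k μ ((D.aE k).act (D.ic g) Q)).det ≠ 0
  rw [cell1_MC, det_mul, det_mul, mul_right_comm, ← det_mul, mul_eq_one_comm.1 (D.cell1_dd g),
    det_one, one_mul]
  exact hQ

theorem fC_eqv (h : μ ∈ box (Fin n) k) (g : (TT (Fin n) κ).H) {Q : En (Fin n) k}
    (hQ : Q ∈ UC k μ) :
    D.fC k μ ((D.aE k).act (D.ic g) Q) = (wr (D.wC k μ)).act g (D.fC k μ Q) := by
  funext q
  have hd := D.cell1_dd (k := k) g
  obtain ⟨y, x, y1, y2, x1, x2, e⟩ := D.cell1_pos h q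
  have e1 := cell1_cmul hd (mQ Q) (mQ (pjL k μ))
  rw [cell1_dp] at e1
  rw [wr_act, e, e, cell1_MC, cell1_aE, cell1_cinv hd, e1, cell1_cmul hd, cell1_d_apply, wE, wC,
    y1, y2, x1, x2, add_sub_cancel_left]

theorem cell1_tr (Q : En (Fin n) k) (i : I) : ∑ a with D.col a = i, ind Q (some a) =
    ∑ a with D.col a = i, (k : ℂ) -
      trace ((diagonal fun x => if D.col x.1 = i then (1 : ℂ) else 0) * mQ Q) := by
  simp only [ind, Finset.sum_sub_distrib, trace, diag_apply, diagonal_mul, Fintype.sum_prod_type]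
  congr 1
  rw [Finset.sum_filter]
  refine Finset.sum_congr rfl fun a _ => ?_
  split_ifs <;> simp [mQ]

theorem ind_gC (h : μ ∈ box (Fin n) k) (w : D.CF k μ → ℂ) (i : I) :
    ∑ a with D.col a = i, ind (D.gC k μ w) (some a) = ∑ a with D.col a = i, (μ a : ℂ) := by
  obtain ⟨u, h1, h2, h3, h4, -⟩ := D.cell1_u w
  have c1 := cell1_comm (D.mem_Gr.1 (D.gC_Gr w)).1.2.2 i
  have c2 := cell1_comm (c := fun x : Fin n × Pos k => D.col x.1) (D.cell1_pgr k μ) i
  simp only [← fix_ind h, cell1_tr]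
  generalize (diagonal fun x : Fin n × Pos k => if D.col x.1 = i then (1 : ℂ) else 0) = e at c1 c2 ⊢
  have t1 : trace (e * mQ (D.gC k μ w)) = trace (e * u) := by
    rw [← h2, ← Matrix.mul_assoc, trace_mul_comm, ← Matrix.mul_assoc, ← c1, Matrix.mul_assoc, h1]
  have t2 : trace (e * mQ (pjL k μ)) = trace (e * u) := by
    rw [← h4, ← Matrix.mul_assoc, trace_mul_comm (e * u), ← Matrix.mul_assoc, ← c2,
      Matrix.mul_assoc, h3]
  rw [t1, t2]

end Qv

end Pool.Agent.Work.MP_849ab0_ag.G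
end
end

-- merged part: Pool.Agent.Work.MP_849ab0_ag.G.C.Shear
section
/-!
Task C-Shear. Conjugation by the loop 1 + h trivialises the space of triples over a cell.
Plan: H = mk (hat 0 (hw w j)) has coefficients with entries (a, b) only for μ b < μ a, so the coefficients of H ^ i have
entries only for μ b + i ≤ μ a and H ^ (2 k + 1) = 0 (if CF is nonempty μ need not be in the box: use the hypothesis);
geometric sum. All coefficients of gS, gI preserve the colouring, so mk (mat (lr A B s j) e) = A * mk (mat (s j) e) * B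
(cmat_of). Continuity: coefficients of products are finite sums (PowerSeries.coeff_mul), induct on powers.
Equivariance: the ring automorphism A ↦ mk (j ↦ hbar ^ j • (d * coeff j A * d^H)), d = hat 1 (diagonal g.1).
gC_RR: with φ from exists_srH, ext (gC w) has the image of φ gS * ext (pjL μ) (embed gC_range: ext, φ gS are block sums of the V part and the framing part), pres_of_range, prj_RR.
-/

noncomputable section

set_option linter.unusedSectionVars false
set_option linter.unusedVariables false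

namespace Pool.Agent.Work.MP_849ab0_ag.G

open Set Topology Matrix

section Gen

open PowerSeries

variable {O X : Type} [Fintype O] [DecidableEq O]

/-- all coefficients have entries only at the places allowed by `r` -/
def shear_P (r : O → O → Prop) (A : PowerSeries (Matrix O O ℂ)) : Prop :=
  ∀ m b a, coeff m A b a ≠ 0 → r b a

theorem shear_P_mul {r r' r'' : O → O → Prop} {A B : PowerSeries (Matrix O O ℂ)}
    (hA : shear_P r A) (hB : shear_P r' B) (h : ∀ b c a, r b c → r' c a → r'' b a) :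
    shear_P r'' (A * B) := by
  intro m b a e
  rw [coeff_mul, Matrix.sum_apply] at e
  obtain ⟨p, -, e⟩ := Finset.exists_ne_zero_of_sum_ne_zero e
  obtain ⟨c, -, e⟩ := Finset.exists_ne_zero_of_sum_ne_zero e
  exact h b c a (hA _ _ _ (left_ne_zero_of_mul e)) (hB _ _ _ (right_ne_zero_of_mul e))

theorem shear_P_add {r : O → O → Prop} {A B : PowerSeries (Matrix O O ℂ)}
    (hA : shear_P r A) (hB : shear_P r B) : shear_P r (A + B) := by
  intro m b a e
  by_contra h
  rw [map_add, Matrix.add_apply, not_not.1 (mt (hA m b a) h), not_not.1 (mt (hB m b a) h),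
    add_zero] at e
  exact e rfl

theorem shear_P_neg {r : O → O → Prop} {A : PowerSeries (Matrix O O ℂ)}
    (hA : shear_P r A) : shear_P r (-A) := by
  intro m b a e
  rw [map_neg, Matrix.neg_apply, neg_ne_zero] at e
  exact hA m b a e

theorem shear_P_one {r : O → O → Prop} (h : ∀ a, r a a) :
    shear_P r (1 : PowerSeries (Matrix O O ℂ)) := by
  intro m b a e
  by_cases c : b = a
  · exact c ▸ h b
  · rw [coeff_one] at e
    split_ifs at e
    · exact absurd (Matrix.one_apply_ne c) e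
    · exact absurd rfl e

theorem shear_P_sum {r : O → O → Prop} {ι : Type} (s : Finset ι)
    {A : ι → PowerSeries (Matrix O O ℂ)} (h : ∀ i, shear_P r (A i)) :
    shear_P r (∑ i ∈ s, A i) := by
  intro m b a e
  rw [map_sum, Matrix.sum_apply] at e
  obtain ⟨i, -, e⟩ := Finset.exists_ne_zero_of_sum_ne_zero e
  exact h i m b a e

theorem shear_P_mono {r r' : O → O → Prop} {A : PowerSeries (Matrix O O ℂ)}
    (hA : shear_P r A) (h : ∀ b a, r b a → r' b a) : shear_P r' A :=
  fun m b a e => h b a (hA m b a e)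

theorem shear_P_pow {C : Type} {c : O → C} {ν : O → ℤ} {A : PowerSeries (Matrix O O ℂ)}
    (hA : shear_P (fun b a => c b = c a ∧ ν a < ν b) A) (i : ℕ) :
    shear_P (fun b a => c b = c a ∧ ν a + i ≤ ν b) (A ^ i) := by
  induction i with
  | zero => rw [pow_zero]; exact shear_P_one fun a => ⟨rfl, by simp⟩
  | succ i ih =>
    rw [pow_succ]
    exact shear_P_mul ih hA fun b d a h h' => ⟨h.1.trans h'.1, by push_cast; omega⟩

/-- all coefficients are continuous -/
def shear_C [TopologicalSpace X] (A : X → PowerSeries (Matrix O O ℂ)) : Prop :=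
  ∀ m, Continuous fun x => coeff m (A x)

variable [TopologicalSpace X] {A B : X → PowerSeries (Matrix O O ℂ)}

theorem shear_C_const (A : PowerSeries (Matrix O O ℂ)) : shear_C fun _ : X => A :=
  fun _ => continuous_const

theorem shear_C_mul (hA : shear_C A) (hB : shear_C B) : shear_C fun x => A x * B x := by
  intro m
  simp only [coeff_mul]
  exact continuous_finsetSum _ fun p _ => (hA _).matrix_mul (hB _)

theorem shear_C_add (hA : shear_C A) (hB : shear_C B) : shear_C fun x => A x + B x := by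
  intro m
  simp only [map_add]
  exact (hA _).add (hB _)

theorem shear_C_sub (hA : shear_C A) (hB : shear_C B) : shear_C fun x => A x - B x := by
  intro m
  simp only [map_sub]
  exact (hA _).sub (hB _)

theorem shear_C_pow (hA : shear_C A) (i : ℕ) : shear_C fun x => A x ^ i := by
  induction i with
  | zero => simp only [pow_zero]; exact shear_C_const _
  | succ i ih => simp only [pow_succ]; exact shear_C_mul ih hA

theorem shear_C_geom (hA : shear_C A) (N : ℕ) :
    shear_C fun x => ∑ i ∈ Finset.range N, A x ^ i := by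
  intro m
  simp only [map_sum]
  exact continuous_finsetSum _ fun i _ => shear_C_pow hA i m

/-- conjugation by `d` together with the rotation of the loop by `c` -/
def shear_th (c : ℂ) {d : Matrix O O ℂ} (h : dᴴ * d = 1) :
    PowerSeries (Matrix O O ℂ) →+* PowerSeries (Matrix O O ℂ) where
  toFun A := PowerSeries.mk fun j => c ^ j • (d * coeff j A * dᴴ)
  map_one' := by
    ext1 j
    rw [coeff_mk, coeff_one]
    split_ifs with e
    · rw [e, pow_zero, one_smul, mul_one, mul_eq_one_comm.1 h]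
    · rw [mul_zero, zero_mul, smul_zero]
  map_mul' A B := by
    ext1 j
    rw [coeff_mk, coeff_mul, coeff_mul, Finset.mul_sum, Finset.sum_mul, Finset.smul_sum]
    refine Finset.sum_congr rfl fun p hp => ?_
    rw [coeff_mk, coeff_mk, ← Finset.HasAntidiagonal.mem_antidiagonal.1 hp, smul_mul_smul_comm, pow_add]
    simp only [mul_assoc]
    rw [← mul_assoc dᴴ d, h, one_mul]
  map_zero' := by
    ext1 j
    simp
  map_add' A B := by
    ext1 j
    simp only [coeff_mk, map_add, mul_add, add_mul, smul_add]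

theorem shear_th_coeff (c : ℂ) {d : Matrix O O ℂ} (h : dᴴ * d = 1)
    (A : PowerSeries (Matrix O O ℂ)) (j : ℕ) :
    coeff j (shear_th c h A) = c ^ j • (d * coeff j A * dᴴ) :=
  coeff_mk j fun j => c ^ j • (d * coeff j A * dᴴ)

end Gen

variable {n : ℕ} {I E κ : Type} [Fintype I] [DecidableEq I] [Fintype E]
  [Fintype κ] [DecidableEq κ] (D : Qv I (Fin n) E κ) {k : ℕ} {μ : Fin n → ℤ}

namespace Qv

/-- the component `e` of `s` as a power series -/
def shear_S (s : D.NO) (e : E) : PowerSeries (Matrix (Option (Fin n)) (Option (Fin n)) ℂ) :=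
  PowerSeries.mk fun j => D.mat (s j) e

theorem shear_ext {s s' : D.NO} (h : ∀ e, D.shear_S s e = D.shear_S s' e) : s = s' :=
  funext fun m => D.act_mext fun e => by
    simpa only [shear_S, PowerSeries.coeff_mk] using congrArg (PowerSeries.coeff m) (h e)

theorem shear_lr {A B : PowerSeries (Matrix (Option (Fin n)) (Option (Fin n)) ℂ)}
    (hA : shear_P (fun b a => b.map D.col = a.map D.col) A)
    (hB : shear_P (fun b a => b.map D.col = a.map D.col) B) (s : D.NO) (e : E) :
    D.shear_S (D.lr A B s) e = A * D.shear_S s e * B := by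
  ext1 m
  rw [shear_S, PowerSeries.coeff_mk]
  refine D.cmat_of (M := fun e => PowerSeries.coeff m (A * D.shear_S s e * B)) (fun e => ?_) e
  have h : shear_P (fun b a => a.map D.col = D.src e ∧ b.map D.col = D.tgt e) (D.shear_S s e) := by
    intro j b a c
    rw [shear_S, PowerSeries.coeff_mk] at c
    exact by_contra fun c' => c (dif_neg c')
  exact shear_P_mul (r'' := fun b a => a.map D.col = D.src e ∧ b.map D.col = D.tgt e)
    (shear_P_mul (r'' := fun b a => a.map D.col = D.src e ∧ b.map D.col = D.tgt e) hA h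
      fun b c a h h' => ⟨h'.1, h.trans h'.2⟩) hB (fun b c a h h' => ⟨h'.symm.trans h.1, h.2⟩) m

theorem shear_H (w : D.CF k μ → ℂ) : shear_P (fun b a => b.map D.col = a.map D.col ∧
    a.elim 0 μ < b.elim 0 μ) (1 - D.gS k μ w) := by
  rw [gS, sub_add_cancel_left]
  refine shear_P_neg ?_
  rintro j (_ | b) (_ | a) c <;> rw [PowerSeries.coeff_mk] at c
  · exact absurd rfl c
  · exact absurd rfl c
  · exact absurd rfl c
  · have h : (b, a, j) ∈ D.CF k μ := by_contra fun c' => c (dif_neg c')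
    obtain ⟨h1, h2, -⟩ := (Finset.mem_filter.1 h).2
    refine ⟨congrArg some h1, ?_⟩
    change μ a < μ b
    simp only at h2
    omega

theorem shear_gS (w : D.CF k μ → ℂ) :
    shear_P (fun b a => b.map D.col = a.map D.col) (D.gS k μ w) := by
  rw [← sub_sub_cancel 1 (D.gS k μ w), sub_eq_add_neg]
  exact shear_P_add (shear_P_one fun _ => rfl)
    (shear_P_neg (shear_P_mono (D.shear_H w) fun _ _ h => h.1))

theorem shear_gI (w : D.CF k μ → ℂ) :
    shear_P (fun b a => b.map D.col = a.map D.col) (D.gI k μ w) :=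
  shear_P_sum _ fun i => shear_P_mono (shear_P_pow (D.shear_H w) i) fun _ _ h => h.1

theorem shear_cj (w : D.CF k μ → ℂ) (s : D.NO) (e : E) :
    D.shear_S (D.cj k μ w s) e = D.gI k μ w * D.shear_S s e * D.gS k μ w :=
  D.shear_lr (D.shear_gI w) (D.shear_gS w) s e

theorem shear_ci (w : D.CF k μ → ℂ) (s : D.NO) (e : E) :
    D.shear_S (D.ci k μ w s) e = D.gS k μ w * D.shear_S s e * D.gI k μ w :=
  D.shear_lr (D.shear_gS w) (D.shear_gI w) s e

theorem shear_C_gS : shear_C fun z : (D.CF k μ → ℂ) × D.NO => D.gS k μ z.1 := by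
  refine shear_C_add (shear_C_const _) fun m => ?_
  simp only [PowerSeries.coeff_mk]
  refine continuous_hat2 continuous_const (continuous_matrix fun a b => ?_)
  simp only [hw, of_apply]
  split_ifs
  exacts [(continuous_apply _).comp continuous_fst, continuous_const]

theorem shear_C_gI : shear_C fun z : (D.CF k μ → ℂ) × D.NO => D.gI k μ z.1 :=
  shear_C_geom (shear_C_sub (shear_C_const _) D.shear_C_gS) _

theorem shear_C_lr {X : Type} [TopologicalSpace X]
    {A B : X × D.NO → PowerSeries (Matrix (Option (Fin n)) (Option (Fin n)) ℂ)}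
    (hA : shear_C A) (hB : shear_C B) : Continuous fun z => D.lr (A z) (B z) z.2 := by
  refine continuous_pi fun m => continuous_pi fun p => ?_
  have h : shear_C fun z : X × D.NO => D.shear_S z.2 p.1.1 := fun j => by
    simp only [shear_S, PowerSeries.coeff_mk]
    exact (D.cmat_cont _).comp ((continuous_apply j).comp continuous_snd)
  exact (shear_C_mul (shear_C_mul hA h) hB m).matrix_elem _ _

theorem shear_aO (g : (KT D.col κ).H) (s : D.NO) (e : E) : D.shear_S (D.aO.act g s) e =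
    chr (D.t e) g.2 • shear_th (chr D.h g.2) (D.cl_hat_unit g) (D.shear_S s e) := by
  ext1 m
  rw [PowerSeries.coeff_smul, shear_th_coeff, shear_S, shear_S, PowerSeries.coeff_mk,
    PowerSeries.coeff_mk, smul_comm, ← cmat_aN, ← cmat_smul]
  rfl

theorem shear_gS_eqv (g : (TT (Fin n) κ).H) (w : D.CF k μ → ℂ) :
    D.gS k μ ((wr (D.wC k μ)).act g w) =
      shear_th (chr D.h (D.ic g).2) (D.cl_hat_unit (D.ic g)) (D.gS k μ w) := by
  rw [gS, gS, map_add, map_one]
  congr 1
  ext1 j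
  rw [shear_th_coeff, PowerSeries.coeff_mk, PowerSeries.coeff_mk, hat_conj, hat_mul, hat_mul,
    hat_smul, mul_zero, zero_mul, mul_zero]
  congr 1
  ext a b
  change _ = chr D.h g.2 ^ j * ((diagonal fun j => (g.1 j : ℂ)) * D.hw k μ w j *
    (diagonal fun j => (g.1 j : ℂ))ᴴ : Matrix (Fin n) (Fin n) ℂ) a b
  rw [diagonal_conjTranspose, mul_diagonal, diagonal_mul]
  simp only [hw, of_apply]
  split_ifs
  · rw [wr_act, ch, wC, act_sub, chr_zsmul, chr_single, chr_single, Pi.star_apply, zpow_natCast]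
    ring
  · simp

theorem shear_sr (w : D.CF k μ → ℂ) :
    1 + (sr k fun j => hat 0 (D.hw k μ w j)) = cl_hb (1 + sr k (D.hw k μ w)) 1 := by
  have h : (sr k fun j => hat 0 (D.hw k μ w j)) = cl_hb (sr k (D.hw k μ w)) 0 := by
    ext ⟨_ | b, j⟩ ⟨_ | a, i⟩ <;> simp [sr, cl_hb, hat]
  rw [h, ← eq_sub_iff_add_eq', ← cl_hb_one, cl_hb_sub, add_sub_cancel_left, sub_self]

theorem gS_gI (h : μ ∈ box (Fin n) k) (w : D.CF k μ → ℂ) :
    D.gS k μ w * D.gI k μ w = 1 ∧ D.gI k μ w * D.gS k μ w = 1 := by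
  have h0 : (1 - D.gS k μ w) ^ (2 * k + 1) = 0 := by
    ext m b a
    by_contra c
    have h1 := (shear_P_pow (D.shear_H w) (2 * k + 1) m b a c).2
    have h2 := fix_nu h a
    have h3 := fix_nu h b
    push_cast at h1
    omega
  have h1 := mul_neg_geom_sum (1 - D.gS k μ w) (2 * k + 1)
  have h2 := geom_sum_mul_neg (1 - D.gS k μ w) (2 * k + 1)
  rw [h0, sub_zero, sub_sub_cancel] at h1 h2
  exact ⟨h1, h2⟩

theorem cj_ci (h : μ ∈ box (Fin n) k) (w : D.CF k μ → ℂ) (s : D.NO) :
    D.cj k μ w (D.ci k μ w s) = s := D.shear_ext fun e => by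
  rw [shear_cj, shear_ci, ← mul_assoc, ← mul_assoc, (D.gS_gI h w).2, one_mul, mul_assoc,
    (D.gS_gI h w).2, mul_one]

theorem ci_cj (h : μ ∈ box (Fin n) k) (w : D.CF k μ → ℂ) (s : D.NO) :
    D.ci k μ w (D.cj k μ w s) = s := D.shear_ext fun e => by
  rw [shear_ci, shear_cj, ← mul_assoc, ← mul_assoc, (D.gS_gI h w).1, one_mul, mul_assoc,
    (D.gS_gI h w).1, mul_one]

theorem continuous_cj : Continuous fun z : (D.CF k μ → ℂ) × D.NO => D.cj k μ z.1 z.2 :=
  D.shear_C_lr D.shear_C_gI D.shear_C_gS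

theorem continuous_ci : Continuous fun z : (D.CF k μ → ℂ) × D.NO => D.ci k μ z.1 z.2 :=
  D.shear_C_lr D.shear_C_gS D.shear_C_gI

theorem cj_zero (s : D.NO) : D.cj k μ 0 s = s := D.shear_ext fun e => by
  have h1 : D.gS k μ 0 = 1 := by
    rw [gS, add_eq_left]
    ext j (_ | a) (_ | b) <;> simp [hat, hw]
  rw [shear_cj, gI, h1, sub_self, zero_geom_sum, if_neg (by omega), one_mul, mul_one]

theorem cj_eqv (g : (TT (Fin n) κ).H) (w : D.CF k μ → ℂ) (s : D.NO) :
    D.cj k μ ((wr (D.wC k μ)).act g w) (D.aO.act (D.ic g) s) = D.aO.act (D.ic g) (D.cj k μ w s) :=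
  D.shear_ext fun e => by
    rw [shear_cj, shear_aO, shear_aO, shear_cj, gI, gI, shear_gS_eqv, map_mul, map_mul, map_sum,
      mul_smul_comm, smul_mul_assoc]
    simp only [map_pow, map_sub, map_one]

theorem gC_RR (h : μ ∈ box (Fin n) k) (w : D.CF k μ → ℂ) (s : D.NO) :
    (D.gC k μ w, s) ∈ D.RR k ↔ ∀ q ∈ D.QF k μ, D.cj k μ w s q.2 q.1 = 0 := by
  obtain ⟨φ, hφ⟩ := exists_srH (J := Option (Fin n)) k
  have hS : ∀ (s : D.NO) e, (ser k fun m => D.mat (s m) e) = φ (D.shear_S s e) := fun s e => by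
    simp only [hφ, shear_S, PowerSeries.coeff_mk, ser_eq]
  have hG : φ (D.gS k μ w) = cl_hb (1 + sr k (D.hw k μ w)) 1 := by
    rw [gS, map_add, map_one, hφ, ← shear_sr]
    simp only [PowerSeries.coeff_mk]
  have hB : (diagonal fun x : Pos k => if 0 ≤ x.1 then (1 : ℂ) else 0) *
      (diagonal fun x : Pos k => if 0 ≤ x.1 then 1 else 0) =
      diagonal fun x : Pos k => if 0 ≤ x.1 then 1 else 0 := by
    rw [diagonal_mul_diagonal]
    congr 1
    funext x
    split_ifs <;> simp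
  have hA : φ (D.gS k μ w) * ext (pjL k μ) =
      cl_hb (D.AC k μ w) (diagonal fun x : Pos k => if 0 ≤ x.1 then 1 else 0) := by
    rw [hG, cl_ext, cl_hb_mul, one_mul, AC]
  obtain ⟨h1, M, h2⟩ := D.gC_range w
  have h3 : ext (D.gC k μ w) * (φ (D.gS k μ w) * ext (pjL k μ)) =
      φ (D.gS k μ w) * ext (pjL k μ) := by
    rw [hA, cl_ext, cl_hb_mul, h1, hB]
  have h4 : ext (D.gC k μ w) = φ (D.gS k μ w) * ext (pjL k μ) * cl_hb M 1 := by
    rw [hA, cl_ext, cl_hb_mul, ← h2, mul_one]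
  have h5 : φ (D.gS k μ w) * φ (D.gI k μ w) = 1 := by rw [← map_mul, (D.gS_gI h w).1, map_one]
  have h6 : φ (D.gI k μ w) * φ (D.gS k μ w) = 1 := by rw [← map_mul, (D.gS_gI h w).2, map_one]
  rw [← D.prj_RR h, mem_RR, mem_RR, and_iff_right (D.gC_Gr w), and_iff_right (D.prj_Gr h)]
  refine forall_congr' fun e => ?_
  rw [hS, hS, shear_cj, map_mul, map_mul, pres_of_range h3 h4,
    pres_of_range (D.prj_Gr h).1.2.1 (mul_one _).symm]
  refine exists_congr fun N => ⟨fun c => ?_, fun c => ?_⟩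
  · rw [mul_assoc, mul_assoc, c, ← mul_assoc, ← mul_assoc, h6, one_mul]
  · rw [mul_assoc, ← c, ← mul_assoc (φ (D.gS k μ w)), ← mul_assoc (φ (D.gS k μ w)),
      ← mul_assoc (φ (D.gS k μ w)), h5, one_mul, mul_assoc]

end Qv

end Pool.Agent.Work.MP_849ab0_ag.G
end
end
end
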