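import Pool.Agent.Work.MP_849ab0_ag.G.C.Comb
import Pool.Agent.Work.MP_849ab0_ag.G.C.Shear

-- merged part: Pool.Agent.Work.MP_849ab0_ag.G.C.Pt
section
/-!
Task C-Pt. Classes supported on finitely many fixed points.
Plan: for p fixed and O open invariant containing p the map f ↦ pm f (ptl w p O {p}) is a bijection PL → EH (wr w) O {p}:
for O = univ this is thom_bij (a = Act.pt, b = wr w, p = fun _ => (), F = fun d => d - p; transport along gp_id_bij for the sets)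
and pol2_bij; in general excision and gp_eul. (S \ {p})ᶜ is open and invariant. ptc_iff: restrict both equations to
O (O ⊆ (S \ {p})ᶜ), excision is injective. pt_decomp: exists_sum_supp with W i = {e i}, then compute the coefficients.
ptc_gp: apply ptc_iff with O' = preimage of (S \ {p})ᶜ intersected with (S' \ {p'})ᶜ, gp_comp, gp_pm, gp_eul and eul_equiv.
-/

noncomputable section

set_option linter.unusedSectionVars false
set_option linter.unusedVariables false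

namespace Pool.Agent.Work.MP_849ab0_ag.G

open Set Topology Matrix

variable {P κ : Type} [Fintype P] [DecidableEq P] [Fintype κ] [DecidableEq κ]
variable {X Y : Type} [TopologicalSpace X] [T3Space X] [SecondCountableTopology X]
  [TopologicalSpace Y] [T3Space Y] [SecondCountableTopology Y]
  {J J₀ J₁ J₂ : Type} [Fintype J] [Fintype J₀] [Fintype J₁] [Fintype J₂]
  {w : J → WT P κ} {S : Set (J → ℂ)} {p q : J → ℂ}

theorem cpt_sub (h : Fx w S) {T : Set (J → ℂ)} (hT : T ⊆ S) : Fx w T :=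
  ⟨h.fin.subset hT, fun x hx => h.fix x (hT hx)⟩

theorem cpt_inv (h : Fx w S) : (wr w).Inv S := fun g x hx => (h.fix x hx g).symm ▸ hx

theorem Fx.pr (h : Fx w S) : (wr w).Pr univ S := (wr w).pr_univ h.fin.isClosed (cpt_inv h)

theorem Fx.pr_one (h : Fx w S) (hp : p ∈ S) {O : Set (J → ℂ)} (hO : IsOpen O)
    (hi : (wr w).Inv O) : (wr w).Pr O {p} :=
  (wr w).pr_of hO.isLocallyClosed hi isClosed_singleton
    (cpt_inv (cpt_sub h (singleton_subset_iff.2 hp)))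

theorem Fx.open_nb (h : Fx w S) (p : J → ℂ) : IsOpen (S \ {p})ᶜ ∧ (wr w).Inv (S \ {p})ᶜ :=
  ⟨(h.fin.subset sdiff_subset).isClosed.isOpen_compl, (cpt_inv (cpt_sub h sdiff_subset)).compl⟩

theorem Fx.eadm (h : Fx w S) (hp : p ∈ S) {O S' : Set (J → ℂ)} (hO : (wr w).Pr O S')
    (hs : p ∈ S') : EAdm (wr w) (wr w) (fun d => d - p) O S' :=
  ⟨hO, Act.Rep.pr _, (continuous_id.sub continuous_const).continuousOn,
    fun g x _ => by
      rw [id, ((inferInstance : (wr w).Rep).lin g).map_sub, h.fix p hp g],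
    mapsTo_univ _ _, fun x _ hx => (sub_eq_zero.1 hx).symm ▸ hs⟩

theorem cpt_res (h : Fx w S) (hq : q ∈ S) {O S' O' S'' : Set (J → ℂ)} (h₁ : (wr w).Pr O S')
    (hs : q ∈ S') (h₂ : (wr w).Pr O' S'') (e : O' ⊆ O) (e' : O' ∩ S' ⊆ S'') :
    gp (wr w) id id O' S'' (ptl w q O S') = ptl w q O' S'' :=
  gp_eul (h.eadm hq h₁ hs) (gadm_id h₁ h₂ e e') (fun _ _ => rfl) fun _ _ => rfl

theorem cpt_bij0 (h : Fx w S) (hp : p ∈ S) :
    Function.Bijective fun c : HPt (TT P κ) => sm c (ptl w p univ {p}) := by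
  have k := h.eadm hp ((wr w).pr_top) (mem_univ p)
  have hb := thom_bij (a := Act.pt (TT P κ)) (b := wr w) (ρ := wr w) (p := fun _ => ())
    (F := fun d => d - p) (U := univ) (Z := univ)
    ⟨continuous_const, fun _ _ => rfl, k.cont, k.eqv, fun z => z.2 + p,
      (continuous_snd.add continuous_const).continuousOn,
      fun _ _ v => ⟨rfl, add_sub_cancel_right v p⟩, fun y _ => sub_add_cancel y p⟩ (Act.pr_pt _)
  have e : (fun d => d - p) ⁻¹' {0} = {p} := Set.ext fun d => sub_eq_zero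
  have key : ∀ A B : Set (J → ℂ), A = {p} → B = {p} →
      (Function.Bijective fun c : HPt (TT P κ) => ecup univ A
        (gp (wr w) id (fun _ => ()) univ univ c) (ptl w p univ B)) →
      Function.Bijective fun c : HPt (TT P κ) => sm c (ptl w p univ {p}) := by
    rintro _ _ rfl rfl hb
    exact hb
  exact key _ _ ((univ_inter _).trans e) e hb

theorem cpt_bij1 (h : Fx w S) (hp : p ∈ S) {O : Set (J → ℂ)} (hO : IsOpen O) (hi : (wr w).Inv O)
    (hpO : p ∈ O) : Function.Bijective fun c : HPt (TT P κ) => sm c (ptl w p O {p}) := by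
  have h₁ := h.pr_one hp isOpen_univ (wr w).inv_univ
  have h₂ := h.pr_one hp hO hi
  have hb := (excision h₁ ((wr w).pr_univ (isClosed_univ.sdiff hO) ((wr w).inv_univ.diff hi)) 
    (subset_univ O) fun x hx => hx.2.symm ▸ hpO).comp (cpt_bij0 h hp)
  refine (funext fun c => ?_ : _ = fun c : HPt (TT P κ) => sm c (ptl w p O {p})) ▸ hb
  rw [Function.comp_apply, gp_sm (gadm_id h₁ h₂ (subset_univ O) inter_subset_right), gpt_id,
    cpt_res h hp h₁ rfl h₂ (subset_univ O) inter_subset_right]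

theorem cpt_bij (h : Fx w S) (hp : p ∈ S) {O : Set (J → ℂ)} (hO : IsOpen O) (hi : (wr w).Inv O)
    (hpO : p ∈ O) : Function.Bijective fun f : PL P κ => pm f (ptl w p O {p}) :=
  (cpt_bij1 h hp hO hi hpO).comp pol2_bij

theorem cpt_mem (S : Set (J → ℂ)) (p : J → ℂ) : p ∈ (S \ {p})ᶜ := fun h => h.2 rfl

theorem cpt_nb (S : Set (J → ℂ)) (p : J → ℂ) : (S \ {p})ᶜ ∩ S ⊆ {p} :=
  fun _ h => by_contra fun k => h.1 ⟨h.2, k⟩

theorem cpt_pr (h : Fx w S) (hp : p ∈ S) : (wr w).Pr (S \ {p})ᶜ {p} :=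
  h.pr_one hp (h.open_nb p).1 (h.open_nb p).2

theorem cpt_spec0 (h : Fx w S) (hp : p ∈ S) (x : EH (wr w) univ S) :
    gp (wr w) id id (S \ {p})ᶜ {p} x = pm (ptc w p x) (ptl w p (S \ {p})ᶜ {p}) := by
  obtain ⟨f, hf⟩ := (cpt_bij h hp (h.open_nb p).1 (h.open_nb p).2 (cpt_mem S p)).2
    (gp (wr w) id id (S \ {p})ᶜ {p} x)
  exact Classical.epsilon_spec (p := fun f => gp (wr w) id id (S \ {p})ᶜ {p} x =
    pm f (ptl w p (S \ {p})ᶜ {p})) ⟨f, hf.symm⟩

theorem cpt_spec (h : Fx w S) (hp : p ∈ S) {O : Set (J → ℂ)} (hO : IsOpen O) (hi : (wr w).Inv O)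
    (hS : O ∩ S ⊆ {p}) (x : EH (wr w) univ S) :
    gp (wr w) id id O {p} x = pm (ptc w p x) (ptl w p O {p}) := by
  have e : O ⊆ (S \ {p})ᶜ := fun y hy k => k.2 (hS ⟨hy, k.1⟩)
  have h₂ := h.pr_one hp hO hi
  rw [← res_res h.pr (cpt_pr h hp) h₂ (subset_univ _) (cpt_nb S p) e inter_subset_right,
    cpt_spec0 h hp, gp_pm_id (gadm_id (cpt_pr h hp) h₂ e inter_subset_right),
    cpt_res h hp (cpt_pr h hp) rfl h₂ e inter_subset_right]

theorem ptc_iff (h : Fx w S) (hp : p ∈ S) {O : Set (J → ℂ)} (hO : IsOpen O) (hi : (wr w).Inv O)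
    (hpO : p ∈ O) (hS : O ∩ S ⊆ {p}) (x : EH (wr w) univ S) (f : PL P κ) :
    ptc w p x = f ↔ gp (wr w) id id O {p} x = pm f (ptl w p O {p}) :=
  ⟨fun e => e ▸ cpt_spec h hp hO hi hS x,
    fun e => (cpt_bij h hp hO hi hpO).1 ((cpt_spec h hp hO hi hS x).symm.trans e)⟩

theorem ptl_inj (h : Fx w S) (hp : p ∈ S) {O : Set (J → ℂ)} (hO : IsOpen O) (hi : (wr w).Inv O)
    (hpO : p ∈ O) {f g : PL P κ} (e : pm f (ptl w p O {p}) = pm g (ptl w p O {p})) : f = g :=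
  (cpt_bij h hp hO hi hpO).1 e

theorem cpt_eq (h : Fx w S) (hp : p ∈ S) {x : EH (wr w) univ S} {f : PL P κ}
    (e : gp (wr w) id id (S \ {p})ᶜ {p} x = pm f (ptl w p (S \ {p})ᶜ {p})) : ptc w p x = f :=
  (ptc_iff h hp (h.open_nb p).1 (h.open_nb p).2 (cpt_mem S p) (cpt_nb S p) x f).2 e

theorem cpt_adm (h : Fx w S) (hp : p ∈ S) : GAdm (wr w) (wr w) id id (S \ {p})ᶜ {p} univ S :=
  gadm_id h.pr (cpt_pr h hp) (subset_univ _) (cpt_nb S p)

theorem ptc_add (h : Fx w S) (hp : p ∈ S) (x y : EH (wr w) univ S) :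
    ptc w p (x + y) = ptc w p x + ptc w p y :=
  cpt_eq h hp (by rw [map_add, pm_add, cpt_spec0 h hp, cpt_spec0 h hp])

theorem ptc_zero (h : Fx w S) (hp : p ∈ S) : ptc w p (0 : EH (wr w) univ S) = 0 :=
  cpt_eq h hp (by rw [map_zero, pm_zero])

theorem ptc_sum (h : Fx w S) (hp : p ∈ S) {ι : Type} (s : Finset ι) (x : ι → EH (wr w) univ S) :
    ptc w p (∑ i ∈ s, x i) = ∑ i ∈ s, ptc w p (x i) := by
  induction s using Finset.cons_induction with
  | empty => exact ptc_zero h hp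
  | cons a s ha ih => rw [Finset.sum_cons, Finset.sum_cons, ptc_add h hp, ih]

theorem ptc_pm (h : Fx w S) (hp : p ∈ S) (f : PL P κ) (x : EH (wr w) univ S) :
    ptc w p (pm f x) = f * ptc w p x :=
  cpt_eq h hp (by rw [gp_pm_id (cpt_adm h hp), cpt_spec0 h hp, pm_mul (cpt_pr h hp)])

open Classical in
theorem ptc_ptl (h : Fx w S) (hp : p ∈ S) (hq : q ∈ S) :
    ptc w p (ptl w q univ S) = if q = p then 1 else 0 := by
  refine cpt_eq h hp ?_
  rw [cpt_res h hq h.pr hq (cpt_pr h hp) (subset_univ _) (cpt_nb S p)]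
  split_ifs with e
  · rw [e, pm_one (cpt_pr h hp)]
  · rw [pm_zero]
    exact eul_zero ((h.eadm hq h.pr hq).comp (cpt_adm h hp))
      fun y hy k => hy ((sub_eq_zero.1 k : y = q).symm ▸ ⟨hq, e⟩)

theorem pt_decomp (h : Fx w S) {ι : Type} {T : Finset ι} {e : ι → J → ℂ} (he : InjOn e T)
    (hT : S = e '' T) (x : EH (wr w) univ S) :
    x = ∑ i ∈ T, pm (ptc w (e i) x) (ptl w (e i) univ S) := by
  classical
  have hm : ∀ i ∈ T, e i ∈ S := fun i hi => hT ▸ mem_image_of_mem e hi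
  have h₁ : ∀ i : T, (wr w).Pr univ {e i} := fun i =>
    h.pr_one (hm i i.2) isOpen_univ (wr w).inv_univ
  obtain ⟨y, hy⟩ := exists_sum_supp (W := fun i : T => {e i}) h.pr h₁
    (by
      rw [hT, univ_inter, univ_inter]
      ext d
      simp [eq_comm])
    (fun i j hij => eq_empty_of_forall_notMem fun d hd =>
      hij (Subtype.ext (he i.2 j.2 (hd.1.2.symm.trans hd.2)))) x
  choose f hf using fun i : T =>
    (cpt_bij h (hm i i.2) isOpen_univ (wr w).inv_univ (mem_univ _)).2 (y i)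
  have hx : x = ∑ i : T, pm (f i) (ptl w (e i) univ S) := hy.trans (Finset.sum_congr rfl fun i _ => by
    have e' : univ ∩ {e i} ⊆ S := fun d hd => hd.2.symm ▸ hm i i.2
    rw [← hf i, gp_pm_id (gadm_id (h₁ i) h.pr subset_rfl e'),
      cpt_res h (hm i i.2) (h₁ i) rfl h.pr subset_rfl e'])
  have hc : ∀ j : T, ptc w (e j) x = f j := fun j => by
    rw [hx, ptc_sum h (hm j j.2), Finset.sum_eq_single j]
    · rw [ptc_pm h (hm j j.2), ptc_ptl h (hm j j.2) (hm j j.2), if_pos rfl, mul_one]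
    · intro i _ hij
      rw [ptc_pm h (hm j j.2), ptc_ptl h (hm j j.2) (hm i i.2),
        if_neg fun k => hij (Subtype.ext (he i.2 j.2 k)), mul_zero]
    · exact fun k => absurd (Finset.mem_univ j) k
  rw [← Finset.sum_coe_sort]
  exact hx.trans (Finset.sum_congr rfl fun i _ => by rw [hc])

theorem ptc_supp (h : Fx w S) (hp : p ∈ S) {S' : Set (J → ℂ)} (hS : S' ⊆ S) (hp' : p ∉ S')
    (y : EH (wr w) univ S') : ptc w p (gp (wr w) id id univ S y) = 0 := by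
  have h' := cpt_sub h hS
  have h₂ : (wr w).Pr (S \ {p})ᶜ S' := h'.pr.mono (cpt_pr h hp) (subset_univ _)
  have e : (S \ {p})ᶜ ∩ S' = ∅ := eq_empty_of_forall_notMem fun d hd =>
    hp' ((cpt_nb S p ⟨hd.1, hS hd.2⟩ : d = p) ▸ hd.2)
  refine cpt_eq h hp ?_
  rw [pm_zero, res_res h'.pr h.pr (cpt_pr h hp) subset_rfl (fun d hd => hS hd.2) (subset_univ _)
    (cpt_nb S p), ← res_res h'.pr h₂ (cpt_pr h hp) (subset_univ _) inter_subset_right subset_rfl
    (e ▸ empty_subset _), eq_zero_of_disjoint h₂ e (gp _ _ _ _ _ y), map_zero]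

theorem ptc_gp (h : Fx w S) {w' : J₁ → WT P κ} {S' : Set (J₁ → ℂ)} (h' : Fx w' S')
    {θ : (TT P κ).H → (TT P κ).H} [IsHom θ] (ε : J ≃ J₁)
    (hw : ∀ j g, ch (w j) (θ g) = ch (w' (ε j)) g) (hS : ∀ d, d ∘ ε ∈ S → d ∈ S')
    {σ : PL P κ → PL P κ} (hσ : ∀ f, gpt θ (pol2 P κ f) = pol2 P κ (σ f)) {p' : J₁ → ℂ}
    (hp' : p' ∈ S') (hp : p' ∘ ε ∈ S) (x : EH (wr w) univ S) :
    ptc w' p' (gp (wr w') θ (fun d => d ∘ ε) univ S' x) = σ (ptc w (p' ∘ ε) x) := by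
  have hc : Continuous fun d : J₁ → ℂ => d ∘ ε := continuous_pi fun j => continuous_apply _
  have he : ∀ g (d : J₁ → ℂ), (wr w').act g d ∘ ε = (wr w).act (θ g) (d ∘ ε) := fun g d =>
    funext fun j => by rw [wr_act, hw]; rfl
  have hO : IsOpen ((fun d : J₁ → ℂ => d ∘ ε) ⁻¹' (S \ {p' ∘ ε})ᶜ ∩ (S' \ {p'})ᶜ) :=
    ((h.open_nb _).1.preimage hc).inter (h'.open_nb _).1
  have hi : (wr w').Inv ((fun d : J₁ → ℂ => d ∘ ε) ⁻¹' (S \ {p' ∘ ε})ᶜ ∩ (S' \ {p'})ᶜ) :=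
    Act.Inv.inter (fun g d hd => by
      rw [mem_preimage, he]
      exact (h.open_nb _).2 _ _ hd) (h'.open_nb _).2
  have hs : ((fun d : J₁ → ℂ => d ∘ ε) ⁻¹' (S \ {p' ∘ ε})ᶜ ∩ (S' \ {p'})ᶜ) ∩ S' ⊆ {p'} :=
    fun d hd => cpt_nb S' p' ⟨hd.1.2, hd.2⟩
  have h₂ := h'.pr_one hp' hO hi
  have k₁ : GAdm (wr w') (wr w) θ (fun d => d ∘ ε) univ S' univ S :=
    ⟨h'.pr, h.pr, hc.continuousOn, fun g d _ => he g d, mapsTo_univ _ _, fun d _ => hS d⟩
  have k₂ : GAdm (wr w') (wr w) θ (fun d => d ∘ ε) _ {p'} (S \ {p' ∘ ε})ᶜ {p' ∘ ε} :=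
    ⟨h₂, cpt_pr h hp, hc.continuousOn, fun g d _ => he g d, fun d hd => hd.1,
      fun d _ hd => ε.surjective.injective_comp_right hd⟩
  refine (ptc_iff h' hp' hO hi ⟨cpt_mem _ _, cpt_mem _ _⟩ hs _ _).2 ?_
  rw [gp_comp k₁ (gadm_id h'.pr h₂ (subset_univ _) hs) (χ := θ) (fun _ => rfl)
      (k := fun d => d ∘ ε) fun _ _ => rfl,
    ← gp_comp (cpt_adm h hp) k₂ (χ := θ) (fun _ => rfl) (k := fun d => d ∘ ε) fun _ _ => rfl,
    cpt_spec0 h hp, gp_pm k₂ (hσ _), ptl, gp_eul (h.eadm hp (cpt_pr h hp) rfl) k₂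
      (σ := wr (w' ∘ ε)) (fun g d => funext fun j => by rw [wr_act, wr_act, hw]; rfl)
      (F' := fun d => (d - p') ∘ ε) fun _ _ => rfl,
    eul_equiv (h'.eadm hp' h₂ rfl) ε fun _ _ => rfl, ptl]

theorem ptc_deg (h : Fx w S) (hp : p ∈ S) {m : ℤ} {x : EH (wr w) univ S}
    (hx : IsDeg (m + 2 * Fintype.card J) x) : IsDeg m (pol2 P κ (ptc w p x)) :=
  isDeg_of_map (L := (sm (a := wr w)).flip (ptl w p (S \ {p})ᶜ {p}))
    (cpt_bij1 h hp (h.open_nb p).1 (h.open_nb p).2 (cpt_mem S p)).1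
    (fun _ _ hc => hc.sm isDeg_eul) ((cpt_spec0 h hp x) ▸ hx.gp id id :)

end Pool.Agent.Work.MP_849ab0_ag.G
end
end

-- merged part: Pool.Agent.Work.MP_849ab0_ag.G.C.PL
section
/-!
Task C-PL. Localisation of a push-forward at fixed points.
Plan intg_pt: write ptl as eul; the pull-back of ptl w p univ S along Prod.fst is eul (fun y => y.1 - p); shrink its support to {y | y.1 = p}
(ecup_gp_left), commute (ecup_comm, ev_eul), intg_section with s x = (p, x).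
Plan push_loc: unfold push. gp_intg (base change along θ, f = fun d => (ex0 e' d, x₀), f' = fun y => (y.1, ex0 e' y.2, x₀), σ = wr w) turns the left class into an integral over J → ℂ
with base J₂ → ℂ; intg_ex0 restricts it to J₀ → ℂ; gp_comp, gp_ecup, gp_eul identify the integrand with
ecup (pull-back of c₀ along fst) (eul (fun y => ex0 e' (y.2 - F₀ y.1))), c₀ = the class on the right; eul_ex0 extracts eo w' e';
pt_decomp for c₀ and intg_pt give the sum of pm (ptc p c₀) (ptl w₀' (F₀ p) univ S'); ptc_sum, ptc_pm, ptc_ptl.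
F₀ d = F (ex0 e d, x₀) ∘ e' is continuous and equivariant.
-/

noncomputable section

set_option linter.unusedSectionVars false
set_option linter.unusedVariables false

namespace Pool.Agent.Work.MP_849ab0_ag.G

open Set Topology Matrix

variable {P κ : Type} [Fintype P] [DecidableEq P] [Fintype κ] [DecidableEq κ]
variable {X Y : Type} [TopologicalSpace X] [T3Space X] [SecondCountableTopology X]
  [TopologicalSpace Y] [T3Space Y] [SecondCountableTopology Y]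
  {J J₀ J₁ J₂ : Type} [Fintype J] [Fintype J₀] [Fintype J₁] [Fintype J₂]

theorem pl_eadm {G : Gp} [G.Nice] {b : Act G Y} {ρ : Act G (J → ℂ)} [ρ.Rep] {V : Set Y}
    (hV : b.Pr V univ) {f g : Y → J → ℂ} (hf : Continuous f) (hg : Continuous g)
    (ef : ∀ h y, f (b.act h y) = ρ.act h (f y)) (eg : ∀ h y, g (b.act h y) = ρ.act h (g y)) :
    EAdm b ρ (fun y => f y - g y) V {y | f y = g y} :=
  ⟨b.pr_of hV.lc hV.inv (isClosed_eq hf hg) fun h y k => by
      rw [mem_ofPred_eq, ef, eg, show f y = g y from k], Act.Rep.pr ρ, (hf.sub hg).continuousOn,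
    fun h y _ => by
      rw [ef, eg]
      exact ((Act.Rep.lin h).map_sub _ _).symm,
    fun _ _ => trivial, fun _ _ k => sub_eq_zero.1 k⟩

theorem pl_bdd {w : J → WT P κ} {S : Set (J → ℂ)} (h : Fx w S) : ∃ R : ℝ, ∀ d ∈ S, nsq d ≤ R :=
  (h.fin.image nsq).bddAbove.imp fun _ k d m => k (mem_image_of_mem _ m)

theorem pl_fst {G : Gp} {a : Act G X} {b : Act G Y} {S : Set X} (h : a.Pr univ S) :
    GAdm (a.prod b) a id Prod.fst univ (S ×ˢ univ) univ S :=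
  ⟨(h.preimage (b := a.prod b) (φ := id) continuous_fst fun _ _ => rfl).inter
      (Act.pr_univ _ isClosed_univ fun _ _ _ => trivial), h, continuousOn_fst, fun _ _ _ => rfl,
    fun _ _ => trivial, fun _ _ k => ⟨k, trivial⟩⟩

/-- integration against a point class is restriction to the point -/
theorem intg_pt {a : Act (TT P κ) X} [a.Ok] {w : J → WT P κ} {S : Set (J → ℂ)} (h : Fx w S)
    {p : J → ℂ} (hp : p ∈ S) {Z : Set X} (hZ : a.Pr univ Z) {A Z₁ W : Set ((J → ℂ) × X)}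
    (hA : ((wr w).prod a).Pr A Z₁) (hSA : S ×ˢ univ ⊆ A) (hW : ((wr w).prod a).Pr univ W)
    (h1 : ∀ y ∈ Z₁, y.1 ∈ S → y ∈ W) (h2 : ∀ y ∈ W, y.1 ∈ S ∧ y.2 ∈ Z)
    (x : EH ((wr w).prod a) A Z₁) :
    intg a (wr w) Prod.snd Prod.fst univ Z
        (ecup univ W (gp ((wr w).prod a) id Prod.fst univ (S ×ˢ univ) (ptl w p univ S)) x) =
      gp a id (fun z => (p, z)) univ Z x := by
  have i : IAdm a ((wr w).prod a) (wr w) Prod.snd Prod.fst univ Z univ W :=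
    iadm_prod hZ hW (subset_univ _) (fun y m _ => (h2 y m).2)
      ((pl_bdd h).imp fun R k y m _ => k _ (h2 y m).1)
  have k₁ := pl_fst (b := a) h.pr
  have e₁ : EAdm ((wr w).prod a) (wr w) (fun y => y.1 - p) univ {y | y.1 = p} :=
    pl_eadm (Act.pr_top _) continuous_fst continuous_const (fun _ _ => rfl)
      fun g _ => (h.fix p hp g).symm
  have hm : ∀ y : (J → ℂ) × X, y.1 = p → y.1 ∈ S := fun y m => m.symm ▸ hp
  have k₂ := gadm_id e₁.src k₁.src subset_rfl fun y m => ⟨hm y m.2, trivial⟩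
  have c₁ : ECup ((wr w).prod a) univ (S ×ˢ univ) A Z₁ univ W :=
    ⟨k₁.src, hA, hW, fun y _ => (em (y ∈ S ×ˢ univ)).symm.imp (fun m => ⟨trivial, m⟩) (@hSA y),
      fun _ _ => Or.inl trivial, fun y n => (em (y ∈ S ×ˢ univ)).symm.imp (fun m => ⟨trivial, m⟩)
        fun m => ⟨hSA m, fun r => n.2 (h1 y r m.1)⟩⟩
  have c₂ : ECup ((wr w).prod a) A Z₁ univ {y | y.1 = p} univ W :=
    ⟨hA, e₁.src, hW, fun _ _ => Or.inr trivial, fun y _ => (em (y.1 = p)).imp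
      (fun m => hSA ⟨hm y m, trivial⟩) fun m => ⟨trivial, m⟩, fun y n => (em (y.1 = p)).imp
        (fun m => ⟨hSA ⟨hm y m, trivial⟩, fun r => n.2 (h1 y r (hm y m))⟩) fun m => ⟨trivial, m⟩⟩
  rw [ptl, gp_eul (h.eadm hp h.pr hp) k₁ (σ := wr w) (fun _ _ => rfl) (F' := fun y => y.1 - p)
    fun _ _ => rfl, ← gp_eul e₁ k₂ (σ := wr w) (fun _ _ => rfl) (F' := fun y => y.1 - p)
    fun _ _ => rfl, ecup_gp_left c₁ k₂, ← ecup_comm c₂ x ev_eul]
  exact intg_section i (s := fun z => (p, z)) ⟨hZ, hA, by fun_prop,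
    fun g z _ => Prod.ext (h.fix p hp g).symm rfl, fun _ _ => hSA ⟨hp, trivial⟩,
    fun z _ m => (h2 _ (h1 _ m hp)).2⟩ (fun _ _ => rfl) rfl c₂ x

open Classical in
theorem push_loc {G : Gp} [G.Nice] {a : Act G X} [a.Ok] {ρ : Act G (J → ℂ)} [ρ.Rep]
    {ρ' : Act G (J₁ → ℂ)} [ρ'.Rep] {F : (J → ℂ) × X → J₁ → ℂ} {U : Set X}
    {Z : Set ((J → ℂ) × X)} {Z' : Set ((J₁ → ℂ) × X)} (hP : PAdm a ρ ρ' F U Z Z')
    {θ : (TT P κ).H → G.H} [IsHom θ] {x₀ : X} (hx : x₀ ∈ U) (hfix : ∀ g, a.act (θ g) x₀ = x₀)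
    {w : J → WT P κ} {w' : J₁ → WT P κ} (hw : ∀ g d, ρ.act (θ g) d = (wr w).act g d)
    (hw' : ∀ g d, ρ'.act (θ g) d = (wr w').act g d) {e : J₀ → J} (he : Function.Injective e)
    {e' : J₂ → J₁} (he' : Function.Injective e') {w₀ : J₀ → WT P κ} {w₀' : J₂ → WT P κ}
    (h₀ : ∀ j, w₀ j = w (e j)) (h₀' : ∀ j, w₀' j = w' (e' j)) {S : Set (J₀ → ℂ)}
    {S' : Set (J₂ → ℂ)} (hS : Fx w₀ S) (hS' : Fx w₀' S')
    (hZ : ∀ d, (ex0 e d, x₀) ∈ Z → d ∈ S) (hZ' : ∀ d, (ex0 e' d, x₀) ∈ Z' → d ∈ S')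
    (hF : ∀ d, F (ex0 e d, x₀) = ex0 e' (F (ex0 e d, x₀) ∘ e'))
    {ι : Type} {T : Finset ι} {r : ι → J₀ → ℂ} (hr : InjOn r T) (hT : S = r '' T)
    (hF' : ∀ i ∈ T, F (ex0 e (r i), x₀) ∘ e' ∈ S') (c : EH (ρ.prod a) (univ ×ˢ U) Z)
    {q : J₂ → ℂ} (hq : q ∈ S') :
    eo w e * ptc w₀' q (gp (wr w₀') θ (fun d => (ex0 e' d, x₀)) univ S' (push a ρ ρ' F U Z Z' c)) =
      eo w' e' * ∑ i ∈ T, if F (ex0 e (r i), x₀) ∘ e' = q then
        ptc w₀ (r i) (gp (wr w₀) θ (fun d => (ex0 e d, x₀)) univ S c) else 0 := by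
  have ce := continuous_ex0 he
  have ce' := continuous_ex0 he'
  have cF := hP.cont
  have q₀ : ∀ g d, ex0 e ((wr w₀).act g d) = ρ.act (θ g) (ex0 e d) := fun g d => by
    rw [hw, ex0_eqv he h₀]
  have q₁ : ∀ g d, ex0 e' ((wr w₀').act g d) = ρ'.act (θ g) (ex0 e' d) := fun g d => by
    rw [hw', ex0_eqv he' h₀']
  have hrS : ∀ i ∈ T, r i ∈ S := fun i m => hT ▸ mem_image_of_mem r m
  -- the total space of the push-forward
  have pV : (ρ.prod (ρ'.prod a)).Pr (univ ×ˢ univ ×ˢ U) univ :=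
    ⟨isOpen_univ.isLocallyClosed.inter (hP.pz'.lc.preimage continuous_snd),
      fun g y m => ⟨trivial, hP.pz'.inv g _ m.2⟩, fun _ _ _ _ => trivial, fun _ _ => trivial⟩
  have eV : EAdm (ρ.prod (ρ'.prod a)) ρ' (fun y => y.2.1 - F (y.1, y.2.2)) (univ ×ˢ univ ×ˢ U)
      {y | y.2.1 = F (y.1, y.2.2)} :=
    pl_eadm pV (by fun_prop) (by fun_prop) (fun _ _ => rfl) fun g y => hP.eqv g (y.1, y.2.2)
  have kV : GAdm (ρ.prod (ρ'.prod a)) (ρ.prod a) id (fun y => (y.1, y.2.2)) (univ ×ˢ univ ×ˢ U)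
      {y | (y.1, y.2.2) ∈ Z} (univ ×ˢ U) Z :=
    ⟨hP.pz.preimage' (φ := id) pV (f := fun y => (y.1, y.2.2)) (by fun_prop)
      (fun _ m => ⟨trivial, m.2.2⟩) fun _ _ _ => rfl, hP.pz, by fun_prop, fun _ _ _ => rfl,
      fun _ m => ⟨trivial, m.2.2⟩, fun _ _ m => m⟩
  have pW : (ρ.prod (ρ'.prod a)).Pr (univ ×ˢ univ ×ˢ U)
      {y | (y.1, y.2.2) ∈ Z ∧ y.2.1 = F (y.1, y.2.2)} := kV.src.inter eV.src
  have iV : IAdm (ρ'.prod a) (ρ.prod (ρ'.prod a)) ρ Prod.snd Prod.fst (univ ×ˢ U) Z'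
      (univ ×ˢ univ ×ˢ U) {y | (y.1, y.2.2) ∈ Z ∧ y.2.1 = F (y.1, y.2.2)} :=
    iadm_prod hP.pz' pW subset_rfl (fun y m n => by
      have := hP.maps _ m.1 n.2
      rwa [← m.2] at this) (hP.bdd.imp fun R k y m n => k (y.1, y.2.2) m.1 n.2)
  -- base change to the torus
  have k₀ : GAdm (wr w₀') (ρ'.prod a) θ (fun d => (ex0 e' d, x₀)) univ S' (univ ×ˢ U) Z' :=
    ⟨hS'.pr, hP.pz', by fun_prop, fun g d _ => Prod.ext (q₁ g d) (hfix g).symm,
      fun _ _ => ⟨trivial, hx⟩, fun d _ => hZ' d⟩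
  have k₁ : GAdm ((wr w).prod (wr w₀')) (ρ.prod (ρ'.prod a)) θ (fun y => (y.1, ex0 e' y.2, x₀)) univ
      {y | (y.1, x₀) ∈ Z ∧ ex0 e' y.2 = F (y.1, x₀)} (univ ×ˢ univ ×ˢ U)
      {y | (y.1, y.2.2) ∈ Z ∧ y.2.1 = F (y.1, y.2.2)} :=
    have t : ∀ g (y : (J → ℂ) × (J₂ → ℂ)), (fun y => (y.1, ex0 e' y.2, x₀))
        (((wr w).prod (wr w₀')).act g y) = (ρ.prod (ρ'.prod a)).act (θ g) (y.1, ex0 e' y.2, x₀) :=
      fun g y => Prod.ext (hw g _).symm (Prod.ext (q₁ g _) (hfix g).symm)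
    ⟨pW.preimage' (φ := θ) (Act.pr_top _) (f := fun y => (y.1, ex0 e' y.2, x₀)) (by fun_prop)
      (fun _ _ => ⟨trivial, trivial, hx⟩) fun g y _ => t g y, pW, by fun_prop, fun g y _ => t g y,
      fun _ _ => ⟨trivial, trivial, hx⟩, fun _ _ m => m⟩
  have s₁ : ∀ y : (J → ℂ) × (J₂ → ℂ), (y.1, x₀) ∈ Z ∧ ex0 e' y.2 = F (y.1, x₀) → y.2 ∈ S' :=
    fun y m => hZ' _ (m.2.symm ▸ hP.maps _ m.1 hx)
  have i₁ : IAdm (wr w₀') ((wr w).prod (wr w₀')) (wr w) Prod.snd Prod.fst univ S' univ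
      {y | (y.1, x₀) ∈ Z ∧ ex0 e' y.2 = F (y.1, x₀)} :=
    iadm_prod hS'.pr k₁.src (subset_univ _) (fun y m _ => s₁ y m)
      (hP.bdd.imp fun R k y m _ => k (y.1, x₀) m.1 hx)
  -- restriction to the coordinate subspace
  have kf := pl_fst (b := wr w₀') hS.pr
  have p₀ : ((wr w₀).prod (wr w₀')).Pr univ (S ×ˢ S') :=
    (hS.pr.preimage (b := (wr w₀).prod (wr w₀')) (φ := id) continuous_fst fun _ _ => rfl).inter
      (hS'.pr.preimage (b := (wr w₀).prod (wr w₀')) (φ := id) continuous_snd fun _ _ => rfl)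
  have i₀ : IAdm (wr w₀') ((wr w₀).prod (wr w₀')) (wr w₀) Prod.snd Prod.fst univ S' univ
      (S ×ˢ S') :=
    iadm_prod hS'.pr p₀ (subset_univ _) (fun y m _ => m.2)
      ((pl_bdd hS).imp fun R k y m _ => k _ m.1)
  have k₂ : GAdm ((wr w₀).prod (wr w₀')) ((wr w).prod (wr w₀')) id (fun y => (ex0 e y.1, y.2)) univ
      (S ×ˢ S') univ {y | (y.1, x₀) ∈ Z ∧ ex0 e' y.2 = F (y.1, x₀)} :=
    ⟨p₀, k₁.src, by fun_prop, fun g y _ => Prod.ext (ex0_eqv he h₀ g _) rfl, fun _ _ => trivial,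
      fun y _ m => ⟨hZ _ m.1, s₁ (ex0 e y.1, y.2) m⟩⟩
  have e₀ : EAdm ((wr w₀).prod (wr w₀')) (wr w₀') (fun y => y.2 - F (ex0 e y.1, x₀) ∘ e') univ
      {y | y.2 = F (ex0 e y.1, x₀) ∘ e'} :=
    pl_eadm (Act.pr_top _) continuous_snd (by fun_prop) (fun _ _ => rfl) fun g y => by
      have t := hP.eqv (θ g) (ex0 e y.1, x₀)
      rw [hw'] at t
      funext j
      rw [wr_act, h₀', Function.comp_apply, Function.comp_apply, ← wr_act, ← t]
      exact congrFun (congrArg F (Prod.ext (q₀ g _) (hfix g).symm)) _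
  have k₃ : ∀ {A : Set ((J₀ → ℂ) × (J₂ → ℂ))} {B : Set ((J → ℂ) × (J₁ → ℂ) × X)},
      ((wr w₀).prod (wr w₀')).Pr univ A → (ρ.prod (ρ'.prod a)).Pr (univ ×ˢ univ ×ˢ U) B →
      (∀ y : (J₀ → ℂ) × (J₂ → ℂ), (ex0 e y.1, ex0 e' y.2, x₀) ∈ B → y ∈ A) →
      GAdm ((wr w₀).prod (wr w₀')) (ρ.prod (ρ'.prod a)) θ (fun y => (ex0 e y.1, ex0 e' y.2, x₀))
        univ A (univ ×ˢ univ ×ˢ U) B := fun hA hB m =>
    ⟨hA, hB, by fun_prop, fun g y _ => Prod.ext (q₀ g _) (Prod.ext (q₁ g _) (hfix g).symm),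
      fun _ _ => ⟨trivial, trivial, hx⟩, fun y _ => m y⟩
  have k₄ := k₃ p₀ pW fun y m => k₂.supp y trivial m
  have k₅ := k₃ kf.src kV.src fun y m => ⟨hZ _ m, trivial⟩
  have k₆ := k₃ e₀.src eV.src fun y m => ex0_inj he' (m.trans (hF _))
  have s₀ : ∀ y : (J₀ → ℂ) × (J₂ → ℂ), y.2 = F (ex0 e y.1, x₀) ∘ e' → y.1 ∈ S → y ∈ S ×ˢ S' :=
    fun y m n => ⟨n, by
      obtain ⟨i, hi, t⟩ := hT.subset n
      rw [m, ← t]
      exact hF' i hi⟩
  have c₀ : ECup ((wr w₀).prod (wr w₀')) univ (S ×ˢ univ) univ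
      {y | y.2 = F (ex0 e y.1, x₀) ∘ e'} univ (S ×ˢ S') :=
    ecup_of kf.src e₀.src p₀ fun y m => s₀ y m.2 m.1.2.1
  have k₇ : GAdm (wr w₀) (ρ.prod a) θ (fun d => (ex0 e d, x₀)) univ S (univ ×ˢ U) Z :=
    ⟨hS.pr, hP.pz, by fun_prop, fun g d _ => Prod.ext (q₀ g d) (hfix g).symm,
      fun _ _ => ⟨trivial, hx⟩, fun d _ => hZ d⟩
  rw [push, LinearMap.comp_apply, LinearMap.comp_apply, LinearMap.flip_apply,
    gp_intg iV i₁ k₀ k₁ (fun g d => (hw g d).symm) (fun _ _ => rfl) fun _ _ => rfl,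
    ← ptc_pm hS' hq, ← intg_ex0 he h₀ i₁ i₀ k₂,
    gp_comp k₁ k₂ (χ := θ) (fun _ => rfl) (k := fun y => (ex0 e y.1, ex0 e' y.2, x₀)) fun _ _ => rfl,
    gp_ecup (ecup_of kV.src eV.src pW fun _ m => ⟨m.1.2, m.2⟩) c₀ k₄ k₅ k₆ subset_rfl subset_rfl,
    gp_comp kV k₅ (χ := θ) (fun _ => rfl) (k := fun y => (ex0 e y.1, x₀)) fun _ _ => rfl,
    ← gp_comp k₇ kf (χ := θ) (fun _ => rfl) (k := fun y => (ex0 e y.1, x₀)) fun _ _ => rfl,
    gp_eul eV k₆ (σ := wr w') (fun g d => (hw' g d).symm)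
      (F' := fun y => ex0 e' y.2 - F (ex0 e y.1, x₀)) fun _ _ => rfl,
    eul_ex0 he' h₀' e₀ fun y _ => by rw [ex0_sub he', ← hF],
    ecup_pm_right c₀, intg_pm i₀, ptc_pm hS' hq]
  generalize gp (wr w₀) θ (fun d => (ex0 e d, x₀)) univ S c = y
  congr 1
  conv_lhs => rw [pt_decomp hS hr hT y]
  rw [map_sum, map_sum, LinearMap.sum_apply, map_sum, ptc_sum hS' hq]
  refine Finset.sum_congr rfl fun i hi => ?_
  rw [gp_pm_id kf, ecup_pm_left c₀, intg_pm i₀, ptc_pm hS' hq,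
    intg_pt hS (hrS i hi) hS'.pr e₀.src (subset_univ _) p₀ s₀ fun _ m => m,
    gp_eul e₀ (φ := id) (f := fun z => (r i, z)) ⟨hS'.pr, e₀.src, by fun_prop,
      fun g z _ => Prod.ext (hS.fix _ (hrS i hi) g).symm rfl, fun _ _ => trivial,
      fun z _ m => (s₀ (r i, z) m (hrS i hi)).2⟩ (σ := wr w₀') (fun _ _ => rfl)
      (F' := fun z => z - F (ex0 e (r i), x₀) ∘ e') fun _ _ => rfl, ← ptl,
    ptc_ptl hS' hq (hF' i hi), mul_ite, mul_one, mul_zero]

end Pool.Agent.Work.MP_849ab0_ag.G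
end
end

-- merged part: Pool.Agent.Work.MP_849ab0_ag.G.C.Cell2
section
/-!
Task C-Cell2. The cells cover the lattices; closed unions of cells.
Plan: exists_cell: exists_ech for mQ Q with r = rk. The pivot set S is stable under (a, i) ↦ (a, i + 1)
(multiply the vector by t, mem_Gr), so S = {x | μ x.1 ≤ x.2} with μ a the least pivot level or k. Let w (a, b, j) be the
entry of u at ((a, μ b + j), (b, μ b)). The column of A = AC k μ w at (b, i) is t ^ (i - μ b) applied to the column of u at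
(b, μ b), so Q A = A; u A = A (u Q = Q) and u = u p give A = u X with X = p A p + 1 - p unitriangular, so
u = A X⁻¹ and Q = u Q = A M; conclude with gC_range and proj_unique.
kap_gC: kap_of with g = 1 + sr (hw w). isClosed_YC: YC Λ is the union over μ ∈ Λ of
Gr ∩ {Q | ∀ c r, dd μ c r ≤ kapS (mQ Q) (SS c r)}.
-/

noncomputable section

set_option linter.unusedSectionVars false
set_option linter.unusedVariables false

namespace Pool.Agent.Work.MP_849ab0_ag.G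

open Set Topology Matrix

variable {n : ℕ} {I E κ : Type} [Fintype I] [DecidableEq I] [Fintype E]
  [Fintype κ] [DecidableEq κ] (D : Qv I (Fin n) E κ) {k : ℕ} {μ μ' : Fin n → ℤ} {Λ : Finset (Fin n → ℤ)}

theorem cell2_T {y y' : Fin n × Pos k} (h1 : y.1 = y'.1) (h2 : y.2.1 = y'.2.1 + 1)
    (v : Fin n × Pos k → ℂ) : (sr k (Pi.single 1 1) *ᵥ v) y = v y' := by
  rw [mulVec, dotProduct, Finset.sum_eq_single y', Qv.fix_sr, if_pos ⟨h1, h2⟩, one_mul]
  · intro x _ hx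
    rw [Qv.fix_sr, if_neg fun e => hx (Prod.ext (e.1.symm.trans h1) (Subtype.ext (by omega))),
      zero_mul]
  · exact fun h => absurd (Finset.mem_univ _) h

theorem cell2_T0 {y : Fin n × Pos k} (h : y.2.1 = -(k : ℤ)) (v : Fin n × Pos k → ℂ) :
    (sr k (Pi.single 1 1) *ᵥ v) y = 0 := by
  rw [mulVec, dotProduct]
  refine Finset.sum_eq_zero fun x _ => ?_
  have := (Finset.mem_Ico.1 x.2.2).1
  rw [Qv.fix_sr, if_neg fun e => by omega, zero_mul]

theorem cell2_pred (y : Fin n × Pos k) :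
    y.2.1 = -(k : ℤ) ∨ ∃ y' : Fin n × Pos k, y.1 = y'.1 ∧ y.2.1 = y'.2.1 + 1 := by
  have h := Finset.mem_Ico.1 y.2.2
  by_cases e : y.2.1 = -(k : ℤ)
  · exact Or.inl e
  · exact Or.inr ⟨(y.1, ⟨y.2.1 - 1, Finset.mem_Ico.2 ⟨by omega, by omega⟩⟩), rfl, by simp⟩

theorem cell2_fix {J : Type} [Fintype J] [DecidableEq J] {M T : Matrix J J ℂ} (h : Pres M T)
    {v : J → ℂ} (hv : M *ᵥ v = v) : M *ᵥ T *ᵥ v = T *ᵥ v := by
  have h1 := congrArg (· *ᵥ v) h
  simp only [← mulVec_mulVec, hv, sub_mulVec, one_mulVec, zero_mulVec] at h1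
  exact (sub_eq_zero.1 h1).symm

theorem cell2_lev (p : Pos k → Prop) (h : ∀ i j : Pos k, j.1 = i.1 + 1 → p i → p j) :
    ∃ m : ℤ, (-(k : ℤ) ≤ m ∧ m ≤ k) ∧ ∀ i, p i ↔ m ≤ i.1 := by
  have h1 : ∀ (d : ℕ) (i j : Pos k), j.1 = i.1 + d → p i → p j := by
    intro d
    induction d with
    | zero => exact fun i j e hi => (Subtype.ext (by simpa using e) : j = i) ▸ hi
    | succ d ih =>
      intro i j e hi
      have a1 := Finset.mem_Ico.1 i.2
      have a2 := Finset.mem_Ico.1 j.2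
      exact h ⟨i.1 + d, Finset.mem_Ico.2 ⟨by omega, by omega⟩⟩ j (by simp only [e]; omega)
        (ih i _ rfl hi)
  have h0 : -(k : ℤ) ≤ k ∧ ∀ i : Pos k, (k : ℤ) ≤ i.1 → p i :=
    ⟨by omega, fun i hi => absurd (Finset.mem_Ico.1 i.2).2 (not_lt.2 hi)⟩
  obtain ⟨m, hm, hl⟩ := Int.exists_least_of_bdd
    (P := fun m => -(k : ℤ) ≤ m ∧ ∀ i : Pos k, m ≤ i.1 → p i) ⟨-k, fun z hz => hz.1⟩ ⟨k, h0⟩
  exact ⟨m, ⟨hm.1, hl _ h0⟩, fun i => ⟨fun hi => hl _ ⟨(Finset.mem_Ico.1 i.2).1, fun j hj =>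
    h1 (j.1 - i.1).toNat i j (by omega) hi⟩, hm.2 i⟩⟩

theorem cell2_g (s : ℕ → Matrix (Fin n) (Fin n) ℂ) (y x : Fin n × Pos k) :
    (1 + sr k s) y x = (if y = x then 1 else 0) +
      if x.2.1 ≤ y.2.1 then s (y.2.1 - x.2.1).toNat y.1 x.1 else 0 := by
  rw [Matrix.add_apply, one_apply]
  rfl

theorem cell2_shift (s : ℕ → Matrix (Fin n) (Fin n) ℂ) {x x' : Fin n × Pos k} (h1 : x.1 = x'.1)
    (h2 : x.2.1 = x'.2.1 + 1) :
    (fun y => (1 + sr k s) y x) = sr k (Pi.single 1 1) *ᵥ fun y => (1 + sr k s) y x' := by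
  funext y
  have a1 := Finset.mem_Ico.1 x'.2.2
  rcases cell2_pred y with e | ⟨y', e1, e2⟩
  · rw [cell2_T0 e, cell2_g, if_neg fun h => by rw [h] at e; omega, if_neg (by omega), add_zero]
  · have e3 : y = x ↔ y' = x' := by
      rw [Prod.ext_iff, Prod.ext_iff, Subtype.ext_iff, Subtype.ext_iff, e1, e2, h1, h2,
        add_left_inj]
    rw [cell2_T e1 e2, cell2_g, cell2_g, e1, e2, h1, h2, add_sub_add_right_eq_sub]
    simp only [e3, add_le_add_iff_right]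

namespace Qv

theorem cell2_col (hμ : μ ∈ box (Fin n) k) {u : Matrix (Fin n × Pos k) (Fin n × Pos k) ℂ}
    (h1 : ∀ x y : Fin n × Pos k, μ x.1 ≤ x.2.1 → μ y.1 ≤ y.2.1 → u y x = if y = x then 1 else 0)
    (h2 : ∀ y x, u y x ≠ 0 → rk x ≤ rk y ∧ D.col y.1 = D.col x.1) {x : Fin n × Pos k}
    (hx : x.2.1 = μ x.1) (y : Fin n × Pos k) :
    (1 + sr k (D.hw k μ fun q =>
      blkAt (unQ u) (μ q.1.2.1 + q.1.2.2) (μ q.1.2.1) q.1.1 q.1.2.1)) y x = u y x := by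
  rw [cell2_g]
  by_cases e1 : x.2.1 ≤ y.2.1
  · rw [if_pos e1, hw, of_apply]
    by_cases e2 : μ y.1 ≤ y.2.1
    · rw [h1 x y hx.ge e2, dif_neg fun h => ?_, add_zero]
      have := ((D.mem_CF hμ).1 h).2.1
      dsimp only at this
      omega
    · have e3 : y ≠ x := fun h => e2 (h ▸ hx.ge)
      rw [if_neg e3, zero_add]
      split_ifs with h
      · dsimp only
        rw [Int.toNat_of_nonneg (sub_nonneg.2 e1), ← hx, add_sub_cancel, blkAt_mem]
        rfl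
      · by_contra h0
        obtain ⟨a1, a2⟩ := h2 y x (Ne.symm h0)
        refine h ((D.mem_CF hμ).2 ⟨a2, ?_, ?_⟩)
        · dsimp only
          omega
        · dsimp only
          by_contra h3
          obtain ⟨h4, h5⟩ := not_or.1 h3
          have h6 : y.2.1 = x.2.1 := by omega
          refine e3 (Prod.ext (le_antisymm (not_lt.1 fun h7 => ?_) (not_lt.1 h5)) (Subtype.ext h6))
          exact not_lt.2 a1 (rk_lt.2 (Or.inr ⟨h6, h7⟩))
  · rw [if_neg e1, if_neg fun h => e1 (by rw [h]), add_zero]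
    by_contra h0
    exact not_lt.2 (h2 y x (Ne.symm h0)).1 (rk_lt.2 (Or.inl (not_le.1 e1)))

theorem cell2_eq {M u : Matrix (Fin n × Pos k) (Fin n × Pos k) ℂ} (w : D.CF k μ → ℂ)
    (hM : Mᴴ = M) (h1 : u * M = M) (h2 : u * mQ (pjL k μ) = u)
    (h3 : M * D.AC k μ w = D.AC k μ w) : M = mQ (D.gC k μ w) := by
  obtain ⟨g1, N, g2⟩ := D.gC_range w
  have hp : mQ (pjL k μ) * mQ (pjL k μ) = mQ (pjL k μ) := by
    rw [mQ_prj, diagonal_mul_diagonal]
    congr 1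
    funext x
    split_ifs <;> simp
  have hX : IsUnit (1 + mQ (pjL k μ) * sr k (D.hw k μ w) * mQ (pjL k μ)).det :=
    unit_of_tri (r := rk) fun y x h => (D.hw_tri w y x fun e => h (by
      rw [mQ_prj, mul_diagonal, diagonal_mul, e, mul_zero, zero_mul])).1
  have h4 : u * (1 + mQ (pjL k μ) * sr k (D.hw k μ w) * mQ (pjL k μ)) = D.AC k μ w := by
    rw [← h3, ← h1, mul_assoc u, h3, AC, ← mul_assoc, mul_add, mul_add, mul_one, add_mul, h2,
      ← mul_assoc, ← mul_assoc, h2]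
  have h5 : M = D.AC k μ w *
      ((1 + mQ (pjL k μ) * sr k (D.hw k μ w) * mQ (pjL k μ))⁻¹ * M) := by
    rw [← h4, ← mul_assoc, mul_nonsing_inv_cancel_right _ _ hX, h1]
  refine proj_unique hM (D.mem_Gr.1 (D.gC_Gr w)).1.1 ?_ ?_
  · rw [g2, ← mul_assoc, h3]
  · rw [h5, ← mul_assoc, g1]

theorem exists_cell {Q : En (Fin n) k} (h : Q ∈ D.Gr k) :
    ∃ μ ∈ box (Fin n) k, ∃ w, Q = D.gC k μ w := by
  obtain ⟨h1, h2⟩ := D.mem_Gr.1 h
  obtain ⟨S, u, a1, a2, a3, a4, a5, a6⟩ := exists_ech (r := rk) rk_inj h1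
  choose μ hμ hS using fun a : Fin n => cell2_lev (fun i : Pos k => (a, i) ∈ S) fun i j e hi => by
    obtain ⟨v, v1, v2, v3⟩ := (a6 _).1 hi
    refine (a6 _).2 ⟨_, cell2_fix h2 v1, (cell2_T (y := (a, j)) (y' := (a, i)) rfl e v).trans_ne v2,
      fun y hy => ?_⟩
    rcases cell2_pred y with e1 | ⟨y', e1, e2⟩
    · exact cell2_T0 e1 v
    · rw [cell2_T e1 e2]
      refine v3 y' (rk_lt.2 ?_)
      rw [rk_lt, e2, e1] at hy
      dsimp only at hy ⊢
      rw [e, add_lt_add_iff_right, add_left_inj] at hy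
      exact hy
  have hb := mem_box.2 hμ
  let w : D.CF k μ → ℂ := fun q => blkAt (unQ u) (μ q.1.2.1 + q.1.2.2) (μ q.1.2.1) q.1.1 q.1.2.1
  have c0 : ∀ x : Fin n × Pos k, x.2.1 = μ x.1 → ∀ y, (1 + sr k (D.hw k μ w)) y x = u y x :=
    fun x hx => D.cell2_col hb (fun x y hx hy => a4 x ((hS x.1 x.2).2 hx) y ((hS y.1 y.2).2 hy))
      a5 hx
  have c1 : ∀ (d : ℕ) (x : Fin n × Pos k), x.2.1 = μ x.1 + d →
      mQ Q *ᵥ (fun y => (1 + sr k (D.hw k μ w)) y x) = fun y => (1 + sr k (D.hw k μ w)) y x := by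
    intro d
    induction d with
    | zero =>
      intro x hx
      rw [funext (c0 x (by simpa using hx))]
      exact funext fun y => congrFun (congrFun a1 y) x
    | succ d ih =>
      intro x hx
      have := (hμ x.1).1
      obtain ⟨x', e1, e2⟩ := (cell2_pred x).resolve_left (by omega)
      rw [cell2_shift _ e1 e2]
      exact cell2_fix h2 (ih x' (by rw [← e1]; omega))
  have e := D.cell2_eq (u := u) w h1.1 a2 ?_ ?_
  · exact ⟨μ, hb, w, funext fun z => congrFun (congrFun e z.1) z.2⟩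
  · ext y x
    rw [mQ_prj, mul_diagonal]
    split_ifs with hx
    · exact mul_one _
    · rw [mul_zero, a3 y x fun e => hx ((hS x.1 x.2).1 e)]
  · ext y x
    rw [AC, ← mul_assoc, mQ_prj, mul_diagonal, mul_diagonal]
    split_ifs with hx
    · exact congrArg (· * 1) (congrFun (c1 (x.2.1 - μ x.1).toNat x (by omega)) y)
    · rw [mul_zero, mul_zero]

theorem kap_gC (w : D.CF k μ → ℂ) (c : I) (r : ℤ) :
    kapS (mQ (D.gC k μ w)) (D.SS k c r) = D.dd k μ c r := by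
  obtain ⟨h1, M, h2⟩ := D.gC_range w
  rw [AC, mQ_prj] at h1 h2
  refine kap_of (T := fun x : Fin n × Pos k => μ x.1 ≤ x.2.1)
    (unit_of_tri (r := rk) fun y x h => (D.hw_tri w y x h).1) (fun y x h hx => ?_) h1 h2
  by_cases e : y = x
  · exact e ▸ hx
  · rw [Matrix.add_apply, one_apply_ne e, zero_add] at h
    obtain ⟨a1, a2⟩ := D.hw_tri w y x h
    obtain ⟨-, a3, a4⟩ := Finset.mem_filter.1 hx
    exact Finset.mem_filter.2 ⟨Finset.mem_univ _, a2.trans a3, a4.trans a1.le⟩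

theorem cell_disj (h : μ ∈ box (Fin n) k) (h' : μ' ∈ box (Fin n) k) {w : D.CF k μ → ℂ}
    {w' : D.CF k μ' → ℂ} (e : D.gC k μ w = D.gC k μ' w') : μ = μ' := by
  have h1 : ∀ c r, D.dd k μ c r = D.dd k μ' c r := fun c r => by
    rw [← D.kap_gC w, e, D.kap_gC]
  exact DLe.antisymm D h h' (fun c r => (h1 c r).le) fun c r => (h1 c r).ge

theorem isClosed_YC (h : D.Up k Λ) : IsClosed (D.YC k Λ) := by
  have e : D.YC k Λ = ⋃ μ ∈ Λ, D.Gr k ∩
      ⋂ (c : I) (r : ℤ), mQ ⁻¹' {M | D.dd k μ c r ≤ kapS M (D.SS k c r)} := by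
    ext Q
    simp only [mem_iUnion, mem_inter_iff, mem_iInter, mem_preimage, mem_ofPred_eq, exists_prop]
    constructor
    · rintro ⟨μ, hμ, w, rfl⟩
      exact ⟨μ, hμ, D.gC_Gr w, fun c r => (D.kap_gC w c r).ge⟩
    · rintro ⟨μ, hμ, h1, h2⟩
      obtain ⟨μ', h3, w, rfl⟩ := D.exists_cell h1
      exact ⟨μ', h.2 μ hμ μ' h3 fun c r => (h2 c r).trans_eq (D.kap_gC w c r), w, rfl⟩
  have hc : Continuous (mQ : En (Fin n) k → _) :=
    continuous_matrix fun y x => continuous_apply (y, x)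
  rw [e]
  exact isClosed_biUnion_finset fun μ _ => (D.isClosed_Gr k).inter
    (isClosed_iInter fun c => isClosed_iInter fun r => (isClosed_kap _ _).preimage hc)

theorem inv_YC : ((D.aE k).res D.ic).Inv (D.YC k Λ) := by
  rintro g _ ⟨μ, hμ, w, rfl⟩
  exact ⟨μ, hμ, _, (D.gC_eqv g w).symm⟩

theorem prj_YC (h : Λ ⊆ box (Fin n) k) (hμ : μ ∈ box (Fin n) k) : pjL k μ ∈ D.YC k Λ ↔ μ ∈ Λ :=
  ⟨fun ⟨μ', h1, w, e⟩ => D.cell_disj hμ (h h1) (D.gC_zero.trans e) ▸ h1,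
    fun h1 => ⟨μ, h1, 0, D.gC_zero.symm⟩⟩

theorem isClosed_ZC (h : D.Up k Λ) : IsClosed (D.ZC k Λ) :=
  (D.isClosed_RR k).inter ((D.isClosed_YC h).preimage continuous_fst)

theorem inv_ZC : (D.tX k).Inv (D.ZC k Λ) :=
  fun g z hz => ⟨D.inv_RR k (D.ic g) z hz.1, D.inv_YC g z.1 hz.2⟩

theorem ZC_box : D.ZC k (box (Fin n) k) = D.RR k :=
  Set.ext fun z => ⟨fun h => h.1, fun h => ⟨h, D.exists_cell (D.mem_RR.1 h).1⟩⟩

theorem ZC_empty : D.ZC k ∅ = ∅ :=
  eq_empty_of_forall_notMem fun z ⟨_, μ, h, _⟩ => Finset.notMem_empty μ h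

theorem ZC_mono {Λ' : Finset (Fin n → ℤ)} (h : Λ ⊆ Λ') : D.ZC k Λ ⊆ D.ZC k Λ' :=
  fun z ⟨h1, μ, h2, h3⟩ => ⟨h1, μ, h h2, h3⟩

/-- every triple lies in the component of a coweight -/
theorem comp_cover (ν : I → ℤ) {z : En (Fin n) k × D.NO} (h : z ∈ D.RR k) :
    ∃ μ ∈ box (Fin n) k, z ∈ D.comp ν k (∑ a, ν (D.col a) * μ a) (∑ p, D.xm μ p) := by
  obtain ⟨μ, h1, w, e⟩ := D.exists_cell (D.mem_RR.1 h).1
  exact ⟨μ, h1, D.mem_comp_of h fun i => e ▸ D.ind_gC h1 w i⟩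

theorem prj_comp (ν : I → ℤ) (h : μ ∈ box (Fin n) k) {m c : ℤ}
    (e : (pjL k μ, 0) ∈ D.comp ν k m c) : ∑ a, ν (D.col a) * μ a = m ∧ ∑ p, D.xm μ p = c :=
  D.comp_disj (D.mem_comp_of e.1 fun i => Finset.sum_congr rfl fun a _ => ind_prj h a) e

end Qv

end Pool.Agent.Work.MP_849ab0_ag.G
end
end

-- merged part: Pool.Agent.Work.MP_849ab0_ag.G.C.CFib
section
/-!
Task C-CFib. The trivialisation over a cell as a fibre bundle in the sense of the API.
Plan: the inverse sends ((w, s), v) to (w, gC w + v ∘ inl, ci w (s + the extension by zero of v ∘ inr along QF)); use cj_ci, ci_cj, continuous_cj, continuous_ci.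
Equivariance: gC_eqv, cj_eqv, aE_ic, aO_ic. bij_U2: gp_bij_pt with the homotopy (t, x) ↦ (1 - t) • x and the fixed point 0.
-/

noncomputable section

set_option linter.unusedSectionVars false
set_option linter.unusedVariables false

namespace Pool.Agent.Work.MP_849ab0_ag.G

open Set Topology Matrix

variable {n : ℕ} {I E κ : Type} [Fintype I] [DecidableEq I] [Fintype E]
  [Fintype κ] [DecidableEq κ] (D : Qv I (Fin n) E κ) {k : ℕ} {μ : Fin n → ℤ}

namespace Qv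

theorem pC_U2 (y : (D.CF k μ → ℂ) × En (Fin n) k × D.NO) : D.pC k μ y ∈ D.U2 k μ := by
  intro q hq
  exact if_pos hq

theorem cfib_closed : IsClosed (D.U2 k μ) := by
  have : D.U2 k μ = ⋂ q ∈ D.QF k μ, {x | x.2 q.2 q.1 = 0} := Set.ext fun _ => by simp [U2]
  rw [this]
  exact isClosed_biInter fun q _ => isClosed_eq (by fun_prop) continuous_const

theorem cfib_act (g : (TT (Fin n) κ).H) (x : (D.CF k μ → ℂ) × D.NO) (m : ℕ) (p : D.Wt) :
    ((D.a2 k μ).act g x).2 m p = ch (D.wN p m) g * x.2 m p := D.aO_ic g x.2 m p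

theorem pr_U2 : (D.a2 k μ).Pr (D.U2 k μ) univ :=
  (D.a2 k μ).pr_of D.cfib_closed.isLocallyClosed
    (fun g x hx q hq => by rw [cfib_act, hx q hq, mul_zero]) isClosed_univ fun _ _ _ => trivial

theorem cfib_cj : Continuous fun y : (D.CF k μ → ℂ) × En (Fin n) k × D.NO =>
    D.cj k μ y.1 y.2.2 :=
  D.continuous_cj.comp' (f := fun y : (D.CF k μ → ℂ) × En (Fin n) k × D.NO => (y.1, y.2.2))
    (continuous_fst.prodMk continuous_snd.snd)

theorem cfib_cj_eqv (g : (TT (Fin n) κ).H) (y : (D.CF k μ → ℂ) × En (Fin n) k × D.NO) (m : ℕ)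
    (p : D.Wt) : D.cj k μ ((D.bY k μ).act g y).1 ((D.bY k μ).act g y).2.2 m p =
      ch (D.wN p m) g * D.cj k μ y.1 y.2.2 m p :=
  (congrFun (congrFun (D.cj_eqv g y.1 y.2.2) m) p).trans (D.aO_ic g _ m p)

theorem cfib_cF : Continuous (D.FC k μ) := continuous_pi fun j => by
  cases j with
  | inl z =>
    exact (continuous_apply z).comp (continuous_snd.fst.sub (D.continuous_gC.comp continuous_fst))
  | inr q => exact (continuous_apply q.1.1).comp ((continuous_apply q.1.2).comp D.cfib_cj)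

theorem cfib_eF (g : (TT (Fin n) κ).H) (y : (D.CF k μ → ℂ) × En (Fin n) k × D.NO) :
    D.FC k μ ((D.bY k μ).act g y) = (wr (D.wV k μ)).act g (D.FC k μ y) := by
  funext j
  cases j with
  | inl z =>
    change (D.aE k).act (D.ic g) y.2.1 z - D.gC k μ ((wr (D.wC k μ)).act g y.1) z =
      ch (D.wE k z) g * (y.2.1 z - D.gC k μ y.1 z)
    rw [gC_eqv, aE_ic, aE_ic, wr_act, wr_act, mul_sub]
  | inr q => exact D.cfib_cj_eqv g y _ _

open Classical in
/-- the series with the missing coordinates put back -/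
def cfib_t (z : ((D.CF k μ → ℂ) × D.NO) ×
    (((Fin n × Pos k) × (Fin n × Pos k)) ⊕ D.QF k μ → ℂ)) : D.NO :=
  fun m p => if h : (p, m) ∈ D.QF k μ then z.2 (.inr ⟨_, h⟩) else z.1.2 m p

theorem cfib_ct : Continuous (D.cfib_t (k := k) (μ := μ)) :=
  continuous_pi fun m => continuous_pi fun p => by
    by_cases h : (p, m) ∈ D.QF k μ
    · simp only [cfib_t, dif_pos h]
      fun_prop
    · simp only [cfib_t, dif_neg h]
      fun_prop

theorem cfib_ci : Continuous fun z => D.ci k μ z.1.1 (D.cfib_t z) :=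
  D.continuous_ci.comp' (f := fun z : ((D.CF k μ → ℂ) × D.NO) × _ => (z.1.1, D.cfib_t z))
    (continuous_fst.fst.prodMk D.cfib_ct)

theorem cfib_cp : Continuous (D.pC k μ) :=
  continuous_fst.prodMk (continuous_pi fun m => continuous_pi fun p => by
    by_cases h : (p, m) ∈ D.QF k μ
    · simp only [if_pos h]
      exact continuous_const
    · simp only [if_neg h]
      exact (continuous_apply p).comp ((continuous_apply m).comp D.cfib_cj))

theorem cfib_ep (g : (TT (Fin n) κ).H) (y : (D.CF k μ → ℂ) × En (Fin n) k × D.NO) :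
    D.pC k μ ((D.bY k μ).act g y) = (D.a2 k μ).act g (D.pC k μ y) := by
  refine Prod.ext rfl (funext fun m => funext fun p => ?_)
  rw [cfib_act]
  by_cases h : (p, m) ∈ D.QF k μ
  · simp only [pC, if_pos h, mul_zero]
  · simp only [pC, if_neg h]
    exact D.cfib_cj_eqv g y m p

theorem fib_cell (h : μ ∈ box (Fin n) k) :
    Fib (D.a2 k μ) (D.bY k μ) (wr (D.wV k μ)) (D.pC k μ) (D.FC k μ) (D.U2 k μ) := by
  refine ⟨D.cfib_cp, D.cfib_ep, D.cfib_cF.continuousOn, fun g y _ => D.cfib_eF g y,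
    fun z => (z.1.1, D.gC k μ z.1.1 + z.2 ∘ Sum.inl, D.ci k μ z.1.1 (D.cfib_t z)),
    Continuous.continuousOn ?_, fun x hx v => ⟨?_, ?_⟩, fun y _ => ?_⟩
  · exact continuous_fst.fst.prodMk (((D.continuous_gC.comp continuous_fst.fst).add
      (continuous_pi fun j => (continuous_apply (Sum.inl j)).comp continuous_snd)).prodMk
        D.cfib_ci)
  · refine Prod.ext rfl (funext fun m => funext fun p => ?_)
    by_cases hq : (p, m) ∈ D.QF k μ
    · simp only [pC, if_pos hq]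
      exact (hx _ hq).symm
    · simp only [pC, if_neg hq, D.cj_ci h, cfib_t, dif_neg hq]
  · funext j
    cases j with
    | inl z => exact add_sub_cancel_left _ _
    | inr q =>
      simp only [FC, Sum.elim_inr, D.cj_ci h]
      exact dif_pos q.2
  · refine Prod.ext rfl (Prod.ext (funext fun z => add_sub_cancel _ _) ?_)
    have e : D.cfib_t (D.pC k μ y, D.FC k μ y) = D.cj k μ y.1 y.2.2 := by
      funext m p
      by_cases hq : (p, m) ∈ D.QF k μ
      · exact dif_pos hq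
      · exact (dif_neg hq).trans (if_neg hq)
    change D.ci k μ y.1 (D.cfib_t (D.pC k μ y, D.FC k μ y)) = y.2.2
    rw [e, D.ci_cj h]

theorem continuous_FC : Continuous (D.FC k μ) :=
  D.cfib_cF

theorem FC_eqv (g : (TT (Fin n) κ).H) (y : (D.CF k μ → ℂ) × En (Fin n) k × D.NO) :
    D.FC k μ ((D.bY k μ).act g y) = (wr (D.wV k μ)).act g (D.FC k μ y) :=
  D.cfib_eF g y

theorem FC_eq_zero (h : μ ∈ box (Fin n) k) (y : (D.CF k μ → ℂ) × En (Fin n) k × D.NO) :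
    D.FC k μ y = 0 ↔ y.2.1 = D.gC k μ y.1 ∧ y.2 ∈ D.RR k := by
  obtain ⟨w, Q, s⟩ := y
  constructor
  · intro e
    obtain rfl : Q = D.gC k μ w := funext fun z => sub_eq_zero.1 (congrFun e (.inl z))
    exact ⟨rfl, (D.gC_RR h w s).2 fun q hq => congrFun e (.inr ⟨q, hq⟩)⟩
  · rintro ⟨e, hR⟩
    obtain rfl : Q = D.gC k μ w := e
    funext j
    cases j with
    | inl z => exact sub_self _
    | inr q => exact (D.gC_RR h w s).1 hR q.1 q.2

theorem FC_zero (z : En (Fin n) k × D.NO) : D.FC k μ (0, z) = D.FP k μ z := by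
  simp only [FC, FP, gC_zero, cj_zero]

theorem bij_U2 : Function.Bijective
    (gp (D.a2 k μ) id (fun _ => ()) (D.U2 k μ) univ : HPt (TT (Fin n) κ) → _) := by
  refine gp_bij_pt D.pr_U2 (x₀ := 0) (fun _ _ => rfl) (fun g => ?_)
    (F := fun t x => ((1 - t : ℝ) : ℂ) • x) (Continuous.continuousOn (by fun_prop))
    (fun t _ => ⟨D.pr_U2, D.pr_U2, Continuous.continuousOn (by fun_prop), fun g x _ => ?_,
      fun x hx q hq => ?_, fun _ _ _ => trivial⟩) (fun x _ => by simp) fun x _ => by simp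
  · exact Prod.ext (funext fun q => mul_zero _) (D.aO_zero _)
  · refine Prod.ext (funext fun q => mul_left_comm _ _ _) (funext fun m => funext fun p => ?_)
    change _ * ((D.a2 k μ).act g x).2 m p = ((D.a2 k μ).act g _).2 m p
    rw [cfib_act, cfib_act]
    exact mul_left_comm _ _ _
  · change _ * x.2 q.2 q.1 = 0
    rw [hx q hq, mul_zero]

/-- every class supported on the graph over the cell is a multiple of the Thom class -/
theorem cell_span (h : μ ∈ box (Fin n) k) (c : EH (D.bY k μ) univ (D.FC k μ ⁻¹' {0})) :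
    ∃ f, c = pm f (eul (D.bY k μ) (wr (D.wV k μ)) (D.FC k μ) univ (D.FC k μ ⁻¹' {0})) := by
  have hs := (thom_bij (D.fib_cell h) D.pr_U2).2
  rw [eq_univ_of_forall (s := D.pC k μ ⁻¹' D.U2 k μ) D.pC_U2, preimage_univ, univ_inter] at hs
  obtain ⟨x, rfl⟩ := hs c
  obtain ⟨d, rfl⟩ := (D.bij_U2 (k := k) (μ := μ)).2 x
  obtain ⟨f, rfl⟩ := pol2_bij.2 d
  refine ⟨f, ?_⟩
  dsimp only
  rw [gp_comp (ψ := id) (a'' := D.bY k μ) (gadm_pt D.pr_U2 id) ⟨Act.pr_top _, D.pr_U2, D.cfib_cp.continuousOn,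
    fun g y _ => D.cfib_ep g y, fun y _ => D.pC_U2 y, fun _ _ _ => trivial⟩ (χ := id)
    (fun _ => rfl) (k := fun _ => ()) fun _ _ => rfl]
  rfl

end Qv

end Pool.Agent.Work.MP_849ab0_ag.G
end
end
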