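import Pool.Agent.Work.MP_849ab0_ag.ZT
import Pool.Agent.Work.MP_849ab0_ag.Uni2
import Pool.Agent.Work.MP_849ab0_ag.ZLift
import Pool.Agent.Work.MP_849ab0_ag.G.QBasic
import Pool.Agent.Work.MP_849ab0_ag.G.C.Shear
import Pool.Agent.Work.MP_849ab0_ag.G.ApiI
import Pool.Agent.Work.MP_849ab0_ag.Grade

-- merged part: Pool.Agent.Work.MP_849ab0_ag.G.C.Rho
section
-- merged part: Pool.Agent.Work.MP_849ab0_ag.ZV
section
/-! All modes vanish on labels with Tits form at least two. -/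

noncomputable section

set_option linter.unusedSectionVars false

namespace Pool.Agent.Work.MP_849ab0_ag

open MvPolynomial Finset

namespace QD

section Field

variable {k n : ℕ} {E F : Type} [Fintype E] [Field F] [Algebra ℚ F] (D : QD k n E F)

theorem zv_disj {i : Fin k} {Z A : Finset (Fin n)}
    (hZ : ∀ b ∈ Z, D.col b ≠ i) (hA : ∀ a ∈ A, D.col a = i) : Disjoint Z A :=
  Finset.disjoint_left.2 fun a ha ha' => hZ a ha (hA a ha')

theorem zv_ind {Z A : Finset (Fin n)} (hd : Disjoint Z A) {l : Fin n} (hl : l ∈ Z) :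
    ind ((Z ∪ A).erase l) = ind (Z.erase l) + ind A := by
  funext a
  have h1 : a ∈ Z → a ∉ A := fun h => Finset.disjoint_left.1 hd h
  have h2 : l ∉ A := Finset.disjoint_left.1 hd hl
  simp only [ind, Pi.add_apply, mem_erase, mem_union]
  by_cases ha : a ∈ A
  · have h3 : a ∉ Z := fun h => h1 h ha
    have h4 : a ≠ l := fun h => h2 (h ▸ ha)
    simp [ha, h3, h4]
  · simp [ha]

theorem zv_gam {Z : Finset (Fin n)} (l : Fin n) : ∀ a ∉ Z, ind (Z.erase l) a = 0 := by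
  intro a ha
  simp [ind, ha]

theorem zv_cS {Z A : Finset (Fin n)} (hd : Disjoint Z A) {l : Fin n} (hl : l ∈ Z)
    {Y : Finset (Fin n × F)} {c : F}
    (hK : D.Ks (Z ∪ A) = a2 (Dl F A * C c) * D.Ks Z * ∏ a ∈ A, iP Y a)
    (π : Equiv.Perm (Fin n)) (f : Pol n F) :
    D.cS π (Z ∪ A) l f =
      cE π (ind (Z.erase l) + ind A) (a2 (Dl F A * (C c * f)) * D.Ks Z * ∏ a ∈ A, iP Y a) := by
  rw [cS, zv_ind hd hl, hK]
  congr 1
  simp only [map_mul]
  ring

theorem van_big (hf : D.DF) {i : Fin k} (hi : D.NLi i) {Z A : Finset (Fin n)}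
    (hZ : ∀ b ∈ Z, D.col b ≠ i) (hA : ∀ a ∈ A, D.col a = i) (h : D.nb i Z < A.card) :
    D.VanC (Z ∪ A) fun a => D.col a ≠ i := by
  intro π l f hl hc _
  have hd := D.zv_disj hZ hA
  have hlZ : l ∈ Z := (mem_union.1 hl).resolve_right fun h' => hc (hA l h')
  obtain ⟨Y, N, hY, hcard, hK⟩ := D.exists_roots hf hi hZ
  have hYA : ∀ y ∈ Y, y.1 ∉ A := fun y hy => Finset.disjoint_left.1 hd (hY y hy)
  have hlt : Y.card < A.card := by
    rw [← hcard] at h
    exact_mod_cast h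
  rw [D.zv_cS hd hlZ (hK A hA),
    res_all hYA π (fun a ha => D.Ks_NZ (Finset.disjoint_right.1 hd ha))
      (fun a ha => zv_gam l a (Finset.disjoint_right.1 hd ha)),
    UV_zero hlt, mul_zero, map_zero]

theorem van_refl (hf : D.DF) {i : Fin k} (hi : D.NLi i) {Z A A' : Finset (Fin n)}
    (hZ : ∀ b ∈ Z, D.col b ≠ i) (hA : ∀ a ∈ A, D.col a = i) (hA' : A' ⊆ A)
    (h : (A.card : ℤ) + A'.card = D.nb i Z) (H : D.VanC (Z ∪ A') fun _ => True) :
    D.VanC (Z ∪ A) fun a => D.col a ≠ i := by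
  have : CharZero F := algebraRat.charZero F
  intro π l f hl hc hπ
  have hd := D.zv_disj hZ hA
  have hA2 : ∀ a ∈ A', D.col a = i := fun a ha => hA a (hA' ha)
  have hd' := D.zv_disj hZ hA2
  have hlZ : l ∈ Z := (mem_union.1 hl).resolve_right fun h' => hc (hA l h')
  obtain ⟨Y, N, hY, hcard, hK⟩ := D.exists_roots hf hi hZ
  have hc' : A.card + A'.card = Y.card := by
    rw [← hcard] at h
    exact_mod_cast h
  rw [D.zv_cS hd hlZ (hK A hA)]
  refine reflect hA' hd hY hc' (fun a ha => D.Ks_NZ ha) (D.Ks_AF Z) (zv_gam l) hlZ ?_ π _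
    fun b hb => hπ b (mem_union_left _ hb)
  intro π' g hπ'
  have h1 := H π' l (C ((-1 : F) ^ (N * A'.card)) * g) (mem_union_left _ hlZ) trivial hπ'
  rw [D.zv_cS hd' hlZ (hK A' hA2), ← mul_assoc (C _) (C _) g, ← map_mul, ← mul_pow] at h1
  simpa using h1

theorem van_field (hf : D.DF) {S : Finset (Fin n)} (h : 2 ≤ D.qf S) :
    D.VanC S fun _ => True := by
  induction hm : S.card using Nat.strong_induction_on generalizing S with
  | _ m ih =>
    obtain ⟨i, Z, A, hi, hS, hZ, hA, hcase⟩ := D.q_refl (S := S) (by omega)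
    have hV : D.VanC S fun a => D.col a ≠ i := by
      rcases hcase with h1 | ⟨A', hA', hlt, hsum, hq⟩
      · rw [hS]
        exact D.van_big hf hi hZ hA h1
      · have hd := D.zv_disj hZ hA
        have hd' := D.zv_disj hZ fun a ha => hA a (hA' ha)
        have hlt' : (Z ∪ A').card < m := by
          rw [← hm, hS, card_union_of_disjoint hd, card_union_of_disjoint hd']
          omega
        have H := ih _ hlt' (S := Z ∪ A') (by rw [hq]; exact h) rfl
        rw [hS]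
        exact D.van_refl hf hi hZ hA hA' hsum H
    have hS1 : ∀ a, S ≠ {a} := by
      intro a ha
      have h2 := D.q_single a
      rw [← ha] at h2
      omega
    exact W.vanC_of_van D (W.van_of_vanC D hS1
      (fun a b ha hb => W.rr_NLi D hi (not_not.1 ha) (not_not.1 hb)) hV)

end Field

variable {k n : ℕ} {E R : Type} [Fintype E] [CommRing R] [IsDomain R] [Algebra ℚ R]
  (D : QD k n E R)

theorem van_uni {S : Finset (Fin n)} (h : 2 ≤ D.qf S) :
    (W.vd D.uni0).Van (Set.range some) (S.image some) := by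
  have : CharZero R := algebraRat.charZero R
  let K := FractionRing (MvPolynomial E R)
  let φ : MvPolynomial E R →+* K := algebraMap _ _
  have hφ : Function.Injective φ := IsFractionRing.injective _ _
  have : CharZero K := charZero_of_injective_ringHom hφ
  let : Algebra ℚ K := DivisionRing.toRatAlgebra
  have hf : (D.uni0.map φ).DF := by
    intro e e' he
    change φ (X e) = φ (X e') ∨ φ (X e) = -φ (X e') at he
    rcases he with he | he
    · exact X_injective (hφ he)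
    · rw [← map_neg] at he
      have h1 := hφ he
      by_contra hne
      classical
      have h2 := congrArg (coeff (Finsupp.single e 1)) h1
      have h3 : ¬(Finsupp.single e' 1 : E →₀ ℕ) = Finsupp.single e 1 := fun h3 =>
        hne (Finsupp.single_left_injective one_ne_zero h3).symm
      rw [coeff_neg, coeff_X, coeff_X, if_pos rfl, if_neg h3, neg_zero] at h2
      exact one_ne_zero h2
  have hV : (D.uni0.map φ).VanC S fun _ => True := (D.uni0.map φ).van_field hf h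
  have hS1 : ∀ a, S ≠ {a} := by
    intro a ha
    have h2 := D.q_single a
    rw [← ha] at h2
    omega
  exact W.van_of_vanC D.uni0 hS1 (fun _ _ ha _ => absurd trivial ha) (D.uni0.VanC_of_map hφ hV)

end QD

end Pool.Agent.Work.MP_849ab0_ag
end
end

-- merged part: Pool.Agent.Work.MP_849ab0_ag.ZMain
section
/-! Assembly for regular characters. -/

noncomputable section

set_option linter.unusedSectionVars false

namespace Pool.Agent.Work.MP_849ab0_ag

open MvPolynomial Finset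
open scoped Polynomial

namespace QD

variable {k n : ℕ} {E R : Type} [Fintype E] [CommRing R] [IsDomain R] [Algebra ℚ R]
  (D : QD k n E R)

/-- regular character -/
def Reg (ν : Fin k → ℤ) : Prop :=
  ∀ S : Finset (Fin n), S.Nonempty → D.qf S ≤ 1 → ∑ a ∈ S, ν (D.col a) ≠ 0

theorem neg_uni {ν : Fin k → ℤ} (hν : D.Reg ν) (S : Finset (Fin n)) (hS : S.Nonempty)
    (h0 : D.dg ν (ind S) = 0) (g : Pol n (MvPolynomial E R)[X]) :
    D.uni.mon D.uni.Om (-ind S) g ∈ D.uni.RI ν := by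
  induction hN : S.card using Nat.strong_induction_on generalizing S g with
  | _ N ih =>
    subst hN
    have hq : 2 ≤ D.qf S := by
      by_contra hq
      exact hν S hS (by omega) ((D.dg_ind ν S).symm.trans h0)
    have hl : D.uni0.LG := fun e _ => X_ne_zero e
    obtain ⟨G, h1, h2⟩ := exists_grd2 E R
    have h3 : D.uni.mon D.uni.Om (-ind S) g ∈ D.uni.PS ν S.card :=
      D.uni0.zlift hl rfl G h1 h2 (ν := ν) h0 (W.negsq D.uni0 hl rfl hS (D.van_uni hq)) g
    refine (AddSubgroup.closure_le _).2 ?_ h3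
    rintro x ⟨U, p, y, hU, hc, hd, hy, rfl⟩
    rcases hd.eq_or_lt with hd | hd
    · exact D.uni.RI_mul (ih _ hc U hU hd.symm p rfl) hy
    · exact AddSubgroup.subset_closure ⟨_, p, y, neg_ind_min U,
        by rw [D.uni.dg_neg]; exact neg_neg_of_pos hd, hy, rfl⟩

theorem ZMain_op {ν : Fin k → ℤ} (hν : D.Reg ν) : D.op.Reg (-ν) := by
  intro S hS hq
  have h1 : D.op.qf S = D.qf S := by
    unfold qf
    congr 1
    exact sum_congr rfl fun e _ => mul_comm _ _
  have h2 := hν S hS (h1 ▸ hq)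
  simp only [Pi.neg_apply, sum_neg_distrib]
  exact neg_ne_zero.2 h2

theorem HZ_uni {ν : Fin k → ℤ} (hν : D.Reg ν) : D.uni.HZ ν := by
  refine D.uni.HZ_of_neg (fun S hS h0 g => D.neg_uni hν S hS h0 g) fun S hS h0 g => ?_
  refine D.op.neg_uni (D.ZMain_op hν) S hS ?_ g
  have h1 : D.dg ν (ind S) = 0 := h0
  rw [dg_ind] at h1 ⊢
  simp only [Pi.neg_apply, sum_neg_distrib]
  exact neg_eq_zero.2 h1

theorem stmt3 {ν : Fin k → ℤ} (hν : D.Reg ν) :
    (∀ a ∈ D.Alg (FractionRing (Pol n R)), D.Hom _ ν 0 a →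
      ∃ f ∈ Inv R D.col, a - D.cst _ f ∈ D.JJ _ ν) ∧
    ∀ f ∈ Inv R D.col, (D.cst (FractionRing (Pol n R)) f ∈ D.JJ _ ν ↔ f ∈ D.IU ν) := by
  have : CharZero (MvPolynomial E R) := algebraRat.charZero _
  let s : R →+* (MvPolynomial E R)[X] := Polynomial.C.comp C
  have hχ : ∀ r, D.ev (s r) = r := fun r => by simp [s, ev]
  have hl : D.uni.GN := D.uni0.up_GN fun e _ => X_ne_zero e
  have hX : D.uni.h ≠ 0 := Polynomial.X_ne_zero
  have hZ := D.HZ_uni hν
  have hdec := D.uni.dec_JJ3 hl hX hZ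
  have hmain : ∀ {p : Pol n (MvPolynomial E R)[X]}, p ∈ Inv _ D.col →
      (D.uni.cst D.uni.Om p ∈ D.uni.JJ D.uni.Om ν ↔ p ∈ D.uni.IT ν) := fun {p} hp => by
    rw [← D.uni.IT_per ν]
    exact (D.uni.cst_JJ_per hl hX hZ p).trans (D.main_uni (gen_per D.col ν) hp)
  suffices h : (∀ a ∈ (D.uni.map D.ev).Alg (FractionRing (Pol n R)),
      (D.uni.map D.ev).Hom _ ν 0 a → ∃ f ∈ Inv R D.col,
        a - (D.uni.map D.ev).cst _ f ∈ (D.uni.map D.ev).JJ _ ν) ∧
      ∀ f ∈ Inv R D.col, ((D.uni.map D.ev).cst (FractionRing (Pol n R)) f ∈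
        (D.uni.map D.ev).JJ _ ν ↔ f ∈ D.IU ν) by
    rwa [D.uni_map] at h
  refine ⟨fun a ha h0 => ?_, fun p hp => ⟨fun h => ?_, ?_⟩⟩
  · obtain ⟨x, hx, h1, rfl⟩ := D.uni.lift_hom D.ev s hχ ha h0
    obtain ⟨p, hp, -, h2⟩ := hdec ⊤ (fun _ _ _ _ => trivial) x hx h1 fun _ => trivial
    exact ⟨_, map_mem_Inv D.ev hp, by
      simpa only [map_sub, spOp_cst] using D.uni.spOp_JJ D.ev h2⟩
  · obtain ⟨x, hx, h1⟩ := D.uni.lift_JJ D.ev s hχ h
    have hp' := map_mem_Inv s hp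
    obtain ⟨p', hp'', h2, h3⟩ := hdec _ (D.uni.sp_ker2 D.ev)
      (D.uni.cst _ (MvPolynomial.map s p) - x)
      (sub_mem (D.uni.cst_mem hp') (D.uni.JJ_mem hx).1)
      ((D.uni.hom_cst ν _).sub D.uni (D.uni.JJ_mem hx).2) fun μ => by
        rw [RingHom.mem_ker, ← co_spOp, map_sub, h1, spOp_cst, map_map_sec D.ev _ hχ, sub_self,
          co_zero]
    rw [RingHom.mem_ker, sp_al] at h2
    have h5 := (map_eq_zero_iff _ (IsFractionRing.injective _ _)).1 h2
    have h4 : D.uni.cst D.uni.Om (MvPolynomial.map s p - p') ∈ D.uni.JJ _ ν := by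
      have := add_mem h3 hx
      simp only [← cstHom_apply, map_sub] at this ⊢
      rwa [sub_right_comm, sub_add_cancel] at this
    refine ⟨_, (hmain (sub_mem hp' hp'')).1 h4, ?_⟩
    rw [map_sub, h5, map_map_sec D.ev _ hχ, sub_zero]
  · rintro ⟨q, hq, rfl⟩
    simpa only [spOp_cst] using D.uni.spOp_JJ D.ev ((hmain hq.1).2 hq)

end QD

end Pool.Agent.Work.MP_849ab0_ag
end
end

-- merged part: Pool.Agent.Work.MP_849ab0_ag.G.C.Rho
section
/-!
Task C-Rho. The gauge cocycle and the Weyl group action on the field of fractions.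
Plan: a factor χ + j ħ only occurs when χ(μ) ≠ 0, so source and target point differ and the linear form is nonzero
(evaluate, or look at a coefficient). rho_add: weight by weight; for a sequence f of nonzero elements put
γ m = (∏ j ∈ Ico m 0, f j) / ∏ j ∈ Ico 0 m, f j; then γ (m + 1) = γ m / f m for all integers m, so
γ (m + m') = γ m * γ' m' with f' j = f (j + m) by induction on m'; use sh_chi, act_alg. If source = target all m are 0.
-/

noncomputable section

set_option linter.unusedSectionVars false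
set_option linter.unusedVariables false

namespace Pool.Agent.Work.MP_849ab0_ag

open MvPolynomial Finset

theorem rho_cons {A : Type} [CommRing A] (f : ℤ → A) {a b c : ℤ} (h1 : a ≤ b) (h2 : b ≤ c) :
    ∏ j ∈ Ico a c, f j = (∏ j ∈ Ico a b, f j) * ∏ j ∈ Ico b c, f j := by
  rw [← prod_union (Ico_disjoint_Ico_consecutive a b c), Ico_union_Ico_eq_Ico h1 h2]

theorem rho_emp {A : Type} [CommRing A] (f : ℤ → A) {a b : ℤ} (h : b ≤ a) :
    ∏ j ∈ Ico a b, f j = 1 := by
  rw [Ico_eq_empty (not_lt.2 h), prod_empty]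

theorem rho_tri {A : Type} [CommRing A] (f : ℤ → A) (a b c : ℤ) :
    (∏ j ∈ Ico c a, f j) * ((∏ j ∈ Ico a b, f j) * ∏ j ∈ Ico b c, f j) =
      (∏ j ∈ Ico b a, f j) * (∏ j ∈ Ico c b, f j) * ∏ j ∈ Ico a c, f j := by
  rcases le_total a b with h1 | h1 <;> rcases le_total b c with h2 | h2 <;>
    rcases le_total a c with h3 | h3
  · rw [rho_emp f h1, rho_emp f h2, rho_emp f h3, rho_cons f h1 h2]; ring
  · obtain rfl : a = c := le_antisymm (h1.trans h2) h3
    obtain rfl : a = b := le_antisymm h1 h2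
    ring
  · rw [rho_emp f h1, rho_emp f h2, rho_emp f h3, rho_cons f h3 h2]; ring
  · rw [rho_emp f h1, rho_emp f h2, rho_emp f h3, rho_cons f h3 h1]; ring
  · rw [rho_emp f h1, rho_emp f h2, rho_emp f h3, rho_cons f h1 h3]; ring
  · rw [rho_emp f h1, rho_emp f h2, rho_emp f h3, rho_cons f h2 h3]; ring
  · obtain rfl : a = c := le_antisymm h3 (h2.trans h1)
    obtain rfl : a = b := le_antisymm h2 h1
    ring
  · rw [rho_emp f h1, rho_emp f h2, rho_emp f h3, rho_cons f h2 h1]; ring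

theorem rho_shift {A : Type} [CommRing A] (f : ℤ → A) (m m' : ℤ) :
    (∏ j ∈ Ico (m + m') 0, f j) * ((∏ j ∈ Ico 0 m, f j) * ∏ j ∈ Ico 0 m', f (j + m)) =
      (∏ j ∈ Ico m 0, f j) * (∏ j ∈ Ico m' 0, f (j + m)) * ∏ j ∈ Ico 0 (m + m'), f j := by
  rw [prod_Ico_add' f, prod_Ico_add' f, zero_add, add_comm m' m]
  exact rho_tri f 0 m (m + m')

namespace QD

variable {k n : ℕ} {E R : Type} [Fintype E] [CommRing R] [IsDomain R] [Algebra ℚ R]
  (D : QD k n E R)

/-- the field of fractions -/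
abbrev Fr (n : ℕ) (R : Type) [CommRing R] : Type := FractionRing (Pol n R)

/-- the inclusion of the polynomials -/
abbrev ak (n : ℕ) (R : Type) [CommRing R] : Pol n R →+* Fr n R := algebraMap _ _

/-- product of `χ + j ħ` over weights `χ` and `0 ≤ j < χ(μ)` -/
def mp (μ : Fin n → ℤ) : Pol n R :=
  ∏ p ∈ D.Wt, ∏ j ∈ Ico 0 (ov μ p.2.2 - ov μ p.2.1), (D.chi p + (j : Pol n R) * C D.h)

/-- the gauge cocycle -/
def rho (μ : Fin n → ℤ) : Fr n R := ak n R (D.mm μ) / ak n R (D.mp μ)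

/-- permutations of the variables -/
def rnK (w : Equiv.Perm (Fin n)) : Fr n R →+* Fr n R :=
  (IsFractionRing.ringEquivOfRingEquiv (renameEquiv R w).toRingEquiv).toRingHom

theorem rnK_ak (w : Equiv.Perm (Fin n)) (f : Pol n R) :
    rnK w (ak n R f) = ak n R (rename w f) :=
  IsFractionRing.ringEquivOfRingEquiv_algebraMap (renameEquiv R w).toRingEquiv f

theorem rnK_mul (w w' : Equiv.Perm (Fin n)) (c : Fr n R) : rnK (w * w') c = rnK w (rnK w' c) := by
  have : (rnK (w * w') : Fr n R →+* Fr n R) = (rnK w).comp (rnK w') :=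
    IsLocalization.ringHom_ext (nonZeroDivisors (Pol n R)) (RingHom.ext fun f => by
      change rnK (w * w') (ak n R f) = rnK w (rnK w' (ak n R f))
      rw [rnK_ak, rnK_ak, rnK_ak, rename_rename]; rfl)
  exact RingHom.congr_fun this c

theorem rnK_one (c : Fr n R) : rnK 1 c = c := by
  have : (rnK 1 : Fr n R →+* Fr n R) = RingHom.id _ :=
    IsLocalization.ringHom_ext (nonZeroDivisors (Pol n R)) (RingHom.ext fun f => by
      change rnK 1 (ak n R f) = ak n R f
      rw [rnK_ak]; simp)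
  exact RingHom.congr_fun this c

theorem ak_inj : Function.Injective (ak n R) := IsFractionRing.injective _ _

theorem mp_ne (μ : Fin n → ℤ) : D.mp μ ≠ 0 := by
  refine prod_ne_zero_iff.2 fun p hp => prod_ne_zero_iff.2 fun j hj e => ?_
  have hne : p.2.2 ≠ p.2.1 := fun e' => by
    rw [e', sub_self, Ico_self] at hj
    exact notMem_empty _ hj
  have h := isUnit_form (RingHom.id R) 1 hne (D.t p.1 + j * D.h)
  rw [C_add, ← add_assoc, C_mul, map_intCast] at h
  change IsUnit (expand _ _ (D.chi p + _)) at h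
  rw [e, map_zero] at h
  exact not_isUnit_zero h

theorem mm_ne (μ : Fin n → ℤ) : D.mm μ ≠ 0 := D.mm_ne2 μ

theorem ee_ne (μ : Fin n → ℤ) : D.ee μ ≠ 0 := D.RS_ne_zero (D.ee_mem μ)

theorem mp_zero : D.mp 0 = 1 := by
  refine prod_eq_one fun p _ => ?_
  have : ∀ o : Option (Fin n), ov (0 : Fin n → ℤ) o = 0 := by intro o; cases o <;> simp
  simp [this]

theorem rename_mp (w : stab D.col) (μ : Fin n → ℤ) :
    rename w.1 (D.mp μ) = D.mp (μ ∘ w.1.symm) := by
  simp only [mp, map_prod, map_add, map_mul, map_intCast, rename_C, rename_chi]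
  refine prod_equiv (wtPerm w.1) (D.wtPerm_mem w) ?_
  intro p _
  simp [wtPerm, ov_perm]

theorem rho_zero : D.rho 0 = 1 := by
  rw [rho, mm_zero, mp_zero, map_one, div_one]

theorem rho_ne (μ : Fin n → ℤ) : D.rho μ ≠ 0 :=
  div_ne_zero ((map_ne_zero_iff _ ak_inj).2 (D.mm_ne μ)) ((map_ne_zero_iff _ ak_inj).2 (D.mp_ne μ))

theorem rho_mp_add (μ ν : Fin n → ℤ) : D.mp (μ + ν) = ∏ p ∈ D.Wt,
    ∏ j ∈ Ico 0 (ov μ p.2.2 - ov μ p.2.1 + (ov ν p.2.2 - ov ν p.2.1)),
      (D.chi p + (j : Pol n R) * C D.h) :=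
  prod_congr rfl fun p _ => by rw [ov_add, ov_add, add_sub_add_comm]

theorem rho_sh_mp (μ ν : Fin n → ℤ) : D.sh μ (D.mp ν) = ∏ p ∈ D.Wt,
    ∏ j ∈ Ico 0 (ov ν p.2.2 - ov ν p.2.1),
      (D.chi p + ((j + (ov μ p.2.2 - ov μ p.2.1) : ℤ) : Pol n R) * C D.h) := by
  simp only [mp, map_prod, map_add, map_mul, map_intCast, sh_chi, sh_C, Int.cast_add]
  exact prod_congr rfl fun p _ => prod_congr rfl fun j _ => by ring

theorem rho_pol (μ ν : Fin n → ℤ) : D.mm (μ + ν) * (D.mp μ * D.sh μ (D.mp ν)) =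
    D.mm μ * D.sh μ (D.mm ν) * D.mp (μ + ν) := by
  rw [good_mm, good_sh_mm, rho_mp_add, rho_sh_mp, mm, mp, ← prod_mul_distrib, ← prod_mul_distrib,
    ← prod_mul_distrib, ← prod_mul_distrib]
  exact prod_congr rfl fun p _ =>
    rho_shift (fun j : ℤ => D.chi p + (j : Pol n R) * C D.h) _ _

theorem rho_sh_ne (μ : Fin n → ℤ) {f : Pol n R} (h : f ≠ 0) : D.sh μ f ≠ 0 := fun e => by
  apply h
  rw [← D.sh_zero' f, ← neg_add_cancel μ, ← sh_sh, e, map_zero]

theorem rho_add (μ ν : Fin n → ℤ) : D.rho (μ + ν) = D.rho μ * D.act _ μ (D.rho ν) := by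
  have h1 := (map_ne_zero_iff _ ak_inj).2 (D.mp_ne (μ + ν))
  have h2 := (map_ne_zero_iff _ ak_inj).2 (mul_ne_zero (D.mp_ne μ) (D.rho_sh_ne μ (D.mp_ne ν)))
  rw [rho, rho, rho, map_div₀, act_alg, act_alg, div_mul_div_comm, ← map_mul, ← map_mul,
    div_eq_div_iff h1 h2, ← map_mul, ← map_mul, rho_pol]

theorem rnK_rho (w : stab D.col) (μ : Fin n → ℤ) : rnK w.1 (D.rho μ) = D.rho (μ ∘ w.1.symm) := by
  rw [rho, rho, map_div₀, rnK_ak, rnK_ak, rename_mm, rename_mp]

theorem sh_ne (μ : Fin n → ℤ) {f : Pol n R} (h : f ≠ 0) : D.sh μ f ≠ 0 := D.rho_sh_ne μ h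

theorem co_mon_K (μ ν : Fin n → ℤ) (g : Pol n R) : D.co (D.mon (Fr n R) μ g) ν =
    ∑ w : stab D.col, if μ ∘ w.1.symm = ν then
      rnK w.1 (ak n R (g * D.mm μ) / ak n R (D.ee μ)) else 0 := by
  rw [mon_eq, co_sum]
  refine sum_congr rfl fun w _ => ?_
  rw [co_sg, map_div₀, rnK_ak, rnK_ak, map_mul (rename _), rename_mm, rename_ee,
    Ring.inverse_eq_inv', div_eq_mul_inv]

end QD

end Pool.Agent.Work.MP_849ab0_ag
end
end
end

-- merged part: Pool.Agent.Work.MP_849ab0_ag.G.C.Zs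
section
-- merged part: Pool.Agent.Work.MP_849ab0_ag.G.QAlg
section
/-!
The link with the algebraic model.
-/

noncomputable section

set_option linter.unusedSectionVars false
set_option linter.unusedVariables false

namespace Pool.Agent.Work.MP_849ab0_ag.G

open Set Topology Matrix

variable {k n : ℕ} {E κ : Type} [Fintype E] [Fintype κ] [DecidableEq κ]
  (D : Qv (Fin k) (Fin n) E κ)

namespace Qv

/-- the algebraic data -/
abbrev toQD : QD k n E (MvPolynomial κ ℂ) :=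
  ⟨D.col, D.src, D.tgt, fun e => lf ℂ (D.t e), lf ℂ D.h⟩

/-- the field of coefficients -/
abbrev KF (n : ℕ) (κ : Type) : Type := FractionRing (MvPolynomial (Fin n) (MvPolynomial κ ℂ))

theorem reg_toQD {ν : Fin k → ℤ} (h : D.Reg ν) : D.toQD.Reg ν := h

theorem lam_mem (c : D.HP) : D.lam c ∈ Inv (MvPolynomial κ ℂ) D.col :=
  fun w hw => (D.mem_range_lam _).1 ⟨c, rfl⟩ w hw

theorem exists_lam {f : MvPolynomial (Fin n) (MvPolynomial κ ℂ)}
    (h : f ∈ Inv (MvPolynomial κ ℂ) D.col) : ∃ c, D.lam c = f :=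
  (D.mem_range_lam _).2 fun w hw => h w hw

end Qv

end Pool.Agent.Work.MP_849ab0_ag.G
end
end

-- merged part: Pool.Agent.Work.MP_849ab0_ag.G.C.Base2
section
/-!
Coulomb side: cohomological definitions.
-/

noncomputable section

set_option linter.unusedSectionVars false
set_option linter.unusedVariables false

namespace Pool.Agent.Work.MP_849ab0_ag.G

open Set Topology Matrix

variable {P κ : Type} [Fintype P] [DecidableEq P] [Fintype κ] [DecidableEq κ]

section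

variable {X : Type} [TopologicalSpace X] {J J₀ J₁ : Type} [Fintype J] [Fintype J₀] [Fintype J₁]

/-- the action of polynomials -/
def pm {a : Act (TT P κ) X} {U Z : Set X} (f : PL P κ) : EH a U Z →ₗ[ℂ] EH a U Z :=
  sm (pol2 P κ f)

/-- the class of the fixed point `p` -/
def ptl (w : J → WT P κ) (p : J → ℂ) (O S : Set (J → ℂ)) : EH (wr w) O S :=
  eul (wr w) (wr w) (fun d => d - p) O S

/-- finite sets of fixed points -/
structure Fx (w : J → WT P κ) (S : Set (J → ℂ)) : Prop where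
  fin : S.Finite
  fix : ∀ p ∈ S, ∀ g, (wr w).act g p = p

/-- the coefficient of the class of `p` -/
def ptc (w : J → WT P κ) (p : J → ℂ) {S : Set (J → ℂ)} (x : EH (wr w) univ S) : PL P κ :=
  Classical.epsilon fun f => gp (wr w) id id (S \ {p})ᶜ {p} x = pm f (ptl w p (S \ {p})ᶜ {p})

open Classical in
/-- the product of the weights outside the range of `e` -/
def eo (w : J → WT P κ) (e : J₀ → J) : PL P κ := ∏ j with j ∉ range e, lw (w j)

/-- admissible push-forwards -/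
structure PAdm {G : Gp} (a : Act G X) (ρ : Act G (J → ℂ)) (ρ' : Act G (J₁ → ℂ))
    (F : (J → ℂ) × X → J₁ → ℂ) (U : Set X) (Z : Set ((J → ℂ) × X)) (Z' : Set ((J₁ → ℂ) × X)) :
    Prop where
  pu : a.Pr U univ
  pz : (ρ.prod a).Pr (univ ×ˢ U) Z
  pz' : (ρ'.prod a).Pr (univ ×ˢ U) Z'
  cont : Continuous F
  eqv : ∀ g y, F ((ρ.prod a).act g y) = ρ'.act g (F y)
  maps : ∀ y ∈ Z, y.2 ∈ U → (F y, y.2) ∈ Z'
  bdd : ∃ R : ℝ, ∀ y ∈ Z, y.2 ∈ U → nsq y.1 ≤ R

end

/-- the shift of the variables -/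
def shP (h : κ → ℤ) (l : P → ℤ) : PL P κ →ₐ[MvPolynomial κ ℂ] PL P κ :=
  MvPolynomial.aeval fun a => MvPolynomial.X a + (l a : PL P κ) * MvPolynomial.C (lf ℂ h)

/-- homogeneous polynomials -/
def Hm (d : ℕ) (f : PL P κ) : Prop := ((MvPolynomial.sumAlgEquiv ℂ P κ).symm f).IsHomogeneous d

namespace Qv

variable {I E : Type} [Fintype I] [DecidableEq I] [Fintype E] (D : Qv I P E κ)

/-- restriction to the torus -/
def rT (k : ℕ) (Z : Set (En P k × D.NO)) : D.HR k Z →ₗ[ℂ] EH (D.tX k) univ Z :=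
  gp (D.tX k) D.ic id univ Z

/-- restriction to the fixed part -/
def locT (k : ℕ) {Z : Set (En P k × D.NO)} :
    EH (D.tX k) univ Z →ₗ[ℂ] EH (wr (D.wD k)) univ (PD P k) :=
  gp (wr (D.wD k)) id (D.jD k) univ (PD P k)

/-- the coefficient at `t ^ μ` of a torus equivariant class -/
def ctT (k : ℕ) (μ : P → ℤ) {Z : Set (En P k × D.NO)} (y : EH (D.tX k) univ Z) : PL P κ :=
  if μ ∈ box P k then ptc (D.wD k) (pD k μ) (D.locT k y) else 0

/-- the coefficient at `t ^ μ` -/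
def ct (k : ℕ) (μ : P → ℤ) {Z : Set (En P k × D.NO)} (a : D.HR k Z) : PL P κ :=
  D.ctT k μ (D.rT k Z a)

/-- the Euler class of the moving part of `En P k` -/
def EE (k : ℕ) : PL P κ := eo (D.wE k) (eD k)

/-- the Euler class of `N[[t]] / (N[[t]] ∩ t ^ μ N[[t]])` -/
def mq (k : ℕ) (μ : P → ℤ) : PL P κ := ∏ q : D.QF k μ, lw (D.wN q.1.1 q.1.2)

/-- the class of the fibre over `t ^ μ` -/
def ptX (k : ℕ) (μ : P → ℤ) : EH (D.tX k) univ (D.RR k) :=
  eul (D.tX k) (wr (D.wV k μ)) (D.FP k μ) univ (D.RR k)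

/-- the twisted second factor at the lattice `t ^ l` -/
def bt (k k' : ℕ) (l : P → ℤ) (b : D.HR k' (D.RR k')) :
    EH (wr (D.wD (k + k'))) univ (PD P (k + k')) :=
  gp (wr (D.wD (k + k'))) D.ic (fun d => (pjL k l, D.jD (k + k') d)) univ (PD P (k + k'))
    (D.twist k k' b)

end Qv

namespace Qv

variable {n : ℕ} {I E : Type} [Fintype I] [DecidableEq I] [Fintype E] (D : Qv I (Fin n) E κ)

/-- the Euler class of the cell -/
def eC (k : ℕ) (μ : Fin n → ℤ) : PL (Fin n) κ := ∏ q : D.CF k μ, lw (D.wC k μ q)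

/-- the action on the total space of the trivialisation over a cell -/
abbrev bY (k : ℕ) (μ : Fin n → ℤ) : Act (TT (Fin n) κ) ((D.CF k μ → ℂ) × En (Fin n) k × D.NO) :=
  (wr (D.wC k μ)).prod (D.tX k)

/-- the action on its base -/
abbrev a2 (k : ℕ) (μ : Fin n → ℤ) : Act (TT (Fin n) κ) ((D.CF k μ → ℂ) × D.NO) :=
  (wr (D.wC k μ)).prod (D.aO.res D.ic)

end Qv

namespace Qv

variable {v n : ℕ} {E : Type} [Fintype E] (D : Qv (Fin v) (Fin n) E κ)

/-- the normalising factor -/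
def cf (k : ℕ) (μ : Fin n → ℤ) : KF n κ := D.toQD.rho μ / QD.ak n _ (D.EE k)

/-- the difference operator of a class -/
def opc (k : ℕ) {Z : Set (En (Fin n) k × D.NO)} (a : D.HR k Z) : D.toQD.Op (KF n κ) :=
  ∑ μ ∈ box (Fin n) k, D.toQD.sg μ (QD.ak n _ (D.ct k μ a) * D.cf k μ)

theorem shP_eq (l : Fin n → ℤ) (f : PL (Fin n) κ) : shP D.h l f = D.toQD.sh l f := rfl

end Qv

end Pool.Agent.Work.MP_849ab0_ag.G
end
end

-- merged part: Pool.Agent.Work.MP_849ab0_ag.G.C.Pm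
section
/-!
Task C-Pm. The polynomial action and Euler classes of diagonal representations, from the API
(ApiA sm_*, gp_sm, ApiT eul_*, intg_*, ApiG pol2_*, euc_dg2).
Plan: gpt_pol2: two ring homomorphisms out of MvPolynomial P (MvPolynomial κ ℂ) agree on X a, C (X j), C (C z);
X a = lw (single a 1, 0), C (X j) = lw (0, single j 1), pol2_lf, gpt_eu; pol2 (C (C z)) = algebraMap z (pol2_C).
eul_ex0, intg_ex0: use the equivalence J₀ ⊕ {j // j ∉ range e} ≃ J, isSum_dg, eul_sum_zero, intg_restrict, euc_dg2.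
-/

noncomputable section

set_option linter.unusedSectionVars false
set_option linter.unusedVariables false

namespace Pool.Agent.Work.MP_849ab0_ag.G

open Set Topology Matrix

variable {P κ : Type} [Fintype P] [DecidableEq P] [Fintype κ] [DecidableEq κ]
variable {X Y : Type} [TopologicalSpace X] [T3Space X] [SecondCountableTopology X]
  [TopologicalSpace Y] [T3Space Y] [SecondCountableTopology Y]
  {J J₀ J₁ J₂ : Type} [Fintype J] [Fintype J₀] [Fintype J₁] [Fintype J₂]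
  {a : Act (TT P κ) X} [a.Ok] {b : Act (TT P κ) Y} [b.Ok] {U Z U₁ Z₁ U₂ Z₂ : Set X}
  {V W W₁ : Set Y}

theorem pol2_lw (w : WT P κ) : pol2 P κ (lw w) = eu (ch w) := pol2_lf w.1 w.2

theorem euc_wr (w : J → WT P κ) : euc (wr w) = pol2 P κ (∏ j, lw (w j)) :=
  euc_dg2 (fun j => (w j).1) fun j => (w j).2

theorem pm_lf_single (R : Type) [CommRing R] (j : κ) :
    lf R (Pi.single j 1) = MvPolynomial.X j := by
  simp [lf, Pi.single_apply]

theorem pm_lf_zero (R : Type) [CommRing R] : lf R (0 : κ → ℤ) = 0 := by simp [lf]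

theorem pm_lf_add (R : Type) [CommRing R] (m m' : κ → ℤ) (c : ℤ) :
    lf R (m + c • m') = lf R m + c * lf R m' := by
  simp [lf, Finset.mul_sum, add_mul, Finset.sum_add_distrib, mul_assoc]



theorem gpt_pol2 {θ : (TT P κ).H → (TT P κ).H} [IsHom θ]
    (σ : PL P κ →ₐ[MvPolynomial κ ℂ] PL P κ) (τ : WT P κ → WT P κ)
    (h : ∀ w g, ch w (θ g) = ch (τ w) g) (h' : ∀ w, σ (lw w) = lw (τ w)) (f : PL P κ) :
    gpt θ (pol2 P κ f) = pol2 P κ (σ f) := by
  have hw : ∀ w, gpt θ (pol2 P κ (lw w)) = pol2 P κ (σ (lw w)) := fun w => by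
    rw [pol2_lw, gpt_eu (isChar_ch w), h', pol2_lw]
    exact congrArg eu (funext (h w))
  refine RingHom.congr_fun (?_ : (gpt θ).toRingHom.comp (pol2 P κ) = (pol2 P κ).comp σ.toRingHom) f
  refine MvPolynomial.ringHom_ext' (MvPolynomial.ringHom_ext (fun z => ?_) fun j => ?_) fun a => ?_
  · have e : pol2 P κ (MvPolynomial.C (algebraMap ℂ _ z)) = algebraMap ℂ _ z := by
      rw [pol2_C, AlgHom.commutes, AlgHom.commutes]
    exact ((congrArg _ e).trans ((gpt θ).commutes z)).trans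
      (e.symm.trans (congrArg _ (σ.commutes _).symm))
  · simpa [lw, pm_lf_single, pm_lf_zero] using hw (0, Pi.single j 1)
  · simpa [lw, pm_lf_single, pm_lf_zero] using hw (Pi.single a 1, 0)

theorem shP_lw (h : κ → ℤ) (l : P → ℤ) (w : WT P κ) : shP h l (lw w) = lw (shW h l w) := by
  simp only [shP, lw, shW, pm_lf_add, map_add, MvPolynomial.algHom_C, MvPolynomial.algebraMap_eq,
    map_mul, map_intCast]
  simp only [lf, map_sum, map_mul, map_intCast, MvPolynomial.aeval_X, mul_add,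
    Finset.sum_add_distrib, Int.cast_sum, Int.cast_mul, Finset.sum_mul, mul_assoc]
  ring

theorem rename_lw (σ : Equiv.Perm P) (w : WT P κ) :
    MvPolynomial.rename σ.symm (lw w) = lw (w.1 ∘ σ, w.2) := by
  simp only [lw, lf, map_add, map_sum, map_mul, map_intCast, MvPolynomial.rename_X,
    MvPolynomial.rename_C]
  rw [← Equiv.sum_comp σ]
  simp

theorem gpt_shT (h : κ → ℤ) (l : P → ℤ) (f : PL P κ) :
    gpt (shT h l) (pol2 P κ f) = pol2 P κ (shP h l f) := gpt_pol2 _ _ (ch_shT h l) (shP_lw h l) f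

theorem gpt_pmT (σ : Equiv.Perm P) (f : PL P κ) :
    gpt (pmT σ) (pol2 P κ f) = pol2 P κ (MvPolynomial.rename σ.symm f) :=
  gpt_pol2 _ (fun w => (w.1 ∘ σ, w.2)) (ch_pmT σ) (rename_lw σ) f

theorem lw_ne {w : WT P κ} (h : w.1 ≠ 0) : lw w ≠ 0 := fun e => h (funext fun a => by
  have := congrArg (MvPolynomial.pderiv a) e
  simp only [lw, lf, map_add, map_sum, MvPolynomial.pderiv_C, Derivation.leibniz, smul_eq_mul,
    Derivation.map_intCast, MvPolynomial.pderiv_X, Pi.single_apply] at this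
  simpa using this)

theorem eo_shW (h : κ → ℤ) (l : P → ℤ) (w : J → WT P κ) (e : J₀ → J) :
    eo (fun j => shW h l (w j)) e = shP h l (eo w e) := by
  simp only [eo, map_prod, shP_lw]

theorem pm_one (h : a.Pr U Z) (x : EH a U Z) : pm 1 x = x := by
  rw [pm, map_one, sm_one h]

theorem pm_mul (h : a.Pr U Z) (f g : PL P κ) (x : EH a U Z) : pm (f * g) x = pm f (pm g x) := by
  rw [pm, map_mul, sm_mul h]
  rfl

theorem pm_add (f g : PL P κ) (x : EH a U Z) : pm (f + g) x = pm f x + pm g x := by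
  rw [pm, map_add, map_add]
  rfl

theorem pm_sub (f g : PL P κ) (x : EH a U Z) : pm (f - g) x = pm f x - pm g x := by
  rw [pm, map_sub, map_sub]
  rfl

theorem pm_zero (x : EH a U Z) : pm 0 x = 0 := by
  rw [pm, map_zero, map_zero]
  rfl

theorem pm_sum {ι : Type} (s : Finset ι) (f : ι → PL P κ) (x : EH a U Z) :
    pm (∑ i ∈ s, f i) x = ∑ i ∈ s, pm (f i) x := by
  rw [pm, map_sum, map_sum, LinearMap.sum_apply]
  rfl

theorem gp_pm {θ : (TT P κ).H → (TT P κ).H} [IsHom θ] {f : Y → X} (k : GAdm b a θ f V W U Z)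
    {g g' : PL P κ} (h : gpt θ (pol2 P κ g) = pol2 P κ g') (x : EH a U Z) :
    gp b θ f V W (pm g x) = pm g' (gp b θ f V W x) := by
  rw [pm, gp_sm k, h]
  rfl

theorem gp_pm_id {f : Y → X} (k : GAdm b a id f V W U Z) (g : PL P κ) (x : EH a U Z) :
    gp b id f V W (pm g x) = pm g (gp b id f V W x) := gp_pm k (gpt_id _) x

theorem ecup_pm_left (h : ECup a U₁ Z₁ U₂ Z₂ U Z) (f : PL P κ) (x : EH a U₁ Z₁) (y : EH a U₂ Z₂) :
    ecup U Z (pm f x) y = pm f (ecup U Z x y) := ecup_sm_left h _ x y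

theorem ecup_pm_right (h : ECup a U₁ Z₁ U₂ Z₂ U Z) (f : PL P κ) (x : EH a U₁ Z₁)
    (y : EH a U₂ Z₂) : ecup U Z x (pm f y) = pm f (ecup U Z x y) :=
  ecup_sm_right h (ev_pol2 f) x y

theorem intg_pm {ρ : Act (TT P κ) (J → ℂ)} [ρ.Rep] {p : Y → X} {F : Y → J → ℂ}
    (h : IAdm a b ρ p F U Z V W) (f : PL P κ) (c : EH b V W) :
    intg a ρ p F U Z (pm f c) = pm f (intg a ρ p F U Z c) := intg_sm h _ c

theorem ex0_apply {e : J₀ → J} (he : Function.Injective e) (d : J₀ → ℂ) (j : J₀) :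
    ex0 e d (e j) = d j := he.extend_apply _ _ j

theorem ex0_out {e : J₀ → J} (d : J₀ → ℂ) {j : J} (h : j ∉ range e) : ex0 e d j = 0 :=
  Function.extend_apply' _ _ j h

theorem ex0_sub {e : J₀ → J} (he : Function.Injective e) (d d' : J₀ → ℂ) :
    ex0 e (d - d') = ex0 e d - ex0 e d' := funext fun j => by
  by_cases h : j ∈ range e
  · obtain ⟨i, rfl⟩ := h
    simp only [Pi.sub_apply, ex0_apply he]
  · simp only [Pi.sub_apply, ex0_out _ h, sub_self]

theorem ex0_inj {e : J₀ → J} (he : Function.Injective e) : Function.Injective (ex0 e) :=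
  fun d d' h => funext fun j => by rw [← ex0_apply he d, h, ex0_apply he]

theorem continuous_ex0 {e : J₀ → J} (he : Function.Injective e) : Continuous (ex0 e) :=
  continuous_pi fun j => by
    by_cases h : j ∈ range e
    · obtain ⟨i, rfl⟩ := h
      simpa only [ex0_apply he] using continuous_apply i
    · simpa only [ex0_out _ h] using continuous_const

theorem nsq_ex0 {e : J₀ → J} (he : Function.Injective e) (d : J₀ → ℂ) : nsq (ex0 e d) = nsq d :=
  (Fintype.sum_of_injective e he _ _ (fun j h => by simp [ex0_out d h])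
    fun j => by rw [ex0_apply he]).symm

theorem ex0_eqv {e : J₀ → J} (he : Function.Injective e) {w : J → WT P κ} {w₀ : J₀ → WT P κ}
    (hw : ∀ j, w₀ j = w (e j)) (g : (TT P κ).H) (d : J₀ → ℂ) :
    ex0 e ((wr w₀).act g d) = (wr w).act g (ex0 e d) := funext fun j => by
  by_cases h : j ∈ range e
  · obtain ⟨i, rfl⟩ := h
    rw [wr_act, ex0_apply he, ex0_apply he, wr_act, hw]
  · rw [wr_act, ex0_out _ h, ex0_out _ h, mul_zero]

open Classical in
theorem pm_split {e : J₀ → J} (he : Function.Injective e) {w : J → WT P κ} {w₀ : J₀ → WT P κ}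
    (hw : ∀ j, w₀ j = w (e j)) : ∃ E : J₀ ⊕ {j // j ∉ range e} ≃ J,
      IsSum (wr w) (wr w₀) (wr fun j : {j // j ∉ range e} => w j.1) E ∧
      (∀ d, ex0 e d ∘ E ∘ Sum.inl = d) ∧ (∀ d, ex0 e d ∘ E ∘ Sum.inr = 0) ∧
      euc (wr fun j : {j // j ∉ range e} => w j.1) = pol2 P κ (eo w e) := by
  refine ⟨((Equiv.ofInjective e he).sumCongr (Equiv.refl _)).trans (Equiv.sumCompl (· ∈ range e)),
    fun g v => ⟨funext fun j => ?_, rfl⟩, fun d => funext fun j => ex0_apply he d j,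
    fun d => funext fun j => ex0_out d j.2, ?_⟩
  · rw [wr_act, hw]
    rfl
  · rw [euc_wr, eo, Finset.prod_subtype (p := (· ∉ range e)) _ (by simp)]



/-- coordinates on which the map vanishes contribute their weights -/
theorem eul_ex0 {e : J₀ → J} (he : Function.Injective e) {w : J → WT P κ} {w₀ : J₀ → WT P κ}
    (hw : ∀ j, w₀ j = w (e j)) {F₀ : Y → J₀ → ℂ} (h : EAdm b (wr w₀) F₀ V W) {F : Y → J → ℂ}
    (hF : ∀ y ∈ V, F y = ex0 e (F₀ y)) :
    eul b (wr w) F V W = pm (eo w e) (eul b (wr w₀) F₀ V W) := by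
  classical
  obtain ⟨E, h1, h2, h3, h4⟩ := pm_split he hw
  rw [eul_congr h.src hF, eul_sum_zero h1 (by simpa only [h2] using h) fun y _ => h3 _, h4]
  simp only [h2]
  rfl

/-- multiplication by the class of a section, when its support is not needed -/
theorem ecup_eul {w : J → WT P κ} {F : Y → J → ℂ} (h : EAdm b (wr w) F V W₁) (hW : b.Pr V W)
    (c : EH b V W) : ecup V W c (eul b (wr w) F V W₁) = pm (∏ j, lw (w j)) c := by
  have k := gadm_id h.src hW.top subset_rfl (subset_univ _)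
  have h' := (ecup_top hW).symm
  rw [← ecup_gp_right h' k, gp_eul (F' := F) h k (fun _ _ => rfl) fun _ _ => rfl,
    eul_univ ⟨hW.top, h.tgt, h.cont, h.eqv, h.maps, fun _ _ _ => trivial⟩, euc_wr,
    ecup_sm_right h' (ev_pol2 _), ecup_eone h' (gadm_id hW hW subset_rfl inter_subset_right),
    gp_id hW]
  rfl

/-- a map without zeros has class zero -/
theorem eul_zero {G : Gp} [G.Nice] {b : Act G Y} [b.Ok] {ρ : Act G (J → ℂ)} [ρ.Rep]
    {F : Y → J → ℂ} (h : EAdm b ρ F V W) (h0 : ∀ y ∈ V, F y ≠ 0) : eul b ρ F V W = 0 := by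
  have h1 : b.Pr V ∅ := ⟨h.src.lc, h.src.inv, fun _ _ _ => id, by simp⟩
  rw [← gp_eul (F' := F) ⟨h1, h.tgt, h.cont, h.eqv, h.maps, h0⟩
    (gadm_id h1 h.src subset_rfl (by simp)) (fun _ _ => rfl) fun _ _ => rfl, eq_zero_of_disjoint h1 (inter_empty _) (eul b ρ F V ∅),
    map_zero]

theorem iadm_prod {G : Gp} [G.Nice] {a : Act G X} [a.Ok] {ρ : Act G (J → ℂ)} [ρ.Rep]
    (hU : a.Pr U Z) {V W : Set ((J → ℂ) × X)} (hW : (ρ.prod a).Pr V W) (hV : univ ×ˢ U ⊆ V)
    (hs : ∀ y ∈ W, y.2 ∈ U → y.2 ∈ Z) (hb : ∃ R : ℝ, ∀ y ∈ W, y.2 ∈ U → nsq y.1 ≤ R) :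
    IAdm a (ρ.prod a) ρ Prod.snd Prod.fst U Z V W :=
  ⟨fib_prod hU, hU, hW, fun _ h => hV ⟨trivial, h⟩, hs,
    hb.imp' (fun R _ => R) fun _ h => ⟨continuousOn_const, fun _ _ _ => rfl, h⟩⟩

/-- localisation of an integral to a coordinate subspace -/
theorem intg_ex0 {e : J₀ → J} (he : Function.Injective e) {w : J → WT P κ} {w₀ : J₀ → WT P κ}
    (hw : ∀ j, w₀ j = w (e j)) {V W : Set ((J → ℂ) × X)} {V₀ W₀ : Set ((J₀ → ℂ) × X)}
    (h : IAdm a ((wr w).prod a) (wr w) Prod.snd Prod.fst U Z V W)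
    (h₀ : IAdm a ((wr w₀).prod a) (wr w₀) Prod.snd Prod.fst U Z V₀ W₀)
    (k : GAdm ((wr w₀).prod a) ((wr w).prod a) id (fun y => (ex0 e y.1, y.2)) V₀ W₀ V W)
    (c : EH ((wr w).prod a) V W) :
    intg a (wr w₀) Prod.snd Prod.fst U Z
        (gp ((wr w₀).prod a) id (fun y => (ex0 e y.1, y.2)) V₀ W₀ c) =
      pm (eo w e) (intg a (wr w) Prod.snd Prod.fst U Z c) := by
  classical
  obtain ⟨E, h1, h2, h3, h4⟩ := pm_split he hw
  rw [intg_restrict h1 h h₀ k (fun _ _ => rfl) (fun _ _ => h2 _) fun _ _ => h3 _, h4]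
  rfl

end Pool.Agent.Work.MP_849ab0_ag.G
end
end

-- merged part: Pool.Agent.Work.MP_849ab0_ag.G.C.Zs
section
/-!
Task C-Zs. Admissibility of all the maps in the definitions of incl, twist and conv.
Plan: UF is closed (isClosed_Lp, continuous_tw, isClosed_RR) and invariant (aF_Lp, tw_eqv with Q = 0, the action fixes 0 : En P 0). Z1 is a
closed preimage. Z2 is closed because Q ranges over the compact set Gr l (IsCompact.isClosed_image style: projection along a compact factor is closed).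
Z3 is closed because γ ranges over the compact set Lp k. bij_qq: stackIso with exists_frame (surjective, g = 1), frame_unique (for g with g • qq x = qq x' replace x by (1, g) • x),
properness: the preimage of a compact K is closed and contained in a product of compact sets (images of K and Lp k).
-/

noncomputable section

set_option linter.unusedSectionVars false
set_option linter.unusedVariables false

namespace Pool.Agent.Work.MP_849ab0_ag.G

open Set Topology Matrix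

variable {I P E κ : Type} [Fintype I] [DecidableEq I] [Fintype P] [DecidableEq P] [Fintype E]
  [Fintype κ] [DecidableEq κ] (D : Qv I P E κ)

/-- the projection along a compact factor is closed -/
theorem zs_closed {A B : Type} [TopologicalSpace A] [TopologicalSpace B] {K : Set A}
    (hK : IsCompact K) {S : Set (A × B)} (hS : IsClosed S) (h : ∀ z ∈ S, z.1 ∈ K) :
    IsClosed {b | ∃ a, (a, b) ∈ S} := by
  have : CompactSpace K := isCompact_iff_compactSpace.1 hK
  have e := isClosedMap_snd_of_compactSpace (X := K) (Y := B) _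
    (hS.preimage (f := fun z : K × B => (z.1.1, z.2)) (by fun_prop))
  convert e using 1
  ext b
  exact ⟨fun ⟨a, ha⟩ => ⟨(⟨a, h _ ha⟩, b), ha, rfl⟩, fun ⟨z, hz, e⟩ => ⟨z.1.1, e ▸ hz⟩⟩

instance zs_t3 : T3Space (Matrix P P ℂ) := inferInstanceAs (T3Space (P → P → ℂ))

instance zs_sc : SecondCountableTopology (Matrix P P ℂ) :=
  inferInstanceAs (SecondCountableTopology (P → P → ℂ))

theorem zs_tw {X : Type} [TopologicalSpace X] (k l m : ℕ) {γ : X → ℤ → Matrix P P ℂ}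
    {Q : X → En P l} (h : Continuous γ) (h' : Continuous Q) :
    Continuous fun x => tw k (γ x) (Q x) m :=
  Continuous.comp (g := fun z : (ℤ → Matrix P P ℂ) × En P l => tw k z.1 z.2 m)
    (f := fun x => (γ x, Q x)) (continuous_tw k l m) (h.prodMk h')

theorem zs_cont0 (k : ℕ) : Continuous fun γ : ℤ → Matrix P P ℂ => tw k γ (0 : En P 0) k :=
  zs_tw k 0 k continuous_id continuous_const

namespace Qv

theorem zs_closed_UF (k : ℕ) : IsClosed (D.UF k) :=
  ((D.isClosed_Lp k).preimage continuous_fst).inter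
    ((D.isClosed_RR k).preimage (((zs_cont0 k).comp continuous_fst).prodMk continuous_snd))

theorem zs_tw0 (k : ℕ) (g : D.KKT.H) (z : (ℤ → Matrix P P ℂ) × D.NO) :
    tw k (D.aF.act g z).1 (0 : En P 0) k = (D.aE k).act g.2 (tw k z.1 (0 : En P 0) k) := by
  rw [← D.tw_eqv k 0 k g z 0, (Act.Rep.lin (ρ := D.aE 0) (D.p13 g)).map_zero]

theorem zs_inv_UF (k : ℕ) : D.aF.Inv (D.UF k) := fun g z hz =>
  ⟨D.aF_Lp g hz.1, by
    rw [D.zs_tw0]
    exact D.inv_RR k g.2 (tw k z.1 (0 : En P 0) k, z.2) hz.2⟩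

theorem zs_cont_adj (k l : ℕ) : Continuous fun z : En P l × (ℤ → Matrix P P ℂ) × D.NO =>
    (z.1, D.adj k z.2.1 z.2.2) :=
  continuous_fst.prodMk ((D.continuous_adj k).comp continuous_snd)

theorem zs_closed_Z1 (k l : ℕ) : IsClosed (D.Z1 k l) :=
  (D.isClosed_RR l).preimage (D.zs_cont_adj k l)

theorem zs_inv_Z1 (k l : ℕ) (g : D.KKT.H) {Q : En P l} {z : (ℤ → Matrix P P ℂ) × D.NO}
    (hz : z.1 ∈ D.Lp k) (h : (Q, z) ∈ D.Z1 k l) :
    ((D.aE l).act (D.p13 g) Q, D.aF.act g z) ∈ D.Z1 k l := by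
  change (_, D.adj k (D.aF.act g z).1 (D.aF.act g z).2) ∈ D.RR l
  rw [D.adj_eqv k g hz]
  exact D.inv_RR l (D.p13 g) (Q, D.adj k z.1 z.2) h

theorem zs_closed_Z2 (k l : ℕ) : IsClosed (D.Z2 k l) :=
  zs_closed (D.isCompact_Gr l)
    (S := {w : En P l × En P (k + l) × (ℤ → Matrix P P ℂ) × D.NO |
      (w.1, w.2.2) ∈ D.Z1 k l ∧ w.2.1 = tw k w.2.2.1 w.1 (k + l)})
    (((D.zs_closed_Z1 k l).preimage (continuous_fst.prodMk continuous_snd.snd)).inter
      (isClosed_eq continuous_snd.fst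
        (zs_tw k l (k + l) continuous_snd.snd.fst continuous_fst)))
    fun w hw => (D.mem_RR.1 hw.1).1

theorem zs_pr_U {X : Type} [TopologicalSpace X] (a : Act D.KKT X) (k : ℕ)
    {Z : Set (X × (ℤ → Matrix P P ℂ) × D.NO)} (hZ : IsClosed Z)
    (h : ∀ g, ∀ x ∈ Z, x.2 ∈ D.UF k → (a.prod D.aF).act g x ∈ Z) :
    (a.prod D.aF).Pr (univ ×ˢ D.UF k) Z :=
  ⟨(isClosed_univ.prod (D.zs_closed_UF k)).isLocallyClosed,
    fun g x hx => ⟨trivial, D.zs_inv_UF k g _ hx.2⟩, fun g x hx hz => h g x hz hx.2,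
    fun x hx => closure_minimal inter_subset_right hZ hx.2⟩

theorem zs_pr_Z1 (k l : ℕ) :
    (((D.aE l).res D.p13).prod D.aF).Pr (univ ×ˢ D.UF k) (D.Z1 k l) :=
  D.zs_pr_U _ k (D.zs_closed_Z1 k l) fun g x hx hu => D.zs_inv_Z1 k l g hu.1 hx

theorem zs_pr_Z2 (k l : ℕ) :
    (((D.aE (k + l)).res Prod.snd).prod D.aF).Pr (univ ×ˢ D.UF k) (D.Z2 k l) :=
  D.zs_pr_U _ k (D.zs_closed_Z2 k l) fun g x ⟨Q, hQ, e⟩ hu =>
    ⟨(D.aE l).act (D.p13 g) Q, D.zs_inv_Z1 k l g hu.1 hQ,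
      (congrArg ((D.aE (k + l)).act g.2) e).trans (D.tw_eqv k l (k + l) g x.2 Q).symm⟩

theorem zs_cont_qq (k l : ℕ) : Continuous (D.qq k l) :=
  ((zs_cont0 k).comp continuous_snd.fst).prodMk (continuous_fst.prodMk continuous_snd.snd)

theorem zs_qq_eqv (k l : ℕ) (g : D.KKT.H) (x : En P (k + l) × (ℤ → Matrix P P ℂ) × D.NO) :
    D.qq k l ((((D.aE (k + l)).res Prod.snd).prod D.aF).act g x) =
      (D.b3 k l).act g.2 (D.qq k l x) :=
  Prod.ext (D.zs_tw0 k g x.2) rfl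

/-- the action of the first factor -/
theorem zs_act (k l : ℕ) (u : Ub D.col) (x : En P (k + l) × (ℤ → Matrix P P ℂ) × D.NO) :
    (((D.aE (k + l)).res Prod.snd).prod D.aF).act ((u, 1) : D.KKT.H) x =
      (x.1, fun i => x.2.1 i * u.1.1ᴴ, x.2.2) := by
  refine Prod.ext ((D.aE (k + l)).act_one x.1) (Prod.ext ?_ (D.aO.act_one x.2.2))
  funext i
  change chr D.h 1 ^ i • ((1 : Matrix P P ℂ) * x.2.1 i * u.1.1ᴴ) = _
  rw [act_chr_one, _root_.one_zpow, one_smul, one_mul]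

/-- the fibres of the quotient map are orbits of the first factor -/
theorem zs_fib (k l : ℕ) {x x' : En P (k + l) × (ℤ → Matrix P P ℂ) × D.NO}
    (h : x.2.1 ∈ D.Lp k) (h' : x'.2.1 ∈ D.Lp k) (e : D.qq k l x = D.qq k l x') :
    ∃! u : Ub D.col,
      (((D.aE (k + l)).res Prod.snd).prod D.aF).act ((u, 1) : D.KKT.H) x = x' := by
  refine (existsUnique_congr fun u => ?_).1 (D.frame_unique h h' (congrArg Prod.fst e))
  rw [D.zs_act]
  exact ⟨fun m => Prod.ext (congrArg (fun z => z.2.1) e)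
      (Prod.ext (funext m).symm (congrArg (fun z => z.2.2) e)),
    fun m i => (congrFun (congrArg (fun z => z.2.1) m) i).symm⟩

theorem zs_closed_A3 (k l : ℕ) : IsClosed (D.A3 k l) :=
  (D.isClosed_RR k).preimage (continuous_fst.prodMk continuous_snd.snd)

theorem zs_inv_A3 (k l : ℕ) : (D.b3 k l).Inv (D.A3 k l) := fun g z hz => D.inv_RR k g (z.1, z.2.2) hz

theorem zs_inv_Z3 (k l : ℕ) : (D.b3 k l).Inv (D.Z3 k l) := by
  rintro g _ ⟨x, hx, rfl⟩
  exact ⟨_, ⟨(D.zs_pr_Z2 k l).invz (1, g) x hx.2 hx.1, (D.zs_pr_Z2 k l).inv (1, g) x hx.2⟩,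
    D.zs_qq_eqv k l (1, g) x⟩

theorem pr_RR (k : ℕ) : (D.aX k).Pr univ (D.RR k) :=
  Act.pr_univ _ (D.isClosed_RR k) (D.inv_RR k)

theorem pr_RR' (k : ℕ) : (D.aX k).Pr (univ ×ˢ univ) (D.RR k) := by
  rw [univ_prod_univ]
  exact D.pr_RR k

theorem pr_comp (ν : I → ℤ) (k : ℕ) (m c : ℤ) : (D.aX k).Pr univ (D.comp ν k m c) :=
  Act.pr_univ _ (D.isClosed_comp ν k m c) (D.inv_comp ν k m c)

theorem fx_PD (k : ℕ) : Fx (D.wD k) (PD P k) :=
  ⟨((box P k).finite_toSet.image (pD k)).subset fun _ ⟨μ, h, e⟩ => ⟨μ, h, e.symm⟩,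
    fun _ ⟨μ, _, e⟩ g => e ▸ D.pD_fix k μ g⟩

theorem PD_eq (k : ℕ) : PD P k = pD k '' box P k :=
  Set.ext fun _ => ⟨fun ⟨μ, h, e⟩ => ⟨μ, h, e.symm⟩, fun ⟨μ, h, e⟩ => ⟨μ, h, e.symm⟩⟩

theorem pD_injOn (k : ℕ) : InjOn (pD (P := P) k) (box P k) := fun _ h _ h' e => pD_inj h h' e

theorem jD_RR {k : ℕ} {d : DI P k → ℂ} : D.jD k d ∈ D.RR k ↔ d ∈ PD P k :=
  D.zero_mem_RR.trans D.mem_PD

theorem continuous_jD (k : ℕ) : Continuous (D.jD k) :=
  (continuous_ex0 (eD_inj k)).prodMk continuous_const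

theorem jD_eqv (k : ℕ) (g : (TT P κ).H) (d : DI P k → ℂ) :
    D.jD k ((wr (D.wD k)).act g d) = (D.tX k).act g (D.jD k d) :=
  Prod.ext ((ex0_eqv (eD_inj k) (D.wD_eq k) g d).trans (D.aE_ic k g _).symm)
    (D.aO_zero (D.ic g)).symm

theorem gadm_jD {k : ℕ} {Z : Set (En P k × D.NO)} (h : (D.tX k).Pr univ Z) (e : Z ⊆ D.RR k) :
    GAdm (wr (D.wD k)) (D.tX k) id (D.jD k) univ (PD P k) univ Z :=
  ⟨Act.pr_univ _ (D.fx_PD k).fin.isClosed fun g x hx => ((D.fx_PD k).fix x hx g).symm ▸ hx, h,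
    (D.continuous_jD k).continuousOn, fun g x _ => D.jD_eqv k g x, fun _ _ => trivial,
    fun _ _ hx => D.jD_RR.1 (e hx)⟩

theorem gadm_rT {k : ℕ} {Z : Set (En P k × D.NO)} (h : (D.aX k).Pr univ Z) :
    GAdm (D.tX k) (D.aX k) D.ic id univ Z univ Z :=
  ⟨h.res _, h, continuousOn_id, fun _ _ _ => rfl, fun _ _ => trivial, fun _ _ hx => hx⟩

theorem padm_incl (k : ℕ) : PAdm D.aO (D.aE k) (D.aE (k + 1)) (fun z => upE k z.1) univ (D.RR k)
    (D.RR (k + 1)) :=
  ⟨Act.pr_univ _ isClosed_univ fun _ _ _ => trivial, D.pr_RR' k, D.pr_RR' (k + 1),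
    (continuous_upE k).comp continuous_fst, fun g y => D.upE_eqv k g y.1,
    fun _ hy _ => D.upE_RR hy, (D.bdd_Gr k).imp fun _ h y hy _ => h _ (D.mem_RR.1 hy).1⟩

theorem pr_UF (k : ℕ) : D.aF.Pr (D.UF k) univ :=
  Act.pr_of _ (D.zs_closed_UF k).isLocallyClosed (D.zs_inv_UF k) isClosed_univ fun _ _ _ => trivial

theorem padm_tw (k l : ℕ) : PAdm D.aF ((D.aE l).res D.p13) ((D.aE (k + l)).res Prod.snd)
    (fun z => tw k z.2.1 z.1 (k + l)) (D.UF k) (D.Z1 k l) (D.Z2 k l) :=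
  ⟨D.pr_UF k, D.zs_pr_Z1 k l, D.zs_pr_Z2 k l,
    zs_tw k l (k + l) continuous_snd.fst continuous_fst,
    fun g y => D.tw_eqv k l (k + l) g y.2 y.1, fun y hy _ => ⟨y.1, hy, rfl⟩,
    (D.bdd_Gr l).imp fun _ h y hy _ => h _ (D.mem_RR.1 hy).1⟩

theorem gadm_adj (k l : ℕ) : GAdm (((D.aE l).res D.p13).prod D.aF) (D.aX l) D.p13
    (fun z => (z.1, D.adj k z.2.1 z.2.2)) (univ ×ˢ D.UF k) (D.Z1 k l) univ (D.RR l) :=
  ⟨D.zs_pr_Z1 k l, D.pr_RR l, (D.zs_cont_adj k l).continuousOn,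
    fun g x hx => Prod.ext rfl (D.adj_eqv k g hx.2.1), fun _ _ => trivial, fun _ _ hx => hx⟩

theorem isClosed_Z3 (k l : ℕ) : IsClosed (D.Z3 k l) := by
  have c : Continuous fun w : (ℤ → Matrix P P ℂ) × En P k × En P (k + l) × D.NO =>
      (w.2.2.1, w.1, w.2.2.2) := by fun_prop
  have h := zs_closed (D.isCompact_Lp k)
    (S := {w : (ℤ → Matrix P P ℂ) × En P k × En P (k + l) × D.NO |
      (w.2.2.1, w.1, w.2.2.2) ∈ D.Z2 k l ∩ univ ×ˢ D.UF k ∧ tw k w.1 (0 : En P 0) k = w.2.1})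
    ((((D.zs_closed_Z2 k l).inter (isClosed_univ.prod (D.zs_closed_UF k))).preimage c).inter
      (isClosed_eq ((zs_cont0 k).comp continuous_fst) continuous_snd.fst))
    fun w hw => hw.1.2.2.1
  convert h using 1
  ext z
  exact ⟨fun ⟨x, hx, e⟩ => e ▸ ⟨x.2.1, hx, rfl⟩,
    fun ⟨γ, hx, e⟩ => ⟨_, hx, Prod.ext e rfl⟩⟩

theorem pr_Z3 (k l : ℕ) : (D.b3 k l).Pr univ (D.Z3 k l) :=
  Act.pr_univ _ (D.isClosed_Z3 k l) (D.zs_inv_Z3 k l)

theorem pr_A3 (k l : ℕ) : (D.b3 k l).Pr univ (D.A3 k l) :=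
  Act.pr_univ _ (D.zs_closed_A3 k l) (D.zs_inv_A3 k l)

theorem pr_A3Z3 (k l : ℕ) : (D.b3 k l).Pr (D.A3 k l) (D.Z3 k l) :=
  Act.pr_of _ (D.zs_closed_A3 k l).isLocallyClosed (D.zs_inv_A3 k l) (D.isClosed_Z3 k l)
    (D.zs_inv_Z3 k l)

theorem Z3_sub {k l : ℕ} {z : En P k × En P (k + l) × D.NO} (h : z ∈ D.Z3 k l) :
    z ∈ D.A3 k l ∧ z.2 ∈ D.RR (k + l) := by
  obtain ⟨x, ⟨⟨Q, hQ, e⟩, -, hu⟩, rfl⟩ := h
  refine ⟨hu.2, ?_⟩
  change (x.1, x.2.2) ∈ _
  rw [e]
  exact D.tw_RR hu le_rfl hQ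

theorem gadm_qq (k l : ℕ) : GAdm (((D.aE (k + l)).res Prod.snd).prod D.aF) (D.b3 k l) Prod.snd
    (D.qq k l) (univ ×ˢ D.UF k) (D.Z2 k l) (D.A3 k l) (D.Z3 k l) := by
  refine ⟨D.zs_pr_Z2 k l, D.pr_A3Z3 k l, (D.zs_cont_qq k l).continuousOn,
    fun g x _ => D.zs_qq_eqv k l g x, fun x hx => hx.2.2, fun x hx ⟨x', hx', e⟩ => ?_⟩
  obtain ⟨u, hu, -⟩ := D.zs_fib k l hx'.2.2.1 hx.2.1 e
  exact hu ▸ (D.zs_pr_Z2 k l).invz _ x' hx'.2 hx'.1

theorem bij_qq (k l : ℕ) : Function.Bijective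
    (gp (((D.aE (k + l)).res Prod.snd).prod D.aF) Prod.snd (D.qq k l) (univ ×ˢ D.UF k) (D.Z2 k l) :
      EH (D.b3 k l) (D.A3 k l) (D.Z3 k l) → _) := by
  refine stackIso (D.gadm_qq k l) (fun x hx hz => ⟨x, ⟨hz, hx⟩, rfl⟩) (fun y hy => ?_)
    (fun x hx x' hx' g e => ?_) fun K _ hK => ?_
  · obtain ⟨γ, h, e⟩ := D.exists_frame (D.mem_RR.1 hy).1
    refine ⟨1, (y.2.1, γ, y.2.2), ⟨trivial, h, ?_⟩, ?_⟩
    · change (tw k γ (0 : En P 0) k, y.2.2) ∈ _
      rw [e]
      exact hy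
    · rw [Act.act_one]
      exact Prod.ext e rfl
  · have m : ∀ u : Ub D.col, (((D.aE (k + l)).res Prod.snd).prod D.aF).act ((u, g) : D.KKT.H) x =
        (((D.aE (k + l)).res Prod.snd).prod D.aF).act ((u, 1) : D.KKT.H)
          ((((D.aE (k + l)).res Prod.snd).prod D.aF).act ((1, g) : D.KKT.H) x) := fun u => by
      rw [← Act.act_mul]
      congr 1
      exact Prod.ext (mul_one u).symm (one_mul g).symm
    obtain ⟨u, hu, hv⟩ := D.zs_fib k l ((D.zs_pr_Z2 k l).inv (1, g) x hx).2.1 hx'.2.1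
      ((D.zs_qq_eqv k l (1, g) x).trans e)
    refine ⟨(u, g), ⟨rfl, (m u).trans hu⟩, ?_⟩
    rintro ⟨v, g'⟩ ⟨rfl, h⟩
    exact Prod.ext (hv v ((m v).symm.trans h)) rfl
  · refine ((hK.image continuous_snd.fst).prod
      ((D.isCompact_Lp k).prod (hK.image continuous_snd.snd))).of_isClosed_subset
      ((isClosed_univ.prod (D.zs_closed_UF k)).inter (hK.isClosed.preimage (D.zs_cont_qq k l)))
      fun x hx => ⟨⟨_, hx.2, rfl⟩, hx.1.2.1, ⟨_, hx.2, rfl⟩⟩

theorem gadm_13 (k l : ℕ) : GAdm (D.b3 k l) (D.aX k) id (fun z => (z.1, z.2.2)) univ (D.A3 k l)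
    univ (D.RR k) :=
  ⟨D.pr_A3 k l, D.pr_RR k, (continuous_fst.prodMk continuous_snd.snd).continuousOn,
    fun _ _ _ => rfl, fun _ _ => trivial, fun _ _ hx => hx⟩

theorem ecup_conv (k l : ℕ) :
    ECup (D.b3 k l) univ (D.A3 k l) (D.A3 k l) (D.Z3 k l) univ (D.Z3 k l) :=
  ⟨D.pr_A3 k l, D.pr_A3Z3 k l, D.pr_Z3 k l,
    fun x _ => (em (x ∈ D.A3 k l)).elim Or.inr fun h => Or.inl ⟨trivial, h⟩,
    fun _ _ => Or.inl trivial,
    fun x hx => (em (x ∈ D.A3 k l)).elim (fun h => Or.inr ⟨h, hx.2⟩) fun h => Or.inl ⟨trivial, h⟩⟩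

theorem iadm_conv (k l : ℕ) : IAdm (D.aX (k + l)) (D.b3 k l) (D.aE k) Prod.snd Prod.fst univ
    (D.RR (k + l)) univ (D.Z3 k l) :=
  iadm_prod (D.pr_RR (k + l)) (D.pr_Z3 k l) (subset_univ _) (fun _ hy _ => (D.Z3_sub hy).2)
    ((D.bdd_Gr k).imp fun _ h y hy _ => h _ (D.mem_RR.1 (D.Z3_sub hy).1).1)

end Qv

end Pool.Agent.Work.MP_849ab0_ag.G
end
end
end

-- merged part: Pool.Agent.Work.MP_849ab0_ag.G.C.Comb
section
/-!
Task C-Comb. Combinatorics of the closure order DLe.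
Plan: rk (a, i) = n i - a, so dd k μ c (rk (a, i)) - dd k μ c (rk (a, i) + 1) is the indicator of μ a ≤ i
(c = col a): DLe is antisymmetric on the box. exists_erase: take μ minimal in Λ' \ Λ.
up_erase_lex: let μ' ∈ S with DLe μ' l; show μ' = l. (1) dd k μ c (n i - (n - 1)) = sum over a of colour c of
k - max (μ a) i for -k ≤ i ≤ k is invariant under stab. Let μ'' be the lexicographically largest translate of μ'
(it is Dom by dom_of_max, so is l, and toLex μ'' ≤ toLex l). If μ'' ≠ l let a be the first difference,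
μ'' a < l a, i = l a - 1: the sum of max (μ'' b) i over colour col a is smaller than that of l, contradiction.
(2) So μ' is a translate of l; if μ' ≠ l let a be the first difference, μ' a < l a (Dom.lex_le), i = μ' a:
dd at r = n i - a is dd at level i + 1 (equal for both) plus the number of b ≤ a of the colour with
μ b ≤ i, which is positive for μ' and zero for l, contradiction.
-/

noncomputable section

set_option linter.unusedSectionVars false
set_option linter.unusedVariables false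

namespace Pool.Agent.Work.MP_849ab0_ag.G

open Set Topology Matrix

variable {n : ℕ} {I E κ : Type} [Fintype I] [DecidableEq I] [Fintype E]
  [Fintype κ] [DecidableEq κ] (D : Qv I (Fin n) E κ) {k : ℕ}

namespace Qv

theorem DLe.refl (μ : Fin n → ℤ) : D.DLe k μ μ := fun _ _ => le_rfl

theorem DLe.trans {μ μ' μ'' : Fin n → ℤ} (h : D.DLe k μ μ') (h' : D.DLe k μ' μ'') :
    D.DLe k μ μ'' := fun c r => (h c r).trans (h' c r)

theorem comb_thr (a b : Fin n) (i j : ℤ) :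
    (n : ℤ) * i - (a : ℕ) ≤ n * j - (b : ℕ) ↔ (if b ≤ a then i else i + 1) ≤ j := by
  have ha : ((a : ℕ) : ℤ) < n := by exact_mod_cast a.2
  have hb : ((b : ℕ) : ℤ) < n := by exact_mod_cast b.2
  have ha0 : (0 : ℤ) ≤ (a : ℕ) := Int.natCast_nonneg _
  have hb0 : (0 : ℤ) ≤ (b : ℕ) := Int.natCast_nonneg _
  have hn : (0 : ℤ) ≤ n := Int.natCast_nonneg _
  rcases lt_trichotomy i j with c | rfl | c
  · have := mul_le_mul_of_nonneg_left (show i + 1 ≤ j from c) hn
    rw [mul_add, mul_one] at this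
    split_ifs <;> omega
  · split_ifs with c
    · have : (b : ℕ) ≤ a := c
      omega
    · have : (a : ℕ) < b := not_le.1 c
      omega
  · have := mul_le_mul_of_nonneg_left (show j + 1 ≤ i from c) hn
    rw [mul_add, mul_one] at this
    split_ifs <;> omega

theorem comb_inj {x y : Fin n × Pos k} (h : rk x = rk y) : x = y := by
  have h1 := (comb_thr x.1 y.1 x.2.1 y.2.1).1 h.le
  have h2 := (comb_thr y.1 x.1 y.2.1 x.2.1).1 h.ge
  have e : x.2.1 = y.2.1 := by
    split_ifs at h1 h2 <;> omega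
  refine Prod.ext (Fin.ext ?_) (Subtype.ext e)
  unfold rk at h
  rw [e] at h
  omega

theorem comb_step (μ : Fin n → ℤ) (x : Fin n × Pos k) : D.dd k μ (D.col x.1) (rk x) =
    D.dd k μ (D.col x.1) (rk x + 1) + if μ x.1 ≤ x.2.1 then 1 else 0 := by
  have e : D.SS k (D.col x.1) (rk x) = insert x (D.SS k (D.col x.1) (rk x + 1)) := by
    ext y
    simp only [SS, Finset.mem_filter, Finset.mem_univ, true_and, Finset.mem_insert]
    constructor
    · rintro ⟨h1, h2⟩
      rcases h2.eq_or_lt with h3 | h3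
      · exact Or.inl (comb_inj h3).symm
      · exact Or.inr ⟨h1, h3⟩
    · rintro (rfl | ⟨h1, h2⟩)
      · exact ⟨rfl, le_rfl⟩
      · exact ⟨h1, by omega⟩
  rw [dd, dd, e, Finset.filter_insert]
  split_ifs
  · refine Finset.card_insert_of_notMem fun h => ?_
    have := (Finset.mem_filter.1 (Finset.mem_filter.1 h).1).2.2
    omega
  · rfl

theorem DLe.antisymm {μ μ' : Fin n → ℤ} (hμ : μ ∈ box (Fin n) k) (hμ' : μ' ∈ box (Fin n) k)
    (h : D.DLe k μ μ') (h' : D.DLe k μ' μ) : μ = μ' := by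
  have key : ∀ {ν ν' : Fin n → ℤ}, ν ∈ box (Fin n) k → ν' ∈ box (Fin n) k → D.DLe k ν ν' →
      D.DLe k ν' ν → ∀ a, ν' a ≤ ν a := by
    intro ν ν' hν hν' g g' a
    by_contra hlt
    have b1 := mem_box.1 hν a
    have b2 := mem_box.1 hν' a
    let x : Fin n × Pos k := (a, ⟨ν a, Finset.mem_Ico.2 ⟨b1.1, by omega⟩⟩)
    have e1 := D.comb_step ν x
    have e2 := D.comb_step ν' x
    rw [if_pos (show ν x.1 ≤ x.2.1 from le_rfl)] at e1
    rw [if_neg (show ¬ ν' x.1 ≤ x.2.1 from hlt)] at e2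
    have := g (D.col x.1) (rk x)
    have := g' (D.col x.1) (rk x + 1)
    omega
  exact funext fun a => le_antisymm (key hμ' hμ h' h a) (key hμ hμ' h h' a)

theorem up_box : D.Up k (box (Fin n) k) := ⟨subset_rfl, fun _ _ _ h _ => h⟩

theorem up_empty : D.Up k ∅ := ⟨Finset.empty_subset _, fun _ h => absurd h (Finset.notMem_empty _)⟩

theorem exists_erase {Λ Λ' : Finset (Fin n → ℤ)} (h : D.Up k Λ) (h' : D.Up k Λ') (e : Λ ⊆ Λ')
    (hne : Λ ≠ Λ') : ∃ μ ∈ Λ', μ ∉ Λ ∧ D.Up k (Λ'.erase μ) := by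
  obtain ⟨μ, hμ, hmin⟩ := Finset.exists_minimalFor (fun μ c r => D.dd k μ c r) (Λ' \ Λ)
    (Finset.sdiff_nonempty.2 fun g => hne (e.antisymm g))
  obtain ⟨m1, m2⟩ := Finset.mem_sdiff.1 hμ
  refine ⟨μ, m1, m2, (Finset.erase_subset _ _).trans h'.1, fun ν hν ν' hν' g => ?_⟩
  obtain ⟨n1, n2⟩ := Finset.mem_erase.1 hν
  refine Finset.mem_erase.2 ⟨?_, h'.2 ν n2 ν' hν' g⟩
  rintro rfl
  by_cases c : ν ∈ Λ
  · exact m2 (h.2 ν c _ hν' g)
  · exact n1 (DLe.antisymm D (h'.1 n2) hν' g (hmin (Finset.mem_sdiff.2 ⟨n2, c⟩) g))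

/-- the sum of the thresholds over one colour -/
def combG (μ : Fin n → ℤ) (c : I) (t : Fin n → ℤ) : ℤ :=
  ∑ b, if D.col b = c then max (μ b) (t b) else 0

theorem comb_dd {μ : Fin n → ℤ} (hμ : μ ∈ box (Fin n) k) (c : I) (a : Fin n) {i : ℤ}
    (hi : i < k) : (D.dd k μ c (n * i - (a : ℕ)) : ℤ) =
      (∑ b, if D.col b = c then (k : ℤ) else 0) - D.combG μ c fun b => if b ≤ a then i else i + 1 := by
  rw [dd, SS, Finset.filter_filter, Finset.card_filter, Fintype.sum_prod_type, Nat.cast_sum, combG,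
    ← Finset.sum_sub_distrib]
  refine Finset.sum_congr rfl fun b _ => ?_
  by_cases hc : D.col b = c
  · have hb := mem_box.1 hμ b
    have e : ∀ j : Pos k, ((D.col b = c ∧ (n : ℤ) * i - (a : ℕ) ≤ rk (b, j)) ∧ μ b ≤ j.1) ↔
        max (μ b) (if b ≤ a then i else i + 1) ≤ j.1 := fun j => by
      rw [rk, comb_thr, max_le_iff]
      exact ⟨fun g => ⟨g.2, g.1.2⟩, fun g => ⟨⟨hc, g.2⟩, g.1⟩⟩
    simp only [e, if_pos hc]
    generalize ht : max (μ b) (if b ≤ a then i else i + 1) = t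
    have t1 : -(k : ℤ) ≤ t := ht ▸ hb.1.trans (le_max_left _ _)
    have t2 : t ≤ k := ht ▸ max_le hb.2 (by split_ifs <;> omega)
    rw [Finset.sum_coe_sort (Finset.Ico (-(k : ℤ)) k) fun j => if t ≤ j then 1 else 0,
      ← Finset.card_filter]
    have e2 : (Finset.Ico (-(k : ℤ)) k).filter (fun j => t ≤ j) = Finset.Ico t k := by
      ext j
      simp only [Finset.mem_filter, Finset.mem_Ico]
      omega
    rw [e2, Int.card_Ico, Int.toNat_of_nonneg (by omega)]
  · simp [hc]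

theorem comb_le {μ l : Fin n → ℤ} (hμ : μ ∈ box (Fin n) k) (hl : l ∈ box (Fin n) k)
    (h : D.DLe k μ l) (c : I) (a : Fin n) {i : ℤ} (hi : i < k) :
    (D.combG l c fun b => if b ≤ a then i else i + 1) ≤
      D.combG μ c fun b => if b ≤ a then i else i + 1 := by
  have h1 := D.comb_dd hμ c a hi
  have h2 := D.comb_dd hl c a hi
  have h3 := h c (n * i - (a : ℕ))
  omega

theorem comb_inv (μ : Fin n → ℤ) (w : stab D.col) (c : I) (i : ℤ) :
    (D.combG (μ ∘ w.1.symm) c fun _ => i) = D.combG μ c fun _ => i := by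
  unfold combG
  rw [← Equiv.sum_comp w.1.symm fun b => if D.col b = c then max (μ b) i else 0]
  exact Finset.sum_congr rfl fun b _ => by rw [stab_symm w b]; rfl

theorem comb_key {S : Finset (Fin n → ℤ)} (hS : S ⊆ box (Fin n) k)
    (hw : ∀ μ ∈ S, ∀ w : stab D.col, μ ∘ w.1.symm ∈ S) {l : Fin n → ℤ} (hl : l ∈ S)
    (hm : ∀ μ ∈ S, toLex μ ≤ toLex l) {μ : Fin n → ℤ} (hμ : μ ∈ S) (h : D.DLe k μ l) : μ = l := by
  obtain ⟨w, -, hmax⟩ := Finset.exists_max_image Finset.univ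
    (fun w : stab D.col => toLex (μ ∘ w.1.symm)) ⟨1, Finset.mem_univ _⟩
  have hd : Dom D.col (μ ∘ w.1.symm) := dom_of_max fun v => hmax (v * w) (Finset.mem_univ _)
  have e : μ ∘ w.1.symm = l := by
    by_contra ne
    obtain ⟨a, h1, h2⟩ := (hm _ (hw μ hμ w)).lt_of_ne fun q => ne (toLex.injective q)
    change ∀ j, j < a → (μ ∘ w.1.symm) j = l j at h1
    change (μ ∘ w.1.symm) a < l a at h2
    have z : ∀ b : Fin n, b ≤ (⟨n - 1, by have := a.2; omega⟩ : Fin n) := fun b => by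
      have := b.2
      exact Fin.le_def.2 (by simp only; omega)
    have h3 := D.comb_le (hS hμ) (hS hl) h (D.col a) ⟨n - 1, by have := a.2; omega⟩ (i := l a - 1)
      (by have := (mem_box.1 (hS hl) a).2; omega)
    simp only [z, if_true] at h3
    rw [← D.comb_inv μ w] at h3
    refine absurd h3 (not_le.2 (Finset.sum_lt_sum (fun b _ => ?_) ⟨a, Finset.mem_univ _, ?_⟩))
    · beta_reduce
      split_ifs with hc
      · rcases lt_trichotomy b a with q | rfl | q
        · rw [h1 b q]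
        · exact max_le_max h2.le le_rfl
        · have := hd a b q hc.symm
          exact max_le (le_trans (by omega) (le_max_right _ _)) (le_max_right _ _)
      · exact le_rfl
    · beta_reduce
      rw [if_pos rfl, if_pos rfl]
      exact lt_of_lt_of_le (max_lt h2 (by omega)) (le_max_left _ _)
  by_contra ne
  obtain ⟨a, h1, h2⟩ := (hm _ hμ).lt_of_ne fun q => ne (toLex.injective q)
  change μ a < l a at h2
  have h3 := D.comb_le (hS hμ) (hS hl) h (D.col a) a (i := μ a)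
    (by have := (mem_box.1 (hS hl) a).2; omega)
  have h4 := D.comb_inv μ w (D.col a) (μ a + 1)
  rw [e] at h4 hd
  have h5 : (D.combG l (D.col a) fun _ => μ a + 1) ≤
      D.combG l (D.col a) fun b => if b ≤ a then μ a else μ a + 1 := by
    refine Finset.sum_le_sum fun b _ => ?_
    beta_reduce
    split_ifs with hc q
    · have : l a ≤ l b := by
        rcases q.eq_or_lt with rfl | q'
        · exact le_rfl
        · exact hd b a q' hc
      exact max_le (le_max_left _ _) (le_trans (by omega) (le_max_left _ _))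
    · exact le_rfl
    · exact le_rfl
  have h6 : (D.combG μ (D.col a) fun b => if b ≤ a then μ a else μ a + 1) <
      D.combG μ (D.col a) fun _ => μ a + 1 := by
    refine Finset.sum_lt_sum (fun b _ => ?_) ⟨a, Finset.mem_univ _, ?_⟩
    · beta_reduce
      split_ifs
      · exact max_le_max le_rfl (by omega)
      · exact le_rfl
      · exact le_rfl
    · simp
  omega

/-- a lexicographically largest element of an invariant set is minimal for the closure order -/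
theorem up_erase_lex {S : Finset (Fin n → ℤ)} (hS : S ⊆ box (Fin n) k)
    (hw : ∀ μ ∈ S, ∀ w : stab D.col, μ ∘ w.1.symm ∈ S) {l : Fin n → ℤ} (hl : l ∈ S)
    (hm : ∀ μ ∈ S, toLex μ ≤ toLex l) :
    ∃ Λ, S ⊆ Λ ∧ D.Up k Λ ∧ D.Up k (Λ.erase l) := by
  classical
  refine ⟨(box (Fin n) k).filter fun μ => ∃ s ∈ S, D.DLe k s μ,
    fun s hs => Finset.mem_filter.2 ⟨hS hs, s, hs, DLe.refl D s⟩,
    ⟨Finset.filter_subset _ _, fun μ hμ μ' hμ' g => ?_⟩,
    (Finset.erase_subset _ _).trans (Finset.filter_subset _ _), fun μ hμ μ' hμ' g => ?_⟩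
  · obtain ⟨-, s, hs, g'⟩ := Finset.mem_filter.1 hμ
    exact Finset.mem_filter.2 ⟨hμ', s, hs, DLe.trans D g' g⟩
  · obtain ⟨n1, n2⟩ := Finset.mem_erase.1 hμ
    obtain ⟨n3, s, hs, g'⟩ := Finset.mem_filter.1 n2
    refine Finset.mem_erase.2 ⟨?_, Finset.mem_filter.2 ⟨hμ', s, hs, DLe.trans D g' g⟩⟩
    rintro rfl
    obtain rfl := D.comb_key hS hw hl hm hs (DLe.trans D g' g)
    exact n1 (DLe.antisymm D n3 hμ' g g')

end Qv

end Pool.Agent.Work.MP_849ab0_ag.G
end
end
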